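import Mathlib

set_option autoImplicit false

namespace Pool.Agent.H50

/-- Termwise differentiation of an everywhere convergent power series. -/
theorem hasDerivAt_powSeries {𝕜 : Type*} [RCLike 𝕜] (a : ℕ → 𝕜)
    (ha : ∀ R : ℝ, 0 ≤ R → Summable (fun n : ℕ => ‖a n‖ * R ^ n)) (z : 𝕜) :
    HasDerivAt (fun w : 𝕜 => ∑' n : ℕ, a n * w ^ n)
      (∑' n : ℕ, ((n : 𝕜) + 1) * a (n + 1) * z ^ n) z := by
  have hsum : ∀ w : 𝕜, Summable (fun n : ℕ => a n * w ^ n) := by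
    intro w
    refine Summable.of_norm ?_
    simpa [norm_mul, norm_pow] using ha ‖w‖ (norm_nonneg w)
  set R : ℝ := ‖z‖ + 1 with hR
  have hR1 : 1 ≤ R := by
    have := norm_nonneg z
    linarith
  have hR0 : 0 ≤ R := by linarith
  have hu : Summable (fun n : ℕ => ‖a n‖ * (2 * R) ^ n) := ha (2 * R) (by linarith)
  have hbound : ∀ (n : ℕ) (y : 𝕜), y ∈ Metric.ball (0 : 𝕜) R →
      ‖a n * ((n : 𝕜) * y ^ (n - 1))‖ ≤ ‖a n‖ * (2 * R) ^ n := by
    intro n y hy
    have hy' : ‖y‖ ≤ R := by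
      rw [mem_ball_zero_iff] at hy
      exact hy.le
    rw [norm_mul, norm_mul, norm_pow, RCLike.norm_natCast]
    refine mul_le_mul_of_nonneg_left ?_ (norm_nonneg _)
    have h1 : (n : ℝ) ≤ 2 ^ n := by
      exact_mod_cast (Nat.lt_two_pow_self (n := n)).le
    have h2 : ‖y‖ ^ (n - 1) ≤ R ^ n := by
      calc ‖y‖ ^ (n - 1) ≤ R ^ (n - 1) := pow_le_pow_left₀ (norm_nonneg _) hy' _
        _ ≤ R ^ n := pow_le_pow_right₀ hR1 (Nat.sub_le _ _)
    calc (n : ℝ) * ‖y‖ ^ (n - 1) ≤ 2 ^ n * R ^ n :=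
          mul_le_mul h1 h2 (pow_nonneg (norm_nonneg _) _) (by positivity)
      _ = (2 * R) ^ n := by rw [mul_pow]
  have hder := hasDerivAt_tsum_of_isPreconnected (𝕜 := 𝕜) (F := 𝕜)
    (g := fun (n : ℕ) (w : 𝕜) => a n * w ^ n)
    (g' := fun (n : ℕ) (w : 𝕜) => a n * ((n : 𝕜) * w ^ (n - 1)))
    (t := Metric.ball (0 : 𝕜) R) (y₀ := z) (y := z)
    hu Metric.isOpen_ball (Metric.isPreconnected_ball) (fun n y _ => by
      have := (hasDerivAt_pow n y).const_mul (a n)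
      simpa using this) hbound
    (by rw [mem_ball_zero_iff]; linarith) (hsum z) (by rw [mem_ball_zero_iff]; linarith)
  have hs : Summable (fun n : ℕ => a n * ((n : 𝕜) * z ^ (n - 1))) := by
    refine Summable.of_norm_bounded hu (fun n => hbound n z ?_)
    rw [mem_ball_zero_iff]; linarith
  have heq : (∑' n : ℕ, a n * ((n : 𝕜) * z ^ (n - 1)))
      = ∑' n : ℕ, ((n : 𝕜) + 1) * a (n + 1) * z ^ n := by
    rw [hs.tsum_eq_zero_add]
    simp only [Nat.cast_zero, zero_mul, mul_zero, zero_add, Nat.cast_add, Nat.cast_one,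
      Nat.add_sub_cancel]
    refine tsum_congr (fun n => ?_)
    ring
  rw [heq] at hder
  exact hder

end Pool.Agent.H50
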