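import Mathlib
import Pool.Agent.H50.PowSer

set_option autoImplicit false

open Finset

namespace Pool.Agent.H50

/-- Coefficients of `B0`. -/
noncomputable def c0 (𝕜 : Type*) [RCLike 𝕜] (n : ℕ) : 𝕜 := (-1) ^ n / ((n.factorial : 𝕜)) ^ 2

/-- Coefficients of `B1`. -/
noncomputable def c1 (𝕜 : Type*) [RCLike 𝕜] (n : ℕ) : 𝕜 :=
  (-1) ^ n / ((n.factorial : 𝕜) * ((n + 1).factorial : 𝕜))

theorem norm_c0 (𝕜 : Type*) [RCLike 𝕜] (n : ℕ) : ‖c0 𝕜 n‖ = 1 / ((n.factorial : ℝ)) ^ 2 := by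
  simp [c0, norm_div, norm_pow]

theorem norm_c1 (𝕜 : Type*) [RCLike 𝕜] (n : ℕ) :
    ‖c1 𝕜 n‖ = 1 / ((n.factorial : ℝ) * ((n + 1).factorial : ℝ)) := by
  simp [c1, norm_div, norm_pow, norm_mul]

theorem summable_c0 (𝕜 : Type*) [RCLike 𝕜] (R : ℝ) (hR : 0 ≤ R) :
    Summable (fun n : ℕ => ‖c0 𝕜 n‖ * R ^ n) := by
  refine Summable.of_nonneg_of_le (fun n => by positivity) (fun n => ?_)
    (Real.summable_pow_div_factorial R)
  rw [norm_c0]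
  have h1 : (1 : ℝ) ≤ (n.factorial : ℝ) := by exact_mod_cast Nat.factorial_pos n
  rw [div_mul_eq_mul_div, one_mul]
  refine div_le_div_of_nonneg_left (by positivity) (by positivity) ?_
  nlinarith

theorem summable_c1 (𝕜 : Type*) [RCLike 𝕜] (R : ℝ) (hR : 0 ≤ R) :
    Summable (fun n : ℕ => ‖c1 𝕜 n‖ * R ^ n) := by
  refine Summable.of_nonneg_of_le (fun n => by positivity) (fun n => ?_)
    (Real.summable_pow_div_factorial R)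
  rw [norm_c1]
  have h1 : (1 : ℝ) ≤ (n.factorial : ℝ) := by exact_mod_cast Nat.factorial_pos n
  have h2 : (1 : ℝ) ≤ ((n + 1).factorial : ℝ) := by exact_mod_cast Nat.factorial_pos (n + 1)
  rw [div_mul_eq_mul_div, one_mul]
  refine div_le_div_of_nonneg_left (by positivity) (by positivity) ?_
  nlinarith

/-- `B0 q = ∑ (-q)^n / n!^2`, so that `J_0 z = B0 ((z/2)^2)`. -/
noncomputable def B0 (𝕜 : Type*) [RCLike 𝕜] (q : 𝕜) : 𝕜 := ∑' n : ℕ, c0 𝕜 n * q ^ n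

/-- `B1 q = ∑ (-q)^n / (n! (n+1)!)`, so that `J_1 z = (z/2) B1 ((z/2)^2)`. -/
noncomputable def B1 (𝕜 : Type*) [RCLike 𝕜] (q : 𝕜) : 𝕜 := ∑' n : ℕ, c1 𝕜 n * q ^ n

theorem succ_mul_c0 (𝕜 : Type*) [RCLike 𝕜] (n : ℕ) :
    ((n : 𝕜) + 1) * c0 𝕜 (n + 1) = - c1 𝕜 n := by
  have h1 : ((n.factorial : ℕ) : 𝕜) ≠ 0 := by exact_mod_cast Nat.factorial_ne_zero n
  have h2 : ((n : 𝕜) + 1) ≠ 0 := by exact_mod_cast Nat.succ_ne_zero n
  simp only [c0, c1, Nat.factorial_succ, Nat.cast_mul, Nat.cast_add, Nat.cast_one]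
  field_simp
  ring

theorem hasDerivAt_B0 (𝕜 : Type*) [RCLike 𝕜] (q : 𝕜) : HasDerivAt (B0 𝕜) (-(B1 𝕜 q)) q := by
  have h := hasDerivAt_powSeries (c0 𝕜) (summable_c0 𝕜) q
  have heq : (∑' n : ℕ, ((n : 𝕜) + 1) * c0 𝕜 (n + 1) * q ^ n) = -(B1 𝕜 q) := by
    rw [B1, ← tsum_neg]
    refine tsum_congr (fun n => ?_)
    rw [succ_mul_c0]
    ring
  rw [heq] at h
  exact h

/-- coefficients of `q * B1 q` -/
noncomputable def c1s (𝕜 : Type*) [RCLike 𝕜] (n : ℕ) : 𝕜 :=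
  Nat.casesOn n 0 (fun m => c1 𝕜 m)

theorem summable_c1s (𝕜 : Type*) [RCLike 𝕜] (R : ℝ) (hR : 0 ≤ R) :
    Summable (fun n : ℕ => ‖c1s 𝕜 n‖ * R ^ n) := by
  rw [← summable_nat_add_iff 1]
  have := (summable_c1 𝕜 R hR).mul_right R
  refine this.congr (fun n => ?_)
  simp [c1s, pow_succ, mul_assoc]

theorem succ_mul_c1s (𝕜 : Type*) [RCLike 𝕜] (n : ℕ) :
    ((n : 𝕜) + 1) * c1s 𝕜 (n + 1) = c0 𝕜 n := by
  have h1 : ((n.factorial : ℕ) : 𝕜) ≠ 0 := by exact_mod_cast Nat.factorial_ne_zero n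
  have h2 : ((n : 𝕜) + 1) ≠ 0 := by exact_mod_cast Nat.succ_ne_zero n
  simp only [c0, c1s, c1, Nat.factorial_succ, Nat.cast_mul, Nat.cast_add, Nat.cast_one]
  field_simp

theorem tsum_c1s (𝕜 : Type*) [RCLike 𝕜] (q : 𝕜) :
    (∑' n : ℕ, c1s 𝕜 n * q ^ n) = q * B1 𝕜 q := by
  have hs : Summable (fun n : ℕ => c1s 𝕜 n * q ^ n) := by
    refine Summable.of_norm ?_
    simpa [norm_mul, norm_pow] using summable_c1s 𝕜 ‖q‖ (norm_nonneg q)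
  have h0 : c1s 𝕜 0 = 0 := rfl
  have h1 : ∀ n, c1s 𝕜 (n + 1) = c1 𝕜 n := fun n => rfl
  rw [hs.tsum_eq_zero_add, B1, ← tsum_mul_left, h0, zero_mul, zero_add]
  refine tsum_congr (fun n => ?_)
  rw [h1]
  ring

theorem hasDerivAt_mul_B1 (𝕜 : Type*) [RCLike 𝕜] (q : 𝕜) :
    HasDerivAt (fun q => q * B1 𝕜 q) (B0 𝕜 q) q := by
  have h := hasDerivAt_powSeries (c1s 𝕜) (summable_c1s 𝕜) q
  have heq : (∑' n : ℕ, ((n : 𝕜) + 1) * c1s 𝕜 (n + 1) * q ^ n) = B0 𝕜 q := by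
    rw [B0]
    refine tsum_congr (fun n => ?_)
    rw [succ_mul_c1s]
  rw [heq] at h
  have : (fun w : 𝕜 => ∑' n : ℕ, c1s 𝕜 n * w ^ n) = fun q => q * B1 𝕜 q := by
    funext w
    exact tsum_c1s 𝕜 w
  rw [this] at h
  exact h

theorem differentiableAt_B1 (𝕜 : Type*) [RCLike 𝕜] (q : 𝕜) : DifferentiableAt 𝕜 (B1 𝕜) q :=
  (hasDerivAt_powSeries (c1 𝕜) (summable_c1 𝕜) q).differentiableAt

/-- The Bessel function `J_0`. -/
noncomputable def J0 (𝕜 : Type*) [RCLike 𝕜] (z : 𝕜) : 𝕜 := B0 𝕜 ((z / 2) ^ 2)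

/-- The Bessel function `J_1`. -/
noncomputable def J1 (𝕜 : Type*) [RCLike 𝕜] (z : 𝕜) : 𝕜 := (z / 2) * B1 𝕜 ((z / 2) ^ 2)

theorem hasDerivAt_J0 (𝕜 : Type*) [RCLike 𝕜] (z : 𝕜) : HasDerivAt (J0 𝕜) (-(J1 𝕜 z)) z := by
  have h1 : HasDerivAt (fun z : 𝕜 => (z / 2) ^ 2) (z / 2) z := by
    have h := ((hasDerivAt_id z).div_const 2).pow 2
    simp only [id] at h
    convert! h using 1
    norm_num
    ring
  have h := (hasDerivAt_B0 𝕜 ((z / 2) ^ 2)).comp z h1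
  have heq : -(B1 𝕜 ((z / 2) ^ 2)) * (z / 2) = -(J1 𝕜 z) := by
    rw [J1]; ring
  rw [heq] at h
  exact h

/-- `z * J_1' = z * J_0 - J_1`, in a form without division. -/
theorem hasDerivAt_J1 (𝕜 : Type*) [RCLike 𝕜] (z : 𝕜) :
    HasDerivAt (J1 𝕜) (J0 𝕜 z - B1 𝕜 ((z / 2) ^ 2) / 2) z := by
  have h1 : HasDerivAt (fun z : 𝕜 => (z / 2) ^ 2) (z / 2) z := by
    have h := ((hasDerivAt_id z).div_const 2).pow 2
    simp only [id] at h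
    convert! h using 1
    norm_num
    ring
  set q := (z / 2) ^ 2 with hq
  have hB := (differentiableAt_B1 𝕜 q).hasDerivAt
  have hid : q * deriv (B1 𝕜) q + B1 𝕜 q = B0 𝕜 q := by
    have h2 := (hasDerivAt_id q).mul hB
    have h3 := hasDerivAt_mul_B1 𝕜 q
    have := h2.unique h3
    simp only [id] at this
    rw [← this]; ring
  have hcomp := (show HasDerivAt (B1 𝕜) (deriv (B1 𝕜) q) ((fun z : 𝕜 => (z / 2) ^ 2) z) from hB).comp z h1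
  have h4 := ((hasDerivAt_id z).div_const 2).mul hcomp
  simp only [id, Function.comp_apply] at h4
  have heq : 1 / 2 * B1 𝕜 ((z / 2) ^ 2) + z / 2 * (deriv (B1 𝕜) q * (z / 2))
      = J0 𝕜 z - B1 𝕜 ((z / 2) ^ 2) / 2 := by
    rw [J0, ← hq, ← hid]
    rw [hq]
    ring
  rw [heq] at h4
  exact h4

theorem ofReal_B0 (q : ℝ) : ((B0 ℝ q : ℝ) : ℂ) = B0 ℂ (q : ℂ) := by
  simp only [B0, Complex.ofReal_tsum]
  refine tsum_congr (fun n => ?_)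
  simp [c0]

theorem ofReal_B1 (q : ℝ) : ((B1 ℝ q : ℝ) : ℂ) = B1 ℂ (q : ℂ) := by
  simp only [B1, Complex.ofReal_tsum]
  refine tsum_congr (fun n => ?_)
  simp [c1]

theorem ofReal_J0 (x : ℝ) : ((J0 ℝ x : ℝ) : ℂ) = J0 ℂ (x : ℂ) := by
  simp only [J0]
  rw [ofReal_B0]
  push_cast
  rfl

theorem ofReal_J1 (x : ℝ) : ((J1 ℝ x : ℝ) : ℂ) = J1 ℂ (x : ℂ) := by
  simp only [J1]
  push_cast
  rw [ofReal_B1]
  push_cast
  rfl

theorem J0_eq_tsum (z : ℂ) :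
    J0 ℂ z = ∑' n : ℕ, (-1 : ℂ) ^ n * (z / 2) ^ (2 * n) / ((n.factorial : ℂ)) ^ 2 := by
  simp only [J0, B0, c0]
  refine tsum_congr (fun n => ?_)
  rw [pow_mul]
  ring

theorem B0_zero (𝕜 : Type*) [RCLike 𝕜] : B0 𝕜 0 = 1 := by
  rw [B0, tsum_eq_single 0]
  · simp [c0]
  · intro n hn
    simp [hn]

theorem continuous_B0 (𝕜 : Type*) [RCLike 𝕜] : Continuous (B0 𝕜) :=
  continuous_iff_continuousAt.2 (fun q => (hasDerivAt_B0 𝕜 q).continuousAt)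

theorem continuous_B1 (𝕜 : Type*) [RCLike 𝕜] : Continuous (B1 𝕜) :=
  continuous_iff_continuousAt.2 (fun q => (differentiableAt_B1 𝕜 q).continuousAt)

end Pool.Agent.H50
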