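import Mathlib
import Pool.Agent.H50.BesselA

set_option autoImplicit false

open Finset Filter Topology

namespace Pool.Agent.H50

/-- bounds for an alternating series with antitone terms -/
theorem alt_series_bounds (a : ℕ → ℝ) (ha : Antitone a)
    (hs : Summable (fun n : ℕ => (-1) ^ n * a n)) :
    0 ≤ ∑' n : ℕ, (-1) ^ n * a n ∧ (∑' n : ℕ, (-1) ^ n * a n) ≤ a 0 := by
  have ht := hs.hasSum.tendsto_sum_nat
  constructor
  · simpa using ha.alternating_series_le_tendsto ht 0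
  · simpa using ha.tendsto_le_alternating_series ht 0

theorem antitone_c0_pow (q : ℝ) (hq : 0 ≤ q) (m : ℕ) (hm : q ≤ (m + 1) ^ 2) :
    Antitone (fun n : ℕ => q ^ (n + m) / ((n + m).factorial : ℝ) ^ 2) := by
  refine antitone_nat_of_succ_le (fun n => ?_)
  have h1 : (0 : ℝ) < ((n + m).factorial : ℝ) := by exact_mod_cast Nat.factorial_pos _
  have h2 : (((n + 1 + m).factorial : ℕ) : ℝ) = (n + m + 1) * ((n + m).factorial : ℝ) := by
    rw [show n + 1 + m = (n + m) + 1 by ring, Nat.factorial_succ]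
    push_cast; ring
  rw [h2, div_le_div_iff₀ (by positivity) (by positivity)]
  have h3 : q ≤ ((n : ℝ) + m + 1) ^ 2 := by
    refine hm.trans ?_
    have : (0 : ℝ) ≤ n := Nat.cast_nonneg n
    have : (0 : ℝ) ≤ m := Nat.cast_nonneg m
    nlinarith
  have h4 : 0 ≤ q ^ (n + m) := pow_nonneg hq _
  calc q ^ (n + 1 + m) * ((n + m).factorial : ℝ) ^ 2
      = q ^ (n + m) * ((n + m).factorial : ℝ) ^ 2 * q := by ring
    _ ≤ q ^ (n + m) * ((n + m).factorial : ℝ) ^ 2 * ((n : ℝ) + m + 1) ^ 2 := by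
        gcongr
    _ = q ^ (n + m) * ((n + m + 1) * ((n + m).factorial : ℝ)) ^ 2 := by ring

theorem antitone_c1_pow (q : ℝ) (hq : 0 ≤ q) (m : ℕ) (hm : q ≤ (m + 1) * (m + 2)) :
    Antitone (fun n : ℕ => q ^ (n + m) /
      (((n + m).factorial : ℝ) * ((n + m + 1).factorial : ℝ))) := by
  refine antitone_nat_of_succ_le (fun n => ?_)
  have h1 : (0 : ℝ) < ((n + m).factorial : ℝ) := by exact_mod_cast Nat.factorial_pos _
  have h1' : (0 : ℝ) < ((n + m + 1).factorial : ℝ) := by exact_mod_cast Nat.factorial_pos _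
  have h2 : (((n + 1 + m).factorial : ℕ) : ℝ) = (n + m + 1) * ((n + m).factorial : ℝ) := by
    rw [show n + 1 + m = (n + m) + 1 by ring, Nat.factorial_succ]
    push_cast; ring
  have h2' : (((n + 1 + m + 1).factorial : ℕ) : ℝ)
      = (n + m + 2) * ((n + m + 1).factorial : ℝ) := by
    rw [show n + 1 + m + 1 = (n + m + 1) + 1 by ring, Nat.factorial_succ]
    push_cast; ring
  rw [h2, h2', div_le_div_iff₀ (by positivity) (by positivity)]
  have h3 : q ≤ ((n : ℝ) + m + 1) * (n + m + 2) := by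
    refine hm.trans ?_
    have : (0 : ℝ) ≤ n := Nat.cast_nonneg n
    have : (0 : ℝ) ≤ m := Nat.cast_nonneg m
    nlinarith
  have h4 : 0 ≤ q ^ (n + m) := pow_nonneg hq _
  calc q ^ (n + 1 + m) * (((n + m).factorial : ℝ) * ((n + m + 1).factorial : ℝ))
      = q ^ (n + m) * (((n + m).factorial : ℝ) * ((n + m + 1).factorial : ℝ)) * q := by ring
    _ ≤ q ^ (n + m) * (((n + m).factorial : ℝ) * ((n + m + 1).factorial : ℝ))
        * (((n : ℝ) + m + 1) * (n + m + 2)) := by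
        gcongr
    _ = q ^ (n + m) * ((n + m + 1) * ((n + m).factorial : ℝ) *
        ((n + m + 2) * ((n + m + 1).factorial : ℝ))) := by ring

theorem summable_B0 (q : ℝ) : Summable (fun n : ℕ => c0 ℝ n * q ^ n) := by
  refine Summable.of_norm ?_
  simpa [norm_mul, norm_pow] using summable_c0 ℝ |q| (abs_nonneg q)

theorem summable_B1 (q : ℝ) : Summable (fun n : ℕ => c1 ℝ n * q ^ n) := by
  refine Summable.of_norm ?_
  simpa [norm_mul, norm_pow] using summable_c1 ℝ |q| (abs_nonneg q)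

theorem B0_bounds : -(261 / 1000 : ℝ) ≤ B0 ℝ (9 / 4) ∧ B0 ℝ (9 / 4) ≤ -(26 / 100) := by
  have hs := summable_B0 (9 / 4)
  have hsplit := hs.sum_add_tsum_nat_add 6
  have hs6 : Summable (fun n : ℕ => (-1 : ℝ) ^ n *
      ((9 / 4 : ℝ) ^ (n + 6) / ((n + 6).factorial : ℝ) ^ 2)) := by
    refine ((summable_nat_add_iff 6).2 hs).congr (fun n => ?_)
    simp only [c0, pow_add]
    ring
  have hb := alt_series_bounds _ (antitone_c0_pow (9 / 4) (by norm_num) 6 (by norm_num)) hs6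
  have he : (∑' n : ℕ, c0 ℝ (n + 6) * (9 / 4 : ℝ) ^ (n + 6)) = ∑' n : ℕ, (-1 : ℝ) ^ n *
      ((9 / 4 : ℝ) ^ (n + 6) / ((n + 6).factorial : ℝ) ^ 2) := by
    refine tsum_congr (fun n => ?_)
    simp only [c0, pow_add]
    ring
  rw [he] at hsplit
  rw [B0, ← hsplit]
  simp only [Finset.sum_range_succ, Finset.sum_range_zero, c0, Nat.factorial] at hb ⊢
  norm_num at hb ⊢
  constructor <;> linarith [hb.1, hb.2]

theorem B1_bounds : (2259 / 10000 : ℝ) ≤ B1 ℝ (9 / 4) ∧ B1 ℝ (9 / 4) ≤ 2261 / 10000 := by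
  have hs := summable_B1 (9 / 4)
  have hsplit := hs.sum_add_tsum_nat_add 6
  have hs6 : Summable (fun n : ℕ => (-1 : ℝ) ^ n *
      ((9 / 4 : ℝ) ^ (n + 6) / (((n + 6).factorial : ℝ) * ((n + 6 + 1).factorial : ℝ)))) := by
    refine ((summable_nat_add_iff 6).2 hs).congr (fun n => ?_)
    simp only [c1, pow_add]
    ring
  have hb := alt_series_bounds _ (antitone_c1_pow (9 / 4) (by norm_num) 6 (by norm_num)) hs6
  have he : (∑' n : ℕ, c1 ℝ (n + 6) * (9 / 4 : ℝ) ^ (n + 6)) = ∑' n : ℕ, (-1 : ℝ) ^ n *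
      ((9 / 4 : ℝ) ^ (n + 6) / (((n + 6).factorial : ℝ) * ((n + 6 + 1).factorial : ℝ))) := by
    refine tsum_congr (fun n => ?_)
    simp only [c1, pow_add]
    ring
  rw [he] at hsplit
  rw [B1, ← hsplit]
  simp only [Finset.sum_range_succ, Finset.sum_range_zero, c1, Nat.factorial] at hb ⊢
  norm_num at hb ⊢
  constructor <;> linarith [hb.1, hb.2]

/-- The energy `M x = (x (J0^2 + J1^2) - J0 J1) / (2 - 1/x)` written without division by `x`. -/
noncomputable def En (x : ℝ) : ℝ :=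
  (x ^ 2 * ((J0 ℝ x) ^ 2 + (J1 ℝ x) ^ 2) - x * (J0 ℝ x * J1 ℝ x)) / (2 * x - 1)

theorem J1_eq_mul_B1 (x : ℝ) : J1 ℝ x = x * (B1 ℝ ((x / 2) ^ 2) / 2) := by
  rw [J1]; ring

theorem hasDerivAt_En (x : ℝ) (hx : 1 ≤ x) :
    HasDerivAt En (-(x * (J0 ℝ x - J1 ℝ x) ^ 2) / (2 * x - 1) ^ 2 ) x := by
  have h0 := hasDerivAt_J0 ℝ x
  have h1 := hasDerivAt_J1 ℝ x
  have hB : B1 ℝ ((x / 2) ^ 2) / 2 = J1 ℝ x / x := by
    rw [J1_eq_mul_B1]
    field_simp
  rw [hB] at h1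
  have hid := hasDerivAt_id x
  have hnum := ((hid.pow 2).mul ((h0.pow 2).add (h1.pow 2))).sub (hid.mul (h0.mul h1))
  have hden := (hid.const_mul 2).sub_const 1
  have hne : (2 * x - 1) ≠ 0 := by
    intro h; linarith
  have h := hnum.div hden (by simpa using hne)
  simp only [id] at h
  have hx0 : x ≠ 0 := by
    intro h; linarith
  convert! h using 1
  simp only [Pi.add_apply, Pi.sub_apply, Pi.mul_apply, Pi.pow_apply, id]
  field_simp
  ring

theorem En_antitone : AntitoneOn En (Set.Ici 1) := by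
  refine antitoneOn_of_deriv_nonpos (convex_Ici 1) (fun x hx => ?_) (fun x hx => ?_)
    (fun x hx => ?_)
  · exact (hasDerivAt_En x hx).continuousAt.continuousWithinAt
  · rw [interior_Ici] at hx
    exact (hasDerivAt_En x hx.le).differentiableAt.differentiableWithinAt
  · rw [interior_Ici] at hx
    have hx' : (1 : ℝ) < x := hx
    rw [(hasDerivAt_En x hx'.le).deriv]
    have : 0 ≤ x * (J0 ℝ x - J1 ℝ x) ^ 2 / (2 * x - 1) ^ 2 := by positivity
    rw [neg_div]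
    linarith

/-- For `x ≥ 3`, the energy `x (J0^2 + J1^2)` is at most `0.8`. -/
theorem energy_bound (x : ℝ) (hx : 3 ≤ x) :
    x * ((J0 ℝ x) ^ 2 + (J1 ℝ x) ^ 2) ≤ 8 / 10 := by
  have h1 : En x ≤ En 3 := En_antitone (by simp) (by simp; linarith) hx
  have h3 : En 3 ≤ 4 / 10 := by
    have hJ0 : J0 ℝ 3 = B0 ℝ (9 / 4) := by rw [J0]; norm_num
    have hJ1 : J1 ℝ 3 = 3 / 2 * B1 ℝ (9 / 4) := by rw [J1]; norm_num
    rw [En, hJ0, hJ1]
    obtain ⟨a1, a2⟩ := B0_bounds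
    obtain ⟨b1, b2⟩ := B1_bounds
    norm_num
    nlinarith
  have h4 : En x * (2 * x - 1) = x ^ 2 * ((J0 ℝ x) ^ 2 + (J1 ℝ x) ^ 2) - x * (J0 ℝ x * J1 ℝ x) := by
    rw [En, div_mul_cancel₀]
    intro h; linarith
  have h5 : En x ≤ 4 / 10 := h1.trans h3
  have h6 : x ^ 2 * ((J0 ℝ x) ^ 2 + (J1 ℝ x) ^ 2) - x * (J0 ℝ x * J1 ℝ x) ≤ 4 / 10 * (2 * x - 1) := by
    rw [← h4]
    nlinarith
  set S := (J0 ℝ x) ^ 2 + (J1 ℝ x) ^ 2 with hS
  have h7 : J0 ℝ x * J1 ℝ x ≤ S / 2 := by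
    rw [hS]; nlinarith [sq_nonneg (J0 ℝ x - J1 ℝ x)]
  have h8 : x * (J0 ℝ x * J1 ℝ x) ≤ x * (S / 2) := mul_le_mul_of_nonneg_left h7 (by linarith)
  have h9 : x * S * (2 * x - 1) ≤ 8 / 10 * (2 * x - 1) := by nlinarith
  exact le_of_mul_le_mul_right h9 (by linarith)

end Pool.Agent.H50
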