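import Mathlib
import Pool.Agent.H50.BesselB

set_option autoImplicit false

open Finset Filter Topology

namespace Pool.Agent.H50

/-- real and imaginary parts of `J0 (x + i y)` and `J1 (x + i y)` -/
noncomputable def a1 (x y : ℝ) : ℝ := (J0 ℂ ((x : ℂ) + (y : ℂ) * Complex.I)).re
noncomputable def a2 (x y : ℝ) : ℝ := (J0 ℂ ((x : ℂ) + (y : ℂ) * Complex.I)).im
noncomputable def b1 (x y : ℝ) : ℝ := (J1 ℂ ((x : ℂ) + (y : ℂ) * Complex.I)).re
noncomputable def b2 (x y : ℝ) : ℝ := (J1 ℂ ((x : ℂ) + (y : ℂ) * Complex.I)).im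

theorem J1_div (z : ℂ) (hz : z ≠ 0) : B1 ℂ ((z / 2) ^ 2) / 2 = J1 ℂ z / z := by
  rw [J1]
  field_simp

theorem z_ne_zero (x y : ℝ) (hx : 0 < x) : (x : ℂ) + (y : ℂ) * Complex.I ≠ 0 := by
  intro h
  have := congrArg Complex.re h
  simp at this
  linarith

theorem hasDerivAt_line (x y : ℝ) :
    HasDerivAt (fun y : ℝ => (x : ℂ) + (y : ℂ) * Complex.I) Complex.I y := by
  have h := ((Complex.ofRealCLM.hasDerivAt (x := y)).mul_const Complex.I).const_add (x : ℂ)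
  simpa using h

theorem hasDerivAt_J0_line (x y : ℝ) :
    HasDerivAt (fun y : ℝ => J0 ℂ ((x : ℂ) + (y : ℂ) * Complex.I))
      (-(J1 ℂ ((x : ℂ) + (y : ℂ) * Complex.I)) * Complex.I) y :=
  (hasDerivAt_J0 ℂ _).comp y (hasDerivAt_line x y)

theorem hasDerivAt_J1_line (x y : ℝ) (hx : 0 < x) :
    HasDerivAt (fun y : ℝ => J1 ℂ ((x : ℂ) + (y : ℂ) * Complex.I))
      ((J0 ℂ ((x : ℂ) + (y : ℂ) * Complex.I) -
        J1 ℂ ((x : ℂ) + (y : ℂ) * Complex.I) / ((x : ℂ) + (y : ℂ) * Complex.I)) * Complex.I) y := by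
  have h := (hasDerivAt_J1 ℂ ((x : ℂ) + (y : ℂ) * Complex.I)).comp y (hasDerivAt_line x y)
  rw [J1_div _ (z_ne_zero x y hx)] at h
  exact h

theorem hasDerivAt_re {f : ℝ → ℂ} {f' : ℂ} {y : ℝ} (h : HasDerivAt f f' y) :
    HasDerivAt (fun y => (f y).re) f'.re y := by
  exact Complex.reCLM.hasFDerivAt.comp_hasDerivAt y h

theorem hasDerivAt_im {f : ℝ → ℂ} {f' : ℂ} {y : ℝ} (h : HasDerivAt f f' y) :
    HasDerivAt (fun y => (f y).im) f'.im y := by
  exact Complex.imCLM.hasFDerivAt.comp_hasDerivAt y h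

theorem hasDerivAt_a1 (x y : ℝ) : HasDerivAt (a1 x) (b2 x y) y := by
  have h := hasDerivAt_re (hasDerivAt_J0_line x y)
  have he : (-(J1 ℂ ((x : ℂ) + (y : ℂ) * Complex.I)) * Complex.I).re = b2 x y := by
    simp [b2, Complex.mul_re]
  rw [he] at h
  exact h

theorem hasDerivAt_a2 (x y : ℝ) : HasDerivAt (a2 x) (-(b1 x y)) y := by
  have h := hasDerivAt_im (hasDerivAt_J0_line x y)
  have he : (-(J1 ℂ ((x : ℂ) + (y : ℂ) * Complex.I)) * Complex.I).im = -(b1 x y) := by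
    simp [b1, Complex.mul_im]
  rw [he] at h
  exact h

theorem div_parts (w : ℂ) (x y : ℝ) (hx : 0 < x) :
    (w / ((x : ℂ) + (y : ℂ) * Complex.I)).re = (w.re * x + w.im * y) / (x ^ 2 + y ^ 2) ∧
    (w / ((x : ℂ) + (y : ℂ) * Complex.I)).im = (w.im * x - w.re * y) / (x ^ 2 + y ^ 2) := by
  have hn : Complex.normSq ((x : ℂ) + (y : ℂ) * Complex.I) = x ^ 2 + y ^ 2 := by
    rw [Complex.normSq_apply]; simp; ring
  constructor
  · rw [Complex.div_re, hn]; simp; ring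
  · rw [Complex.div_im, hn]; simp; ring

theorem hasDerivAt_b1 (x y : ℝ) (hx : 0 < x) :
    HasDerivAt (b1 x) (-(a2 x y - (b2 x y * x - b1 x y * y) / (x ^ 2 + y ^ 2))) y := by
  have h := hasDerivAt_re (hasDerivAt_J1_line x y hx)
  have h2 := (div_parts (J1 ℂ ((x : ℂ) + (y : ℂ) * Complex.I)) x y hx)
  convert! h using 1
  rw [Complex.mul_re, Complex.I_re, Complex.I_im, Complex.sub_im, h2.2]
  simp [a2, b1, b2]

theorem hasDerivAt_b2 (x y : ℝ) (hx : 0 < x) :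
    HasDerivAt (b2 x) (a1 x y - (b1 x y * x + b2 x y * y) / (x ^ 2 + y ^ 2)) y := by
  have h := hasDerivAt_im (hasDerivAt_J1_line x y hx)
  have h2 := (div_parts (J1 ℂ ((x : ℂ) + (y : ℂ) * Complex.I)) x y hx)
  convert! h using 1
  rw [Complex.mul_im, Complex.I_re, Complex.I_im, Complex.sub_re, h2.1]
  simp [a1, b1, b2]

/-- `|J0|^2 + |J1|^2` -/
noncomputable def Nf (x y : ℝ) : ℝ := (a1 x y) ^ 2 + (a2 x y) ^ 2 + (b1 x y) ^ 2 + (b2 x y) ^ 2

/-- `Im (J1 * conj J0)` -/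
noncomputable def Vf (x y : ℝ) : ℝ := b2 x y * a1 x y - b1 x y * a2 x y

/-- `H = 1 - |J0|^2 + Re (z J0' conj J0)` -/
noncomputable def Hf (x y : ℝ) : ℝ :=
  1 - ((a1 x y) ^ 2 + (a2 x y) ^ 2) - x * (b1 x y * a1 x y + b2 x y * a2 x y) + y * Vf x y

theorem hasDerivAt_Nf (x y : ℝ) (hx : 0 < x) :
    HasDerivAt (Nf x) (4 * Vf x y - 2 * y * ((b1 x y) ^ 2 + (b2 x y) ^ 2) / (x ^ 2 + y ^ 2)) y := by
  have h1 := hasDerivAt_a1 x y
  have h2 := hasDerivAt_a2 x y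
  have h3 := hasDerivAt_b1 x y hx
  have h4 := hasDerivAt_b2 x y hx
  have h := (((h1.pow 2).add (h2.pow 2)).add (h3.pow 2)).add (h4.pow 2)
  have hne : x ^ 2 + y ^ 2 ≠ 0 := by positivity
  convert! h using 1
  simp only [Vf]
  field_simp
  ring

theorem hasDerivAt_Vf (x y : ℝ) (hx : 0 < x) :
    HasDerivAt (Vf x) (Nf x y -
      (x * (b1 x y * a1 x y + b2 x y * a2 x y) + y * Vf x y) / (x ^ 2 + y ^ 2)) y := by
  have h1 := hasDerivAt_a1 x y
  have h2 := hasDerivAt_a2 x y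
  have h3 := hasDerivAt_b1 x y hx
  have h4 := hasDerivAt_b2 x y hx
  have h := (h4.mul h1).sub (h3.mul h2)
  have hne : x ^ 2 + y ^ 2 ≠ 0 := by positivity
  convert! h using 1
  simp only [Vf, Nf]
  field_simp
  ring

theorem hasDerivAt_Hf (x y : ℝ) (hx : 0 < x) :
    HasDerivAt (Hf x) (y * Nf x y - 2 * Vf x y) y := by
  have h1 := hasDerivAt_a1 x y
  have h2 := hasDerivAt_a2 x y
  have h3 := hasDerivAt_b1 x y hx
  have h4 := hasDerivAt_b2 x y hx
  have hV := hasDerivAt_Vf x y hx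
  have hp := (h1.pow 2).add (h2.pow 2)
  have hU := ((h3.mul h1).add (h4.mul h2)).const_mul x
  have h := ((hp.const_sub 1).sub hU).add ((hasDerivAt_id y).mul hV)
  have hne : x ^ 2 + y ^ 2 ≠ 0 := by positivity
  convert! h using 1
  simp only [Vf, Nf, id]
  field_simp
  ring

theorem two_Vf_le (x y : ℝ) : 2 * Vf x y ≤ Nf x y := by
  simp only [Vf, Nf]
  nlinarith [sq_nonneg (b2 x y - a1 x y), sq_nonneg (b1 x y + a2 x y)]

theorem Nf_nonneg (x y : ℝ) : 0 ≤ Nf x y := by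
  simp only [Nf]; positivity

/-- auxiliary polynomial -/
noncomputable def rho (s : ℝ) : ℝ := s ^ 2 / 2 + s ^ 3 / 3 + s ^ 4 / 3

theorem hasDerivAt_rho (y : ℝ) :
    HasDerivAt (fun y => rho (1 - y)) (-((1 - y) + (1 - y) ^ 2 + 4 / 3 * (1 - y) ^ 3)) y := by
  have h0 : HasDerivAt (fun y : ℝ => 1 - y) (-1) y := by
    simpa using (hasDerivAt_id y).const_sub 1
  have h := (((h0.pow 2).div_const 2).add ((h0.pow 3).div_const 3)).add ((h0.pow 4).div_const 3)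
  convert! h using 1
  norm_num
  ring

theorem Hf_lower_strip (x y : ℝ) (hx : 0 < x) (hy0 : 0 ≤ y) (hy1 : y ≤ 1) :
    Hf x 0 - 7 / 6 * Nf x 0 ≤ Hf x y := by
  have hmono : MonotoneOn (fun y => Hf x y - rho (1 - y) * Nf x y) (Set.Icc 0 1) := by
    have hd : ∀ y : ℝ, HasDerivAt (fun y => Hf x y - rho (1 - y) * Nf x y)
        ((y * Nf x y - 2 * Vf x y) -
          ((-((1 - y) + (1 - y) ^ 2 + 4 / 3 * (1 - y) ^ 3)) * Nf x y +
            rho (1 - y) * (4 * Vf x y - 2 * y * ((b1 x y) ^ 2 + (b2 x y) ^ 2) / (x ^ 2 + y ^ 2)))) y :=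
      fun y => (hasDerivAt_Hf x y hx).sub ((hasDerivAt_rho y).mul (hasDerivAt_Nf x y hx))
    refine monotoneOn_of_deriv_nonneg (convex_Icc 0 1) (fun y _ => (hd y).continuousAt.continuousWithinAt)
      (fun y _ => (hd y).differentiableAt.differentiableWithinAt) (fun y hy => ?_)
    rw [interior_Icc] at hy
    rw [(hd y).deriv]
    have hV := two_Vf_le x y
    have hN := Nf_nonneg x y
    have hr : 0 ≤ rho (1 - y) := by
      have : 0 ≤ 1 - y := by linarith [hy.2]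
      simp only [rho]; positivity
    have hq : 0 ≤ 2 * y * ((b1 x y) ^ 2 + (b2 x y) ^ 2) / (x ^ 2 + y ^ 2) := by
      have := hy.1
      positivity
    have h1 : rho (1 - y) * (4 * Vf x y - 2 * y * ((b1 x y) ^ 2 + (b2 x y) ^ 2) / (x ^ 2 + y ^ 2))
        ≤ rho (1 - y) * (2 * Nf x y) := by
      refine mul_le_mul_of_nonneg_left ?_ hr
      linarith
    have h2 : 0 ≤ (y - 1 + ((1 - y) + (1 - y) ^ 2 + 4 / 3 * (1 - y) ^ 3) - 2 * rho (1 - y)) := by
      simp only [rho]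
      have h3 : 0 ≤ 1 - y := by linarith [hy.2]
      have h4 : 1 - y ≤ 1 := by linarith [hy.1]
      have h5 : 0 ≤ (1 - y) ^ 3 * (1 - (1 - y)) := mul_nonneg (pow_nonneg h3 3) (by linarith)
      nlinarith
    have h6 := mul_nonneg h2 hN
    nlinarith
  have h := hmono (Set.left_mem_Icc.2 zero_le_one) ⟨hy0, hy1⟩ hy0
  simp only [sub_zero] at h
  have hr1 : rho 1 = 7 / 6 := by simp only [rho]; norm_num
  rw [hr1] at h
  have hr : 0 ≤ rho (1 - y) := by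
    have : 0 ≤ 1 - y := by linarith
    simp only [rho]; positivity
  have := mul_nonneg hr (Nf_nonneg x y)
  linarith

theorem Hf_lower (x y : ℝ) (hx : 0 < x) (hy0 : 0 ≤ y) :
    Hf x 0 - 7 / 6 * Nf x 0 ≤ Hf x y := by
  rcases le_total y 1 with h | h
  · exact Hf_lower_strip x y hx hy0 h
  · refine (Hf_lower_strip x 1 hx zero_le_one le_rfl).trans ?_
    have hmono : MonotoneOn (Hf x) (Set.Ici 1) := by
      refine monotoneOn_of_deriv_nonneg (convex_Ici 1)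
        (fun y _ => (hasDerivAt_Hf x y hx).continuousAt.continuousWithinAt)
        (fun y _ => (hasDerivAt_Hf x y hx).differentiableAt.differentiableWithinAt)
        (fun y hy => ?_)
      rw [interior_Ici] at hy
      rw [(hasDerivAt_Hf x y hx).deriv]
      have hV := two_Vf_le x y
      have hN := Nf_nonneg x y
      have hy' : (1 : ℝ) < y := hy
      nlinarith
    exact hmono (Set.self_mem_Ici) h h

theorem parts_real (x : ℝ) : a1 x 0 = J0 ℝ x ∧ a2 x 0 = 0 ∧ b1 x 0 = J1 ℝ x ∧ b2 x 0 = 0 := by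
  have h : ((x : ℂ) + ((0 : ℝ) : ℂ) * Complex.I) = (x : ℂ) := by simp
  refine ⟨?_, ?_, ?_, ?_⟩
  · rw [a1, h, ← ofReal_J0, Complex.ofReal_re]
  · rw [a2, h, ← ofReal_J0, Complex.ofReal_im]
  · rw [b1, h, ← ofReal_J1, Complex.ofReal_re]
  · rw [b2, h, ← ofReal_J1, Complex.ofReal_im]

theorem Hf_pos (x y : ℝ) (hx : 3 ≤ x) (hy0 : 0 ≤ y) : 0 < Hf x y := by
  have hx0 : 0 < x := by linarith
  refine lt_of_lt_of_le ?_ (Hf_lower x y hx0 hy0)
  obtain ⟨h1, h2, h3, h4⟩ := parts_real x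
  simp only [Hf, Nf, Vf, h1, h2, h3, h4]
  have hE := energy_bound x hx
  set S := (J0 ℝ x) ^ 2 + (J1 ℝ x) ^ 2 with hS
  have hS0 : 0 ≤ S := by positivity
  have h7 : J0 ℝ x * J1 ℝ x ≤ S / 2 := by
    rw [hS]; nlinarith [sq_nonneg (J0 ℝ x - J1 ℝ x)]
  have h8 : x * (J0 ℝ x * J1 ℝ x) ≤ 4 / 10 := by
    have := mul_le_mul_of_nonneg_left h7 (hx0.le)
    linarith
  have h9 : 3 * S ≤ 8 / 10 := by nlinarith
  have h10 : (J0 ℝ x) ^ 2 ≤ S := by rw [hS]; nlinarith [sq_nonneg (J1 ℝ x)]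
  have h11 : (J0 ℝ x) ^ 2 + (J1 ℝ x) ^ 2 = S := rfl
  nlinarith

end Pool.Agent.H50
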