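import Mathlib
import Pool.Agent.H50.BesselB

set_option autoImplicit false

open Finset Filter Topology

namespace Pool.Agent.H50

/-- coefficients of `phi`, where `B0 q = 1 + q * phi q` -/
noncomputable def cp (n : ℕ) : ℝ := c0 ℝ (n + 1)

theorem summable_cp (R : ℝ) (hR : 0 ≤ R) : Summable (fun n : ℕ => ‖cp n‖ * R ^ n) := by
  refine Summable.of_nonneg_of_le (fun n => by positivity) (fun n => ?_)
    (Real.summable_pow_div_factorial R)
  rw [cp, norm_c0]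
  have h1 : (1 : ℝ) ≤ (n.factorial : ℝ) := by exact_mod_cast Nat.factorial_pos n
  have h2 : (n.factorial : ℝ) ≤ ((n + 1).factorial : ℝ) := by
    exact_mod_cast Nat.factorial_le (Nat.le_succ n)
  rw [div_mul_eq_mul_div, one_mul]
  refine div_le_div_of_nonneg_left (by positivity) (by positivity) ?_
  nlinarith

/-- `phi q = ∑ (-1)^(n+1) q^n / (n+1)!^2` -/
noncomputable def phi (q : ℝ) : ℝ := ∑' n : ℕ, cp n * q ^ n

theorem B0_eq (q : ℝ) : B0 ℝ q = 1 + q * phi q := by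
  have hs := summable_B0 q
  rw [B0, hs.tsum_eq_zero_add, phi, ← tsum_mul_left]
  have h0 : c0 ℝ 0 * q ^ 0 = 1 := by simp [c0]
  rw [h0]
  congr 1
  refine tsum_congr (fun n => ?_)
  rw [cp]; ring

theorem hasDerivAt_phi (q : ℝ) :
    HasDerivAt phi (∑' n : ℕ, ((n : ℝ) + 1) * c0 ℝ (n + 2) * q ^ n) q :=
  hasDerivAt_powSeries cp summable_cp q

theorem summable_phi' (q : ℝ) : Summable (fun n : ℕ => ((n : ℝ) + 1) * c0 ℝ (n + 2) * q ^ n) := by
  refine Summable.of_norm_bounded (g := fun n : ℕ => |q| ^ n / n.factorial)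
    (Real.summable_pow_div_factorial |q|) (fun n => ?_)
  rw [norm_mul, norm_mul, norm_c0, norm_pow, Real.norm_eq_abs, Real.norm_eq_abs,
    abs_of_nonneg (by positivity : (0 : ℝ) ≤ (n : ℝ) + 1)]
  have h1 : (1 : ℝ) ≤ (n.factorial : ℝ) := by exact_mod_cast Nat.factorial_pos n
  have h2 : (((n + 2).factorial : ℕ) : ℝ) = (n + 2) * ((n + 1) * (n.factorial : ℝ)) := by
    rw [Nat.factorial_succ, Nat.factorial_succ]; push_cast; ring
  rw [h2]
  have h3 : (0 : ℝ) ≤ n := Nat.cast_nonneg n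
  rw [mul_one_div, div_mul_eq_mul_div, div_le_div_iff₀ (by positivity) (by positivity)]
  have h4 : 0 ≤ |q| ^ n := by positivity
  have h5 : ((n : ℝ) + 1) * (n.factorial : ℝ) ≤ ((n + 2) * ((n + 1) * (n.factorial : ℝ))) ^ 2 := by
    have h6 : ((n : ℝ) + 1) * (n.factorial : ℝ) ≤ ((n + 2) * ((n + 1) * (n.factorial : ℝ))) := by
      nlinarith [mul_nonneg h3 (by positivity : (0:ℝ) ≤ (n.factorial : ℝ))]
    have h7 : (1 : ℝ) ≤ ((n + 2) * ((n + 1) * (n.factorial : ℝ))) := by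
      nlinarith [mul_nonneg h3 (by positivity : (0:ℝ) ≤ (n.factorial : ℝ))]
    nlinarith
  nlinarith [mul_le_mul_of_nonneg_left h5 h4]

theorem phi'_pos_of_nonpos (q : ℝ) (hq : q ≤ 0) :
    0 < ∑' n : ℕ, ((n : ℝ) + 1) * c0 ℝ (n + 2) * q ^ n := by
  refine (summable_phi' q).tsum_pos (fun n => ?_) 0 ?_
  · have h : ((n : ℝ) + 1) * c0 ℝ (n + 2) * q ^ n
        = ((n : ℝ) + 1) * ((-q) ^ n / ((n + 2).factorial : ℝ) ^ 2) := by
      rw [c0, neg_pow q n, pow_add]; ring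
    rw [h]
    have : 0 ≤ -q := by linarith
    positivity
  · simp [c0, Nat.factorial]

theorem antitone_tail (q : ℝ) (hq : 0 ≤ q) (hq9 : q ≤ 9) :
    Antitone (fun n : ℕ => ((n : ℝ) + 9) * (q ^ (n + 8) / ((n + 10).factorial : ℝ) ^ 2)) := by
  refine antitone_nat_of_succ_le (fun n => ?_)
  have h1 : (0 : ℝ) < ((n + 10).factorial : ℝ) := by exact_mod_cast Nat.factorial_pos _
  have h2 : (((n + 1 + 10).factorial : ℕ) : ℝ) = (n + 11) * ((n + 10).factorial : ℝ) := by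
    rw [show n + 1 + 10 = (n + 10) + 1 by ring, Nat.factorial_succ]
    push_cast; ring
  have h3 : (0 : ℝ) ≤ n := Nat.cast_nonneg n
  rw [h2]
  push_cast
  rw [← mul_div_assoc, ← mul_div_assoc, div_le_div_iff₀ (by positivity) (by positivity)]
  have h4 : 0 ≤ q ^ (n + 8) := pow_nonneg hq _
  have h5 : ((n : ℝ) + 1 + 9) * q ≤ (n + 9) * (n + 11) ^ 2 := by nlinarith
  have h6 := mul_le_mul_of_nonneg_left h5
    (by positivity : 0 ≤ q ^ (n + 8) * ((n + 10).factorial : ℝ) ^ 2)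
  calc ((n : ℝ) + 1 + 9) * q ^ (n + 1 + 8) * ((n + 10).factorial : ℝ) ^ 2
      = q ^ (n + 8) * ((n + 10).factorial : ℝ) ^ 2 * (((n : ℝ) + 1 + 9) * q) := by ring
    _ ≤ q ^ (n + 8) * ((n + 10).factorial : ℝ) ^ 2 * ((n + 9) * (n + 11) ^ 2) := h6
    _ = ((n : ℝ) + 9) * q ^ (n + 8) * ((n + 11) * ((n + 10).factorial : ℝ)) ^ 2 := by ring

theorem phi'_pos_of_le (q : ℝ) (hq : 0 ≤ q) (hq9 : q ≤ 9) :
    0 < ∑' n : ℕ, ((n : ℝ) + 1) * c0 ℝ (n + 2) * q ^ n := by
  have hs := summable_phi' q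
  have hsplit := hs.sum_add_tsum_nat_add 8
  have he : ∀ n : ℕ, (((n + 8 : ℕ) : ℝ) + 1) * c0 ℝ (n + 8 + 2) * q ^ (n + 8) =
      (-1 : ℝ) ^ n * (((n : ℝ) + 9) * (q ^ (n + 8) / ((n + 10).factorial : ℝ) ^ 2)) := by
    intro n
    rw [c0, show n + 8 + 2 = n + 10 by ring, pow_add (-1 : ℝ) n 10]
    push_cast
    ring
  have hs8 : Summable (fun n : ℕ => (-1 : ℝ) ^ n *
      (((n : ℝ) + 9) * (q ^ (n + 8) / ((n + 10).factorial : ℝ) ^ 2))) :=
    ((summable_nat_add_iff 8).2 hs).congr (fun n => he n)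
  have hb := (alt_series_bounds _ (antitone_tail q hq hq9) hs8).1
  rw [tsum_congr he] at hsplit
  rw [← hsplit]
  have hP : (∑ i ∈ range 8, ((i : ℝ) + 1) * c0 ℝ (i + 2) * q ^ i) =
      59369/2867200 + 137819/18063360 * (9 - q) + 12311/12042240 * (9 - q) ^ 2
      + 3299/45158400 * (9 - q) ^ 3 + 877/325140480 * (9 - q) ^ 4
      + 29/270950400 * (9 - q) ^ 5 + 1/2090188800 * (9 - q) ^ 6
      + 1/16460236800 * (9 - q) ^ 7 := by
    simp only [Finset.sum_range_succ, Finset.sum_range_zero, c0, Nat.factorial]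
    push_cast
    ring
  rw [hP]
  have hr : 0 ≤ 9 - q := by linarith
  positivity

theorem phi_strictMonoOn : StrictMonoOn phi (Set.Iic 9) := by
  refine strictMonoOn_of_deriv_pos (convex_Iic 9)
    (fun q _ => (hasDerivAt_phi q).continuousAt.continuousWithinAt) (fun q hq => ?_)
  rw [interior_Iic] at hq
  rw [(hasDerivAt_phi q).deriv]
  rcases le_total q 0 with h | h
  · exact phi'_pos_of_nonpos q h
  · exact phi'_pos_of_le q h (le_of_lt hq)

end Pool.Agent.H50
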