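import Mathlib
import Pool.Agent.H50.BesselD

set_option autoImplicit false

open Finset Filter Topology

namespace Pool.Agent.H50

theorem integral_exp_int (m : ℤ) :
    (∫ t in (0 : ℝ)..(2 * Real.pi), Complex.exp ((m : ℂ) * ((t : ℂ) * Complex.I)))
      = if m = 0 then ((2 * Real.pi : ℝ) : ℂ) else 0 := by
  split_ifs with h
  · subst h
    simp
  · have hm : ((m : ℂ) * Complex.I) ≠ 0 := by
      simp [h]
    have h1 : ∀ t : ℝ, Complex.exp ((m : ℂ) * ((t : ℂ) * Complex.I))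
        = Complex.exp (((m : ℂ) * Complex.I) * t) := by
      intro t; ring_nf
    simp only [h1]
    rw [integral_exp_mul_complex hm]
    have h2 : Complex.exp ((m : ℂ) * Complex.I * ((2 * Real.pi : ℝ) : ℂ)) = 1 := by
      rw [Complex.exp_eq_one_iff]
      refine ⟨m, ?_⟩
      push_cast
      ring
    rw [h2]
    simp

/-- The kernel argument. -/
noncomputable def Qk (ζ : ℂ) (t : ℝ) : ℝ :=
  4 * (ζ.re ^ 2 * (Real.sin t) ^ 2 - ζ.im ^ 2 * (Real.cos t) ^ 2)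

theorem Qk_eq (ζ : ℂ) (t : ℝ) :
    ((Qk ζ t : ℝ) : ℂ) =
      (-(starRingEnd ℂ ζ) * (Complex.exp ((t : ℂ) * Complex.I))⁻¹
          + ζ * Complex.exp ((t : ℂ) * Complex.I)) *
      (-(starRingEnd ℂ ζ) * (Complex.exp ((t : ℂ) * Complex.I))
          + ζ * (Complex.exp ((t : ℂ) * Complex.I))⁻¹) := by
  have h1 : Complex.exp ((t : ℂ) * Complex.I) = (Real.cos t : ℂ) + (Real.sin t : ℂ) * Complex.I := by
    rw [Complex.exp_mul_I]; simp
  have h2 : (Complex.exp ((t : ℂ) * Complex.I))⁻¹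
      = (Real.cos t : ℂ) - (Real.sin t : ℂ) * Complex.I := by
    rw [← Complex.exp_neg, show -((t : ℂ) * Complex.I) = (-(t : ℂ)) * Complex.I by ring,
      Complex.exp_mul_I, Complex.cos_neg, Complex.sin_neg]
    push_cast; ring
  rw [h2, h1]
  have h3 : ζ = (ζ.re : ℂ) + (ζ.im : ℂ) * Complex.I := (Complex.re_add_im ζ).symm
  have h4 : starRingEnd ℂ ζ = (ζ.re : ℂ) - (ζ.im : ℂ) * Complex.I := by
    apply Complex.ext <;> simp
  rw [h4]
  rw [show (-((ζ.re : ℂ) - (ζ.im : ℂ) * Complex.I) * ((Real.cos t : ℂ) - (Real.sin t : ℂ) * Complex.I)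
          + ζ * ((Real.cos t : ℂ) + (Real.sin t : ℂ) * Complex.I)) *
      (-((ζ.re : ℂ) - (ζ.im : ℂ) * Complex.I) * ((Real.cos t : ℂ) + (Real.sin t : ℂ) * Complex.I)
          + ζ * ((Real.cos t : ℂ) - (Real.sin t : ℂ) * Complex.I)) =
      (-((ζ.re : ℂ) - (ζ.im : ℂ) * Complex.I) * ((Real.cos t : ℂ) - (Real.sin t : ℂ) * Complex.I)
          + ((ζ.re : ℂ) + (ζ.im : ℂ) * Complex.I) * ((Real.cos t : ℂ) + (Real.sin t : ℂ) * Complex.I)) *
      (-((ζ.re : ℂ) - (ζ.im : ℂ) * Complex.I) * ((Real.cos t : ℂ) + (Real.sin t : ℂ) * Complex.I)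
          + ((ζ.re : ℂ) + (ζ.im : ℂ) * Complex.I) * ((Real.cos t : ℂ) - (Real.sin t : ℂ) * Complex.I)) by
    rw [← h3]]
  rw [Qk]
  push_cast
  have hI : Complex.I ^ 2 = -1 := Complex.I_sq
  ring_nf
  rw [hI]
  ring

theorem Qk_pow (ζ : ℂ) (t : ℝ) (k : ℕ) :
    ((Qk ζ t : ℝ) : ℂ) ^ k = ∑ j ∈ range (k + 1), ∑ i ∈ range (k + 1),
      ((-(starRingEnd ℂ ζ)) ^ j * ζ ^ (k - j) * (k.choose j : ℂ) *
        ((-(starRingEnd ℂ ζ)) ^ i * ζ ^ (k - i) * (k.choose i : ℂ))) *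
        Complex.exp (((2 * ((i : ℤ) - (j : ℤ)) : ℤ) : ℂ) * ((t : ℂ) * Complex.I)) := by
  rw [Qk_eq, mul_pow, add_pow, add_pow, Finset.sum_mul_sum]
  refine Finset.sum_congr rfl (fun j hj => Finset.sum_congr rfl (fun i hi => ?_))
  rw [Finset.mem_range] at hi hj
  have hjk : j ≤ k := by omega
  have hik : i ≤ k := by omega
  set w := Complex.exp ((t : ℂ) * Complex.I) with hw
  have hw0 : w ≠ 0 := Complex.exp_ne_zero _
  have hexp : Complex.exp (((2 * ((i : ℤ) - (j : ℤ)) : ℤ) : ℂ) * ((t : ℂ) * Complex.I))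
      = w ^ (2 * i) * (w ^ (2 * j))⁻¹ := by
    rw [Complex.exp_int_mul, ← hw, show (2 * ((i : ℤ) - (j : ℤ)) : ℤ) = ((2 * i : ℕ) : ℤ) - ((2 * j : ℕ) : ℤ) by
      push_cast; ring, zpow_sub₀ hw0, zpow_natCast, zpow_natCast]
    rfl
  rw [hexp]
  have e1 : w ^ (k - j) = w ^ k * (w ^ j)⁻¹ := pow_sub₀ w hw0 hjk
  have e2 : (w⁻¹) ^ (k - i) = (w ^ k)⁻¹ * w ^ i := by
    rw [inv_pow, pow_sub₀ w hw0 hik, mul_inv, inv_inv]
  rw [mul_pow, mul_pow, mul_pow, mul_pow, e1, e2, inv_pow]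
  have hk : w ^ k ≠ 0 := pow_ne_zero _ hw0
  have hj' : w ^ j ≠ 0 := pow_ne_zero _ hw0
  field_simp
  ring

theorem integral_Qk_pow (ζ : ℂ) (k : ℕ) :
    (∫ t in (0 : ℝ)..(2 * Real.pi), ((Qk ζ t : ℝ) : ℂ) ^ k) =
      ((2 * Real.pi : ℝ) : ℂ) * ∑ j ∈ range (k + 1),
        ((k.choose j : ℂ)) ^ 2 * (((starRingEnd ℂ ζ) ^ 2) ^ j * (ζ ^ 2) ^ (k - j)) := by
  simp only [Qk_pow]
  rw [intervalIntegral.integral_finsetSum]
  · rw [Finset.mul_sum]
    refine Finset.sum_congr rfl (fun j hj => ?_)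
    rw [intervalIntegral.integral_finsetSum]
    · rw [Finset.sum_eq_single j]
      · rw [intervalIntegral.integral_const_mul, integral_exp_int]
        simp only [sub_self, mul_zero, if_true]
        rw [neg_pow]
        have : ((-1 : ℂ) ^ j) * ((-1 : ℂ) ^ j) = 1 := by
          rw [← mul_pow]; simp
        calc (-1 : ℂ) ^ j * (starRingEnd ℂ ζ) ^ j * ζ ^ (k - j) * (k.choose j : ℂ) *
              ((-1 : ℂ) ^ j * (starRingEnd ℂ ζ) ^ j * ζ ^ (k - j) * (k.choose j : ℂ)) *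
              ((2 * Real.pi : ℝ) : ℂ)
            = ((-1 : ℂ) ^ j * (-1 : ℂ) ^ j) * (((2 * Real.pi : ℝ) : ℂ) *
              ((k.choose j : ℂ) ^ 2 * (((starRingEnd ℂ ζ) ^ j) ^ 2 * (ζ ^ (k - j)) ^ 2))) := by ring
          _ = _ := by
            rw [this, one_mul, ← pow_mul, ← pow_mul, ← pow_mul, ← pow_mul, mul_comm j 2,
              mul_comm (k - j) 2]
      · intro i _ hij
        rw [intervalIntegral.integral_const_mul, integral_exp_int]
        have : (2 * ((i : ℤ) - (j : ℤ)) : ℤ) ≠ 0 := by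
          intro h
          apply hij
          omega
        simp [this]
      · intro h
        exact absurd hj h
    · intro i _
      exact Continuous.intervalIntegrable (by fun_prop) _ _
  · intro j _
    exact Continuous.intervalIntegrable (by fun_prop) _ _

theorem Qk_abs_le (ζ : ℂ) (t : ℝ) : |Qk ζ t| ≤ 4 * (ζ.re ^ 2 + ζ.im ^ 2) := by
  have h1 := Real.sin_sq_add_cos_sq t
  have h2 : 0 ≤ Real.sin t ^ 2 := sq_nonneg _
  have h3 : 0 ≤ Real.cos t ^ 2 := sq_nonneg _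
  have h4 : 0 ≤ ζ.re ^ 2 := sq_nonneg _
  have h5 : 0 ≤ ζ.im ^ 2 := sq_nonneg _
  rw [abs_le, Qk]
  constructor <;> nlinarith [mul_nonneg h2 h4, mul_nonneg h3 h4, mul_nonneg h2 h5, mul_nonneg h3 h5]

theorem continuous_Qk (ζ : ℂ) : Continuous (Qk ζ) := by
  unfold Qk
  fun_prop

theorem c0_mul_c0 (k j : ℕ) (hj : j ≤ k) :
    c0 ℂ j * c0 ℂ (k - j) = c0 ℂ k * ((k.choose j : ℂ)) ^ 2 := by
  have h := Nat.choose_mul_factorial_mul_factorial hj
  have h' : ((k.choose j : ℕ) : ℂ) * (j.factorial : ℂ) * ((k - j).factorial : ℂ)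
      = (k.factorial : ℂ) := by exact_mod_cast h
  have h1 : ((j.factorial : ℕ) : ℂ) ≠ 0 := by exact_mod_cast Nat.factorial_ne_zero j
  have h2 : (((k - j).factorial : ℕ) : ℂ) ≠ 0 := by exact_mod_cast Nat.factorial_ne_zero (k - j)
  have h3 : ((k.factorial : ℕ) : ℂ) ≠ 0 := by exact_mod_cast Nat.factorial_ne_zero k
  have h4 : (-1 : ℂ) ^ j * (-1 : ℂ) ^ (k - j) = (-1) ^ k := by
    rw [← pow_add]; congr 1; omega
  simp only [c0]
  rw [div_mul_div_comm, h4, ← h', div_mul_eq_mul_div, div_eq_div_iff (by positivity)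
    (by rw [h']; positivity)]
  ring

theorem normSq_series (ζ : ℂ) :
    B0 ℂ ((starRingEnd ℂ ζ) ^ 2) * B0 ℂ (ζ ^ 2) = ∑' k : ℕ, c0 ℂ k * ∑ j ∈ range (k + 1),
        ((k.choose j : ℂ)) ^ 2 * (((starRingEnd ℂ ζ) ^ 2) ^ j * (ζ ^ 2) ^ (k - j)) := by
  have hs : ∀ q : ℂ, Summable (fun n : ℕ => ‖c0 ℂ n * q ^ n‖) := by
    intro q
    simpa [norm_mul, norm_pow] using summable_c0 ℂ ‖q‖ (norm_nonneg q)
  rw [B0, B0, tsum_mul_tsum_eq_tsum_sum_range_of_summable_norm (hs _) (hs _)]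
  refine tsum_congr (fun k => ?_)
  rw [Finset.mul_sum]
  refine Finset.sum_congr rfl (fun j hj => ?_)
  rw [Finset.mem_range] at hj
  have := c0_mul_c0 k j (by omega)
  calc c0 ℂ j * ((starRingEnd ℂ ζ) ^ 2) ^ j * (c0 ℂ (k - j) * (ζ ^ 2) ^ (k - j))
      = (c0 ℂ j * c0 ℂ (k - j)) * (((starRingEnd ℂ ζ) ^ 2) ^ j * (ζ ^ 2) ^ (k - j)) := by ring
    _ = _ := by rw [this]; ring

theorem integral_B0 (ζ : ℂ) :
    (∫ t in (0 : ℝ)..(2 * Real.pi), B0 ℂ ((Qk ζ t : ℝ) : ℂ)) =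
      ((2 * Real.pi : ℝ) : ℂ) * (B0 ℂ ((starRingEnd ℂ ζ) ^ 2) * B0 ℂ (ζ ^ 2)) := by
  set R : ℝ := 4 * (ζ.re ^ 2 + ζ.im ^ 2) with hR
  have hR0 : 0 ≤ R := by positivity
  have hsum := summable_c0 ℂ R hR0
  have h := intervalIntegral.hasSum_integral_of_dominated_convergence
    (a := (0 : ℝ)) (b := 2 * Real.pi) (μ := MeasureTheory.volume)
    (F := fun (n : ℕ) (t : ℝ) => c0 ℂ n * ((Qk ζ t : ℝ) : ℂ) ^ n)
    (f := fun t => B0 ℂ ((Qk ζ t : ℝ) : ℂ))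
    (fun (n : ℕ) (_ : ℝ) => ‖c0 ℂ n‖ * R ^ n)
    (fun n => by
      refine Continuous.aestronglyMeasurable ?_
      have := continuous_Qk ζ
      fun_prop)
    (fun n => Filter.Eventually.of_forall (fun t _ => by
      rw [norm_mul, norm_pow]
      refine mul_le_mul_of_nonneg_left ?_ (norm_nonneg _)
      refine pow_le_pow_left₀ (norm_nonneg _) ?_ _
      rw [Complex.norm_real]
      exact Qk_abs_le ζ t))
    (Filter.Eventually.of_forall (fun t _ => hsum))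
    (by simp)
    (Filter.Eventually.of_forall (fun t _ => by
      have : Summable (fun n : ℕ => c0 ℂ n * ((Qk ζ t : ℝ) : ℂ) ^ n) := by
        refine Summable.of_norm ?_
        simpa [norm_mul, norm_pow] using summable_c0 ℂ ‖((Qk ζ t : ℝ) : ℂ)‖ (norm_nonneg _)
      exact this.hasSum))
  rw [← h.tsum_eq, normSq_series, ← tsum_mul_left]
  refine tsum_congr (fun k => ?_)
  rw [intervalIntegral.integral_const_mul, integral_Qk_pow]
  ring

/-- The integral representation of `|J_0|^2`. -/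
theorem normSq_B0 (ζ : ℂ) :
    2 * Real.pi * Complex.normSq (B0 ℂ (ζ ^ 2)) =
      ∫ t in (0 : ℝ)..(2 * Real.pi), B0 ℝ (Qk ζ t) := by
  have h := integral_B0 ζ
  have h1 : B0 ℂ ((starRingEnd ℂ ζ) ^ 2) = starRingEnd ℂ (B0 ℂ (ζ ^ 2)) := by
    simp only [B0]
    rw [Complex.conj_tsum]
    refine tsum_congr (fun n => ?_)
    simp [c0]
  rw [h1, mul_comm (starRingEnd ℂ (B0 ℂ (ζ ^ 2))) _, Complex.mul_conj] at h
  have h2 : (∫ t in (0 : ℝ)..(2 * Real.pi), B0 ℂ ((Qk ζ t : ℝ) : ℂ))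
      = ((∫ t in (0 : ℝ)..(2 * Real.pi), B0 ℝ (Qk ζ t) : ℝ) : ℂ) := by
    rw [← intervalIntegral.integral_ofReal]
    refine intervalIntegral.integral_congr (fun t _ => ?_)
    simp only [ofReal_B0]
  rw [h2] at h
  have h3 := congrArg Complex.re h
  simp only [Complex.ofReal_re, Complex.re_ofReal_mul] at h3
  rw [h3]

end Pool.Agent.H50
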