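import Mathlib
import Pool.Agent.H50.BesselC
import Pool.Agent.H50.BesselE

set_option autoImplicit false

open Finset Filter Topology

namespace Pool.Agent.H50

/-- `|J_0(r u)|^2` -/
noncomputable def Gr (u : ℂ) (r : ℝ) : ℝ := Complex.normSq (J0 ℂ ((r : ℂ) * u))

/-- `(|J_0(r u)|^2 - 1) / r^2` -/
noncomputable def hr (u : ℂ) (r : ℝ) : ℝ := (Gr u r - 1) / r ^ 2

/-- unit kernel -/
noncomputable def Qu (u : ℂ) (t : ℝ) : ℝ :=
  u.re ^ 2 * (Real.sin t) ^ 2 - u.im ^ 2 * (Real.cos t) ^ 2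

theorem continuous_Qu (u : ℂ) : Continuous (Qu u) := by
  unfold Qu
  fun_prop

theorem continuous_phi : Continuous phi :=
  continuous_iff_continuousAt.2 (fun q => (hasDerivAt_phi q).continuousAt)

theorem hr_eq (u : ℂ) (r : ℝ) (hr0 : 0 < r) :
    2 * Real.pi * hr u r = ∫ t in (0 : ℝ)..(2 * Real.pi), Qu u t * phi (r ^ 2 * Qu u t) := by
  have h := normSq_B0 ((r : ℂ) * u / 2)
  have hQ : ∀ t : ℝ, Qk ((r : ℂ) * u / 2) t = r ^ 2 * Qu u t := by
    intro t
    have h1 : ((r : ℂ) * u / 2).re = r * u.re / 2 := by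
      have : ((r : ℂ) * u / 2) = ((r / 2 : ℝ) : ℂ) * u := by push_cast; ring
      rw [this, Complex.re_ofReal_mul]; ring
    have h2 : ((r : ℂ) * u / 2).im = r * u.im / 2 := by
      have : ((r : ℂ) * u / 2) = ((r / 2 : ℝ) : ℂ) * u := by push_cast; ring
      rw [this, Complex.im_ofReal_mul]; ring
    rw [Qk, Qu, h1, h2]; ring
  have hG : Gr u r = Complex.normSq (B0 ℂ (((r : ℂ) * u / 2) ^ 2)) := rfl
  rw [← hG] at h
  simp only [hQ, B0_eq] at h
  have hint : (∫ t in (0 : ℝ)..(2 * Real.pi), (1 + r ^ 2 * Qu u t * phi (r ^ 2 * Qu u t)))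
      = 2 * Real.pi + r ^ 2 * ∫ t in (0 : ℝ)..(2 * Real.pi), Qu u t * phi (r ^ 2 * Qu u t) := by
    have hc1 := continuous_Qu u
    have hc2 := continuous_phi
    rw [intervalIntegral.integral_add (by simp)
      (Continuous.intervalIntegrable (by fun_prop) _ _), ← intervalIntegral.integral_const_mul]
    simp only [intervalIntegral.integral_const, sub_zero, smul_eq_mul, mul_one, add_right_inj]
    refine intervalIntegral.integral_congr (fun t _ => ?_)
    ring
  rw [hint] at h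
  rw [hr]
  have hr2 : r ^ 2 ≠ 0 := by positivity
  field_simp
  linarith

theorem hr_lt_of_le (u : ℂ) (hu : u ≠ 0) (s t : ℝ) (hs : 0 < s) (hst : s < t)
    (ht : (t * u.re) ^ 2 ≤ 9) : hr u s < hr u t := by
  have ht0 : 0 < t := hs.trans hst
  have h1 := hr_eq u s hs
  have h2 := hr_eq u t ht0
  have hc1 := continuous_Qu u
  have hc2 := continuous_phi
  have hst2 : s ^ 2 < t ^ 2 := by nlinarith
  have hQ9 : ∀ x : ℝ, t ^ 2 * Qu u x ≤ 9 := by
    intro x
    refine le_trans ?_ ht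
    rw [Qu]
    have e1 := Real.sin_sq_add_cos_sq x
    have e2 : 0 ≤ Real.sin x ^ 2 := sq_nonneg _
    have e3 : 0 ≤ Real.cos x ^ 2 := sq_nonneg _
    have e4 : 0 ≤ u.re ^ 2 := sq_nonneg _
    have e5 : 0 ≤ u.im ^ 2 := sq_nonneg _
    have e6 : u.re ^ 2 * Real.sin x ^ 2 - u.im ^ 2 * Real.cos x ^ 2 ≤ u.re ^ 2 := by
      nlinarith [mul_nonneg e5 e3, mul_nonneg e4 e3]
    have := mul_le_mul_of_nonneg_left e6 (sq_nonneg t)
    nlinarith
  have hkey : ∀ x : ℝ, Qu u x ≠ 0 →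
      Qu u x * phi (s ^ 2 * Qu u x) < Qu u x * phi (t ^ 2 * Qu u x) := by
    intro x hx
    rcases lt_or_gt_of_ne hx with h | h
    · have h3 : t ^ 2 * Qu u x < s ^ 2 * Qu u x := by nlinarith
      have h4 : s ^ 2 * Qu u x ≤ 9 := by nlinarith [sq_nonneg s]
      have := phi_strictMonoOn (Set.mem_Iic.2 (hQ9 x)) (Set.mem_Iic.2 h4) h3
      nlinarith
    · have h3 : s ^ 2 * Qu u x < t ^ 2 * Qu u x := by nlinarith
      have := phi_strictMonoOn (Set.mem_Iic.2 (h3.le.trans (hQ9 x))) (Set.mem_Iic.2 (hQ9 x)) h3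
      nlinarith
  have hle : ∀ x : ℝ, Qu u x * phi (s ^ 2 * Qu u x) ≤ Qu u x * phi (t ^ 2 * Qu u x) := by
    intro x
    by_cases hx : Qu u x = 0
    · simp [hx]
    · exact (hkey x hx).le
  have hlt : (∫ x in (0 : ℝ)..(2 * Real.pi), Qu u x * phi (s ^ 2 * Qu u x))
      < ∫ x in (0 : ℝ)..(2 * Real.pi), Qu u x * phi (t ^ 2 * Qu u x) := by
    refine intervalIntegral.integral_lt_integral_of_continuousOn_of_le_of_exists_lt
      (by positivity) (by fun_prop) (by fun_prop) (fun x _ => hle x) ?_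
    by_cases hre : u.re = 0
    · have him : u.im ≠ 0 := by
        intro h
        apply hu
        exact Complex.ext hre h
      refine ⟨0, ⟨le_rfl, by positivity⟩, hkey 0 ?_⟩
      rw [Qu, hre]
      simp [him]
    · refine ⟨Real.pi / 2, ⟨by positivity, by linarith [Real.pi_pos]⟩, hkey _ ?_⟩
      rw [Qu, Real.sin_pi_div_two, Real.cos_pi_div_two]
      simp [hre]
  have hpi := Real.pi_pos
  nlinarith

theorem hasDerivAt_Gr (u : ℂ) (r : ℝ) :
    HasDerivAt (Gr u) (-2 * (u.re * ((J1 ℂ ((r : ℂ) * u)).re * (J0 ℂ ((r : ℂ) * u)).re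
      + (J1 ℂ ((r : ℂ) * u)).im * (J0 ℂ ((r : ℂ) * u)).im)
      - u.im * ((J1 ℂ ((r : ℂ) * u)).im * (J0 ℂ ((r : ℂ) * u)).re
      - (J1 ℂ ((r : ℂ) * u)).re * (J0 ℂ ((r : ℂ) * u)).im))) r := by
  have h0 : HasDerivAt (fun r : ℝ => (r : ℂ) * u) u r := by
    simpa using (Complex.ofRealCLM.hasDerivAt (x := r)).mul_const u
  have h1 := (hasDerivAt_J0 ℂ ((r : ℂ) * u)).comp r h0
  have h2 := hasDerivAt_re h1
  have h3 := hasDerivAt_im h1
  have h4 := (h2.mul h2).add (h3.mul h3)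
  have h5 : Gr u = fun r : ℝ => (J0 ℂ ((r : ℂ) * u)).re * (J0 ℂ ((r : ℂ) * u)).re
      + (J0 ℂ ((r : ℂ) * u)).im * (J0 ℂ ((r : ℂ) * u)).im := by
    funext r
    rw [Gr, Complex.normSq_apply]
  rw [h5]
  convert! h4 using 1
  simp only [Complex.mul_re, Complex.mul_im, Complex.neg_re, Complex.neg_im, Function.comp_apply]
  ring

theorem hasDerivAt_hr (u : ℂ) (r : ℝ) (hr0 : 0 < r) :
    HasDerivAt (hr u) (2 * Hf (r * u.re) (r * u.im) / r ^ 3) r := by
  have h1 := ((hasDerivAt_Gr u r).sub_const 1).div ((hasDerivAt_id r).pow 2)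
    (by simp only [Pi.pow_apply, id]; positivity)
  have hz : ((r * u.re : ℝ) : ℂ) + ((r * u.im : ℝ) : ℂ) * Complex.I = (r : ℂ) * u := by
    push_cast
    conv_rhs => rw [← Complex.re_add_im u]
    ring
  convert! h1 using 1
  simp only [Hf, Vf, a1, a2, b1, b2, hz, Gr, Complex.normSq_apply, Pi.pow_apply, id]
  field_simp
  norm_num
  ring

theorem hr_lt_of_ge (u : ℂ) (hre : 0 < u.re) (him : 0 ≤ u.im) (s t : ℝ)
    (hs : 3 ≤ s * u.re) (hst : s < t) : hr u s < hr u t := by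
  have hs0 : 0 < s := by
    by_contra h
    push Not at h
    nlinarith
  have hmono : StrictMonoOn (hr u) (Set.Ici s) := by
    refine strictMonoOn_of_deriv_pos (convex_Ici s) (fun r hr' => ?_) (fun r hr' => ?_)
    · exact (hasDerivAt_hr u r (hs0.trans_le hr')).continuousAt.continuousWithinAt
    · rw [interior_Ici] at hr'
      have hr'' : s < r := hr'
      have hr0 : 0 < r := hs0.trans hr''
      rw [(hasDerivAt_hr u r hr0).deriv]
      have := Hf_pos (r * u.re) (r * u.im) (by nlinarith) (by positivity)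
      positivity
  exact hmono Set.self_mem_Ici (Set.mem_Ici.2 hst.le) hst

theorem hr_strictMono (u : ℂ) (hu : u ≠ 0) (hre : 0 ≤ u.re) (him : 0 ≤ u.im) (s t : ℝ)
    (hs : 0 < s) (hst : s < t) : hr u s < hr u t := by
  by_cases h1 : t * u.re ≤ 3
  · refine hr_lt_of_le u hu s t hs hst ?_
    have : 0 ≤ t * u.re := mul_nonneg (hs.trans hst).le hre
    nlinarith
  · push Not at h1
    have hre' : 0 < u.re := by
      by_contra h
      have : u.re = 0 := le_antisymm (not_lt.1 h) hre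
      rw [this] at h1
      linarith
    by_cases h2 : 3 ≤ s * u.re
    · exact hr_lt_of_ge u hre' him s t h2 hst
    · push Not at h2
      have h3 : 3 / u.re * u.re = 3 := div_mul_cancel₀ 3 hre'.ne'
      have h4 : s < 3 / u.re := by
        rw [lt_div_iff₀ hre']; exact h2
      have h5 : 3 / u.re < t := by
        rw [div_lt_iff₀ hre']; exact h1
      refine (hr_lt_of_le u hu s (3 / u.re) hs h4 ?_).trans
        (hr_lt_of_ge u hre' him (3 / u.re) t (by rw [h3]) h5)
      rw [h3]; norm_num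

theorem J0_neg (z : ℂ) : J0 ℂ (-z) = J0 ℂ z := by
  rw [J0, J0]
  congr 1
  ring

theorem J0_conj (z : ℂ) : J0 ℂ (starRingEnd ℂ z) = starRingEnd ℂ (J0 ℂ z) := by
  rw [J0, J0]
  simp only [B0]
  rw [Complex.conj_tsum]
  refine tsum_congr (fun n => ?_)
  have h2 : starRingEnd ℂ (2 : ℂ) = 2 := map_ofNat _ 2
  simp [c0, h2]

theorem Gr_neg (u : ℂ) (r : ℝ) : Gr (-u) r = Gr u r := by
  rw [Gr, Gr, mul_neg, J0_neg]

theorem Gr_conj (u : ℂ) (r : ℝ) : Gr (starRingEnd ℂ u) r = Gr u r := by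
  rw [Gr, Gr]
  have : (r : ℂ) * starRingEnd ℂ u = starRingEnd ℂ ((r : ℂ) * u) := by simp
  rw [this, J0_conj, Complex.normSq_conj]

/-- `|J_0| = 1` at most once on every open ray; in fact `(|J_0(ru)|^2-1)/r^2` is strictly
increasing. -/
theorem hr_strictMono' (u : ℂ) (hu : u ≠ 0) (s t : ℝ)
    (hs : 0 < s) (hst : s < t) : hr u s < hr u t := by
  -- reduce to the closed first quadrant
  have key : ∀ v : ℂ, v ≠ 0 → 0 ≤ v.re → hr v s < hr v t := by
    intro v hv hvre
    by_cases h : 0 ≤ v.im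
    · exact hr_strictMono v hv hvre h s t hs hst
    · push Not at h
      have h1 := hr_strictMono (starRingEnd ℂ v) (by simpa using hv) (by simpa using hvre)
        (by simp; linarith) s t hs hst
      simpa [hr, Gr_conj] using h1
  by_cases h : 0 ≤ u.re
  · exact key u hu h
  · push Not at h
    have h1 := key (-u) (by simpa using hu) (by simp; linarith)
    simpa [hr, Gr_neg] using h1

end Pool.Agent.H50
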