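import Mathlib

/-!
# A compactness lemma for approximate semigroups of power series
-/

open Filter Topology Finset

namespace Pool.Agent.H50.FdA

/-- There is no exact local semigroup of truncated power series without constant term
whose value at time `4` is nonzero. -/
theorem exact_local (L : ℕ) (G : ℝ → ℕ → ℂ)
    (h0 : ∀ t, 1 ≤ t → t ≤ 4 → G t 0 = 0)
    (hm : ∀ s t, 1 ≤ s → 1 ≤ t → s + t ≤ 4 → ∀ k, k < L →
      G (s + t) k = ∑ p ∈ antidiagonal k, G s p.1 * G t p.2) :
    ∀ k, k < L → G 4 k = 0 := by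
  by_contra hcon
  push Not at hcon
  obtain ⟨k0, hk0, hne⟩ := hcon
  -- every `G s`, `1 ≤ s ≤ 3`, has a nonzero coefficient below `L`
  have hex : ∀ s, 1 ≤ s → s ≤ 3 → ∃ j, j < L ∧ G s j ≠ 0 := by
    intro s hs1 hs3
    by_contra hno
    push Not at hno
    apply hne
    have := hm s (4 - s) hs1 (by linarith) (by linarith) k0 hk0
    rw [show s + (4 - s) = 4 by ring] at this
    rw [this]
    apply Finset.sum_eq_zero
    intro p hp
    rw [HasAntidiagonal.mem_antidiagonal] at hp
    rw [hno p.1 (by omega), zero_mul]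
  let f : ℝ → ℕ := fun s => sInf {j | G s j ≠ 0}
  have hfne : ∀ s, 1 ≤ s → s ≤ 3 → G s (f s) ≠ 0 := by
    intro s h1 h3
    obtain ⟨j, _, hj⟩ := hex s h1 h3
    exact Nat.sInf_mem (s := {j | G s j ≠ 0}) ⟨j, hj⟩
  have hfL : ∀ s, 1 ≤ s → s ≤ 3 → f s < L := by
    intro s h1 h3
    obtain ⟨j, hjL, hj⟩ := hex s h1 h3
    exact lt_of_le_of_lt (Nat.sInf_le (s := {j | G s j ≠ 0}) hj) hjL
  have hflt : ∀ s j, j < f s → G s j = 0 := by
    intro s j hj
    by_contra h
    exact absurd (Nat.sInf_le (s := {j | G s j ≠ 0}) h) (not_le.mpr hj)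
  have hadd : ∀ s t, 1 ≤ s → 1 ≤ t → s + t ≤ 3 → f (s + t) = f s + f t := by
    intro s t hs ht hst
    -- coefficients of `G (s+t)` below `f s + f t` vanish
    have hzero : ∀ k, k < L → k < f s + f t → G (s + t) k = 0 := by
      intro k hkL hk
      rw [hm s t hs ht (by linarith) k hkL]
      apply Finset.sum_eq_zero
      intro p hp
      rw [HasAntidiagonal.mem_antidiagonal] at hp
      by_cases h : p.1 < f s
      · rw [hflt s p.1 h, zero_mul]
      · rw [hflt t p.2 (by omega), mul_zero]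
    have hlt : f s + f t < L := by
      by_contra h
      exact hfne (s + t) (by linarith) hst
        (hzero _ (hfL _ (by linarith) hst) (lt_of_lt_of_le (hfL _ (by linarith) hst) (not_lt.mp h)))
    have hval : G (s + t) (f s + f t) = G s (f s) * G t (f t) := by
      rw [hm s t hs ht (by linarith) _ hlt]
      rw [Finset.sum_eq_single (f s, f t)]
      · intro p hp hpne
        rw [HasAntidiagonal.mem_antidiagonal] at hp
        by_cases h : p.1 < f s
        · rw [hflt s p.1 h, zero_mul]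
        · have h2 : p.2 < f t := by
            rcases Nat.lt_or_ge p.2 (f t) with h2 | h2
            · exact h2
            · exfalso
              apply hpne
              ext <;> simp <;> omega
          rw [hflt t p.2 h2, mul_zero]
      · intro h
        exact absurd (HasAntidiagonal.mem_antidiagonal (n := f s + f t) (a := (f s, f t)) |>.mpr rfl) h
    have hvne : G (s + t) (f s + f t) ≠ 0 := by
      rw [hval]
      exact mul_ne_zero (hfne s hs (by linarith)) (hfne t ht (by linarith))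
    apply le_antisymm
    · exact Nat.sInf_le (s := {j | G (s + t) j ≠ 0}) hvne
    · by_contra h
      exact hfne (s + t) (by linarith) hst
        (hzero _ (hfL _ (by linarith) hst) (not_le.mp h))
  -- the increment function
  have hd : ∀ x y, 0 ≤ x → 0 ≤ y → x + y ≤ 1 →
      (f (1 + (x + y)) : ℤ) - f 1 = ((f (1 + x) : ℤ) - f 1) + ((f (1 + y) : ℤ) - f 1) := by
    intro x y hx hy hxy
    have e1 := hadd (1 + x) (1 + y) (by linarith) (by linarith) (by linarith)
    have e2 := hadd (1 + (x + y)) 1 (by linarith) (by linarith) (by linarith)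
    rw [show 1 + x + (1 + y) = 1 + (x + y) + 1 by ring, e2] at e1
    have : (f (1 + (x + y)) : ℤ) + f 1 = f (1 + x) + f (1 + y) := by exact_mod_cast e1
    linarith
  have hmul : ∀ (x : ℝ) (k : ℕ), 0 ≤ x → k * x ≤ 1 →
      (f (1 + k * x) : ℤ) - f 1 = k * ((f (1 + x) : ℤ) - f 1) := by
    intro x k hx
    induction k with
    | zero => intro _; simp
    | succ k ih =>
      intro hk
      push_cast at hk ⊢
      have h1 : (k : ℝ) * x ≤ 1 := by nlinarith
      have h2 := hd (k * x) x (by positivity) hx (by nlinarith)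
      rw [show ((k : ℝ) + 1) * x = k * x + x by ring, h2, ih h1]
      ring
  have hdz : (f (1 + 1) : ℤ) - f 1 = 0 := by
    by_contra hnz
    set D : ℤ := (f (1 + 1) : ℤ) - f 1 with hD
    have hN := hmul (1 / ((D.natAbs : ℝ) + 1)) (D.natAbs + 1) (by positivity)
      (by push_cast; rw [mul_one_div_cancel (by positivity)])
    push_cast at hN
    rw [mul_one_div_cancel (by positivity), ← hD] at hN
    have hdvd : ((|D| + 1 : ℤ)) ∣ D := Dvd.intro _ hN.symm
    have := Int.le_of_dvd (abs_pos.mpr hnz) ((dvd_abs _ _).mpr hdvd)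
    linarith
  have h11 := hadd 1 1 le_rfl le_rfl (by norm_num)
  have h1pos : f 1 ≠ 0 := by
    intro h
    have := hfne 1 le_rfl (by norm_num)
    rw [h] at this
    exact this (h0 1 le_rfl (by norm_num))
  omega

/-- Compactness: an approximate local semigroup of truncated power series without constant
term has small value at time `4`. -/
theorem compactness (L : ℕ) (C δ : ℝ) (hδ : 0 < δ) :
    ∃ ε : ℝ, 0 < ε ∧ ∀ g : ℝ → ℕ → ℂ,
      (∀ t, 1 ≤ t → t ≤ 4 → g t 0 = 0) →
      (∀ t, 1 ≤ t → t ≤ 4 → ∀ j, j < L → ‖g t j‖ ≤ C) →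
      (∀ s t, 1 ≤ s → 1 ≤ t → s + t ≤ 4 → ∀ k, k < L →
        ‖g (s + t) k - ∑ p ∈ antidiagonal k, g s p.1 * g t p.2‖ ≤ ε) →
      ∀ k, k < L → ‖g 4 k‖ ≤ δ := by
  by_contra hcon
  push Not at hcon
  have hseq : ∀ n : ℕ, (0 : ℝ) < 1 / ((n : ℝ) + 1) := fun n => by positivity
  choose g hg0 hgC hgm k hkL hkδ using fun n : ℕ => hcon (1 / ((n : ℝ) + 1)) (hseq n)
  let U : Ultrafilter ℕ := hyperfilter ℕ
  -- limits along the ultrafilter
  have hlim : ∀ t : ℝ, ∀ j : ℕ, 1 ≤ t → t ≤ 4 → j < L →
      ∃ z : ℂ, Tendsto (fun n => g n t j) U (𝓝 z) := by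
    intro t j h1 h4 hj
    have hc : IsCompact (Metric.closedBall (0 : ℂ) C) := isCompact_closedBall 0 C
    have hle : ((U.map fun n => g n t j : Ultrafilter ℂ) : Filter ℂ)
        ≤ 𝓟 (Metric.closedBall (0 : ℂ) C) := by
      rw [le_principal_iff]
      apply Ultrafilter.mem_coe.mpr
      rw [Ultrafilter.mem_map]
      apply Filter.Eventually.of_forall (f := (U : Filter ℕ))
      intro n
      simpa using hgC n t h1 h4 j hj
    obtain ⟨z, _, hz⟩ := hc.ultrafilter_le_nhds _ hle
    exact ⟨z, hz⟩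
  classical
  let G : ℝ → ℕ → ℂ := fun t j =>
    if h : 1 ≤ t ∧ t ≤ 4 ∧ j < L then (hlim t j h.1 h.2.1 h.2.2).choose else 0
  have hG : ∀ t j, 1 ≤ t → t ≤ 4 → j < L → Tendsto (fun n => g n t j) U (𝓝 (G t j)) := by
    intro t j h1 h4 hj
    have : G t j = (hlim t j h1 h4 hj).choose := by
      simp only [G]
      rw [dif_pos ⟨h1, h4, hj⟩]
    rw [this]
    exact (hlim t j h1 h4 hj).choose_spec
  have hinv : Tendsto (fun n : ℕ => 1 / ((n : ℝ) + 1)) U (𝓝 0) :=
    tendsto_one_div_add_atTop_nhds_zero_nat.mono_left (by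
      rw [← Nat.cofinite_eq_atTop]; exact hyperfilter_le_cofinite)
  have hUne : NeBot (U : Filter ℕ) := U.neBot
  have key := exact_local L G
    (by
      intro t h1 h4
      by_cases hL : 0 < L
      · have h := hG t 0 h1 h4 hL
        have : (fun n => g n t 0) = fun _ => (0 : ℂ) := by
          funext n; exact hg0 n t h1 h4
        rw [this] at h
        exact (tendsto_nhds_unique h tendsto_const_nhds)
      · simp only [G]
        rw [dif_neg]
        tauto)
    (by
      intro s t hs ht hst k hk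
      have h1 : Tendsto (fun n => g n (s + t) k - ∑ p ∈ antidiagonal k, g n s p.1 * g n t p.2) U
          (𝓝 (G (s + t) k - ∑ p ∈ antidiagonal k, G s p.1 * G t p.2)) := by
        apply Tendsto.sub (hG _ _ (by linarith) hst hk)
        apply tendsto_finsetSum
        intro p hp
        rw [HasAntidiagonal.mem_antidiagonal] at hp
        exact (hG s p.1 hs (by linarith) (by omega)).mul (hG t p.2 ht (by linarith) (by omega))
      have h2 : Tendsto (fun n => g n (s + t) k - ∑ p ∈ antidiagonal k, g n s p.1 * g n t p.2) U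
          (𝓝 0) := by
        apply squeeze_zero_norm _ hinv
        intro n
        exact hgm n s t hs ht hst k hk
      have := tendsto_nhds_unique h1 h2
      exact sub_eq_zero.mp this)
  -- some fixed index is hit along the ultrafilter
  have hfin : ∃ k0 < L, ∀ᶠ n in (U : Filter ℕ), δ < ‖g n 4 k0‖ := by
    by_contra hno
    push Not at hno
    have h1 : ∀ k0 ∈ Finset.range L, ∀ᶠ n in (U : Filter ℕ), ¬ δ < ‖g n 4 k0‖ := by
      intro k0 hk0
      exact (hno k0 (Finset.mem_range.mp hk0)).mono fun n hn => not_lt.mpr hn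
    have h2 := (Filter.eventually_all_finset (Finset.range L)).mpr h1
    obtain ⟨n, hn⟩ := h2.exists
    exact hn (k n) (Finset.mem_range.mpr (hkL n)) (hkδ n)
  obtain ⟨k0, hk0, hev⟩ := hfin
  have hlim4 := (hG 4 k0 (by norm_num) le_rfl hk0).norm
  have hge : δ ≤ ‖G 4 k0‖ := ge_of_tendsto hlim4 (hev.mono fun n hn => hn.le)
  rw [key k0 hk0, norm_zero] at hge
  linarith

/-- Choice of the growth sequence. -/
theorem exists_growth (ε : ℕ → ℝ) (hε : ∀ n, 0 < ε n) :
    ∃ h : ℕ → ℝ, Monotone h ∧ h 0 = 0 ∧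
      ∀ n : ℕ, (n : ℝ) ^ 2 * Real.exp (2 * (n : ℝ) ^ 2 - 2 * h (n + 1)) ≤ ε n := by
  let τ : ℕ → ℝ := fun n => (n : ℝ) ^ 2 + (1 / 2) * Real.log (((n : ℝ) ^ 2 + 1) / ε n)
  refine ⟨fun n => ∑ k ∈ Finset.range n, max (τ k) 0, ?_, by simp, ?_⟩
  · apply monotone_nat_of_le_succ
    intro n
    rw [Finset.sum_range_succ]
    linarith [le_max_right (τ n) 0]
  · intro n
    have h1 : τ n ≤ ∑ k ∈ Finset.range (n + 1), max (τ k) 0 := by
      rw [Finset.sum_range_succ]
      have : 0 ≤ ∑ k ∈ Finset.range n, max (τ k) 0 :=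
        Finset.sum_nonneg fun k _ => le_max_right _ _
      linarith [le_max_left (τ n) 0]
    have hpos : 0 < ((n : ℝ) ^ 2 + 1) / ε n := div_pos (by positivity) (hε n)
    calc (n : ℝ) ^ 2 * Real.exp (2 * (n : ℝ) ^ 2 - 2 * ∑ k ∈ Finset.range (n + 1), max (τ k) 0)
        ≤ (n : ℝ) ^ 2 * Real.exp (2 * (n : ℝ) ^ 2 - 2 * τ n) := by
          apply mul_le_mul_of_nonneg_left _ (by positivity)
          apply Real.exp_le_exp.mpr
          linarith
      _ = (n : ℝ) ^ 2 * (((n : ℝ) ^ 2 + 1) / ε n)⁻¹ := by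
          congr 1
          have : 2 * (n : ℝ) ^ 2 - 2 * τ n = - Real.log (((n : ℝ) ^ 2 + 1) / ε n) := by
            simp only [τ]; ring
          rw [this, Real.exp_neg, Real.exp_log hpos]
      _ ≤ ε n := by
          rw [inv_div, mul_div_assoc', div_le_iff₀ (by positivity)]
          nlinarith [hε n, sq_nonneg (n : ℝ)]

end Pool.Agent.H50.FdA
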