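import Mathlib

/-!
# Weighted convolution algebras on the nonnegative rationals

For a submultiplicative weight `ω` on `ℚ≥0` we complete the monoid algebra of `ℚ≥0` in the
weighted `ℓ¹` norm and record its basic interface: the point masses `δ q`, the coefficient
functionals, the extension principle and the injectivity of the coefficient map.
-/

open Filter Topology Finset

namespace Pool.Agent.H50.FdB

/-- A submultiplicative weight on the nonnegative rationals. -/
structure Wt where
  ω : ℚ≥0 → ℝ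
  pos : ∀ q, 0 < ω q
  mul : ∀ q r, ω (q + r) ≤ ω q * ω r

variable (w : Wt)

/-- The weighted `ℓ¹` norm. -/
noncomputable def nrm (f : AddMonoidAlgebra ℂ ℚ≥0) : ℝ := f.coeff.sum fun q c => ‖c‖ * w.ω q

theorem nrm_of_subset (f : AddMonoidAlgebra ℂ ℚ≥0) (s : Finset ℚ≥0) (hs : f.coeff.support ⊆ s) :
    nrm w f = ∑ q ∈ s, ‖f.coeff q‖ * w.ω q := by
  unfold nrm
  exact Finsupp.sum_of_support_subset _ hs _ (fun q _ => by simp)

theorem nrm_nonneg (f : AddMonoidAlgebra ℂ ℚ≥0) : 0 ≤ nrm w f :=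
  Finset.sum_nonneg fun q _ => mul_nonneg (norm_nonneg _) (w.pos q).le

theorem nrm_zero : nrm w 0 = 0 := by simp [nrm]

theorem nrm_single (q : ℚ≥0) (c : ℂ) : nrm w (AddMonoidAlgebra.single q c) = ‖c‖ * w.ω q := by
  simp [nrm]

theorem nrm_add_le (f g : AddMonoidAlgebra ℂ ℚ≥0) : nrm w (f + g) ≤ nrm w f + nrm w g := by
  classical
  have h1 : (f + g).coeff.support ⊆ f.coeff.support ∪ g.coeff.support := Finsupp.support_add
  rw [nrm_of_subset w (f + g) _ h1, nrm_of_subset w f _ subset_union_left,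
    nrm_of_subset w g _ subset_union_right, ← Finset.sum_add_distrib]
  apply Finset.sum_le_sum
  intro q _
  rw [← add_mul]
  apply mul_le_mul_of_nonneg_right _ (w.pos q).le
  rw [AddMonoidAlgebra.coeff_add, Finsupp.add_apply]
  exact norm_add_le _ _

theorem nrm_neg (f : AddMonoidAlgebra ℂ ℚ≥0) : nrm w (-f) = nrm w f := by
  rw [nrm_of_subset w (-f) f.coeff.support (by simp), nrm_of_subset w f f.coeff.support subset_rfl]
  apply Finset.sum_congr rfl
  intro q _
  simp

theorem nrm_smul (c : ℂ) (f : AddMonoidAlgebra ℂ ℚ≥0) : nrm w (c • f) = ‖c‖ * nrm w f := by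
  rw [nrm_of_subset w (c • f) f.coeff.support (by
      rw [AddMonoidAlgebra.coeff_smul]; exact Finsupp.support_smul),
    nrm_of_subset w f f.coeff.support subset_rfl, Finset.mul_sum]
  apply Finset.sum_congr rfl
  intro q _
  rw [AddMonoidAlgebra.coeff_smul, Finsupp.smul_apply, norm_smul]
  ring

theorem nrm_sum_le {ι : Type*} (s : Finset ι) (f : ι → AddMonoidAlgebra ℂ ℚ≥0) :
    nrm w (∑ i ∈ s, f i) ≤ ∑ i ∈ s, nrm w (f i) := by
  classical
  induction s using Finset.induction_on with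
  | empty => simp [nrm_zero]
  | insert a s ha ih =>
    rw [Finset.sum_insert ha, Finset.sum_insert ha]
    exact (nrm_add_le w _ _).trans (by linarith)

theorem nrm_mul_le (f g : AddMonoidAlgebra ℂ ℚ≥0) : nrm w (f * g) ≤ nrm w f * nrm w g := by
  rw [AddMonoidAlgebra.mul_def]
  unfold Finsupp.sum
  calc nrm w (∑ q ∈ f.coeff.support, ∑ r ∈ g.coeff.support,
          AddMonoidAlgebra.single (q + r) (f.coeff q * g.coeff r))
      ≤ ∑ q ∈ f.coeff.support, ∑ r ∈ g.coeff.support,
          nrm w (AddMonoidAlgebra.single (q + r) (f.coeff q * g.coeff r)) :=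
        (nrm_sum_le w _ _).trans (Finset.sum_le_sum fun q _ => nrm_sum_le w _ _)
    _ ≤ ∑ q ∈ f.coeff.support, ∑ r ∈ g.coeff.support,
          (‖f.coeff q‖ * w.ω q) * (‖g.coeff r‖ * w.ω r) := by
        apply Finset.sum_le_sum
        intro q _
        apply Finset.sum_le_sum
        intro r _
        rw [nrm_single, norm_mul]
        calc ‖f.coeff q‖ * ‖g.coeff r‖ * w.ω (q + r)
            ≤ ‖f.coeff q‖ * ‖g.coeff r‖ * (w.ω q * w.ω r) :=
              mul_le_mul_of_nonneg_left (w.mul q r) (by positivity)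
          _ = _ := by ring
    _ = nrm w f * nrm w g := by
        rw [nrm_of_subset w f _ subset_rfl, nrm_of_subset w g _ subset_rfl, Finset.sum_mul_sum]

theorem eq_zero_of_nrm (f : AddMonoidAlgebra ℂ ℚ≥0) (h : nrm w f = 0) : f = 0 := by
  rw [← AddMonoidAlgebra.coeff_eq_zero]
  rw [nrm_of_subset w f _ subset_rfl] at h
  rw [Finset.sum_eq_zero_iff_of_nonneg
    (fun q _ => mul_nonneg (norm_nonneg _) (w.pos q).le)] at h
  ext q
  by_cases hq : q ∈ f.coeff.support
  · have := h q hq
    rcases mul_eq_zero.mp this with h1 | h1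
    · simpa using h1
    · exact absurd h1 (w.pos q).ne'
  · simpa using hq

/-- The weighted norm as a ring norm. -/
noncomputable def ringNrm : RingNorm (AddMonoidAlgebra ℂ ℚ≥0) where
  toFun := nrm w
  map_zero' := nrm_zero w
  add_le' := nrm_add_le w
  neg' := nrm_neg w
  mul_le' := nrm_mul_le w
  eq_zero_of_map_eq_zero' := eq_zero_of_nrm w

/-- The monoid algebra with its weighted norm. -/
def A0 (_ : Wt) : Type := AddMonoidAlgebra ℂ ℚ≥0

noncomputable instance : CommRing (A0 w) := inferInstanceAs (CommRing (AddMonoidAlgebra ℂ ℚ≥0))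

noncomputable instance : Algebra ℂ (A0 w) := inferInstanceAs (Algebra ℂ (AddMonoidAlgebra ℂ ℚ≥0))

noncomputable instance : NormedRing (A0 w) := RingNorm.toNormedRing (R := A0 w) (ringNrm w)

noncomputable instance : NormedCommRing (A0 w) :=
  { (inferInstance : NormedRing (A0 w)) with mul_comm := mul_comm }

theorem norm_def (x : A0 w) : ‖x‖ = nrm w x := rfl

noncomputable instance : NormedAlgebra ℂ (A0 w) :=
  { (inferInstance : Algebra ℂ (A0 w)) with
    norm_smul_le := fun c x => (nrm_smul w c x).le }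

/-- The completed weighted algebra. -/
abbrev A : Type := UniformSpace.Completion (A0 w)

/-- The finitely supported point mass. -/
noncomputable def d0 (q : ℚ≥0) : A0 w := (AddMonoidAlgebra.single q (1 : ℂ) : AddMonoidAlgebra ℂ ℚ≥0)

theorem norm_d0 (q : ℚ≥0) : ‖d0 w q‖ = w.ω q := by
  rw [norm_def, d0, nrm_single]; simp

theorem A0_eq_sum (x : A0 w) :
    x = ∑ q ∈ (AddMonoidAlgebra.coeff (R := ℂ) (M := ℚ≥0) x).support,
      (AddMonoidAlgebra.coeff (R := ℂ) (M := ℚ≥0) x) q • d0 w q := by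
  have h := (AddMonoidAlgebra.sum_coeff_single (R := ℂ) (M := ℚ≥0) x)
  conv_lhs => rw [← h]
  unfold Finsupp.sum
  apply Finset.sum_congr rfl
  intro q _
  change _ = (AddMonoidAlgebra.coeff (R := ℂ) (M := ℚ≥0) x) q •
    (AddMonoidAlgebra.single q (1 : ℂ) : AddMonoidAlgebra ℂ ℚ≥0)
  rw [AddMonoidAlgebra.smul_single']
  simp

theorem norm_A0 (x : A0 w) :
    ‖x‖ = ∑ q ∈ (AddMonoidAlgebra.coeff (R := ℂ) (M := ℚ≥0) x).support,
      ‖(AddMonoidAlgebra.coeff (R := ℂ) (M := ℚ≥0) x) q‖ * w.ω q := rfl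

/-- The point mass at `q`. -/
noncomputable def δ (q : ℚ≥0) : A w := (d0 w q : A w)

theorem norm_δ (q : ℚ≥0) : ‖δ w q‖ = w.ω q := by
  rw [δ, UniformSpace.Completion.norm_coe, norm_d0]

theorem δ_zero : δ w 0 = 1 := by
  have : d0 w 0 = 1 := rfl
  rw [δ, this, UniformSpace.Completion.coe_one]

theorem d0_add (q r : ℚ≥0) : d0 w (q + r) = d0 w q * d0 w r := by
  have h := AddMonoidAlgebra.single_mul_single (R := ℂ) q r (1 : ℂ) 1
  rw [one_mul] at h
  exact h.symm

theorem δ_add (q r : ℚ≥0) : δ w (q + r) = δ w q * δ w r := by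
  rw [δ, δ, δ, d0_add, UniformSpace.Completion.coe_mul]

/-- Extension principle: a bounded linear map is bounded by its values on point masses. -/
theorem ext_bound {F : Type*} [NormedAddCommGroup F] [NormedSpace ℂ F] (T : A w →L[ℂ] F) (M : ℝ)
    (h : ∀ q, ‖T (δ w q)‖ ≤ M * w.ω q) (x : A w) : ‖T x‖ ≤ M * ‖x‖ := by
  induction x using UniformSpace.Completion.induction_on with
  | hp => exact isClosed_le (by fun_prop) (by fun_prop)
  | ih a =>
    rw [UniformSpace.Completion.norm_coe, norm_A0]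
    have hT : T (a : A w) = ∑ q ∈ (AddMonoidAlgebra.coeff (R := ℂ) (M := ℚ≥0) a).support,
      (AddMonoidAlgebra.coeff (R := ℂ) (M := ℚ≥0) a) q • T (δ w q) := by
      have h1 : T (a : A w) = (T.comp (UniformSpace.Completion.toComplL (𝕜 := ℂ) (E := A0 w))) a :=
        rfl
      rw [h1]
      conv_lhs => rw [A0_eq_sum w a]
      rw [map_sum]
      apply Finset.sum_congr rfl
      intro q _
      rw [map_smul]
      rfl
    rw [hT, Finset.mul_sum]
    refine (norm_sum_le _ _).trans (Finset.sum_le_sum fun q _ => ?_)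
    rw [norm_smul]
    calc ‖(AddMonoidAlgebra.coeff (R := ℂ) (M := ℚ≥0) a) q‖ * ‖T (δ w q)‖
        ≤ ‖(AddMonoidAlgebra.coeff (R := ℂ) (M := ℚ≥0) a) q‖ * (M * w.ω q) :=
          mul_le_mul_of_nonneg_left (h q) (norm_nonneg _)
      _ = _ := by ring

/-- Two bounded linear maps agreeing on the point masses agree. -/
theorem ext_eq {F : Type*} [NormedAddCommGroup F] [NormedSpace ℂ F] (T S : A w →L[ℂ] F)
    (h : ∀ q, T (δ w q) = S (δ w q)) : T = S := by
  ext x
  have := ext_bound w (T - S) 0 (by intro q; simp [h q]) x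
  rw [zero_mul] at this
  have h2 : (T - S) x = 0 := by simpa using this
  simpa [sub_eq_zero] using h2

theorem coeff_norm_le (q : ℚ≥0) (x : A0 w) :
    ‖(AddMonoidAlgebra.coeff (R := ℂ) (M := ℚ≥0) x) q‖ ≤ (1 / w.ω q) * ‖x‖ := by
  rw [div_mul_eq_mul_div, one_mul, le_div_iff₀ (w.pos q), norm_A0]
  by_cases hq : q ∈ (AddMonoidAlgebra.coeff (R := ℂ) (M := ℚ≥0) x).support
  · exact Finset.single_le_sum
      (f := fun q => ‖(AddMonoidAlgebra.coeff (R := ℂ) (M := ℚ≥0) x) q‖ * w.ω q)
      (fun r _ => mul_nonneg (norm_nonneg _) (w.pos r).le) hq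
  · rw [Finsupp.notMem_support_iff.mp hq, norm_zero, zero_mul]
    exact Finset.sum_nonneg (fun r _ => mul_nonneg (norm_nonneg _) (w.pos r).le)

/-- The coefficient functional on finitely supported elements. -/
noncomputable def coef0 (q : ℚ≥0) : A0 w →L[ℂ] ℂ :=
  LinearMap.mkContinuous
    { toFun := fun x => (AddMonoidAlgebra.coeff (R := ℂ) (M := ℚ≥0) x) q
      map_add' := fun _ _ => rfl
      map_smul' := fun _ _ => rfl } (1 / w.ω q) (coeff_norm_le w q)

/-- The coefficient functional. -/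
noncomputable def coef (q : ℚ≥0) : A w →L[ℂ] ℂ := (coef0 w q).fromCompletion

theorem coef_δ (q r : ℚ≥0) : coef w q (δ w r) = if r = q then 1 else 0 := by
  rw [coef, δ, ContinuousLinearMap.fromCompletion_apply_coe]
  change (Finsupp.single r (1 : ℂ)) q = _
  rw [Finsupp.single_apply]

theorem coef_coe (q : ℚ≥0) (a : A0 w) :
    coef w q (a : A w) = (AddMonoidAlgebra.coeff (R := ℂ) (M := ℚ≥0) a) q := by
  rw [coef, ContinuousLinearMap.fromCompletion_apply_coe]
  rfl

theorem norm_coef_le (q : ℚ≥0) (x : A w) : ‖coef w q x‖ ≤ (1 / w.ω q) * ‖x‖ := by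
  apply ext_bound
  intro r
  rw [coef_δ]
  split_ifs with h
  · subst h
    rw [norm_one, one_div_mul_cancel (w.pos r).ne']
  · rw [norm_zero]
    exact mul_nonneg (by have := w.pos q; positivity) (w.pos r).le

/-- Finitely many weighted coefficients are bounded by the norm. -/
theorem sum_coef_le (s : Finset ℚ≥0) (x : A w) : ∑ q ∈ s, ‖coef w q x‖ * w.ω q ≤ ‖x‖ := by
  induction x using UniformSpace.Completion.induction_on with
  | hp =>
    exact isClosed_le (continuous_finsetSum _ fun q _ => by fun_prop) (by fun_prop)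
  | ih a =>
    classical
    rw [UniformSpace.Completion.norm_coe, norm_def, nrm_of_subset w a (s ∪ _) subset_union_right]
    simp only [coef_coe]
    exact Finset.sum_le_sum_of_subset_of_nonneg subset_union_left
      (fun q _ _ => mul_nonneg (norm_nonneg _) (w.pos q).le)

/-- An element with vanishing coefficients is zero. -/
theorem eq_zero_of_coef (x : A w) (h : ∀ q, coef w q x = 0) : x = 0 := by
  rw [← norm_le_zero_iff]
  apply le_of_forall_pos_le_add
  intro ε hε
  obtain ⟨a, ha⟩ := (UniformSpace.Completion.denseRange_coe (α := A0 w)).exists_dist_lt x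
    (half_pos hε)
  rw [dist_eq_norm] at ha
  have h1 : ‖(a : A w)‖ ≤ ‖x - (a : A w)‖ := by
    rw [UniformSpace.Completion.norm_coe, norm_A0]
    refine le_trans (le_of_eq ?_) (sum_coef_le w (AddMonoidAlgebra.coeff (R := ℂ) (M := ℚ≥0) a).support
      (x - (a : A w)))
    apply Finset.sum_congr rfl
    intro q _
    rw [map_sub, h q, zero_sub, norm_neg, coef_coe]
  have h2 : ‖x‖ ≤ ‖x - (a : A w)‖ + ‖(a : A w)‖ := by
    simpa using norm_add_le (x - (a : A w)) (a : A w)
  linarith

/-- Bounded bilinear forms are controlled by their values on pairs of point masses. -/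
theorem bilin_bound {F : Type*} [NormedAddCommGroup F] [NormedSpace ℂ F]
    (B : A w →L[ℂ] A w →L[ℂ] F) (M : ℝ)
    (h : ∀ q r, ‖B (δ w q) (δ w r)‖ ≤ M * (w.ω q * w.ω r)) (x y : A w) :
    ‖B x y‖ ≤ M * (‖x‖ * ‖y‖) := by
  have h1 : ∀ q, ‖B (δ w q) y‖ ≤ (M * w.ω q) * ‖y‖ := by
    intro q
    apply ext_bound w (B (δ w q)) (M * w.ω q)
    intro r
    rw [mul_assoc]
    exact h q r
  have h2 := ext_bound w (B.flip y) (M * ‖y‖) (by
    intro q
    rw [ContinuousLinearMap.flip_apply]
    calc ‖B (δ w q) y‖ ≤ (M * w.ω q) * ‖y‖ := h1 q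
      _ = _ := by ring) x
  rw [ContinuousLinearMap.flip_apply] at h2
  calc ‖B x y‖ ≤ M * ‖y‖ * ‖x‖ := h2
    _ = _ := by ring

/-- The coefficient at `0` is multiplicative. -/
theorem coef_zero_mul (x y : A w) : coef w 0 (x * y) = coef w 0 x * coef w 0 y := by
  let B : A w →L[ℂ] A w →L[ℂ] ℂ :=
    ((ContinuousLinearMap.compL ℂ (A w) (A w) ℂ (coef w 0)).comp
      (ContinuousLinearMap.mul ℂ (A w))) -
    ((ContinuousLinearMap.mul ℂ ℂ).bilinearComp (coef w 0) (coef w 0))
  have hB : ∀ x y, B x y = coef w 0 (x * y) - coef w 0 x * coef w 0 y := fun x y => rfl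
  have := bilin_bound w B 0 (by
    intro q r
    rw [hB, ← δ_add, coef_δ, coef_δ, coef_δ]
    by_cases hq : q = 0 <;> by_cases hr : r = 0 <;> simp [hq, hr]) x y
  rw [zero_mul, hB] at this
  exact sub_eq_zero.mp (norm_le_zero_iff.mp this)

end Pool.Agent.H50.FdB
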