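import Pool.Agent.H50.FdA
import Pool.Agent.H50.FdB

/-!
# A weight on `ℚ≥0` without continuous real semigroups
-/

open Filter Topology Finset

namespace Pool.Agent.H50.FdC

open Pool.Agent.H50.FdB

theorem exists_level (q : ℚ≥0) : ∃ n : ℕ, ∃ k : ℕ, q * (n.factorial : ℚ≥0) = k := by
  refine ⟨q.den, q.num * (q.den - 1).factorial, ?_⟩
  have hd : q.den ≠ 0 := q.den_ne_zero
  have h1 : (q.den.factorial : ℚ≥0) = q.den * (q.den - 1).factorial := by
    rw [← Nat.mul_factorial_pred hd]; push_cast; rfl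
  rw [h1]
  push_cast
  have h2 : q * q.den = q.num := by
    conv_lhs => rw [← NNRat.num_div_den q]
    have : (q.den : ℚ≥0) ≠ 0 := by exact_mod_cast hd
    rw [NNRat.num_div_den]
    exact NNRat.mul_den_eq_num q
  rw [← mul_assoc, h2]

open Classical in
/-- The least `n` such that `q * n!` is an integer. -/
noncomputable def lev (q : ℚ≥0) : ℕ := Nat.find (exists_level q)

theorem lev_le_iff (q : ℚ≥0) (n : ℕ) : lev q ≤ n ↔ ∃ k : ℕ, q * (n.factorial : ℚ≥0) = k := by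
  classical
  constructor
  · intro h
    obtain ⟨k, hk⟩ := Nat.find_spec (exists_level q)
    change q * ((lev q).factorial : ℚ≥0) = k at hk
    obtain ⟨m, hm⟩ := Nat.factorial_dvd_factorial h
    refine ⟨k * m, ?_⟩
    rw [hm]
    push_cast
    rw [← mul_assoc, hk]
  · intro h
    exact Nat.find_min' (exists_level q) h

theorem lev_zero : lev 0 = 0 := by
  rw [← Nat.le_zero, lev_le_iff]
  exact ⟨0, by simp⟩

theorem lev_add (q r : ℚ≥0) : lev (q + r) ≤ max (lev q) (lev r) := by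
  rw [lev_le_iff]
  obtain ⟨k, hk⟩ := (lev_le_iff q (max (lev q) (lev r))).mp (le_max_left _ _)
  obtain ⟨l, hl⟩ := (lev_le_iff r (max (lev q) (lev r))).mp (le_max_right _ _)
  exact ⟨k + l, by rw [add_mul, hk, hl]; push_cast; rfl⟩

theorem lev_nsmul (q : ℚ≥0) (n : ℕ) : lev (n • q) ≤ lev q := by
  rw [lev_le_iff]
  obtain ⟨k, hk⟩ := (lev_le_iff q (lev q)).mp le_rfl
  exact ⟨n * k, by rw [nsmul_eq_mul, mul_assoc, hk]; push_cast; rfl⟩

/-- The weight attached to a growth sequence. -/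
noncomputable def wt (h : ℕ → ℝ) (hm : Monotone h) (h0 : h 0 = 0) : Wt where
  ω := fun q => Real.exp (h (lev q) - (q : ℝ) ^ 2)
  pos := fun q => Real.exp_pos _
  mul := by
    intro q r
    rw [← Real.exp_add]
    apply Real.exp_le_exp.mpr
    have hnn : ∀ n, 0 ≤ h n := fun n => h0 ▸ hm (Nat.zero_le n)
    have h1 : h (lev (q + r)) ≤ h (lev q) + h (lev r) := by
      refine (hm (lev_add q r)).trans ?_
      rcases le_total (lev q) (lev r) with hle | hle
      · rw [max_eq_right hle]; linarith [hnn (lev q)]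
      · rw [max_eq_left hle]; linarith [hnn (lev r)]
    have h2 : (0 : ℝ) ≤ (q : ℝ) * r := by positivity
    push_cast
    nlinarith

theorem wt_ω (h : ℕ → ℝ) (hm : Monotone h) (h0 : h 0 = 0) (q : ℚ≥0) :
    (wt h hm h0).ω q = Real.exp (h (lev q) - (q : ℝ) ^ 2) := rfl

theorem wt_lower (h : ℕ → ℝ) (hm : Monotone h) (h0 : h 0 = 0) (q : ℚ≥0) (n : ℕ)
    (hq : (q : ℝ) ≤ n) : Real.exp (-(n : ℝ) ^ 2) ≤ (wt h hm h0).ω q := by
  rw [wt_ω]
  apply Real.exp_le_exp.mpr
  have hnn : ∀ n, 0 ≤ h n := fun n => h0 ▸ hm (Nat.zero_le n)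
  have : (q : ℝ) ^ 2 ≤ (n : ℝ) ^ 2 := by
    apply pow_le_pow_left₀ (by positivity) hq
  linarith [hnn (lev q)]

theorem wt_lower' (h : ℕ → ℝ) (hm : Monotone h) (h0 : h 0 = 0) (q : ℚ≥0) (n : ℕ)
    (hq : (q : ℝ) ≤ n) (hl : ¬ lev q ≤ n) :
    Real.exp (h (n + 1) - (n : ℝ) ^ 2) ≤ (wt h hm h0).ω q := by
  rw [wt_ω]
  apply Real.exp_le_exp.mpr
  have : (q : ℝ) ^ 2 ≤ (n : ℝ) ^ 2 := by
    apply pow_le_pow_left₀ (by positivity) hq
  have h1 : h (n + 1) ≤ h (lev q) := hm (by omega)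
  linarith

/-- The error form comparing the coefficient of a product with the convolution over the
sublattice `(1/N) ℕ`. -/
theorem conv_error_aux (w : Wt) (N : ℚ≥0) (hNpos : N ≠ 0) (k : ℕ) (M : ℝ) (hM : 0 ≤ M)
    (hbig : ∀ q r : ℚ≥0, q + r = (k : ℚ≥0) / N → (¬ ∃ i : ℕ, q = (i : ℚ≥0) / N) →
      (¬ ∃ i : ℕ, r = (i : ℚ≥0) / N) → 1 ≤ M * (w.ω q * w.ω r)) (x y : A w) :
    ‖coef w ((k : ℚ≥0) / N) (x * y) -
      ∑ p ∈ antidiagonal k, coef w ((p.1 : ℚ≥0) / N) x * coef w ((p.2 : ℚ≥0) / N) y‖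
      ≤ M * (‖x‖ * ‖y‖) := by
  let B : A w →L[ℂ] A w →L[ℂ] ℂ :=
    ((ContinuousLinearMap.compL ℂ (A w) (A w) ℂ (coef w ((k : ℚ≥0) / N))).comp
      (ContinuousLinearMap.mul ℂ (A w))) -
    ∑ p ∈ antidiagonal k, ((ContinuousLinearMap.mul ℂ ℂ).bilinearComp
      (coef w ((p.1 : ℚ≥0) / N)) (coef w ((p.2 : ℚ≥0) / N)))
  have hB : ∀ x y, B x y = coef w ((k : ℚ≥0) / N) (x * y) -
      ∑ p ∈ antidiagonal k, coef w ((p.1 : ℚ≥0) / N) x * coef w ((p.2 : ℚ≥0) / N) y := by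
    intro x y
    simp only [B, _root_.sub_apply, _root_.sum_apply]
    rfl
  rw [← hB]
  apply bilin_bound
  intro q r
  rw [hB, ← δ_add, coef_δ]
  simp only [coef_δ]
  have hnonneg : 0 ≤ M * (w.ω q * w.ω r) :=
    mul_nonneg hM (mul_nonneg (w.pos q).le (w.pos r).le)
  by_cases hqr : q + r = (k : ℚ≥0) / N
  · rw [if_pos hqr]
    by_cases hqi : ∃ i : ℕ, q = (i : ℚ≥0) / N
    · obtain ⟨i, hi⟩ := hqi
      -- the sum is exactly one
      have hik : i ≤ k := by
        have h1 : (i : ℚ≥0) / N ≤ (k : ℚ≥0) / N := by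
          rw [← hi, ← hqr]; exact le_self_add
        have h2 : (i : ℚ≥0) ≤ k := (div_le_div_iff_of_pos_right (pos_iff_ne_zero.mpr hNpos)).mp h1
        exact_mod_cast h2
      have hr : r = ((k - i : ℕ) : ℚ≥0) / N := by
        have h1 : q + r = q + ((k - i : ℕ) : ℚ≥0) / N := by
          rw [hqr, hi, ← add_div]
          congr 1
          exact_mod_cast (Nat.add_sub_cancel' hik).symm
        exact add_left_cancel h1
      rw [Finset.sum_eq_single (i, k - i)]
      · rw [if_pos hi, if_pos hr]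
        simpa using hnonneg
      · intro p hp hpne
        rw [HasAntidiagonal.mem_antidiagonal] at hp
        have : q ≠ (p.1 : ℚ≥0) / N := by
          intro hcontra
          rw [hi] at hcontra
          have h1 : (i : ℚ≥0) = p.1 := by
            field_simp at hcontra
            exact hcontra
          have h2 : i = p.1 := by exact_mod_cast h1
          apply hpne
          ext
          · exact h2.symm
          · simp only; omega
        rw [if_neg this, zero_mul]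
      · intro hnot
        exfalso
        apply hnot
        rw [HasAntidiagonal.mem_antidiagonal]
        omega
    · -- no term in the sum
      have hri : ¬ ∃ j : ℕ, r = (j : ℚ≥0) / N := by
        rintro ⟨j, hj⟩
        apply hqi
        have hjk : j ≤ k := by
          have h1 : (j : ℚ≥0) / N ≤ (k : ℚ≥0) / N := by
            rw [← hj, ← hqr]; exact le_add_self
          have h2 : (j : ℚ≥0) ≤ k :=
            (div_le_div_iff_of_pos_right (pos_iff_ne_zero.mpr hNpos)).mp h1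
          exact_mod_cast h2
        refine ⟨k - j, ?_⟩
        have h1 : q + r = ((k - j : ℕ) : ℚ≥0) / N + r := by
          rw [hqr, hj, ← add_div]
          congr 1
          exact_mod_cast (Nat.sub_add_cancel hjk).symm
        exact add_right_cancel h1
      rw [Finset.sum_eq_zero]
      · rw [sub_zero, norm_one]
        exact hbig q r hqr hqi hri
      · intro p _
        rw [if_neg, zero_mul]
        intro hcontra
        exact hqi ⟨p.1, hcontra⟩
  · rw [if_neg hqr, Finset.sum_eq_zero]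
    · simpa using hnonneg
    · intro p hp
      rw [HasAntidiagonal.mem_antidiagonal] at hp
      by_cases h1 : q = (p.1 : ℚ≥0) / N
      · by_cases h2 : r = (p.2 : ℚ≥0) / N
        · exfalso
          apply hqr
          rw [h1, h2, ← add_div, ← hp]
          push_cast
          rfl
        · rw [if_neg h2, mul_zero]
      · rw [if_neg h1, zero_mul]

/-- The error form for the weight attached to a growth sequence. -/
theorem conv_error (h : ℕ → ℝ) (hm : Monotone h) (h0 : h 0 = 0) (n k : ℕ)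
    (hk : k < n * n.factorial) (x y : A (wt h hm h0)) :
    ‖coef (wt h hm h0) ((k : ℚ≥0) / n.factorial) (x * y) -
      ∑ p ∈ antidiagonal k, coef (wt h hm h0) ((p.1 : ℚ≥0) / n.factorial) x *
        coef (wt h hm h0) ((p.2 : ℚ≥0) / n.factorial) y‖
      ≤ Real.exp (2 * (n : ℝ) ^ 2 - 2 * h (n + 1)) * (‖x‖ * ‖y‖) := by
  have hNpos : (n.factorial : ℚ≥0) ≠ 0 := by exact_mod_cast (Nat.factorial_ne_zero n)
  apply conv_error_aux _ _ hNpos _ _ (Real.exp_pos _).le
  intro q r hqr hqi hri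
  have hlq : ¬ lev q ≤ n := by
    intro hl
    obtain ⟨i, hi⟩ := (lev_le_iff q n).mp hl
    exact hqi ⟨i, by rw [← hi, mul_div_cancel_right₀ _ hNpos]⟩
  have hlr : ¬ lev r ≤ n := by
    intro hl
    obtain ⟨i, hi⟩ := (lev_le_iff r n).mp hl
    exact hri ⟨i, by rw [← hi, mul_div_cancel_right₀ _ hNpos]⟩
  have hκ : (q + r : ℚ≥0) ≤ n := by
    rw [hqr, div_le_iff₀ (pos_iff_ne_zero.mpr hNpos)]
    exact_mod_cast hk.le
  have hκ' : (q : ℝ) + r ≤ n := by exact_mod_cast hκ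
  have hqn : (q : ℝ) ≤ n := by
    have : (0 : ℝ) ≤ r := by positivity
    linarith
  have hrn : (r : ℝ) ≤ n := by
    have : (0 : ℝ) ≤ q := by positivity
    linarith
  have h1 := wt_lower' h hm h0 q n hqn hlq
  have h2 := wt_lower' h hm h0 r n hrn hlr
  have h3 : (1 : ℝ) = Real.exp (2 * (n : ℝ) ^ 2 - 2 * h (n + 1)) *
      (Real.exp (h (n + 1) - (n : ℝ) ^ 2) * Real.exp (h (n + 1) - (n : ℝ) ^ 2)) := by
    rw [← Real.exp_add, ← Real.exp_add, eq_comm, Real.exp_eq_one_iff]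
    ring
  calc (1 : ℝ) = Real.exp (2 * (n : ℝ) ^ 2 - 2 * h (n + 1)) *
      (Real.exp (h (n + 1) - (n : ℝ) ^ 2) * Real.exp (h (n + 1) - (n : ℝ) ^ 2)) := h3
    _ ≤ _ := by
      apply mul_le_mul_of_nonneg_left _ (Real.exp_pos _).le
      exact mul_le_mul h1 h2 (Real.exp_pos _).le ((wt h hm h0).pos q).le

/-- One step: the coefficients of `b 4` at level at most `n` are small. -/
theorem step_bound (h : ℕ → ℝ) (hm : Monotone h) (h0 : h 0 = 0) (n : ℕ) (ε : ℝ)
    (hcomp : ∀ g : ℝ → ℕ → ℂ,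
      (∀ t, 1 ≤ t → t ≤ 4 → g t 0 = 0) →
      (∀ t, 1 ≤ t → t ≤ 4 → ∀ j, j < n * n.factorial → ‖g t j‖ ≤ Real.exp ((n : ℝ) ^ 2) * n) →
      (∀ s t, 1 ≤ s → 1 ≤ t → s + t ≤ 4 → ∀ k, k < n * n.factorial →
        ‖g (s + t) k - ∑ p ∈ antidiagonal k, g s p.1 * g t p.2‖ ≤ ε) →
      ∀ k, k < n * n.factorial → ‖g 4 k‖ ≤ 1 / ((n : ℝ) + 1))
    (hgrow : (n : ℝ) ^ 2 * Real.exp (2 * (n : ℝ) ^ 2 - 2 * h (n + 1)) ≤ ε)
    (b : ℝ → A (wt h hm h0))
    (hbs : ∀ s t, 0 < s → 0 < t → b s * b t = b (s + t))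
    (hb0 : ∀ t, 0 < t → coef (wt h hm h0) 0 (b t) = 0)
    (hbn : ∀ t, 1 ≤ t → t ≤ 4 → ‖b t‖ ≤ n) (k : ℕ) (hkL : k < n * n.factorial) :
    ‖coef (wt h hm h0) ((k : ℚ≥0) / n.factorial) (b 4)‖ ≤ 1 / ((n : ℝ) + 1) := by
  have hN : (n.factorial : ℚ≥0) ≠ 0 := by exact_mod_cast (Nat.factorial_ne_zero n)
  have key := hcomp (fun t j => coef (wt h hm h0) ((j : ℚ≥0) / n.factorial) (b t)) ?_ ?_ ?_ k hkL
  · exact key
  · intro t ht1' ht4
    have : ((0 : ℕ) : ℚ≥0) / n.factorial = 0 := by simp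
    change coef (wt h hm h0) (((0 : ℕ) : ℚ≥0) / n.factorial) (b t) = 0
    rw [this]
    exact hb0 t (by linarith)
  · intro t ht1' ht4 j hj
    have hjn : (((j : ℚ≥0) / n.factorial : ℚ≥0) : ℝ) ≤ n := by
      have : ((j : ℚ≥0) / n.factorial : ℚ≥0) ≤ n := by
        rw [div_le_iff₀ (pos_iff_ne_zero.mpr hN)]
        exact_mod_cast hj.le
      exact_mod_cast this
    have h1 := norm_coef_le (wt h hm h0) ((j : ℚ≥0) / n.factorial) (b t)
    have h2 := wt_lower h hm h0 _ n hjn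
    have h3 : ‖b t‖ ≤ n := hbn t ht1' ht4
    have h4 : 1 / (wt h hm h0).ω ((j : ℚ≥0) / n.factorial) ≤ Real.exp ((n : ℝ) ^ 2) := by
      rw [div_le_iff₀ ((wt h hm h0).pos _)]
      calc (1 : ℝ) = Real.exp ((n : ℝ) ^ 2) * Real.exp (-(n : ℝ) ^ 2) := by
            rw [← Real.exp_add, eq_comm, Real.exp_eq_one_iff]; ring
        _ ≤ _ := mul_le_mul_of_nonneg_left h2 (Real.exp_pos _).le
    exact h1.trans (mul_le_mul h4 h3 (norm_nonneg _) (Real.exp_pos _).le)
  · intro s t hs ht hst k' hk'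
    have h5 := conv_error h hm h0 n k' hk' (b s) (b t)
    rw [hbs s t (by linarith) (by linarith)] at h5
    refine h5.trans ?_
    have h3 : ‖b s‖ ≤ n := hbn s hs (by linarith)
    have h4 : ‖b t‖ ≤ n := hbn t ht (by linarith)
    calc Real.exp (2 * (n : ℝ) ^ 2 - 2 * h (n + 1)) * (‖b s‖ * ‖b t‖)
        ≤ Real.exp (2 * (n : ℝ) ^ 2 - 2 * h (n + 1)) * (n * n) := by
          apply mul_le_mul_of_nonneg_left _ (Real.exp_pos _).le
          exact mul_le_mul h3 h4 (norm_nonneg _) (by positivity)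
      _ = (n : ℝ) ^ 2 * Real.exp (2 * (n : ℝ) ^ 2 - 2 * h (n + 1)) := by ring
      _ ≤ ε := hgrow

/-- There is a growth sequence whose weighted algebra has the following property: a real
semigroup in the kernel of the coefficient at `0` which is bounded on `[t/4, t]` vanishes
at `t`. -/
theorem no_semigroup : ∃ (h : ℕ → ℝ) (hm : Monotone h) (h0 : h 0 = 0),
    ∀ a : ℝ → A (wt h hm h0), (∀ s t, 0 < s → 0 < t → a s * a t = a (s + t)) →
      (∀ t, 0 < t → coef (wt h hm h0) 0 (a t) = 0) →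
      ∀ t, 0 < t → (∃ C : ℝ, ∀ s, t / 4 ≤ s → s ≤ t → ‖a s‖ ≤ C) → a t = 0 := by
  choose ε hε hcomp using fun n : ℕ =>
    FdA.compactness (n * n.factorial) (Real.exp ((n : ℝ) ^ 2) * n) (1 / ((n : ℝ) + 1))
      (by positivity)
  obtain ⟨h, hm, h0, hgrow⟩ := FdA.exists_growth ε hε
  refine ⟨h, hm, h0, ?_⟩
  intro a hsg hc0 t1 ht1 hbd
  -- rescaled semigroup
  obtain ⟨b, hbdef⟩ : ∃ b : ℝ → A (wt h hm h0), ∀ t, b t = a (t * (t1 / 4)) :=
    ⟨fun t => a (t * (t1 / 4)), fun _ => rfl⟩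
  have hb4 : b 4 = a t1 := by rw [hbdef]; congr 1; ring
  have hbs : ∀ s t, 0 < s → 0 < t → b s * b t = b (s + t) := by
    intro s t hs ht
    rw [hbdef, hbdef, hbdef, hsg _ _ (by positivity) (by positivity)]
    congr 1
    ring
  have hb0 : ∀ t, 0 < t → coef (wt h hm h0) 0 (b t) = 0 := by
    intro t ht
    rw [hbdef]
    exact hc0 _ (by positivity)
  obtain ⟨C, hC0⟩ := hbd
  have hC : ∀ t, 1 ≤ t → t ≤ 4 → ‖b t‖ ≤ C := by
    intro t h1 h4
    rw [hbdef]
    apply hC0 <;> nlinarith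
  rw [← hb4]
  apply eq_zero_of_coef
  intro q
  -- for large n the coefficient is at most 1/(n+1)
  have hlarge : ∀ n : ℕ, C ≤ n → lev q ≤ n → (q : ℝ) < n →
      ‖coef (wt h hm h0) q (b 4)‖ ≤ 1 / ((n : ℝ) + 1) := by
    intro n hCn hln hqn
    obtain ⟨k, hk⟩ := (lev_le_iff q n).mp hln
    have hN : (n.factorial : ℚ≥0) ≠ 0 := by exact_mod_cast (Nat.factorial_ne_zero n)
    have hqk : q = (k : ℚ≥0) / n.factorial := by
      rw [← hk, mul_div_cancel_right₀ _ hN]
    have hkL : k < n * n.factorial := by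
      have h1 : (q : ℚ≥0) < n := by exact_mod_cast hqn
      rw [hqk, div_lt_iff₀ (pos_iff_ne_zero.mpr hN)] at h1
      exact_mod_cast h1
    rw [hqk]
    exact step_bound h hm h0 n (ε n) (hcomp n) (hgrow n) b hbs hb0
      (fun t ht1' ht4 => (hC t ht1' ht4).trans hCn) k hkL
  -- conclude
  have hlim : Tendsto (fun n : ℕ => 1 / ((n : ℝ) + 1)) atTop (𝓝 0) :=
    tendsto_one_div_add_atTop_nhds_zero_nat
  obtain ⟨m, hm1⟩ := exists_nat_gt (max C (q : ℝ))
  have hev : ∀ᶠ n : ℕ in atTop, ‖coef (wt h hm h0) q (b 4)‖ ≤ 1 / ((n : ℝ) + 1) := by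
    filter_upwards [eventually_ge_atTop m, eventually_ge_atTop (lev q)] with n hn1 hn2
    have hmn : (m : ℝ) ≤ n := by exact_mod_cast hn1
    apply hlarge n _ hn2
    · exact lt_of_lt_of_le (lt_of_le_of_lt (le_max_right _ _) hm1) hmn
    · exact ((le_max_left _ _).trans hm1.le).trans hmn
  have := ge_of_tendsto hlim hev
  exact norm_le_zero_iff.mp this

end Pool.Agent.H50.FdC
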