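import Mathlib

/-!
# From iterated square roots to an element `b` in the closure of `b² I`
-/

open Filter Topology Finset

namespace Pool.Agent.H50.FdD

theorem pow_root {A : Type*} [NormedCommRing A] (a : ℕ → A) (ha : ∀ n, a (n + 1) * a (n + 1) = a n) (n k : ℕ) :
    a (n + k) ^ (2 ^ k) = a n := by
  induction k with
  | zero => simp
  | succ k ih =>
    rw [pow_succ, mul_comm, pow_mul, ← add_assoc, pow_two, ha, ih]

theorem classV {A : Type*} [NormedCommRing A] [NormedAlgebra ℂ A] [CompleteSpace A] (a : ℕ → A) (ha : ∀ n, a (n + 1) * a (n + 1) = a n) (ha0 : a 0 ≠ 0)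
    (hu : ∀ n (ε : ℝ), 0 < ε → IsUnit (a n + algebraMap ℂ A ε))
    (I : Ideal A) (hI : IsClosed (I : Set A)) (haI : ∀ n, a n ∈ I) :
    ∃ b ∈ I, b ≠ 0 ∧ ∀ ε > 0, ∃ x ∈ I, ‖b - b * b * x‖ < ε := by
  have ha0n : 0 < ‖a 0‖ := norm_pos_iff.mpr ha0
  have step : ∀ (m : ℕ) (p : {p : Aˣ × ℝ // 0 < p.2}), ∃ p' : {p : Aˣ × ℝ // 0 < p.2},
      ‖a (m + 1) * (p'.1.1 : A) - a m * (p.1.1 : A)‖ ≤ p.1.2 / 2 ∧ p'.1.2 ≤ p.1.2 / 2 ∧
      ∀ n ≤ m, p'.1.2 * (‖((p'.1.1⁻¹ : Aˣ) : A)‖ ^ 2 * ‖a m ^ (2 ^ (m - n) - 1)‖)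
        ≤ 1 / ((m : ℝ) + 1) := by
    rintro m ⟨⟨w, δ⟩, hδ⟩
    simp only at hδ
    set ε : ℝ := δ / (2 * (‖a (m + 1) * (w : A)‖ + 1)) with hε
    have hεpos : 0 < ε := by positivity
    obtain ⟨u, hu'⟩ := hu (m + 1) ε hεpos
    set w' : Aˣ := w * u with hw'
    set Y : ℝ := ∑ n ∈ Finset.range (m + 1), ‖a m ^ (2 ^ (m - n) - 1)‖ with hY
    have hYnn : 0 ≤ Y := Finset.sum_nonneg fun _ _ => norm_nonneg _
    set D : ℝ := 1 / (((m : ℝ) + 1) * (1 + ‖((w'⁻¹ : Aˣ) : A)‖ ^ 2 * Y)) with hD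
    have hDpos : 0 < D := by positivity
    refine ⟨⟨(w', min (δ / 2) D), lt_min (by positivity) hDpos⟩, ?_, min_le_left _ _, ?_⟩
    · simp only
      have h1 : a (m + 1) * (w' : A) - a m * (w : A) =
          (ε : ℂ) • (a (m + 1) * (w : A)) := by
        rw [hw', Units.val_mul, hu', ← ha m, Algebra.smul_def]
        ring
      rw [h1, norm_smul, Complex.norm_real, Real.norm_of_nonneg hεpos.le, hε, div_mul_eq_mul_div,
        div_le_div_iff₀ (by positivity) (by norm_num)]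
      nlinarith [norm_nonneg (a (m + 1) * (w : A))]
    · intro n hn
      simp only
      have h2 : ‖a m ^ (2 ^ (m - n) - 1)‖ ≤ Y :=
        Finset.single_le_sum (f := fun n => ‖a m ^ (2 ^ (m - n) - 1)‖)
          (fun _ _ => norm_nonneg _) (Finset.mem_range.mpr (by omega))
      calc min (δ / 2) D * (‖((w'⁻¹ : Aˣ) : A)‖ ^ 2 * ‖a m ^ (2 ^ (m - n) - 1)‖)
          ≤ D * (1 + ‖((w'⁻¹ : Aˣ) : A)‖ ^ 2 * Y) := by
            apply mul_le_mul (min_le_right _ _) _ (by positivity) hDpos.le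
            have := mul_le_mul_of_nonneg_left h2 (sq_nonneg ‖((w'⁻¹ : Aˣ) : A)‖)
            linarith
        _ = 1 / ((m : ℝ) + 1) := by
            rw [hD]
            have : 1 + ‖((w'⁻¹ : Aˣ) : A)‖ ^ 2 * Y ≠ 0 := by positivity
            field_simp
  choose f hf1 hf2 hf3 using step
  let st : ℕ → {p : Aˣ × ℝ // 0 < p.2} := fun n =>
    Nat.rec ⟨(1, ‖a 0‖ / 2), by simp only; positivity⟩ (fun m p => f m p) n
  obtain ⟨w, hw⟩ : ∃ w : ℕ → Aˣ, ∀ m, w m = (st m).1.1 := ⟨_, fun _ => rfl⟩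
  obtain ⟨δ, hδ⟩ : ∃ δ : ℕ → ℝ, ∀ m, δ m = (st m).1.2 := ⟨_, fun _ => rfl⟩
  have hst : ∀ m, st (m + 1) = f m (st m) := fun _ => rfl
  have hw0 : w 0 = 1 := hw 0
  have hδ0 : δ 0 = ‖a 0‖ / 2 := hδ 0
  have hδpos : ∀ m, 0 < δ m := fun m => by rw [hδ]; exact (st m).2
  have h1 : ∀ m, ‖a (m + 1) * (w (m + 1) : A) - a m * (w m : A)‖ ≤ δ m / 2 := by
    intro m; rw [hw, hw, hδ, hst]; exact hf1 m (st m)
  have h2 : ∀ m, δ (m + 1) ≤ δ m / 2 := by
    intro m; rw [hδ, hδ, hst]; exact hf2 m (st m)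
  have h3 : ∀ m n, n ≤ m → δ (m + 1) * (‖(((w (m + 1))⁻¹ : Aˣ) : A)‖ ^ 2 *
      ‖a m ^ (2 ^ (m - n) - 1)‖) ≤ 1 / ((m : ℝ) + 1) := by
    intro m n hn; rw [hw, hδ, hst]; exact hf3 m (st m) n hn
  clear_value st
  clear hw hδ hst hf1 hf2 hf3
  obtain ⟨v, hv⟩ : ∃ v : ℕ → A, ∀ m, v m = a m * (w m : A) := ⟨_, fun _ => rfl⟩
  have hdist : ∀ m k, ‖v (m + k) - v m‖ ≤ δ m - δ (m + k) := by
    intro m k
    induction k with
    | zero => simp
    | succ k ih =>
      have e1 : ‖v (m + k + 1) - v (m + k)‖ ≤ δ (m + k) / 2 := by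
        rw [hv, hv]; exact h1 (m + k)
      have e2 := h2 (m + k)
      calc ‖v (m + (k + 1)) - v m‖ = ‖(v (m + k + 1) - v (m + k)) + (v (m + k) - v m)‖ := by
            rw [← add_assoc]; congr 1; ring
        _ ≤ δ (m + k) / 2 + (δ m - δ (m + k)) := (norm_add_le _ _).trans (add_le_add e1 ih)
        _ ≤ δ m - δ (m + (k + 1)) := by rw [← add_assoc]; linarith
  have hδgeom : ∀ m, δ m ≤ δ 0 * (1 / 2) ^ m := by
    intro m
    induction m with
    | zero => simp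
    | succ m ih =>
      have := h2 m
      rw [pow_succ]
      linarith
  have hδlim : Tendsto δ atTop (𝓝 0) := by
    apply squeeze_zero (fun m => (hδpos m).le) hδgeom
    have := (tendsto_pow_atTop_nhds_zero_of_lt_one (r := (1 / 2 : ℝ)) (by norm_num)
      (by norm_num)).const_mul (δ 0)
    simpa using this
  have hcau : CauchySeq v := by
    apply cauchySeq_of_le_tendsto_0 (fun m => 2 * δ m)
    · intro k l N hk hl
      obtain ⟨i, rfl⟩ := Nat.exists_eq_add_of_le hk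
      obtain ⟨j, rfl⟩ := Nat.exists_eq_add_of_le hl
      have e1 := hdist N i
      have e2 := hdist N j
      have := hδpos (N + i)
      have := hδpos (N + j)
      rw [dist_eq_norm]
      calc ‖v (N + i) - v (N + j)‖ = ‖(v (N + i) - v N) - (v (N + j) - v N)‖ := by congr 1; ring
        _ ≤ ‖v (N + i) - v N‖ + ‖v (N + j) - v N‖ := norm_sub_le _ _
        _ ≤ _ := by linarith
    · simpa using hδlim.const_mul 2
  obtain ⟨b, hb⟩ := cauchySeq_tendsto_of_complete hcau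
  have hbv : ∀ m, ‖b - v m‖ ≤ δ m := by
    intro m
    have hlim : Tendsto (fun k => ‖v (m + k) - v m‖) atTop (𝓝 ‖b - v m‖) := by
      have h4 : Tendsto (fun k => v (m + k)) atTop (𝓝 b) := by
        have := (tendsto_add_atTop_iff_nat m).mpr hb
        simpa [add_comm] using this
      exact (h4.sub_const (v m)).norm
    apply le_of_tendsto hlim
    filter_upwards with k
    have := hdist m k
    have := hδpos (m + k)
    linarith
  have hvI : ∀ m, v m ∈ I := fun m => by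
    rw [hv]; exact I.mul_mem_right _ (haI m)
  refine ⟨b, hI.mem_of_tendsto hb (Eventually.of_forall hvI), ?_, ?_⟩
  · intro hb0
    have := hbv 0
    rw [hb0, hv, hw0, zero_sub, norm_neg, Units.val_one, mul_one, hδ0] at this
    linarith
  · intro ε hε
    obtain ⟨n, hn⟩ := ((tendsto_order.mp hδlim).2 (ε / 2) (half_pos hε)).exists
    -- bound for the second part
    set K : ℝ := (2 * ‖b‖ + δ 0) * ‖(w n : A)‖ with hK
    have hKlim : Tendsto (fun m : ℕ => K * (1 / ((m : ℝ) + 1))) atTop (𝓝 0) := by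
      simpa using tendsto_one_div_add_atTop_nhds_zero_nat.const_mul K
    obtain ⟨m, hmn, hm⟩ := ((eventually_ge_atTop (n + 1)).and
      ((tendsto_order.mp hKlim).2 (ε / 2) (half_pos hε))).exists
    have hnm : n ≤ m := by omega
    set y : A := a m ^ (2 ^ (m - n) - 1) with hy
    set z : A := (((w (m + 1))⁻¹ : Aˣ) : A) ^ 2 * y * (w n : A) with hz
    have hexp : 2 ^ (m - n) = (2 ^ (m - n) - 1) + 1 := by
      have : 1 ≤ 2 ^ (m - n) := Nat.one_le_two_pow
      omega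
    have hroot : a m * y = a n := by
      have h5 := pow_root a ha n (m - n)
      rw [Nat.add_sub_cancel' hnm, hexp, pow_succ, mul_comm] at h5
      exact h5
    have hzI : z ∈ I := by
      rw [hz]
      apply I.mul_mem_right
      apply I.mul_mem_left
      have h6 : 2 ^ (m - n) - 1 ≠ 0 := by
        have : 2 ≤ 2 ^ (m - n) := by
          calc 2 = 2 ^ 1 := rfl
            _ ≤ 2 ^ (m - n) := Nat.pow_le_pow_right (by norm_num) (by omega)
        omega
      exact I.pow_mem_of_mem (haI m) _ (Nat.pos_of_ne_zero h6)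
    have hvz : v (m + 1) * v (m + 1) * z = v n := by
      rw [hv, hv, hz, ← hroot, ← ha m]
      have hinv : (w (m + 1) : A) * (((w (m + 1))⁻¹ : Aˣ) : A) = 1 := Units.mul_inv _
      calc a (m + 1) * ↑(w (m + 1)) * (a (m + 1) * ↑(w (m + 1))) *
            (↑(w (m + 1))⁻¹ ^ 2 * y * ↑(w n))
          = a (m + 1) * a (m + 1) * y * ↑(w n) * ((w (m + 1) : A) * (((w (m + 1))⁻¹ : Aˣ) : A)) ^ 2
            := by ring
        _ = _ := by rw [hinv]; ring
    refine ⟨z, hzI, ?_⟩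
    have hbd : b - b * b * z = (b - v n) + (v (m + 1) - b) * (v (m + 1) + b) * z := by
      rw [← hvz]; ring
    have hvn : ‖v (m + 1)‖ ≤ ‖b‖ + δ 0 := by
      have e1 := hbv (m + 1)
      have e2 : δ (m + 1) ≤ δ 0 := by
        have := hδgeom (m + 1)
        have h7 : (1 / 2 : ℝ) ^ (m + 1) ≤ 1 := pow_le_one₀ (by norm_num) (by norm_num)
        have := mul_le_mul_of_nonneg_left h7 (hδpos 0).le
        linarith
      calc ‖v (m + 1)‖ = ‖b - (b - v (m + 1))‖ := by congr 1; ring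
        _ ≤ ‖b‖ + ‖b - v (m + 1)‖ := norm_sub_le _ _
        _ ≤ _ := by linarith
    have hznorm : ‖z‖ ≤ ‖(((w (m + 1))⁻¹ : Aˣ) : A)‖ ^ 2 * ‖y‖ * ‖(w n : A)‖ := by
      rw [hz]
      refine (norm_mul_le _ _).trans (mul_le_mul_of_nonneg_right ?_ (norm_nonneg _))
      refine (norm_mul_le _ _).trans (mul_le_mul_of_nonneg_right ?_ (norm_nonneg _))
      rw [pow_two, pow_two]
      exact norm_mul_le _ _
    have hsecond : ‖(v (m + 1) - b) * (v (m + 1) + b) * z‖ ≤ K * (1 / ((m : ℝ) + 1)) := by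
      have e1 : ‖v (m + 1) - b‖ ≤ δ (m + 1) := by rw [norm_sub_rev]; exact hbv (m + 1)
      have e2 : ‖v (m + 1) + b‖ ≤ 2 * ‖b‖ + δ 0 := (norm_add_le _ _).trans (by linarith)
      have e3 := h3 m n hnm
      calc ‖(v (m + 1) - b) * (v (m + 1) + b) * z‖
          ≤ ‖v (m + 1) - b‖ * ‖v (m + 1) + b‖ * ‖z‖ :=
            (norm_mul_le _ _).trans (mul_le_mul_of_nonneg_right (norm_mul_le _ _) (norm_nonneg _))
        _ ≤ δ (m + 1) * (2 * ‖b‖ + δ 0) *
            (‖(((w (m + 1))⁻¹ : Aˣ) : A)‖ ^ 2 * ‖y‖ * ‖(w n : A)‖) := by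
            have hδ0' := hδpos 0
            have hδm := hδpos (m + 1)
            exact mul_le_mul (mul_le_mul e1 e2 (norm_nonneg _) hδm.le) hznorm (norm_nonneg _)
              (by positivity)
        _ = K * (δ (m + 1) * (‖(((w (m + 1))⁻¹ : Aˣ) : A)‖ ^ 2 * ‖y‖)) := by rw [hK]; ring
        _ ≤ K * (1 / ((m : ℝ) + 1)) := by
            apply mul_le_mul_of_nonneg_left e3
            have := hδpos 0
            positivity
    rw [hbd]
    calc ‖(b - v n) + (v (m + 1) - b) * (v (m + 1) + b) * z‖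
        ≤ ‖b - v n‖ + ‖(v (m + 1) - b) * (v (m + 1) + b) * z‖ := norm_add_le _ _
      _ ≤ δ n + K * (1 / ((m : ℝ) + 1)) := add_le_add (hbv n) hsecond
      _ < ε := by linarith

end Pool.Agent.H50.FdD
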