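import Pool.Agent.H50.FdD

/-!
# The kernel of a multiplicative functional as a radical Banach algebra
-/

open Filter Topology Finset

namespace Pool.Agent.H50.FdE

/-- Every element has spectral radius zero in the unitization. -/
def Radical (R : Type) [NonUnitalNormedCommRing R] [NormedSpace ℂ R] [IsScalarTower ℂ R R]
    [SMulCommClass ℂ R R] : Prop :=
  ∀ x : R, spectralRadius ℂ (Unitization.inr x : Unitization ℂ R) = 0

/-- There is a nonzero `a` in the norm closure of `a² R`. -/
def ClassV (R : Type) [NonUnitalNormedCommRing R] : Prop :=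
  ∃ a : R, a ≠ 0 ∧ a ∈ closure {y : R | ∃ x : R, y = a * a * x}

/-- There is a nonzero rational semigroup. -/
def RationalSemigroup (R : Type) [NonUnitalNormedCommRing R] : Prop :=
  ∃ a : ℚ → R, (∀ s t : ℚ, 0 < s → 0 < t → a s * a t = a (s + t)) ∧ ∃ t : ℚ, 0 < t ∧ a t ≠ 0

/-- A real semigroup `(a t)`, `t > 0` (values at `t ≤ 0` are irrelevant). -/
def IsRealSemigroup (R : Type) [NonUnitalNormedCommRing R] (a : ℝ → R) : Prop :=
  ∀ s t : ℝ, 0 < s → 0 < t → a s * a t = a (s + t)

/-- There is a nonzero norm-continuous real semigroup. -/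
def ClassVI (R : Type) [NonUnitalNormedCommRing R] : Prop :=
  ∃ a : ℝ → R, IsRealSemigroup R a ∧ (∃ t : ℝ, 0 < t ∧ a t ≠ 0) ∧
    ContinuousOn a (Set.Ioi 0)

section
variable (A : Type) [NormedCommRing A] [NormedAlgebra ℂ A] (ε : A →L[ℂ] ℂ)
  (hmul : ∀ x y, ε (x * y) = ε x * ε y)

/-- The kernel of a multiplicative functional, as a non-unital subalgebra. -/
def ker : NonUnitalSubalgebra ℂ A where
  carrier := {x | ε x = 0}
  add_mem' := by
    intro x y hx hy
    simp only [Set.mem_ofPred_eq] at *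
    rw [map_add, hx, hy, add_zero]
  zero_mem' := by simp
  mul_mem' := by
    intro x y hx hy
    simp only [Set.mem_ofPred_eq] at *
    rw [hmul, hx, zero_mul]
  smul_mem' := by
    intro c x hx
    simp only [Set.mem_ofPred_eq] at *
    rw [map_smul, hx, smul_zero]

theorem mem_ker (x : A) : x ∈ ker A ε hmul ↔ ε x = 0 := Iff.rfl

/-- The kernel of a multiplicative functional, as an ideal. -/
def idl : Ideal A where
  carrier := {x | ε x = 0}
  add_mem' := by
    intro x y hx hy
    simp only [Set.mem_ofPred_eq] at *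
    rw [map_add, hx, hy, add_zero]
  zero_mem' := by simp
  smul_mem' := by
    intro c x hx
    simp only [Set.mem_ofPred_eq, smul_eq_mul] at *
    rw [hmul, hx, mul_zero]

theorem mem_idl (x : A) : x ∈ idl A ε hmul ↔ ε x = 0 := Iff.rfl

theorem radical_ker (hone : ε 1 = 1)
    (hunit : ∀ x, ε x = 0 → ∀ z : ℂ, z ≠ 0 → IsUnit (algebraMap ℂ A z - x))
    (x : ker A ε hmul) :
    spectralRadius ℂ (Unitization.inr x : Unitization ℂ (ker A ε hmul)) = 0 := by
  have h1 : (1 : A) ∉ ker A ε hmul := by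
    rw [mem_ker, hone]; exact one_ne_zero
  have hinj := NonUnitalSubalgebra.unitization_injective (R := ℂ) (ker A ε hmul) h1
  have hcm : ∀ z, ε (algebraMap ℂ A z) = z := by
    intro z
    rw [Algebra.algebraMap_eq_smul_one, map_smul, hone, smul_eq_mul, mul_one]
  have hsp : ∀ z ∈ spectrum ℂ (Unitization.inr x : Unitization ℂ (ker A ε hmul)), z = 0 := by
    intro z hz
    by_contra hne
    apply hz
    obtain ⟨u, hu⟩ := hunit (x : A) x.2 z hne
    set y : A := ((u⁻¹ : Aˣ) : A) with hy
    have hxy : (algebraMap ℂ A z - x) * y = 1 := by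
      rw [← hu]; exact u.mul_inv
    have hcy : z * ε y = 1 := by
      have := congrArg ε hxy
      rw [hmul, hone, map_sub, hcm, (mem_ker _ _ _ _).mp x.2, sub_zero] at this
      exact this
    have hr : y - algebraMap ℂ A z⁻¹ ∈ ker A ε hmul := by
      rw [mem_ker, map_sub, hcm, eq_inv_of_mul_eq_one_right hcy, sub_self]
    have hprod : (algebraMap ℂ (Unitization ℂ (ker A ε hmul)) z -
          (Unitization.inr x : Unitization ℂ (ker A ε hmul))) *
        (algebraMap ℂ (Unitization ℂ (ker A ε hmul)) z⁻¹ +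
          (Unitization.inr ⟨_, hr⟩ : Unitization ℂ (ker A ε hmul))) = 1 := by
      apply hinj
      rw [map_mul, map_sub, map_add, map_one, AlgHom.commutes, AlgHom.commutes,
        NonUnitalSubalgebra.unitization_apply, NonUnitalSubalgebra.unitization_apply]
      simp only [Unitization.fst_inr, Unitization.snd_inr, map_zero, zero_add]
      rw [add_sub_cancel]
      exact hxy
    exact IsUnit.of_mul_eq_one _ hprod
  unfold spectralRadius
  simp only [ENNReal.iSup_eq_zero, ENNReal.coe_eq_zero]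
  intro z hz
  rw [hsp z hz, nnnorm_zero]

end

/-- Assembly: a commutative Banach algebra with a unit, a multiplicative functional whose
kernel is quasinilpotent, and suitable families of elements of the kernel. -/
theorem assemble (A : Type) [NormedCommRing A] [NormedAlgebra ℂ A] [CompleteSpace A]
    (ε : A →L[ℂ] ℂ) (hmul : ∀ x y, ε (x * y) = ε x * ε y) (hone : ε 1 = 1)
    (hunit : ∀ x, ε x = 0 → ∀ z : ℂ, z ≠ 0 → IsUnit (algebraMap ℂ A z - x))
    (δ : ℚ → A) (hδ : ∀ s t, 0 < s → 0 < t → δ s * δ t = δ (s + t))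
    (hδε : ∀ t, 0 < t → ε (δ t) = 0) (hδ1 : δ 1 ≠ 0)
    (hli : LinearIndependent ℂ (fun n : ℕ => δ ((n : ℚ) + 1)))
    (hno : ∀ a : ℝ → A, (∀ s t, 0 < s → 0 < t → a s * a t = a (s + t)) →
      (∀ t, 0 < t → ε (a t) = 0) →
      ∀ t, 0 < t → (∃ C : ℝ, ∀ s, t / 4 ≤ s → s ≤ t → ‖a s‖ ≤ C) → a t = 0) :
    ∃ (R : Type) (_ : NonUnitalNormedCommRing R) (_ : NormedSpace ℂ R)
      (_ : IsScalarTower ℂ R R) (_ : SMulCommClass ℂ R R),
      CompleteSpace R ∧ (¬ ∃ e : R, ∀ x : R, e * x = x) ∧ Radical R ∧ ¬ FiniteDimensional ℂ R ∧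
      ClassV R ∧ RationalSemigroup R ∧ ¬ ClassVI R ∧
      ∀ a : ℝ → R, IsRealSemigroup R a → ∀ t : ℝ, 0 < t →
        (∃ C : ℝ, ∀ s : ℝ, t / 4 ≤ s → s ≤ t → ‖a s‖ ≤ C) → a t = 0 := by
  have hnoR : ∀ a : ℝ → ker A ε hmul, (∀ s t : ℝ, 0 < s → 0 < t → a s * a t = a (s + t)) →
      ∀ t : ℝ, 0 < t → (∃ C : ℝ, ∀ s : ℝ, t / 4 ≤ s → s ≤ t → ‖a s‖ ≤ C) → a t = 0 := by
    intro a ha t ht hC
    have := hno (fun t => (a t : A)) (fun s t hs ht => by
      rw [← ha s t hs ht]; rfl) (fun t _ => (a t).2) t ht hC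
    exact Subtype.ext this
  refine ⟨ker A ε hmul, inferInstance, SubmoduleClass.toNormedSpace _, inferInstance,
    inferInstance, ?_, ?_, ?_, ?_, ?_, ?_, ?_, ?_⟩
  · have hcl : IsClosed ((ker A ε hmul : NonUnitalSubalgebra ℂ A) : Set A) :=
      isClosed_eq ε.continuous continuous_const
    exact hcl.completeSpace_coe
  · rintro ⟨e, he⟩
    have h1 := he e
    -- `1 - e` is invertible and kills `e`
    obtain ⟨u, hu⟩ := hunit (e : A) e.2 1 one_ne_zero
    rw [map_one] at hu
    have h2 : ((1 : A) - e) * e = 0 := by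
      have : (e : A) * e = e := congrArg (fun x : ker A ε hmul => (x : A)) h1
      rw [sub_mul, one_mul, this, sub_self]
    rw [← hu] at h2
    have h3 : (e : A) = 0 := by
      have := congrArg (fun x => ((u⁻¹ : Aˣ) : A) * x) h2
      simpa [← mul_assoc] using this
    have h4 := he ⟨δ 1, hδε 1 one_pos⟩
    have h5 : (e : A) * δ 1 = δ 1 := congrArg (fun x : ker A ε hmul => (x : A)) h4
    rw [h3, zero_mul] at h5
    exact hδ1 h5.symm
  · exact radical_ker A ε hmul hone hunit
  · intro hfin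
    have hli' : LinearIndependent ℂ
        (fun n : ℕ => (⟨δ ((n : ℚ) + 1), hδε _ (by positivity)⟩ : ker A ε hmul)) := by
      rw [linearIndependent_iff'] at hli ⊢
      intro s g hg i hi
      apply hli s g _ i hi
      have := congrArg (fun x : ker A ε hmul => (x : A)) hg
      simpa using this
    exact not_finite_iff_infinite.mpr inferInstance hli'.finite_of_isNoetherian
  · obtain ⟨b, hbI, hb0, hb⟩ := FdD.classV (fun n : ℕ => δ ((1 / 2) ^ n)) (by
      intro n
      rw [hδ _ _ (by positivity) (by positivity)]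
      congr 1
      ring) (by simpa using hδ1) (by
      intro n r hr
      have h1 := (hunit (δ ((1 / 2) ^ n)) (hδε _ (by positivity)) (-(r : ℂ))
        (by simpa using hr.ne')).neg
      convert h1 using 1
      rw [map_neg]; ring) (idl A ε hmul) (isClosed_eq ε.continuous continuous_const) (by
      intro n
      exact hδε _ (by positivity))
    refine ⟨⟨b, hbI⟩, ?_, ?_⟩
    · intro h
      exact hb0 (congrArg (fun x : ker A ε hmul => (x : A)) h)
    · rw [Metric.mem_closure_iff]
      intro e he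
      obtain ⟨x, hxI, hx⟩ := hb e he
      refine ⟨⟨b, hbI⟩ * ⟨b, hbI⟩ * ⟨x, hxI⟩, ⟨⟨x, hxI⟩, rfl⟩, ?_⟩
      rw [dist_eq_norm]
      exact hx
  · classical
    refine ⟨fun t => if ht : 0 < t then ⟨δ t, hδε t ht⟩ else 0, ?_, 1, one_pos, ?_⟩
    · intro s t hs ht
      simp only
      rw [dif_pos hs, dif_pos ht, dif_pos (add_pos hs ht)]
      exact Subtype.ext (hδ s t hs ht)
    · simp only
      rw [dif_pos one_pos]
      intro h
      exact hδ1 (congrArg (fun x : ker A ε hmul => (x : A)) h)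
  · rintro ⟨a, ha, ⟨t, ht, hat⟩, hcont⟩
    apply hat
    apply hnoR a ha t ht
    have hc : ContinuousOn a (Set.Icc (t / 4) t) :=
      hcont.mono (fun s hs => Set.mem_Ioi.mpr (by have := hs.1; linarith))
    obtain ⟨C, hC⟩ := isCompact_Icc.exists_bound_of_continuousOn hc
    exact ⟨C, fun s h1 h2 => hC s ⟨h1, h2⟩⟩
  · exact hnoR

end Pool.Agent.H50.FdE
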