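import Pool.Agent.H50.FdC
import Pool.Agent.H50.FdE

/-!
# The radical algebra in Class V but not in Class VI
-/

open Filter Topology Finset

namespace Pool.Agent.H50.FdF

open Pool.Agent.H50.FdB Pool.Agent.H50.FdC Pool.Agent.H50.FdE

theorem wt_zero (h : ℕ → ℝ) (hm : Monotone h) (h0 : h 0 = 0) : (wt h hm h0).ω 0 = 1 := by
  rw [wt_ω, lev_zero, h0]; simp

theorem δ_pow (w : Wt) (q : ℚ≥0) (n : ℕ) : δ w q ^ n = δ w (n • q) := by
  induction n with
  | zero => rw [pow_zero, zero_nsmul, δ_zero]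
  | succ n ih => rw [pow_succ, ih, ← δ_add, succ_nsmul]

/-- Characters kill the point masses at positive rationals. -/
theorem char_δ (h : ℕ → ℝ) (hm : Monotone h) (h0 : h 0 = 0)
    (φ : WeakDual.characterSpace ℂ (A (wt h hm h0))) (q : ℚ≥0) (hq : q ≠ 0) :
    φ (δ (wt h hm h0) q) = 0 := by
  by_contra hne
  have hpos : 0 < ‖φ (δ (wt h hm h0) q)‖ := norm_pos_iff.mpr hne
  set c : ℝ := ‖φ (δ (wt h hm h0) q)‖ with hc
  have hq' : (0 : ℝ) < (q : ℝ) := by
    have : 0 < q := pos_iff_ne_zero.mpr hq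
    exact_mod_cast this
  have : NormOneClass (A (wt h hm h0)) := ⟨by
    rw [← δ_zero, norm_δ, wt_zero]⟩
  have hbound : ∀ n : ℕ, c ^ n ≤ Real.exp (h (lev q) - (n : ℝ) ^ 2 * (q : ℝ) ^ 2) := by
    intro n
    have h1 : c ^ n = ‖φ (δ (wt h hm h0) (n • q))‖ := by
      rw [hc, ← norm_pow, ← map_pow, δ_pow]
    rw [h1]
    have h2 : ‖φ (δ (wt h hm h0) (n • q))‖ ≤ ‖δ (wt h hm h0) (n • q)‖ :=
      spectrum.norm_le_norm_of_mem (AlgHom.apply_mem_spectrum φ _)
    refine h2.trans ?_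
    rw [norm_δ, wt_ω]
    apply Real.exp_le_exp.mpr
    have h3 : h (lev (n • q)) ≤ h (lev q) := hm (lev_nsmul q n)
    have h4 : ((n • q : ℚ≥0) : ℝ) = n * q := by
      rw [nsmul_eq_mul]; push_cast; rfl
    rw [h4, mul_pow]
    linarith
  -- take logarithms
  have hlog : ∀ n : ℕ, (n : ℝ) * Real.log c ≤ h (lev q) - (n : ℝ) ^ 2 * (q : ℝ) ^ 2 := by
    intro n
    have := Real.log_le_log (pow_pos hpos n) (hbound n)
    rwa [Real.log_pow, Real.log_exp] at this
  have hK : 0 ≤ h (lev q) := h0 ▸ hm (Nat.zero_le _)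
  obtain ⟨n, hn⟩ := exists_nat_gt ((h (lev q) + |Real.log c|) / (q : ℝ) ^ 2)
  rw [div_lt_iff₀ (by positivity)] at hn
  have hn1 : (1 : ℝ) ≤ n := by
    have : n ≠ 0 := by
      rintro rfl
      have := abs_nonneg (Real.log c)
      simp at hn
      linarith
    exact_mod_cast Nat.one_le_iff_ne_zero.mpr this
  have h5 := hlog n
  have h6 : h (lev q) < n * (q : ℝ) ^ 2 + Real.log c := by
    have := neg_abs_le (Real.log c)
    linarith
  nlinarith

/-- Every character is the coefficient at `0`. -/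
theorem char_eq (h : ℕ → ℝ) (hm : Monotone h) (h0 : h 0 = 0)
    (φ : WeakDual.characterSpace ℂ (A (wt h hm h0))) (x : A (wt h hm h0)) :
    φ x = coef (wt h hm h0) 0 x := by
  have key : (WeakDual.CharacterSpace.toCLM φ) = coef (wt h hm h0) 0 := by
    apply ext_eq
    intro q
    rw [coef_δ]
    by_cases hq : q = 0
    · subst hq
      rw [if_pos rfl, δ_zero]
      exact map_one φ
    · rw [if_neg hq]
      exact char_δ h hm h0 φ q hq
  have := congrArg (fun T => T x) key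
  exact this

/-- Elements with vanishing coefficient at `0` are quasinilpotent. -/
theorem isUnit_sub (h : ℕ → ℝ) (hm : Monotone h) (h0 : h 0 = 0) (x : A (wt h hm h0))
    (hx : coef (wt h hm h0) 0 x = 0) (z : ℂ) (hz : z ≠ 0) :
    IsUnit (algebraMap ℂ (A (wt h hm h0)) z - x) := by
  by_contra hnot
  have : z ∈ spectrum ℂ x := hnot
  rw [WeakDual.CharacterSpace.mem_spectrum_iff_exists] at this
  obtain ⟨φ, hφ⟩ := this
  rw [char_eq, hx] at hφ
  exact hz hφ.symm

theorem coef_one (w : Wt) : coef w 0 (1 : A w) = 1 := by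
  rw [← δ_zero, coef_δ, if_pos rfl]

theorem main : ∃ (R : Type) (_ : NonUnitalNormedCommRing R) (_ : NormedSpace ℂ R)
      (_ : IsScalarTower ℂ R R) (_ : SMulCommClass ℂ R R),
      CompleteSpace R ∧ (¬ ∃ e : R, ∀ x : R, e * x = x) ∧ Radical R ∧ ¬ FiniteDimensional ℂ R ∧
      ClassV R ∧ RationalSemigroup R ∧ ¬ ClassVI R ∧
      ∀ a : ℝ → R, IsRealSemigroup R a → ∀ t : ℝ, 0 < t →
        (∃ C : ℝ, ∀ s : ℝ, t / 4 ≤ s → s ≤ t → ‖a s‖ ≤ C) → a t = 0 := by
  obtain ⟨h, hm, h0, hno⟩ := no_semigroup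
  have hnn : ∀ t : ℚ, 0 < t → t.toNNRat ≠ 0 := fun t ht => (Rat.toNNRat_pos.mpr ht).ne'
  refine assemble (A (wt h hm h0)) (coef (wt h hm h0) 0) (coef_zero_mul _) (coef_one _)
    (isUnit_sub h hm h0) (fun t => δ (wt h hm h0) t.toNNRat) ?_ ?_ ?_ ?_ hno
  · intro s t hs ht
    rw [← δ_add, Rat.toNNRat_add hs.le ht.le]
  · intro t ht
    rw [coef_δ, if_neg (hnn t ht)]
  · intro hzero
    have := congrArg (coef (wt h hm h0) (Rat.toNNRat 1)) hzero
    rw [coef_δ, if_pos rfl, map_zero] at this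
    exact one_ne_zero this
  · rw [linearIndependent_iff']
    intro s g hg i hi
    have h2 := congrArg (coef (wt h hm h0) (Rat.toNNRat ((i : ℚ) + 1))) hg
    rw [map_sum, map_zero, Finset.sum_eq_single i] at h2
    · rw [map_smul, coef_δ, if_pos rfl, smul_eq_mul, mul_one] at h2
      exact h2
    · intro n _ hni
      rw [map_smul, coef_δ, if_neg, smul_zero]
      intro hcontra
      apply hni
      have h3 : ((n : ℚ) + 1) = (i : ℚ) + 1 := by
        have := congrArg (fun q : ℚ≥0 => (q : ℚ)) hcontra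
        rwa [Rat.coe_toNNRat _ (by positivity), Rat.coe_toNNRat _ (by positivity)] at this
      have h4 : (n : ℚ) = i := by linarith
      exact_mod_cast h4
    · intro hnot; exact absurd hi hnot

end Pool.Agent.H50.FdF
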