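import Mathlib

/-!
# Core of the Schur p-property: cutoffs, compactness and the gliding hump

`Q` plays the role of the `p`-th power of the `p`-norm on finitely supported combinations of the
points of `M`; the key hypothesis bounds multiplication by Lipschitz cutoffs with disjoint supports.
-/

open Finset Filter Topology

namespace Pool.Agent.H50.FpA

variable {M : Type*} [MetricSpace M]

/-- Bounded by one and `L`-Lipschitz. -/
def LB (L : ℝ) (φ : M → ℝ) : Prop := (∀ x, |φ x| ≤ 1) ∧ ∀ x y, |φ x - φ y| ≤ L * dist x y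

theorem LB.mono {L L' : ℝ} {φ : M → ℝ} (h : LB L φ) (hL : L ≤ L') : LB L' φ :=
  ⟨h.1, fun x y => (h.2 x y).trans (mul_le_mul_of_nonneg_right hL dist_nonneg)⟩

theorem LB.mul {L L' : ℝ} {φ ψ : M → ℝ} (h : LB L φ) (h' : LB L' ψ) : LB (L + L') (φ * ψ) := by
  refine ⟨fun x => ?_, fun x y => ?_⟩
  · rw [Pi.mul_apply, abs_mul]
    exact mul_le_one₀ (h.1 x) (abs_nonneg _) (h'.1 x)
  · have e : (φ * ψ) x - (φ * ψ) y = (φ x - φ y) * ψ x + φ y * (ψ x - ψ y) := by
      simp only [Pi.mul_apply]; ring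
    rw [e]
    refine (abs_add_le _ _).trans ?_
    rw [abs_mul, abs_mul, add_mul]
    have h1 := h.2 x y
    have h2 := h'.2 x y
    have h3 : |φ x - φ y| * |ψ x| ≤ |φ x - φ y| * 1 :=
      mul_le_mul_of_nonneg_left (h'.1 x) (abs_nonneg _)
    have h4 : |φ y| * |ψ x - ψ y| ≤ 1 * |ψ x - ψ y| :=
      mul_le_mul_of_nonneg_right (h.1 y) (abs_nonneg _)
    linarith

/-- Truncation to `[0,1]`. -/
def clamp (t : ℝ) : ℝ := min 1 (max 0 t)

theorem clamp_nonneg (t : ℝ) : 0 ≤ clamp t := le_min zero_le_one (le_max_left _ _)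
theorem clamp_le_one (t : ℝ) : clamp t ≤ 1 := min_le_left _ _
theorem abs_clamp_le (t : ℝ) : |clamp t| ≤ 1 := by
  rw [abs_of_nonneg (clamp_nonneg t)]; exact clamp_le_one t
theorem clamp_of_nonpos {t : ℝ} (h : t ≤ 0) : clamp t = 0 := by
  unfold clamp; rw [max_eq_left h, min_eq_right zero_le_one]
theorem clamp_of_one_le {t : ℝ} (h : 1 ≤ t) : clamp t = 1 := by
  unfold clamp; rw [max_eq_right (by linarith), min_eq_left h]
theorem abs_clamp_sub (s t : ℝ) : |clamp s - clamp t| ≤ |s - t| := by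
  unfold clamp
  rw [abs_le]
  have h1 := le_abs_self (s - t)
  have h2 := neg_abs_le (s - t)
  have h3 := abs_nonneg (s - t)
  constructor <;>
  · simp only [min_def, max_def]
    split_ifs <;> linarith

open Metric

/-- Cutoff vanishing within `r/2` of `K`, equal to one at distance at least `r`. -/
noncomputable def hcut (K : Finset M) (r : ℝ) (x : M) : ℝ :=
  clamp ((infDist x (K : Set M) - r / 2) / (r / 2))

/-- Cutoff equal to one on `K`, vanishing at distance at least `r/4`. -/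
noncomputable def scut (K : Finset M) (r : ℝ) (x : M) : ℝ :=
  clamp (1 - infDist x (K : Set M) / (r / 4))

theorem abs_infDist_sub (K : Set M) (x y : M) : |infDist x K - infDist y K| ≤ dist x y := by
  have := (lipschitz_infDist_pt K).dist_le_mul x y
  rw [Real.dist_eq] at this
  simpa using this

theorem hcut_LB (K : Finset M) {r : ℝ} (hr : 0 < r) : LB (2 / r) (hcut K r) := by
  refine ⟨fun x => abs_clamp_le _, fun x y => (abs_clamp_sub _ _).trans ?_⟩
  rw [← sub_div, abs_div, abs_of_pos (by positivity : 0 < r / 2), div_le_iff₀ (by positivity)]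
  have := abs_infDist_sub (K : Set M) x y
  have e : 2 / r * dist x y * (r / 2) = dist x y := by field_simp
  rw [e, sub_sub_sub_cancel_right]
  exact this

theorem scut_LB (K : Finset M) {r : ℝ} (hr : 0 < r) : LB (4 / r) (scut K r) := by
  refine ⟨fun x => abs_clamp_le _, fun x y => (abs_clamp_sub _ _).trans ?_⟩
  have e : (1 - infDist x (K : Set M) / (r / 4)) - (1 - infDist y (K : Set M) / (r / 4)) =
      (infDist y (K : Set M) - infDist x (K : Set M)) / (r / 4) := by ring
  rw [e, abs_div, abs_of_pos (by positivity : 0 < r / 4), div_le_iff₀ (by positivity)]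
  have := abs_infDist_sub (K : Set M) y x
  have e2 : 4 / r * dist x y * (r / 4) = dist x y := by field_simp
  rw [e2, dist_comm x y]
  exact this

theorem hcut_eq_zero {K : Finset M} {r : ℝ} (hr : 0 < r) {x : M}
    (hx : infDist x (K : Set M) ≤ r / 2) : hcut K r x = 0 :=
  clamp_of_nonpos (div_nonpos_of_nonpos_of_nonneg (by linarith) (by positivity))

theorem hcut_eq_one {K : Finset M} {r : ℝ} (hr : 0 < r) {x : M}
    (hx : r ≤ infDist x (K : Set M)) : hcut K r x = 1 :=
  clamp_of_one_le (by rw [le_div_iff₀ (by positivity)]; linarith)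

theorem hcut_mem {K : Finset M} {r : ℝ} (hr : 0 < r) {x : M} (hx : x ∈ K) : hcut K r x = 0 :=
  hcut_eq_zero hr (by rw [infDist_zero_of_mem (by exact_mod_cast hx)]; positivity)

theorem scut_mem {K : Finset M} {r : ℝ} {x : M} (hx : x ∈ K) : scut K r x = 1 := by
  unfold scut
  rw [infDist_zero_of_mem (by exact_mod_cast hx), zero_div, sub_zero]
  exact clamp_of_one_le le_rfl

theorem scut_eq_zero {K : Finset M} {r : ℝ} (hr : 0 < r) {x : M}
    (hx : r / 4 ≤ infDist x (K : Set M)) : scut K r x = 0 :=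
  clamp_of_nonpos (by
    have : 1 ≤ infDist x (K : Set M) / (r / 4) := by
      rw [le_div_iff₀ (by positivity)]; linarith
    linarith)

/-- The abstract hypotheses on `Q`. -/
structure Core (p : ℝ) (Q : (M →₀ ℝ) → ℝ) (C : ℝ → ℝ) : Prop where
  nonneg : ∀ β, 0 ≤ Q β
  add_le : ∀ β γ, Q (β + γ) ≤ Q β + Q γ
  smul : ∀ (c : ℝ) β, Q (c • β) = |c| ^ p * Q β
  Cpos : ∀ L, 0 < C L
  key : ∀ (L : ℝ), 0 ≤ L → ∀ (F : Finset ℕ) (φ : ℕ → M → ℝ), (∀ k ∈ F, LB L (φ k)) →
    (∀ k ∈ F, ∀ l ∈ F, k ≠ l → ∀ x, φ k x = 0 ∨ φ l x = 0) →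
    ∀ β, ∑ k ∈ F, Q (φ k • β) ≤ C L * Q β

variable {p : ℝ} {Q : (M →₀ ℝ) → ℝ} {C : ℝ → ℝ}

theorem Core.zero (h : Core p Q C) (hp : 0 < p) : Q 0 = 0 := by
  have := h.smul 0 0
  rw [zero_smul, abs_zero, Real.zero_rpow hp.ne', zero_mul] at this
  exact this

theorem Core.neg (h : Core p Q C) (β : M →₀ ℝ) : Q (-β) = Q β := by
  have := h.smul (-1) β
  rw [neg_smul, one_smul, abs_neg, abs_one, Real.one_rpow, one_mul] at this
  exact this

theorem Core.sub_le (h : Core p Q C) (β γ : M →₀ ℝ) : Q (β - γ) ≤ Q β + Q γ := by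
  rw [sub_eq_add_neg, ← h.neg γ]
  exact h.add_le _ _

theorem Core.sum_le (h : Core p Q C) (hp : 0 < p) {ι : Type*} (s : Finset ι)
    (f : ι → M →₀ ℝ) : Q (∑ i ∈ s, f i) ≤ ∑ i ∈ s, Q (f i) := by
  classical
  induction s using Finset.induction_on with
  | empty => simp [h.zero hp]
  | insert a s ha ih =>
    rw [Finset.sum_insert ha, Finset.sum_insert ha]
    exact (h.add_le _ _).trans (by linarith)

theorem Core.one (h : Core p Q C) {L : ℝ} (hL : 0 ≤ L) {φ : M → ℝ} (hφ : LB L φ)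
    (β : M →₀ ℝ) : Q (φ • β) ≤ C L * Q β := by
  have := h.key L hL {0} (fun _ => φ) (fun _ _ => hφ) (fun k hk l hl hkl => by
    rw [Finset.mem_singleton] at hk hl
    exact absurd (hk.trans hl.symm) hkl) β
  simpa using this

end Pool.Agent.H50.FpA
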