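import Pool.Agent.H50.FpA

/-!
# The compactness half
-/

open Finset Filter Topology Metric

namespace Pool.Agent.H50.FpB

open Pool.Agent.H50.FpA

variable {M : Type*} [MetricSpace M] {p : ℝ} {Q : (M →₀ ℝ) → ℝ} {C : ℝ → ℝ}

/-- Two terms of a bounded sequence supported in a fixed finite set are `Q`-close. -/
theorem close_pair (h : Core p Q C) (hp : 0 < p) [DiscreteTopology M] (S : Finset M)
    (v : ℕ → M →₀ ℝ) (hv : ∀ n, ((v n).support : Set M) ⊆ S) (R : ℝ) (hR : ∀ n, Q (v n) ≤ R)
    (ε : ℝ) (hε : 0 < ε) : ∃ n m, n ≠ m ∧ Q (v n - v m) ≤ ε := by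
  classical
  -- normalised coordinates
  let κ : M → ℝ := fun z => (Q (Finsupp.single z 1)) ^ (1 / p)
  have hκ0 : ∀ z, 0 ≤ κ z := fun z => Real.rpow_nonneg (h.nonneg _) _
  have hκ : ∀ z, (κ z) ^ p = Q (Finsupp.single z 1) := by
    intro z
    simp only [κ]
    rw [← Real.rpow_mul (h.nonneg _), one_div_mul_cancel hp.ne', Real.rpow_one]
  have hR0 : 0 ≤ R := (h.nonneg _).trans (hR 0)
  -- indicator functions of points are Lipschitz
  have hind : ∀ z : M, ∃ L, 0 ≤ L ∧ LB L (Pi.single z (1 : ℝ) : M → ℝ) := by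
    intro z
    have hop : IsOpen ({z} : Set M) := isOpen_discrete _
    obtain ⟨ρ, hρ, hball⟩ := Metric.isOpen_iff.mp hop z rfl
    refine ⟨1 / ρ, by positivity, ?_, ?_⟩
    · intro x
      by_cases hx : x = z
      · subst hx; simp
      · rw [Pi.single_eq_of_ne hx]; simp
    · intro x y
      have key : ∀ x y : M, x = z → y ≠ z → 1 ≤ 1 / ρ * dist x y := by
        intro x y hx hy
        rw [div_mul_eq_mul_div, one_mul, le_div_iff₀ hρ, one_mul]
        by_contra hlt
        push Not at hlt
        have : y ∈ Metric.ball z ρ := by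
          rw [Metric.mem_ball, dist_comm, ← hx]; exact hlt
        exact hy (hball this)
      by_cases hx : x = z
      · by_cases hy : y = z
        · rw [hx, hy, sub_self, abs_zero]; positivity
        · rw [hx, Pi.single_eq_same, Pi.single_eq_of_ne hy, sub_zero, abs_one, ← hx]
          exact key x y hx hy
      · by_cases hy : y = z
        · rw [hy, Pi.single_eq_same, Pi.single_eq_of_ne hx, zero_sub, abs_neg, abs_one,
            dist_comm, ← hy]
          exact key y x hy hx
        · rw [Pi.single_eq_of_ne hx, Pi.single_eq_of_ne hy, sub_self, abs_zero]; positivity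
  choose L hL0 hL using hind
  have hsing : ∀ z (w : M →₀ ℝ), (Pi.single z (1 : ℝ) : M → ℝ) • w = w z • Finsupp.single z 1 := by
    intro z w
    ext x
    rw [Finsupp.coe_pointwise_smul, Pi.smul_apply', Finsupp.smul_apply]
    by_cases hx : x = z
    · subst hx; simp
    · rw [Pi.single_eq_of_ne hx, Finsupp.single_eq_of_ne hx]; simp
  have hcoord : ∀ n z, |v n z * κ z| ^ p ≤ C (L z) * R := by
    intro n z
    have h1 := h.one (hL0 z) (hL z) (v n)
    rw [hsing, h.smul] at h1
    rw [abs_mul, abs_of_nonneg (hκ0 z), Real.mul_rpow (abs_nonneg _) (hκ0 z), hκ]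
    exact h1.trans (mul_le_mul_of_nonneg_left (hR n) (h.Cpos _).le)
  let b : ℕ → (S → ℝ) := fun n z => v n z * κ z
  have hbdd : ∃ B : ℝ, ∀ n, ‖b n‖ ≤ B := by
    refine ⟨∑ z ∈ S, (C (L z) * R) ^ (1 / p), fun n => ?_⟩
    rw [pi_norm_le_iff_of_nonneg (Finset.sum_nonneg fun z _ =>
      Real.rpow_nonneg (mul_nonneg (h.Cpos _).le hR0) _)]
    intro z
    have h1 : |b n z| ≤ (C (L z) * R) ^ (1 / p) := by
      have h2 := Real.rpow_le_rpow (Real.rpow_nonneg (abs_nonneg _) _) (hcoord n z)
        (by positivity : 0 ≤ 1 / p)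
      rwa [← Real.rpow_mul (abs_nonneg _), mul_one_div_cancel hp.ne', Real.rpow_one] at h2
    rw [Real.norm_eq_abs]
    refine h1.trans ?_
    exact Finset.single_le_sum (f := fun z => (C (L z) * R) ^ (1 / p))
      (fun z _ => Real.rpow_nonneg (mul_nonneg (h.Cpos _).le hR0) _) z.2
  obtain ⟨B, hB⟩ := hbdd
  obtain ⟨a, -, φ, hφ, hlim⟩ := tendsto_subseq_of_bounded
    (isBounded_closedBall (x := (0 : S → ℝ)) (r := B)) (x := b)
    (fun n => by rw [mem_closedBall_zero_iff]; exact hB n)
  have hcau := hlim.cauchySeq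
  -- choose a tolerance
  set η : ℝ := (ε / (S.card + 1)) ^ (1 / p) with hη
  have hηpos : 0 < η := Real.rpow_pos_of_pos (by positivity) _
  have hηp : η ^ p = ε / (S.card + 1) := by
    rw [hη, ← Real.rpow_mul (by positivity), one_div_mul_cancel hp.ne', Real.rpow_one]
  obtain ⟨n0, hn0⟩ := Metric.cauchySeq_iff'.mp hcau η hηpos
  have hclose := hn0 (n0 + 1) (by omega)
  refine ⟨φ (n0 + 1), φ n0, (hφ (by omega : n0 < n0 + 1)).ne', ?_⟩
  set n := φ (n0 + 1)
  set m := φ n0
  have hdist : ∀ z ∈ S, |v n z * κ z - v m z * κ z| ≤ η := by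
    intro z hz
    have h1 := (dist_le_pi_dist (b n) (b m) ⟨z, hz⟩).trans hclose.le
    rwa [Real.dist_eq] at h1
  have hdec : v n - v m = ∑ z ∈ S, (v n z - v m z) • Finsupp.single z (1 : ℝ) := by
    ext x
    rw [Finsupp.finsetSum_apply, Finsupp.sub_apply]
    simp only [Finsupp.smul_apply, smul_eq_mul]
    by_cases hx : x ∈ S
    · rw [Finset.sum_eq_single x]
      · rw [Finsupp.single_eq_same, mul_one]
      · intro z _ hzx
        rw [Finsupp.single_eq_of_ne (Ne.symm hzx), mul_zero]
      · intro hnot; exact absurd hx hnot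
    · rw [Finset.sum_eq_zero]
      · have h1 : v n x = 0 := by
          by_contra hne
          exact hx (by exact_mod_cast hv n (by simpa using hne))
        have h2 : v m x = 0 := by
          by_contra hne
          exact hx (by exact_mod_cast hv m (by simpa using hne))
        rw [h1, h2, sub_zero]
      · intro z hz
        rw [Finsupp.single_eq_of_ne, mul_zero]
        rintro rfl
        exact hx hz
  rw [hdec]
  refine (h.sum_le hp _ _).trans ?_
  calc ∑ z ∈ S, Q ((v n z - v m z) • Finsupp.single z (1 : ℝ))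
      ≤ ∑ z ∈ S, ε / (S.card + 1) := by
        apply Finset.sum_le_sum
        intro z hz
        rw [h.smul, ← hκ, ← Real.mul_rpow (abs_nonneg _) (hκ0 z), ← hηp]
        apply Real.rpow_le_rpow (mul_nonneg (abs_nonneg _) (hκ0 z)) _ hp.le
        have h1 := hdist z hz
        rw [← sub_mul, abs_mul, abs_of_nonneg (hκ0 z)] at h1
        exact h1
    _ = S.card * (ε / (S.card + 1)) := by rw [Finset.sum_const, nsmul_eq_mul]
    _ ≤ ε := by
        rw [mul_div_assoc', div_le_iff₀ (by positivity)]
        nlinarith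

/-- A set contained in `r_i`-neighbourhoods of finite sets for all `i` is finite. -/
theorem finite_core [CompleteSpace M] [DiscreteTopology M] (K : ℕ → Finset M)
    (hK : ∀ i, (K i).Nonempty) :
    {x : M | ∀ i, infDist x (K i : Set M) < (1 / 2 : ℝ) ^ i}.Finite := by
  set S := {x : M | ∀ i, infDist x (K i : Set M) < (1 / 2 : ℝ) ^ i} with hS
  have htb : TotallyBounded S := by
    rw [Metric.totallyBounded_iff]
    intro ε hε
    obtain ⟨i, hi⟩ := exists_pow_lt_of_lt_one hε (by norm_num : (1 / 2 : ℝ) < 1)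
    refine ⟨(K i : Set M), (K i).finite_toSet, ?_⟩
    intro x hx
    have h1 := hx i
    rw [infDist_lt_iff (by exact_mod_cast hK i)] at h1
    obtain ⟨y, hy, hxy⟩ := h1
    rw [Set.mem_iUnion₂]
    exact ⟨y, hy, by rw [mem_ball]; linarith⟩
  have hc : IsCompact S := htb.isCompact_of_isClosed (isClosed_discrete S)
  exact hc.finite_of_discrete

/-- A bounded separated sequence escapes from the neighbourhoods of all finite sets. -/
theorem exists_far (h : Core p Q C) (hp : 0 < p) [CompleteSpace M] [DiscreteTopology M]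
    (β : ℕ → M →₀ ℝ) (R c : ℝ) (hR : ∀ n, Q (β n) ≤ R) (hc : 0 < c)
    (hsep : ∀ n m, n ≠ m → c ≤ Q (β n - β m)) :
    ∃ r > 0, ∃ θ > 0, ∀ K : Finset M, K.Nonempty → ∃ n, θ < Q (hcut K r • β n) := by
  classical
  by_contra hcon
  push Not at hcon
  have hRnn : 0 ≤ R := (h.nonneg _).trans (hR 0)
  set ε : ℝ := c / 8 with hε
  have hεpos : 0 < ε := by positivity
  let rr : ℕ → ℝ := fun i => (1 / 2 : ℝ) ^ i
  have hrr : ∀ i, 0 < rr i := fun i => by positivity
  let Ls : ℕ → ℝ := fun i => ∑ j ∈ Finset.range i, 2 / rr j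
  have hLs : ∀ i, 0 ≤ Ls i := fun i => Finset.sum_nonneg fun j _ => by have := hrr j; positivity
  let θ : ℕ → ℝ := fun i => ε * (1 / 2) ^ (i + 1) / C (Ls i)
  have hθ : ∀ i, 0 < θ i := fun i => by have := h.Cpos (Ls i); positivity
  choose K hKne hK using fun i => hcon (rr i) (hrr i) (θ i) (hθ i)
  let g : ℕ → M → ℝ := fun i => 1 - hcut (K i) (rr i)
  let G : ℕ → M → ℝ := fun m => ∏ i ∈ Finset.range m, g i
  have hgLB : ∀ i, LB (2 / rr i) (g i) := by
    intro i
    refine ⟨fun x => ?_, fun x y => ?_⟩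
    · simp only [g, Pi.sub_apply, Pi.one_apply]
      have h1 : 0 ≤ hcut (K i) (rr i) x := clamp_nonneg _
      have h2 : hcut (K i) (rr i) x ≤ 1 := clamp_le_one _
      rw [abs_le]; constructor <;> linarith
    · simp only [g, Pi.sub_apply, Pi.one_apply]
      have := (hcut_LB (K i) (hrr i)).2 y x
      rw [dist_comm x y]
      convert this using 2
      ring
  have hGLB : ∀ m, LB (Ls m) (G m) := by
    intro m
    induction m with
    | zero =>
      simp only [G, Ls, Finset.range_zero, Finset.prod_empty, Finset.sum_empty]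
      exact ⟨fun x => by simp, fun x y => by simp⟩
    | succ m ih =>
      simp only [G, Ls, Finset.prod_range_succ, Finset.sum_range_succ]
      exact ih.mul (hgLB m)
  have hGdiff : ∀ m n, Q (β n - G m • β n) ≤ ε * (1 - (1 / 2) ^ m) := by
    intro m n
    induction m with
    | zero => simp [G, h.zero hp]
    | succ m ih =>
      have e1 : β n - G (m + 1) • β n =
          (β n - G m • β n) + G m • (hcut (K m) (rr m) • β n) := by
        have e2 : G (m + 1) = G m - G m * hcut (K m) (rr m) := by
          simp only [G, Finset.prod_range_succ, g]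
          ring
        rw [e2]
        ext x
        simp only [Finsupp.sub_apply, Finsupp.add_apply, Finsupp.coe_pointwise_smul,
          Pi.smul_apply', smul_eq_mul, Pi.sub_apply, Pi.mul_apply]
        ring
      rw [e1]
      refine (h.add_le _ _).trans ?_
      have e3 := h.one (hLs m) (hGLB m) (hcut (K m) (rr m) • β n)
      have e4 : C (Ls m) * Q (hcut (K m) (rr m) • β n) ≤ ε * (1 / 2) ^ (m + 1) := by
        have := mul_le_mul_of_nonneg_left (hK m n) (h.Cpos (Ls m)).le
        refine this.trans (le_of_eq ?_)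
        simp only [θ]
        have := (h.Cpos (Ls m)).ne'
        field_simp
      have e5 : ε * (1 - (1 / 2) ^ m) + ε * (1 / 2) ^ (m + 1) ≤ ε * (1 - (1 / 2) ^ (m + 1)) := by
        rw [pow_succ]; nlinarith [hεpos, pow_pos (by norm_num : (0 : ℝ) < 1 / 2) m]
      linarith
  -- the limit set is finite
  have hfin := finite_core K hKne
  set S : Finset M := hfin.toFinset with hS
  -- eventually the support is in `S`
  have hev : ∀ n, ∃ m, ((G m • β n).support : Set M) ⊆ S := by
    intro n
    have h1 : ∀ x ∈ (β n).support, ∃ m, ∀ m' ≥ m, x ∈ S ∨ G m' x = 0 := by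
      intro x _
      by_cases hx : x ∈ S
      · exact ⟨0, fun _ _ => Or.inl hx⟩
      · rw [hS, Set.Finite.mem_toFinset, Set.mem_ofPred_eq] at hx
        push Not at hx
        obtain ⟨i, hi⟩ := hx
        refine ⟨i + 1, fun m' hm' => Or.inr ?_⟩
        simp only [G]
        rw [Finset.prod_apply]
        apply Finset.prod_eq_zero (Finset.mem_range.mpr (by omega : i < m'))
        simp only [g, Pi.sub_apply, Pi.one_apply]
        rw [hcut_eq_one (hrr i) hi, sub_self]
    choose! m hm using h1
    refine ⟨∑ x ∈ (β n).support, m x, ?_⟩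
    intro x hx
    have hx1 : (G (∑ x ∈ (β n).support, m x) • β n) x ≠ 0 := by simpa using hx
    rw [Finsupp.coe_pointwise_smul, Pi.smul_apply', smul_eq_mul] at hx1
    have hx2 : x ∈ (β n).support := by
      rw [Finsupp.mem_support_iff]
      exact right_ne_zero_of_mul hx1
    rcases hm x hx2 _ (Finset.single_le_sum (f := m) (fun _ _ => Nat.zero_le _) hx2) with h2 | h2
    · exact_mod_cast h2
    · exact absurd h2 (left_ne_zero_of_mul hx1)
  choose m hm using hev
  have hQv : ∀ n, Q (G (m n) • β n) ≤ R + ε := by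
    intro n
    have e1 : G (m n) • β n = β n - (β n - G (m n) • β n) := by abel
    rw [e1]
    refine (h.sub_le _ _).trans ?_
    have := hGdiff (m n) n
    have h3 : ε * (1 - (1 / 2) ^ (m n)) ≤ ε := by
      have : (0 : ℝ) ≤ (1 / 2) ^ (m n) := by positivity
      nlinarith
    linarith [hR n]
  obtain ⟨n, n', hne, hclose⟩ := close_pair h hp S (fun n => G (m n) • β n) hm (R + ε) hQv ε hεpos
  have hd : ∀ k, Q (β k - G (m k) • β k) ≤ ε := by
    intro k
    have := hGdiff (m k) k
    have h3 : ε * (1 - (1 / 2) ^ (m k)) ≤ ε := by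
      have : (0 : ℝ) ≤ (1 / 2) ^ (m k) := by positivity
      nlinarith
    linarith
  have e1 : β n - β n' = ((β n - G (m n) • β n) - (β n' - G (m n') • β n')) +
      (G (m n) • β n - G (m n') • β n') := by abel
  have e2 := hsep n n' hne
  rw [e1] at e2
  have e3 := h.add_le ((β n - G (m n) • β n) - (β n' - G (m n') • β n'))
    (G (m n) • β n - G (m n') • β n')
  have e4 := h.sub_le (β n - G (m n) • β n) (β n' - G (m n') • β n')
  have e5 := hd n
  have e6 := hd n'
  linarith

end Pool.Agent.H50.FpB
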