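import Pool.Agent.H50.FpB

/-!
# The gliding hump
-/

open Finset Filter Topology Metric

namespace Pool.Agent.H50.FpC

open Pool.Agent.H50.FpA Pool.Agent.H50.FpB

/-- Selection: a matrix with bounded column sums has an infinite index set on which the entries
above the diagonal are small. -/
theorem selection (e : ℕ → ℕ → ℝ) (B : ℝ) (h0 : ∀ k j, 0 ≤ e k j)
    (hB : ∀ j (F : Finset ℕ), ∑ k ∈ F, e k j ≤ B) (τ : ℕ → ℝ) (hτ : ∀ i, 0 < τ i)
    (hτa : Antitone τ) :
    ∃ s : ℕ → ℕ, StrictMono s ∧ ∀ i j, i < j → e (s i) (s j) ≤ τ i := by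
  let U : Ultrafilter ℕ := hyperfilter ℕ
  have hlim : ∀ k, ∃ E : ℝ, Tendsto (e k) U (𝓝 E) := by
    intro k
    have hc : IsCompact (Set.Icc (0 : ℝ) B) := isCompact_Icc
    have hle : ((U.map (e k) : Ultrafilter ℝ) : Filter ℝ) ≤ 𝓟 (Set.Icc (0 : ℝ) B) := by
      rw [le_principal_iff]
      apply Ultrafilter.mem_coe.mpr
      rw [Ultrafilter.mem_map]
      apply Filter.Eventually.of_forall (f := (U : Filter ℕ))
      intro j
      refine ⟨h0 k j, ?_⟩
      simpa using hB j {k}
    obtain ⟨z, _, hz⟩ := hc.ultrafilter_le_nhds _ hle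
    exact ⟨z, hz⟩
  choose E hE using hlim
  have hUne : NeBot (U : Filter ℕ) := U.neBot
  have hE0 : ∀ k, 0 ≤ E k := fun k => ge_of_tendsto (hE k) (Eventually.of_forall fun j => h0 k j)
  have hEsum : ∀ F : Finset ℕ, ∑ k ∈ F, E k ≤ B := by
    intro F
    have h1 : Tendsto (fun j => ∑ k ∈ F, e k j) U (𝓝 (∑ k ∈ F, E k)) :=
      tendsto_finsetSum _ fun k _ => hE k
    exact le_of_tendsto h1 (Eventually.of_forall fun j => hB j F)
  have hEs : Summable E := summable_of_sum_le hE0 hEsum
  have hE0lim : Tendsto E atTop (𝓝 0) := hEs.tendsto_atTop_zero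
  have hU : (U : Filter ℕ) ≤ atTop := by
    rw [← Nat.cofinite_eq_atTop]; exact hyperfilter_le_cofinite
  obtain ⟨f, hP, hr⟩ := exists_seq_of_forall_finset_exists (α := ℕ × ℕ)
    (fun x => E x.2 < τ x.1)
    (fun x y => x.1 < y.1 ∧ x.2 < y.2 ∧ e x.2 y.2 < τ x.1) (by
      intro s hs
      set i' : ℕ := ∑ x ∈ s, (x.1 + 1) with hi'
      have ev1 : ∀ᶠ k in (U : Filter ℕ), E k < τ i' :=
        (hE0lim.mono_left hU).eventually (gt_mem_nhds (hτ i'))
      have ev2 : ∀ᶠ k in (U : Filter ℕ), ∀ x ∈ s, x.2 < k ∧ e x.2 k < τ x.1 := by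
        rw [Filter.eventually_all_finset]
        intro x hx
        exact ((eventually_gt_atTop x.2).filter_mono hU).and
          ((hE x.2).eventually (gt_mem_nhds (hs x hx)))
      obtain ⟨k, hk1, hk2⟩ := (ev1.and ev2).exists
      refine ⟨(i', k), hk1, fun x hx => ⟨?_, (hk2 x hx).1, (hk2 x hx).2⟩⟩
      have h9 : x.1 + 1 ≤ i' :=
        Finset.single_le_sum (f := fun x : ℕ × ℕ => x.1 + 1) (fun _ _ => Nat.zero_le _) hx
      change x.1 < i'
      omega)
  have hmono : StrictMono fun n => (f n).1 := fun m n hmn => (hr m n hmn).1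
  refine ⟨fun n => (f n).2, fun m n hmn => (hr m n hmn).2.1, fun i j hij => ?_⟩
  exact (hr i j hij).2.2.le.trans (hτa (hmono.id_le i))

/-- Multiplication as a linear map. -/
noncomputable def mulL {M : Type*} (φ : M → ℝ) : (M →₀ ℝ) →ₗ[ℝ] (M →₀ ℝ) where
  toFun := fun β => φ • β
  map_add' := by
    intro x y; ext z
    simp only [Finsupp.coe_pointwise_smul, Pi.smul_apply', smul_eq_mul, Finsupp.add_apply]
    ring
  map_smul' := by
    intro c x; ext z
    simp only [Finsupp.coe_pointwise_smul, Pi.smul_apply', smul_eq_mul, Finsupp.smul_apply,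
      RingHom.id_apply]
    ring

theorem mulL_apply {M : Type*} (φ : M → ℝ) (β : M →₀ ℝ) : mulL φ β = φ • β := rfl

variable {M : Type*} [MetricSpace M] {p : ℝ} {Q : (M →₀ ℝ) → ℝ} {C : ℝ → ℝ}

theorem core_lower (h : Core p Q C) (hp : 0 < p) [CompleteSpace M] [DiscreteTopology M] (o : M)
    (β : ℕ → M →₀ ℝ) (R c : ℝ) (hR : ∀ n, Q (β n) ≤ R) (hc : 0 < c)
    (hsep : ∀ n m, n ≠ m → c ≤ Q (β n - β m)) :
    ∃ s : ℕ → ℕ, Function.Injective s ∧ ∃ κ > 0, ∀ (F : Finset ℕ) (a : ℕ → ℝ),
      κ * ∑ k ∈ F, |a k| ^ p ≤ Q (∑ k ∈ F, a k • β (s k)) := by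
  classical
  obtain ⟨r, hr, θ, hθ, hfar⟩ := exists_far h hp β R c hR hc hsep
  choose! n hn using hfar
  let K : ℕ → Finset M := fun k => Nat.rec {o} (fun _ K => K ∪ (β (n K)).support) k
  have hK0 : K 0 = {o} := rfl
  have hKs : ∀ k, K (k + 1) = K k ∪ (β (n (K k))).support := fun _ => rfl
  clear_value K
  have hKmono : Monotone K := monotone_nat_of_le_succ fun k => by
    rw [hKs]; exact Finset.subset_union_left
  have hKne : ∀ k, (K k).Nonempty := fun k =>
    ⟨o, hKmono (Nat.zero_le k) (by rw [hK0]; exact Finset.mem_singleton_self o)⟩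
  let z : ℕ → M →₀ ℝ := fun k => β (n (K k))
  have hzs : ∀ j k, j < k → (z j).support ⊆ K k := by
    intro j k hjk
    have h1 : (z j).support ⊆ K (j + 1) := by rw [hKs]; exact Finset.subset_union_right
    exact h1.trans (hKmono hjk)
  have hzfar : ∀ k, θ < Q (hcut (K k) r • z k) := fun k => hn (K k) (hKne k)
  let φ : ℕ → M → ℝ := fun k => hcut (K k) r * scut (K (k + 1)) r
  set L : ℝ := 2 / r + 4 / r with hL
  have hL0 : 0 ≤ L := by positivity
  have hφLB : ∀ k, LB L (φ k) := fun k => (hcut_LB (K k) hr).mul (scut_LB (K (k + 1)) hr)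
  -- diagonal entries
  have hdiag : ∀ k, φ k • z k = hcut (K k) r • z k := by
    intro k
    ext x
    simp only [Finsupp.coe_pointwise_smul, Pi.smul_apply', smul_eq_mul]
    by_cases hx : z k x = 0
    · rw [hx, mul_zero, mul_zero]
    · have hxK : x ∈ K (k + 1) := hzs k (k + 1) (by omega) (by simpa using hx)
      simp only [φ, Pi.mul_apply]
      rw [scut_mem hxK, mul_one]
  -- entries below the diagonal
  have hlow : ∀ j k, j < k → φ k • z j = 0 := by
    intro j k hjk
    ext x
    simp only [Finsupp.coe_pointwise_smul, Pi.smul_apply', smul_eq_mul, Finsupp.zero_apply]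
    by_cases hx : z j x = 0
    · rw [hx, mul_zero]
    · have hxK : x ∈ K k := hzs j k hjk (by simpa using hx)
      simp only [φ, Pi.mul_apply]
      rw [hcut_mem hr hxK, zero_mul, zero_mul]
  -- disjoint supports
  have hdisj : ∀ k l, k < l → ∀ x, φ k x = 0 ∨ φ l x = 0 := by
    intro k l hkl x
    by_cases h1 : r / 4 ≤ infDist x (K (k + 1) : Set M)
    · left
      simp only [φ, Pi.mul_apply]
      rw [scut_eq_zero hr h1, mul_zero]
    · right
      push Not at h1
      have h2 : infDist x (K l : Set M) ≤ infDist x (K (k + 1) : Set M) :=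
        infDist_le_infDist_of_subset (by exact_mod_cast hKmono hkl)
          (by exact_mod_cast hKne (k + 1))
      simp only [φ, Pi.mul_apply]
      rw [hcut_eq_zero hr (by linarith), zero_mul]
  let e : ℕ → ℕ → ℝ := fun k j => Q (φ k • z j)
  have hcol : ∀ j (F : Finset ℕ), ∑ k ∈ F, e k j ≤ C L * R := by
    intro j F
    have h1 := h.key L hL0 F φ (fun k _ => hφLB k) (fun k _ l _ hkl x => by
      rcases Nat.lt_or_gt_of_ne hkl with h2 | h2
      · exact hdisj k l h2 x
      · exact (hdisj l k h2 x).symm) (z j)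
    exact h1.trans (mul_le_mul_of_nonneg_left (hR _) (h.Cpos L).le)
  let τ : ℕ → ℝ := fun i => θ / 2 * (1 / 2) ^ (i + 1)
  have hτsum : ∀ F : Finset ℕ, ∑ i ∈ F, τ i ≤ θ / 2 := by
    intro F
    have hs : HasSum (fun i : ℕ => τ i) (θ / 2) := by
      have h1 := hasSum_geometric_two' (θ / 2)
      have e1 : (fun i => τ i) = fun i : ℕ => θ / 2 / 2 / 2 ^ i := by
        funext i
        simp only [τ]
        rw [pow_succ, one_div, inv_pow]
        field_simp
      rw [e1]
      exact h1
    exact sum_le_hasSum F (fun i _ => by simp only [τ]; positivity) hs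
  obtain ⟨s, hs, hsm⟩ := selection e (C L * R) (fun k j => h.nonneg _) hcol τ
    (fun i => by simp only [τ]; positivity) (fun i j hij => by
      simp only [τ]
      apply mul_le_mul_of_nonneg_left _ (by positivity)
      exact pow_le_pow_of_le_one (by norm_num) (by norm_num) (by omega))
  refine ⟨fun k => n (K (s k)), ?_, θ / 2 / C L, div_pos (by positivity) (h.Cpos L), ?_⟩
  · -- injectivity
    have hlt : ∀ j k, j < k → n (K j) ≠ n (K k) := by
      intro j k hjk heq
      have h1 := hzfar k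
      have h2 : hcut (K k) r • z k = 0 := by
        have h3 : z k = z j := by simp only [z]; rw [heq]
        rw [h3]
        ext x
        simp only [Finsupp.coe_pointwise_smul, Pi.smul_apply', smul_eq_mul, Finsupp.zero_apply]
        by_cases hx : z j x = 0
        · rw [hx, mul_zero]
        · rw [hcut_mem hr (hzs j k hjk (by simpa using hx)), zero_mul]
      rw [h2, h.zero hp] at h1
      linarith
    intro i j hij
    by_contra hne
    rcases Nat.lt_or_gt_of_ne hne with h1 | h1
    · exact hlt _ _ (hs h1) hij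
    · exact hlt _ _ (hs h1) hij.symm
  · intro F a
    have hzdef : ∀ k, β (n (K (s k))) = z (s k) := fun _ => rfl
    simp only [hzdef]
    set X : M →₀ ℝ := ∑ k ∈ F, a k • z (s k) with hX
    have hkey := h.key L hL0 F (fun k => φ (s k)) (fun k _ => hφLB _) (fun k _ l _ hkl x => by
      rcases Nat.lt_or_gt_of_ne hkl with h2 | h2
      · exact hdisj _ _ (hs h2) x
      · exact (hdisj _ _ (hs h2) x).symm) X
    -- each term
    have hterm : ∀ k ∈ F, |a k| ^ p * θ - ∑ j ∈ F.erase k, |a j| ^ p * e (s k) (s j)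
        ≤ Q (φ (s k) • X) := by
      intro k hk
      have h1 : φ (s k) • X = ∑ j ∈ F, a j • (φ (s k) • z (s j)) := by
        rw [← mulL_apply, hX, map_sum]
        apply Finset.sum_congr rfl
        intro j _
        rw [map_smul, mulL_apply]
      have h2 : a k • (φ (s k) • z (s k)) = φ (s k) • X -
          ∑ j ∈ F.erase k, a j • (φ (s k) • z (s j)) := by
        rw [h1, ← Finset.add_sum_erase F _ hk]
        abel
      have h3 := h.sub_le (φ (s k) • X) (∑ j ∈ F.erase k, a j • (φ (s k) • z (s j)))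
      rw [← h2, h.smul, hdiag] at h3
      have h4 := h.sum_le hp (F.erase k) (fun j => a j • (φ (s k) • z (s j)))
      have h5 : ∑ j ∈ F.erase k, Q (a j • (φ (s k) • z (s j))) =
          ∑ j ∈ F.erase k, |a j| ^ p * e (s k) (s j) :=
        Finset.sum_congr rfl fun j _ => h.smul _ _
      have h6 : |a k| ^ p * θ ≤ |a k| ^ p * Q (hcut (K (s k)) r • z (s k)) :=
        mul_le_mul_of_nonneg_left (hzfar (s k)).le (Real.rpow_nonneg (abs_nonneg _) _)
      linarith
    have hsum := (Finset.sum_le_sum hterm).trans hkey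
    rw [Finset.sum_sub_distrib] at hsum
    -- the cross terms
    have hcross : ∑ k ∈ F, ∑ j ∈ F.erase k, |a j| ^ p * e (s k) (s j)
        ≤ ∑ j ∈ F, |a j| ^ p * (θ / 2) := by
      have h1 : ∑ k ∈ F, ∑ j ∈ F.erase k, |a j| ^ p * e (s k) (s j)
          ≤ ∑ k ∈ F, ∑ j ∈ F, |a j| ^ p * τ k := by
        apply Finset.sum_le_sum
        intro k _
        have h2 : ∑ j ∈ F.erase k, |a j| ^ p * e (s k) (s j) ≤
            ∑ j ∈ F.erase k, |a j| ^ p * τ k := by
          apply Finset.sum_le_sum
          intro j hj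
          apply mul_le_mul_of_nonneg_left _ (Real.rpow_nonneg (abs_nonneg _) _)
          have hjk : j ≠ k := Finset.ne_of_mem_erase hj
          rcases Nat.lt_or_gt_of_ne hjk with h3 | h3
          · have h4 : e (s k) (s j) = 0 := by
              simp only [e]
              rw [hlow _ _ (hs h3), h.zero hp]
            rw [h4]
            simp only [τ]; positivity
          · exact hsm k j h3
        refine h2.trans (Finset.sum_le_sum_of_subset_of_nonneg (Finset.erase_subset _ _) ?_)
        intro j _ _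
        apply mul_nonneg (Real.rpow_nonneg (abs_nonneg _) _)
        simp only [τ]; positivity
      refine h1.trans ?_
      rw [Finset.sum_comm]
      apply Finset.sum_le_sum
      intro j _
      rw [← Finset.mul_sum]
      exact mul_le_mul_of_nonneg_left (hτsum F) (Real.rpow_nonneg (abs_nonneg _) _)
    rw [← Finset.sum_mul] at hcross hsum
    rw [div_mul_eq_mul_div, div_le_iff₀ (h.Cpos L)]
    linarith

end Pool.Agent.H50.FpC
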