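import Mathlib

/-!
# p-Banach spaces, Lipschitz free p-spaces and the Schur p-property
-/

namespace Pool.Agent.H50.FpDefs

universe u

/-- `N` is a complete `p`-norm on the real vector space `X`: `(X, N)` is a `p`-Banach space. -/
structure IsPBanach (p : ℝ) {X : Type u} [AddCommGroup X] [Module ℝ X] (N : X → ℝ) : Prop where
  nonneg : ∀ x : X, 0 ≤ N x
  eq_zero_iff : ∀ x : X, N x = 0 ↔ x = 0
  smul : ∀ (c : ℝ) (x : X), N (c • x) = |c| * N x
  add_le : ∀ x y : X, N (x + y) ^ p ≤ N x ^ p + N y ^ p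
  complete : ∀ v : ℕ → X,
    (∀ ε : ℝ, 0 < ε → ∃ n₀ : ℕ, ∀ m n : ℕ, n₀ ≤ m → n₀ ≤ n → N (v m - v n) < ε) →
    ∃ x : X, ∀ ε : ℝ, 0 < ε → ∃ n₀ : ℕ, ∀ n : ℕ, n₀ ≤ n → N (v n - x) < ε

/-- `(X, N)` together with `δ : M → X` is the Lipschitz free `p`-space over the metric space `M`
with base point `o`: it is a `p`-Banach space, `δ` is isometric, `δ o = 0`, the image of `δ` spans
a dense subspace, and every Lipschitz map `f` from `M` to a `p`-Banach space `(Y, N')` with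
`f o = 0` factors as `T ∘ δ` for a unique bounded linear `T`, whose norm is the Lipschitz constant
of `f`. -/
structure IsFreePSpace (p : ℝ) {M : Type u} [MetricSpace M] (o : M) {X : Type u}
    [AddCommGroup X] [Module ℝ X] (N : X → ℝ) (δ : M → X) : Prop where
  banach : IsPBanach p N
  isometric : ∀ x y : M, N (δ x - δ y) = dist x y
  base : δ o = 0
  dense : ∀ (x : X) (ε : ℝ), 0 < ε → ∃ y ∈ Submodule.span ℝ (Set.range δ), N (x - y) < ε
  universal : ∀ (Y : Type u) [AddCommGroup Y] [Module ℝ Y] (N' : Y → ℝ), IsPBanach p N' →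
    ∀ f : M → Y, f o = 0 → (∃ K : ℝ, ∀ x y : M, N' (f x - f y) ≤ K * dist x y) →
      ∃ T : X →ₗ[ℝ] Y, (∀ x : M, T (δ x) = f x) ∧
        (∀ K : ℝ, (∀ x y : M, N' (f x - f y) ≤ K * dist x y) → ∀ x : X, N' (T x) ≤ K * N x) ∧
        ∀ S : X →ₗ[ℝ] Y, (∃ C : ℝ, ∀ x : X, N' (S x) ≤ C * N x) → (∀ x : M, S (δ x) = f x) →
          S = T

/-- The sequence `u` is equivalent to the canonical basis of `ℓ_p`. -/
def EquivLp (p : ℝ) {X : Type u} [AddCommGroup X] [Module ℝ X] (N : X → ℝ) (v : ℕ → X) : Prop :=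
  ∃ c C : ℝ, 0 < c ∧ c ≤ C ∧ ∀ (F : Finset ℕ) (a : ℕ → ℝ),
    c * (∑ n ∈ F, |a n| ^ p) ^ (1 / p) ≤ N (∑ n ∈ F, a n • v n) ∧
    N (∑ n ∈ F, a n • v n) ≤ C * (∑ n ∈ F, |a n| ^ p) ^ (1 / p)

/-- The Schur `p`-property: every bounded, uniformly separated, infinite subset contains a sequence
equivalent to the canonical basis of `ℓ_p`. -/
def SchurP (p : ℝ) {X : Type u} [AddCommGroup X] [Module ℝ X] (N : X → ℝ) : Prop :=
  ∀ A : Set X, A.Infinite → (∃ R : ℝ, ∀ x ∈ A, N x ≤ R) →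
    (∃ c : ℝ, 0 < c ∧ ∀ x ∈ A, ∀ y ∈ A, x ≠ y → c ≤ N (x - y)) →
      ∃ v : ℕ → X, (∀ n, v n ∈ A) ∧ EquivLp p N v

end Pool.Agent.H50.FpDefs
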