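import Pool.Agent.H50.FpC
import Pool.Agent.H50.FpDefs

/-!
# From the universal property to the core hypotheses
-/

open Finset Filter Topology

namespace Pool.Agent.H50.FpD

open Pool.Agent.H50.FpA Pool.Agent.H50.FpDefs

universe u

section PB
variable {p : ℝ} {X : Type u} [AddCommGroup X] [Module ℝ X] {N : X → ℝ}

theorem q_nonneg (h : IsPBanach p N) (x : X) : 0 ≤ N x ^ p := Real.rpow_nonneg (h.nonneg x) _

theorem N_zero (h : IsPBanach p N) : N 0 = 0 := (h.eq_zero_iff 0).mpr rfl

theorem q_zero (h : IsPBanach p N) (hp : 0 < p) : N 0 ^ p = 0 := by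
  rw [N_zero h, Real.zero_rpow hp.ne']

theorem q_smul (h : IsPBanach p N) (c : ℝ) (x : X) : N (c • x) ^ p = |c| ^ p * N x ^ p := by
  rw [h.smul, Real.mul_rpow (abs_nonneg _) (h.nonneg _)]

theorem N_neg (h : IsPBanach p N) (x : X) : N (-x) = N x := by
  have := h.smul (-1) x
  rwa [neg_smul, one_smul, abs_neg, abs_one, one_mul] at this

theorem q_sub_le (h : IsPBanach p N) (x y : X) : N (x - y) ^ p ≤ N x ^ p + N y ^ p := by
  rw [sub_eq_add_neg, ← N_neg h y]
  exact h.add_le _ _

theorem q_sum_le (h : IsPBanach p N) (hp : 0 < p) {ι : Type*} (s : Finset ι) (f : ι → X) :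
    N (∑ i ∈ s, f i) ^ p ≤ ∑ i ∈ s, N (f i) ^ p := by
  classical
  induction s using Finset.induction_on with
  | empty => simp [q_zero h hp]
  | insert a s ha ih =>
    rw [Finset.sum_insert ha, Finset.sum_insert ha]
    exact (h.add_le _ _).trans (by linarith)

theorem rpow_inv_rpow {p t : ℝ} (hp : 0 < p) (ht : 0 ≤ t) : (t ^ (1 / p)) ^ p = t := by
  rw [← Real.rpow_mul ht, one_div_mul_cancel hp.ne', Real.rpow_one]

theorem rpow_rpow_inv {p t : ℝ} (hp : 0 < p) (ht : 0 ≤ t) : (t ^ p) ^ (1 / p) = t := by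
  rw [← Real.rpow_mul ht, mul_one_div_cancel hp.ne', Real.rpow_one]

/-- The `ℓ_p` sum of finitely many copies. -/
noncomputable def sumN (p : ℝ) (N : X → ℝ) (ι : Type) [Fintype ι] (v : ι → X) : ℝ :=
  (∑ k, N (v k) ^ p) ^ (1 / p)

theorem sumN_rpow (h : IsPBanach p N) (hp : 0 < p) (ι : Type) [Fintype ι] (v : ι → X) :
    sumN p N ι v ^ p = ∑ k, N (v k) ^ p :=
  rpow_inv_rpow hp (Finset.sum_nonneg fun _ _ => q_nonneg h _)

theorem sumN_banach (h : IsPBanach p N) (hp : 0 < p) (ι : Type) [Fintype ι] :
    IsPBanach p (sumN p N ι) where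
  nonneg := fun v => Real.rpow_nonneg (Finset.sum_nonneg fun _ _ => q_nonneg h _) _
  eq_zero_iff := by
    intro v
    unfold sumN
    rw [Real.rpow_eq_zero (Finset.sum_nonneg fun _ _ => q_nonneg h _) (by positivity),
      Finset.sum_eq_zero_iff_of_nonneg (fun _ _ => q_nonneg h _)]
    constructor
    · intro hv
      funext k
      have := hv k (Finset.mem_univ k)
      rw [Real.rpow_eq_zero (h.nonneg _) hp.ne'] at this
      exact (h.eq_zero_iff _).mp this
    · rintro rfl k _
      exact q_zero h hp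
  smul := by
    intro c v
    unfold sumN
    have e : ∑ k, N ((c • v) k) ^ p = |c| ^ p * ∑ k, N (v k) ^ p := by
      rw [Finset.mul_sum]
      apply Finset.sum_congr rfl
      intro k _
      rw [Pi.smul_apply, q_smul h]
    rw [e, Real.mul_rpow (Real.rpow_nonneg (abs_nonneg _) _)
      (Finset.sum_nonneg fun _ _ => q_nonneg h _), rpow_rpow_inv hp (abs_nonneg _)]
  add_le := by
    intro v w
    rw [sumN_rpow h hp, sumN_rpow h hp, sumN_rpow h hp, ← Finset.sum_add_distrib]
    exact Finset.sum_le_sum fun k _ => h.add_le _ _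
  complete := by
    intro v hv
    have hcoord : ∀ (w : ι → X) (k : ι), N (w k) ≤ sumN p N ι w := by
      intro w k
      have h1 : N (w k) ^ p ≤ ∑ k, N (w k) ^ p :=
        Finset.single_le_sum (f := fun k => N (w k) ^ p) (fun _ _ => q_nonneg h _)
          (Finset.mem_univ k)
      have h2 := Real.rpow_le_rpow (q_nonneg h _) h1 (by positivity : 0 ≤ 1 / p)
      rwa [rpow_rpow_inv hp (h.nonneg _)] at h2
    have hlim : ∀ k : ι, ∃ x : X, ∀ ε : ℝ, 0 < ε → ∃ n₀ : ℕ, ∀ n : ℕ, n₀ ≤ n →
        N (v n k - x) < ε := by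
      intro k
      apply h.complete (fun n => v n k)
      intro ε hε
      obtain ⟨n₀, hn₀⟩ := hv ε hε
      exact ⟨n₀, fun m n hm hn => lt_of_le_of_lt (hcoord (v m - v n) k) (hn₀ m n hm hn)⟩
    choose x hx using hlim
    refine ⟨x, fun ε hε => ?_⟩
    set η : ℝ := (ε ^ p / (Fintype.card ι + 1)) ^ (1 / p) with hη
    have hεp : 0 < ε ^ p := Real.rpow_pos_of_pos hε _
    have hηpos : 0 < η := Real.rpow_pos_of_pos (by positivity) _
    have hηp : η ^ p = ε ^ p / (Fintype.card ι + 1) := rpow_inv_rpow hp (by positivity)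
    choose n hn using fun k => hx k η hηpos
    refine ⟨∑ k, n k, fun m hm => ?_⟩
    have h1 : sumN p N ι (v m - x) ^ p < ε ^ p := by
      rw [sumN_rpow h hp]
      calc ∑ k, N ((v m - x) k) ^ p ≤ ∑ _k : ι, ε ^ p / (Fintype.card ι + 1) := by
            apply Finset.sum_le_sum
            intro k _
            rw [← hηp]
            apply Real.rpow_le_rpow (h.nonneg _) _ hp.le
            exact (hn k m ((Finset.single_le_sum (f := n) (fun _ _ => Nat.zero_le _)
              (Finset.mem_univ k)).trans hm)).le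
        _ = Fintype.card ι * (ε ^ p / (Fintype.card ι + 1)) := by
            rw [Finset.sum_const, nsmul_eq_mul, Finset.card_univ]
        _ < ε ^ p := by
            rw [mul_div_assoc', div_lt_iff₀ (by positivity)]
            nlinarith
    by_contra hcon
    push Not at hcon
    have := Real.rpow_le_rpow hε.le hcon hp.le
    linarith

end PB

section Free
variable {p : ℝ} {M : Type u} [MetricSpace M] {o : M} {X : Type u} [AddCommGroup X] [Module ℝ X]
  {N : X → ℝ} {δ : M → X}

/-- The barycentric map. -/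
noncomputable def J (δ : M → X) : (M →₀ ℝ) →ₗ[ℝ] X := Finsupp.linearCombination ℝ δ

theorem core_of_free (hp : 0 < p) (h : IsFreePSpace p o N δ) (D : ℝ)
    (hD : ∀ x y : M, dist x y ≤ D) :
    Core p (fun β : M →₀ ℝ => N (J δ β) ^ p) (fun L => 2 * (1 + (|L| * D) ^ p)) where
  nonneg := fun β => q_nonneg h.banach _
  add_le := fun β γ => by
    rw [map_add]; exact h.banach.add_le _ _
  smul := fun c β => by
    rw [map_smul, q_smul h.banach]
  Cpos := fun L => by
    have hD0 : 0 ≤ D := dist_nonneg.trans (hD o o)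
    have : 0 ≤ (|L| * D) ^ p := Real.rpow_nonneg (by positivity) _
    positivity
  key := by
    intro L hL F φ hφ hdisj β
    have hD0 : 0 ≤ D := dist_nonneg.trans (hD o o)
    rw [abs_of_nonneg hL]
    set CL : ℝ := 2 * (1 + (L * D) ^ p) with hCL
    have hLD : 0 ≤ (L * D) ^ p := Real.rpow_nonneg (by positivity) _
    have hCL0 : 0 ≤ CL := by positivity
    have hPB := h.banach
    -- the vector valued map
    let f : M → (F → X) := fun z k => φ k z • δ z
    have hf0 : f o = 0 := by
      funext k
      simp only [f, h.base, smul_zero, Pi.zero_apply]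
    -- one coordinate
    have hone : ∀ k : F, ∀ x y : M, N (f x k - f y k) ^ p ≤ (1 + (L * D) ^ p) * dist x y ^ p := by
      intro k x y
      have e1 : f x k - f y k = φ k x • (δ x - δ y) + (φ k x - φ k y) • δ y := by
        simp only [f]
        rw [smul_sub, sub_smul]; abel
      rw [e1]
      refine (hPB.add_le _ _).trans ?_
      rw [q_smul hPB, q_smul hPB, h.isometric, add_mul, one_mul]
      have h1 : |φ k x| ^ p ≤ 1 := Real.rpow_le_one (abs_nonneg _) ((hφ k k.2).1 x) hp.le
      have h2 : |φ k x - φ k y| ^ p ≤ (L * dist x y) ^ p :=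
        Real.rpow_le_rpow (abs_nonneg _) ((hφ k k.2).2 x y) hp.le
      have h3 : N (δ y) ≤ D := by
        have := h.isometric y o
        rw [h.base, sub_zero] at this
        rw [this]; exact hD _ _
      have h4 : N (δ y) ^ p ≤ D ^ p := Real.rpow_le_rpow (hPB.nonneg _) h3 hp.le
      have hd0 : 0 ≤ dist x y ^ p := Real.rpow_nonneg dist_nonneg _
      have h5 : |φ k x - φ k y| ^ p * N (δ y) ^ p ≤ (L * dist x y) ^ p * D ^ p :=
        mul_le_mul h2 h4 (q_nonneg hPB _) (Real.rpow_nonneg (by positivity) _)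
      have h6 : (L * dist x y) ^ p * D ^ p = (L * D) ^ p * dist x y ^ p := by
        rw [Real.mul_rpow hL dist_nonneg, Real.mul_rpow hL hD0]; ring
      have h7 : |φ k x| ^ p * dist x y ^ p ≤ 1 * dist x y ^ p :=
        mul_le_mul_of_nonneg_right h1 hd0
      linarith
    have hsum : ∀ x y : M, ∑ k : F, N (f x k - f y k) ^ p ≤ CL * dist x y ^ p := by
      intro x y
      set B : ℝ := (1 + (L * D) ^ p) * dist x y ^ p with hB
      have hB0 : 0 ≤ B := by
        have : 0 ≤ dist x y ^ p := Real.rpow_nonneg dist_nonneg _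
        positivity
      have hcard : ∀ z : M, ∑ k : F, (if φ k z = 0 then 0 else B) ≤ B := by
        intro z
        by_cases hz : ∃ k : F, φ k z ≠ 0
        · obtain ⟨k, hk⟩ := hz
          rw [Finset.sum_eq_single k]
          · rw [if_neg hk]
          · intro l _ hlk
            rw [if_pos]
            rcases hdisj l l.2 k k.2 (fun e => hlk (Subtype.ext e)) z with h1 | h1
            · exact h1
            · exact absurd h1 hk
          · intro hnot; exact absurd (Finset.mem_univ k) hnot
        · push Not at hz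
          rw [Finset.sum_eq_zero]
          · exact hB0
          · intro k _; rw [if_pos (hz k)]
      have hterm : ∀ k : F, N (f x k - f y k) ^ p ≤
          (if φ k x = 0 then 0 else B) + (if φ k y = 0 then 0 else B) := by
        intro k
        by_cases h1 : φ k x = 0
        · by_cases h2 : φ k y = 0
          · rw [if_pos h1, if_pos h2]
            have : f x k - f y k = 0 := by simp only [f, h1, h2, zero_smul, sub_zero]
            rw [this, q_zero hPB hp, add_zero]
          · rw [if_neg h2]
            refine (hone k x y).trans ?_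
            split_ifs <;> linarith
        · rw [if_neg h1]
          refine (hone k x y).trans ?_
          split_ifs <;> linarith
      calc ∑ k : F, N (f x k - f y k) ^ p
          ≤ ∑ k : F, ((if φ k x = 0 then 0 else B) + (if φ k y = 0 then 0 else B)) :=
            Finset.sum_le_sum fun k _ => hterm k
        _ ≤ B + B := by
            rw [Finset.sum_add_distrib]
            exact add_le_add (hcard x) (hcard y)
        _ = CL * dist x y ^ p := by rw [hB, hCL]; ring
    set K : ℝ := CL ^ (1 / p) with hK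
    have hK0 : 0 ≤ K := Real.rpow_nonneg hCL0 _
    have hlip : ∀ x y : M, sumN p N F (f x - f y) ≤ K * dist x y := by
      intro x y
      unfold sumN
      have h1 := Real.rpow_le_rpow (Finset.sum_nonneg fun k _ => q_nonneg hPB _) (hsum x y)
        (by positivity : 0 ≤ 1 / p)
      rw [Real.mul_rpow hCL0 (Real.rpow_nonneg dist_nonneg _), rpow_rpow_inv hp dist_nonneg] at h1
      exact h1
    obtain ⟨T, hT, hTn, -⟩ := h.universal (F → X) (sumN p N F) (sumN_banach hPB hp F) f hf0
      ⟨K, hlip⟩
    have hTJ : ∀ k : F, T (J δ β) k = J δ (φ k • β) := by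
      intro k
      have e1 : T (J δ β) = Finsupp.linearCombination ℝ f β := by
        unfold J
        rw [Finsupp.linearCombination_apply, Finsupp.linearCombination_apply, Finsupp.sum,
          map_sum, Finsupp.sum]
        apply Finset.sum_congr rfl
        intro z _
        rw [map_smul, hT]
      have hsub : (φ k • β).support ⊆ β.support := by
        intro z hz
        rw [Finsupp.mem_support_iff] at hz ⊢
        rw [Finsupp.coe_pointwise_smul, Pi.smul_apply', smul_eq_mul] at hz
        exact right_ne_zero_of_mul hz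
      rw [e1]
      unfold J
      rw [Finsupp.linearCombination_apply, Finsupp.sum, Finset.sum_apply,
        Finsupp.linearCombination_apply, Finsupp.sum_of_support_subset _ hsub _ (by simp)]
      apply Finset.sum_congr rfl
      intro z _
      simp only [f, Pi.smul_apply, Finsupp.coe_pointwise_smul, Pi.smul_apply', smul_eq_mul,
        smul_smul]
      rw [mul_comm]
    have hfin := hTn K hlip (J δ β)
    have h2 := Real.rpow_le_rpow ((sumN_banach hPB hp F).nonneg _) hfin hp.le
    rw [sumN_rpow hPB hp, Real.mul_rpow hK0 (hPB.nonneg _), hK, rpow_inv_rpow hp hCL0] at h2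
    rw [← Finset.sum_coe_sort F (fun k => N (J δ (φ k • β)) ^ p)]
    calc ∑ k : F, N (J δ (φ k • β)) ^ p = ∑ k : F, N (T (J δ β) k) ^ p :=
          Finset.sum_congr rfl fun k _ => by rw [hTJ]
      _ ≤ CL * N (J δ β) ^ p := h2

/-- The main theorem. -/
theorem schur (hp : 0 < p) [CompleteSpace M] [DiscreteTopology M] (D : ℝ)
    (hD : ∀ x y : M, dist x y ≤ D) (h : IsFreePSpace p o N δ) : SchurP p N := by
  intro A hA ⟨R, hR⟩ ⟨c, hc, hsep⟩
  have hPB := h.banach
  have hcore := core_of_free hp h D hD
  have hx : ∃ x : ℕ → X, Function.Injective x ∧ ∀ n, x n ∈ A :=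
    ⟨fun n => (hA.natEmbedding A n : X), fun i j hij =>
      (hA.natEmbedding A).injective (Subtype.ext hij), fun n => (hA.natEmbedding A n).2⟩
  obtain ⟨x, hxinj, hxA⟩ := hx
  have hR0 : 0 ≤ R := (hPB.nonneg _).trans (hR _ (hxA 0))
  have hcp : 0 < c ^ p := Real.rpow_pos_of_pos hc _
  -- approximations by finitely supported elements
  let ε : ℕ → ℝ := fun n => c ^ p / 8 / ((n : ℝ) + 1)
  have hε : ∀ n, 0 < ε n := fun n => by positivity
  have hεle : ∀ n, ε n ≤ c ^ p / 8 := fun n => by
    apply div_le_self (by positivity)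
    have : (0 : ℝ) ≤ n := Nat.cast_nonneg n
    linarith
  have happ : ∀ n, ∃ β : M →₀ ℝ, N (x n - J δ β) ^ p ≤ ε n := by
    intro n
    obtain ⟨y, hy, hxy⟩ := h.dense (x n) ((ε n) ^ (1 / p)) (Real.rpow_pos_of_pos (hε n) _)
    rw [Finsupp.mem_span_range_iff_exists_finsupp] at hy
    obtain ⟨β, hβ⟩ := hy
    refine ⟨β, ?_⟩
    have e1 : J δ β = y := by
      unfold J; rw [Finsupp.linearCombination_apply]; exact hβ
    rw [e1]
    have := Real.rpow_le_rpow (hPB.nonneg _) hxy.le hp.le
    rwa [rpow_inv_rpow hp (hε n).le] at this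
  choose β hβ using happ
  have hQR : ∀ n, N (J δ (β n)) ^ p ≤ R ^ p + c ^ p := by
    intro n
    have e1 : J δ (β n) = x n - (x n - J δ (β n)) := by abel
    rw [e1]
    refine (q_sub_le hPB _ _).trans ?_
    have h1 := Real.rpow_le_rpow (hPB.nonneg _) (hR _ (hxA n)) hp.le
    have h2 := hβ n
    have h3 := hεle n
    linarith
  have hQsep : ∀ n m, n ≠ m → c ^ p / 2 ≤ N (J δ (β n - β m)) ^ p := by
    intro n m hnm
    have h1 : c ^ p ≤ N (x n - x m) ^ p :=
      Real.rpow_le_rpow hc.le (hsep _ (hxA n) _ (hxA m) (fun e => hnm (hxinj e))) hp.le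
    have e1 : x n - x m = ((x n - J δ (β n)) - (x m - J δ (β m))) + J δ (β n - β m) := by
      rw [map_sub]; abel
    rw [e1] at h1
    have h2 := hPB.add_le ((x n - J δ (β n)) - (x m - J δ (β m))) (J δ (β n - β m))
    have h3 := q_sub_le hPB (x n - J δ (β n)) (x m - J δ (β m))
    have := hβ n
    have := hβ m
    have := hεle n
    have := hεle m
    linarith
  obtain ⟨s, hs, κ, hκ, hlow⟩ := FpC.core_lower hcore hp o β (R ^ p + c ^ p) (c ^ p / 2) hQR
    (by positivity) hQsep
  -- pass to a tail
  have hεlim : Tendsto ε atTop (𝓝 0) := by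
    have := tendsto_one_div_add_atTop_nhds_zero_nat (𝕜 := ℝ) |>.const_mul (c ^ p / 8)
    simp only [mul_zero] at this
    refine this.congr fun n => ?_
    simp only [ε]; ring
  have hεs : Tendsto (fun k => ε (s k)) atTop (𝓝 0) := hεlim.comp hs.nat_tendsto_atTop
  obtain ⟨k0, hk0⟩ := eventually_atTop.mp (hεs.eventually (gt_mem_nhds (half_pos hκ)))
  refine ⟨fun k => x (s (k + k0)), fun k => hxA _, (κ / 2) ^ (1 / p), (κ / 2) ^ (1 / p) + R,
    Real.rpow_pos_of_pos (half_pos hκ) _, by linarith, fun F a => ?_⟩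
  set SS : ℝ := ∑ n ∈ F, |a n| ^ p with hSS
  have hSS0 : 0 ≤ SS := Finset.sum_nonneg fun _ _ => Real.rpow_nonneg (abs_nonneg _) _
  have hSSp : 0 ≤ SS ^ (1 / p) := Real.rpow_nonneg hSS0 _
  constructor
  · -- lower estimate
    have h1 := hlow (F.map (addRightEmbedding k0)) (fun j => a (j - k0))
    rw [Finset.sum_map, Finset.sum_map] at h1
    simp only [addRightEmbedding_apply, Nat.add_sub_cancel] at h1
    set Y : X := J δ (∑ k ∈ F, a k • β (s (k + k0))) with hY
    set Z : X := ∑ k ∈ F, a k • x (s (k + k0)) with hZ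
    have hdiff : Y = Z - ∑ k ∈ F, a k • (x (s (k + k0)) - J δ (β (s (k + k0)))) := by
      rw [hY, hZ, map_sum]
      simp only [map_smul, smul_sub, Finset.sum_sub_distrib]
      abel
    have h2 : N Y ^ p ≤ N Z ^ p + κ / 2 * SS := by
      rw [hdiff]
      refine (q_sub_le hPB _ _).trans ?_
      apply add_le_add le_rfl
      refine (q_sum_le hPB hp _ _).trans ?_
      rw [hSS, Finset.mul_sum]
      apply Finset.sum_le_sum
      intro k _
      rw [q_smul hPB, mul_comm]
      apply mul_le_mul_of_nonneg_right _ (Real.rpow_nonneg (abs_nonneg _) _)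
      exact (hβ _).trans (hk0 (k + k0) (by omega)).le
    have h3 : κ / 2 * SS ≤ N Z ^ p := by
      have h4 : κ * SS ≤ N Y ^ p := h1
      linarith
    have h4 := Real.rpow_le_rpow (by positivity) h3 (by positivity : 0 ≤ 1 / p)
    rwa [rpow_rpow_inv hp (hPB.nonneg _), Real.mul_rpow (by positivity) hSS0] at h4
  · -- upper estimate
    have h1 : N (∑ n ∈ F, a n • x (s (n + k0))) ^ p ≤ R ^ p * SS := by
      refine (q_sum_le hPB hp _ _).trans ?_
      rw [hSS, Finset.mul_sum]
      apply Finset.sum_le_sum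
      intro k _
      rw [q_smul hPB, mul_comm]
      apply mul_le_mul_of_nonneg_right _ (Real.rpow_nonneg (abs_nonneg _) _)
      exact Real.rpow_le_rpow (hPB.nonneg _) (hR _ (hxA _)) hp.le
    have h2 := Real.rpow_le_rpow (q_nonneg hPB _) h1 (by positivity : 0 ≤ 1 / p)
    rw [rpow_rpow_inv hp (hPB.nonneg _), Real.mul_rpow (Real.rpow_nonneg hR0 _) hSS0,
      rpow_rpow_inv hp hR0] at h2
    have h3 : 0 ≤ (κ / 2) ^ (1 / p) * SS ^ (1 / p) :=
      mul_nonneg (Real.rpow_nonneg (half_pos hκ).le _) hSSp
    linarith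

end Free

end Pool.Agent.H50.FpD
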