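import Pool.Agent.H50.FpDefs

/-!
# Existence of the Lipschitz free p-space
-/

open Finset Filter Topology

namespace Pool.Agent.H50.FpE

open Pool.Agent.H50.FpDefs

universe u

theorem rpow_add_le {p a b : ℝ} (hp0 : 0 < p) (hp1 : p ≤ 1) (ha : 0 ≤ a) (hb : 0 ≤ b) :
    (a + b) ^ p ≤ a ^ p + b ^ p := by
  have := NNReal.rpow_add_le_add_rpow ⟨a, ha⟩ ⟨b, hb⟩ hp0.le hp1
  exact_mod_cast this

theorem abs_rpow_add_le {p : ℝ} (hp0 : 0 < p) (hp1 : p ≤ 1) (a b : ℝ) :
    |a + b| ^ p ≤ |a| ^ p + |b| ^ p :=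
  (Real.rpow_le_rpow (abs_nonneg _) (abs_add_le a b) hp0.le).trans
    (rpow_add_le hp0 hp1 (abs_nonneg _) (abs_nonneg _))

/-- `ℓ_1` norm is dominated by the `ℓ_p` quasi-norm. -/
theorem sum_rpow_le {p : ℝ} (hp0 : 0 < p) (hp1 : p ≤ 1) {ι : Type*} (s : Finset ι) (f : ι → ℝ)
    (hf : ∀ i ∈ s, 0 ≤ f i) : (∑ i ∈ s, f i) ^ p ≤ ∑ i ∈ s, f i ^ p := by
  classical
  induction s using Finset.induction_on with
  | empty => simp [Real.zero_rpow hp0.ne']
  | insert a s ha ih =>
    rw [Finset.sum_insert ha, Finset.sum_insert ha]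
    have h1 := ih fun i hi => hf i (Finset.mem_insert_of_mem hi)
    have h2 := rpow_add_le hp0 hp1 (hf a (Finset.mem_insert_self a s))
      (Finset.sum_nonneg fun i hi => hf i (Finset.mem_insert_of_mem hi))
    linarith

/-- Boundary of a finitely supported flow. -/
noncomputable def bd {M : Type u} : (M × M →₀ ℝ) →ₗ[ℝ] (M →₀ ℝ) :=
  Finsupp.linearCombination ℝ fun e : M × M => Finsupp.single e.1 (1 : ℝ) - Finsupp.single e.2 1

theorem bd_single {M : Type u} (e : M × M) (c : ℝ) :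
    bd (Finsupp.single e c) = Finsupp.single e.1 c - Finsupp.single e.2 c := by
  unfold bd
  rw [Finsupp.linearCombination_single, smul_sub, Finsupp.smul_single, Finsupp.smul_single,
    smul_eq_mul, mul_one]

theorem bd_apply {M : Type u} (w : M × M →₀ ℝ) :
    bd w = ∑ e ∈ w.support, w e • (Finsupp.single e.1 (1 : ℝ) - Finsupp.single e.2 1) := by
  unfold bd
  rw [Finsupp.linearCombination_apply, Finsupp.sum]

variable {M : Type u} [MetricSpace M]

/-- Cost of a flow. -/
noncomputable def cost (p : ℝ) (w : M × M →₀ ℝ) : ℝ :=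
  w.sum fun e c => |c| ^ p * dist e.1 e.2 ^ p

theorem cost_of_subset {p : ℝ} (hp : 0 < p) (w : M × M →₀ ℝ) (s : Finset (M × M))
    (hs : w.support ⊆ s) : cost p w = ∑ e ∈ s, |w e| ^ p * dist e.1 e.2 ^ p :=
  Finsupp.sum_of_support_subset _ hs _ fun _ _ => by
    rw [abs_zero, Real.zero_rpow hp.ne', zero_mul]

theorem cost_nonneg (p : ℝ) (w : M × M →₀ ℝ) : 0 ≤ cost p w :=
  Finset.sum_nonneg fun e _ =>
    mul_nonneg (Real.rpow_nonneg (abs_nonneg _) _) (Real.rpow_nonneg dist_nonneg _)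

theorem cost_zero (p : ℝ) : cost p (0 : M × M →₀ ℝ) = 0 := by simp [cost]

theorem cost_add {p : ℝ} (hp0 : 0 < p) (hp1 : p ≤ 1) (w v : M × M →₀ ℝ) :
    cost p (w + v) ≤ cost p w + cost p v := by
  classical
  rw [cost_of_subset hp0 (w + v) (w.support ∪ v.support) Finsupp.support_add,
    cost_of_subset hp0 w _ Finset.subset_union_left,
    cost_of_subset hp0 v _ Finset.subset_union_right, ← Finset.sum_add_distrib]
  apply Finset.sum_le_sum
  intro e _
  rw [← add_mul, Finsupp.add_apply]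
  exact mul_le_mul_of_nonneg_right (abs_rpow_add_le hp0 hp1 _ _) (Real.rpow_nonneg dist_nonneg _)

theorem cost_smul {p : ℝ} (hp0 : 0 < p) (c : ℝ) (w : M × M →₀ ℝ) :
    cost p (c • w) = |c| ^ p * cost p w := by
  rw [cost_of_subset hp0 (c • w) w.support Finsupp.support_smul,
    cost_of_subset hp0 w _ subset_rfl, Finset.mul_sum]
  apply Finset.sum_congr rfl
  intro e _
  rw [Finsupp.smul_apply, smul_eq_mul, abs_mul, Real.mul_rpow (abs_nonneg _) (abs_nonneg _)]
  ring

/-- Representations of `β` modulo the base point. -/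
def reps (o : M) (β : M →₀ ℝ) : Set (M × M →₀ ℝ) :=
  {w | ∃ t : ℝ, bd w + Finsupp.single o t = β}

theorem reps_nonempty (o : M) (β : M →₀ ℝ) : (reps o β).Nonempty := by
  induction β using Finsupp.induction_linear with
  | zero => exact ⟨0, 0, by simp⟩
  | add f g hf hg =>
    obtain ⟨w, t, hw⟩ := hf
    obtain ⟨v, s, hv⟩ := hg
    refine ⟨w + v, t + s, ?_⟩
    rw [map_add, Finsupp.single_add, ← hw, ← hv]
    abel
  | single z c =>
    refine ⟨Finsupp.single (z, o) c, c, ?_⟩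
    rw [bd_single]
    simp

/-- The `p`-th power of the free `p`-norm. -/
noncomputable def q (p : ℝ) (o : M) (β : M →₀ ℝ) : ℝ := sInf (cost p '' reps o β)

theorem bddBelow (p : ℝ) (o : M) (β : M →₀ ℝ) : BddBelow (cost p '' reps o β) :=
  ⟨0, by rintro _ ⟨w, _, rfl⟩; exact cost_nonneg p w⟩

theorem q_le (p : ℝ) (o : M) (β : M →₀ ℝ) (w : M × M →₀ ℝ) (hw : w ∈ reps o β) :
    q p o β ≤ cost p w := csInf_le (bddBelow p o β) ⟨w, hw, rfl⟩

theorem q_nonneg (p : ℝ) (o : M) (β : M →₀ ℝ) : 0 ≤ q p o β :=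
  Real.sInf_nonneg (by rintro _ ⟨w, _, rfl⟩; exact cost_nonneg p w)

theorem exists_rep (p : ℝ) (o : M) (β : M →₀ ℝ) (ε : ℝ) (hε : 0 < ε) :
    ∃ w ∈ reps o β, cost p w < q p o β + ε := by
  obtain ⟨_, ⟨w, hw, rfl⟩, h⟩ := exists_lt_of_csInf_lt ((reps_nonempty o β).image _)
    (lt_add_of_pos_right (sInf (cost p '' reps o β)) hε)
  exact ⟨w, hw, h⟩

theorem q_add {p : ℝ} (hp0 : 0 < p) (hp1 : p ≤ 1) (o : M) (β γ : M →₀ ℝ) :
    q p o (β + γ) ≤ q p o β + q p o γ := by
  apply le_of_forall_pos_le_add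
  intro ε hε
  obtain ⟨w, ⟨t, hw⟩, h1⟩ := exists_rep p o β (ε / 2) (half_pos hε)
  obtain ⟨v, ⟨s, hv⟩, h2⟩ := exists_rep p o γ (ε / 2) (half_pos hε)
  have h3 := q_le p o (β + γ) (w + v) ⟨t + s, by
    rw [map_add, Finsupp.single_add, ← hw, ← hv]; abel⟩
  have h4 := cost_add hp0 hp1 w v
  linarith

theorem q_smul_le {p : ℝ} (hp0 : 0 < p) (o : M) (c : ℝ) (β : M →₀ ℝ) :
    q p o (c • β) ≤ |c| ^ p * q p o β := by
  apply le_of_forall_pos_le_add
  intro ε hε
  have hc : 0 ≤ |c| ^ p := Real.rpow_nonneg (abs_nonneg _) _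
  obtain ⟨w, ⟨t, hw⟩, h1⟩ := exists_rep p o β (ε / (|c| ^ p + 1)) (by positivity)
  have h3 := q_le p o (c • β) (c • w) ⟨c * t, by
    rw [map_smul, ← hw, smul_add, Finsupp.smul_single, smul_eq_mul]⟩
  rw [cost_smul hp0] at h3
  have h4 : |c| ^ p * cost p w ≤ |c| ^ p * (q p o β + ε / (|c| ^ p + 1)) :=
    mul_le_mul_of_nonneg_left h1.le hc
  have h5 : |c| ^ p * (ε / (|c| ^ p + 1)) ≤ ε := by
    rw [mul_div_assoc', div_le_iff₀ (by positivity)]
    nlinarith
  linarith

theorem q_smul {p : ℝ} (hp0 : 0 < p) (o : M) (c : ℝ) (β : M →₀ ℝ) :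
    q p o (c • β) = |c| ^ p * q p o β := by
  by_cases hc : c = 0
  · subst hc
    apply le_antisymm (q_smul_le hp0 o 0 β)
    rw [abs_zero, Real.zero_rpow hp0.ne', zero_mul]
    exact q_nonneg _ _ _
  · apply le_antisymm (q_smul_le hp0 o c β)
    have h1 := q_smul_le hp0 o c⁻¹ (c • β)
    rw [smul_smul, inv_mul_cancel₀ hc, one_smul, abs_inv, Real.inv_rpow (abs_nonneg _)] at h1
    have hcp : 0 < |c| ^ p := Real.rpow_pos_of_pos (abs_pos.mpr hc) _
    rwa [← div_eq_inv_mul, le_div_iff₀ hcp, mul_comm] at h1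

theorem q_zero {p : ℝ} (hp0 : 0 < p) (o : M) : q p o 0 = 0 := by
  have := q_smul hp0 o 0 0
  rwa [zero_smul, abs_zero, Real.zero_rpow hp0.ne', zero_mul] at this

theorem q_neg {p : ℝ} (hp0 : 0 < p) (o : M) (β : M →₀ ℝ) : q p o (-β) = q p o β := by
  have := q_smul hp0 o (-1) β
  rwa [neg_smul, one_smul, abs_neg, abs_one, Real.one_rpow, one_mul] at this

theorem q_molecule {p : ℝ} (hp0 : 0 < p) (hp1 : p ≤ 1) (o x y : M) :
    q p o (Finsupp.single x 1 - Finsupp.single y 1) = dist x y ^ p := by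
  apply le_antisymm
  · have h := q_le p o (Finsupp.single x 1 - Finsupp.single y 1) (Finsupp.single (x, y) 1)
      ⟨0, by rw [bd_single]; simp⟩
    refine h.trans (le_of_eq ?_)
    unfold cost
    rw [Finsupp.sum_single_index (by rw [abs_zero, Real.zero_rpow hp0.ne', zero_mul])]
    simp
  · unfold q
    apply le_csInf ((reps_nonempty o _).image _)
    rintro _ ⟨w, ⟨t, hw⟩, rfl⟩
    -- pair with a 1-Lipschitz function
    let f : M → ℝ := fun z => dist z y - dist o y
    let Φ : (M →₀ ℝ) →ₗ[ℝ] ℝ := Finsupp.linearCombination ℝ f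
    have hΦs : ∀ z c, Φ (Finsupp.single z c) = c * f z := fun z c => by
      simp only [Φ, Finsupp.linearCombination_single, smul_eq_mul]
    have h1 : Φ (bd w) = dist x y := by
      have e1 : bd w = (Finsupp.single x 1 - Finsupp.single y 1) - Finsupp.single o t := by
        rw [← hw]; abel
      rw [e1, map_sub, map_sub, hΦs, hΦs, hΦs]
      simp only [f, dist_self]
      ring
    have h2 : Φ (bd w) = ∑ e ∈ w.support, w e * (f e.1 - f e.2) := by
      rw [bd_apply, map_sum]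
      apply Finset.sum_congr rfl
      intro e _
      rw [map_smul, map_sub, hΦs, hΦs, smul_eq_mul]
      ring
    have h3 : dist x y ≤ ∑ e ∈ w.support, |w e| * dist e.1 e.2 := by
      rw [← h1, h2]
      apply Finset.sum_le_sum
      intro e _
      refine (le_abs_self _).trans ?_
      rw [abs_mul]
      apply mul_le_mul_of_nonneg_left _ (abs_nonneg _)
      have e2 : f e.1 - f e.2 = dist e.1 y - dist e.2 y := by simp only [f]; ring
      rw [e2]
      exact abs_dist_sub_le _ _ _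
    calc dist x y ^ p ≤ (∑ e ∈ w.support, |w e| * dist e.1 e.2) ^ p :=
          Real.rpow_le_rpow dist_nonneg h3 hp0.le
      _ ≤ ∑ e ∈ w.support, (|w e| * dist e.1 e.2) ^ p :=
          sum_rpow_le hp0 hp1 _ _ fun e _ => mul_nonneg (abs_nonneg _) dist_nonneg
      _ = cost p w := by
          unfold cost Finsupp.sum
          apply Finset.sum_congr rfl
          intro e _
          rw [Real.mul_rpow (abs_nonneg _) dist_nonneg]

/-- `q` is an additive group seminorm. -/
noncomputable def qSem {p : ℝ} (hp0 : 0 < p) (hp1 : p ≤ 1) (o : M) :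
    AddGroupSeminorm (M →₀ ℝ) where
  toFun := q p o
  map_zero' := q_zero hp0 o
  add_le' := q_add hp0 hp1 o
  neg' := q_neg hp0 o

/-- The finitely supported elements with the group seminorm `q`. -/
def V {p : ℝ} (_ : 0 < p) (_ : p ≤ 1) (_ : M) : Type u := M →₀ ℝ

section
variable {p : ℝ} (hp0 : 0 < p) (hp1 : p ≤ 1) (o : M)

noncomputable instance : AddCommGroup (V hp0 hp1 o) := inferInstanceAs (AddCommGroup (M →₀ ℝ))
noncomputable instance : Module ℝ (V hp0 hp1 o) := inferInstanceAs (Module ℝ (M →₀ ℝ))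
noncomputable instance : SeminormedAddCommGroup (V hp0 hp1 o) :=
  AddGroupSeminorm.toSeminormedAddCommGroup (E := V hp0 hp1 o) (qSem hp0 hp1 o)

theorem norm_V (β : V hp0 hp1 o) : ‖β‖ = q p o β := rfl

theorem norm_smul_V (c : ℝ) (β : V hp0 hp1 o) : ‖c • β‖ = |c| ^ p * ‖β‖ :=
  q_smul hp0 o c β

instance : UniformContinuousConstSMul ℝ (V hp0 hp1 o) where
  uniformContinuous_const_smul := by
    intro c
    have : LipschitzWith (|c| ^ p).toNNReal (fun x : V hp0 hp1 o => c • x) := by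
      apply LipschitzWith.of_dist_le_mul
      intro x y
      rw [dist_eq_norm, dist_eq_norm, ← smul_sub, norm_smul_V,
        Real.coe_toNNReal _ (Real.rpow_nonneg (abs_nonneg _) _)]
    exact this.uniformContinuous

/-- The completion. -/
abbrev X : Type u := UniformSpace.Completion (V hp0 hp1 o)

theorem norm_smul_X (c : ℝ) (x : X hp0 hp1 o) : ‖c • x‖ = |c| ^ p * ‖x‖ := by
  induction x using UniformSpace.Completion.induction_on with
  | hp => exact isClosed_eq ((continuous_const_smul c).norm) (continuous_const.mul continuous_norm)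
  | ih a =>
    rw [← UniformSpace.Completion.coe_smul, UniformSpace.Completion.norm_coe,
      UniformSpace.Completion.norm_coe, norm_smul_V]

end

end Pool.Agent.H50.FpE
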