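import Pool.Agent.H50.FpE

/-!
# Existence of the Lipschitz free p-space, second part
-/

open Finset Filter Topology

namespace Pool.Agent.H50.FpF

open Pool.Agent.H50.FpDefs Pool.Agent.H50.FpE

universe u

variable {M : Type u} [MetricSpace M] {p : ℝ} (hp0 : 0 < p) (hp1 : p ≤ 1) (o : M)

/-- The canonical map. -/
noncomputable def δV (z : M) : V hp0 hp1 o := (Finsupp.single z (1 : ℝ) : M →₀ ℝ)

/-- The canonical map. -/
noncomputable def δX (z : M) : X hp0 hp1 o := (δV hp0 hp1 o z : X hp0 hp1 o)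

theorem norm_δ_sub (x y : M) : ‖δX hp0 hp1 o x - δX hp0 hp1 o y‖ = dist x y ^ p := by
  rw [δX, δX, ← UniformSpace.Completion.coe_sub, UniformSpace.Completion.norm_coe]
  exact q_molecule hp0 hp1 o x y

theorem δ_base : δX hp0 hp1 o o = 0 := by
  rw [← norm_eq_zero, δX, UniformSpace.Completion.norm_coe]
  apply le_antisymm _ (norm_nonneg _)
  have h := q_le p o (Finsupp.single o (1 : ℝ)) 0 ⟨1, by simp⟩
  rw [cost_zero] at h
  exact h

/-- The linear map on finitely supported elements. -/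
noncomputable def T0 {Y : Type u} [AddCommGroup Y] [Module ℝ Y] (f : M → Y) :
    V hp0 hp1 o →ₗ[ℝ] Y := (Finsupp.linearCombination ℝ f : (M →₀ ℝ) →ₗ[ℝ] Y)

omit [MetricSpace M] in
theorem T0_δ {Y : Type u} [AddCommGroup Y] [Module ℝ Y] (f : M → Y) (z : M) :
    T0 hp0 hp1 o f (δV hp0 hp1 o z) = f z := by
  change Finsupp.linearCombination ℝ f (Finsupp.single z (1 : ℝ)) = f z
  rw [Finsupp.linearCombination_single, one_smul]

section ext
variable {Y : Type u} [NormedAddCommGroup Y] [Module ℝ Y]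
  (hY : ∀ (c : ℝ) (y : Y), ‖c • y‖ = |c| ^ p * ‖y‖)
include hY

theorem T0_bound (f : M → Y) (hf0 : f o = 0) (K : ℝ)
    (hf : ∀ x y, ‖f x - f y‖ ≤ K * dist x y ^ p) (β : V hp0 hp1 o) :
    ‖T0 hp0 hp1 o f β‖ ≤ K * ‖β‖ := by
  -- first for arbitrary representations
  have hrep : ∀ w ∈ reps o (β : M →₀ ℝ), ‖T0 hp0 hp1 o f β‖ ≤ K * cost p w := by
    rintro w ⟨t, hw⟩
    have e1 : T0 hp0 hp1 o f β = ∑ e ∈ w.support, w e • (f e.1 - f e.2) := by
      change Finsupp.linearCombination ℝ f (β : M →₀ ℝ) = _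
      rw [← hw, map_add, Finsupp.linearCombination_single, hf0, smul_zero, add_zero, bd_apply,
        map_sum]
      apply Finset.sum_congr rfl
      intro e _
      rw [map_smul, map_sub, Finsupp.linearCombination_single, Finsupp.linearCombination_single,
        one_smul, one_smul]
    rw [e1]
    refine (norm_sum_le _ _).trans ?_
    unfold cost Finsupp.sum
    rw [Finset.mul_sum]
    apply Finset.sum_le_sum
    intro e _
    rw [hY]
    have := mul_le_mul_of_nonneg_left (hf e.1 e.2) (Real.rpow_nonneg (abs_nonneg (w e)) p)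
    linarith
  by_cases hK : 0 ≤ K
  · apply le_of_forall_pos_le_add
    intro ε hε
    obtain ⟨w, hw, hlt⟩ := exists_rep p o (β : M →₀ ℝ) (ε / (K + 1)) (by positivity)
    have h1 := hrep w hw
    have h2 : K * cost p w ≤ K * (‖β‖ + ε / (K + 1)) :=
      mul_le_mul_of_nonneg_left hlt.le hK
    have h3 : K * (ε / (K + 1)) ≤ ε := by
      rw [mul_div_assoc', div_le_iff₀ (by positivity)]; nlinarith
    linarith
  · -- all distances vanish
    push Not at hK
    have hd : ∀ x y : M, dist x y ^ p = 0 := by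
      intro x y
      have h1 := (norm_nonneg _).trans (hf x y)
      have h2 : 0 ≤ dist x y ^ p := Real.rpow_nonneg dist_nonneg _
      nlinarith
    obtain ⟨w, hw⟩ := reps_nonempty o (β : M →₀ ℝ)
    have hcost : cost p w = 0 := by
      unfold cost Finsupp.sum
      apply Finset.sum_eq_zero
      intro e _
      change |w e| ^ p * dist e.1 e.2 ^ p = 0
      rw [hd, mul_zero]
    have h1 := hrep w hw
    rw [hcost, mul_zero] at h1
    have h2 : ‖β‖ = 0 := le_antisymm (by
      have := q_le p o (β : M →₀ ℝ) w hw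
      rw [hcost] at this
      exact this) (norm_nonneg _)
    rw [h2, mul_zero]
    exact h1

theorem extend_aux [CompleteSpace Y] (f : M → Y) (hf0 : f o = 0)
    (hf : ∃ K : ℝ, ∀ x y, ‖f x - f y‖ ≤ K * dist x y ^ p) :
    ∃ T : X hp0 hp1 o →ₗ[ℝ] Y, (∀ z, T (δX hp0 hp1 o z) = f z) ∧
      (∀ K : ℝ, (∀ x y, ‖f x - f y‖ ≤ K * dist x y ^ p) → ∀ x, ‖T x‖ ≤ K * ‖x‖) ∧
      ∀ S : X hp0 hp1 o →ₗ[ℝ] Y, (∃ C : ℝ, ∀ x, ‖S x‖ ≤ C * ‖x‖) →
        (∀ z, S (δX hp0 hp1 o z) = f z) → S = T := by
  have hUC : UniformContinuousConstSMul ℝ Y := by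
    constructor
    intro c
    have : LipschitzWith (|c| ^ p).toNNReal (fun x : Y => c • x) := by
      apply LipschitzWith.of_dist_le_mul
      intro x y
      rw [dist_eq_norm, dist_eq_norm, ← smul_sub, hY,
        Real.coe_toNNReal _ (Real.rpow_nonneg (abs_nonneg _) _)]
    exact this.uniformContinuous
  obtain ⟨K, hK⟩ := hf
  have hcont : Continuous (T0 hp0 hp1 o f) :=
    AddMonoidHomClass.continuous_of_bound (T0 hp0 hp1 o f) K
      (T0_bound hp0 hp1 o hY f hf0 K hK)
  let TL : V hp0 hp1 o →L[ℝ] Y := ⟨T0 hp0 hp1 o f, hcont⟩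
  let T : X hp0 hp1 o →L[ℝ] Y := TL.fromCompletion
  have hTcoe : ∀ a : V hp0 hp1 o, T (a : X hp0 hp1 o) = T0 hp0 hp1 o f a := by
    intro a
    exact ContinuousLinearMap.fromCompletion_apply_coe TL a
  refine ⟨T.toLinearMap, ?_, ?_, ?_⟩
  · intro z
    change T (δX hp0 hp1 o z) = f z
    rw [δX, hTcoe, T0_δ]
  · intro K' hK' x
    change ‖T x‖ ≤ K' * ‖x‖
    induction x using UniformSpace.Completion.induction_on with
    | hp => exact isClosed_le T.continuous.norm (continuous_const.mul continuous_norm)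
    | ih a =>
      rw [hTcoe, UniformSpace.Completion.norm_coe]
      exact T0_bound hp0 hp1 o hY f hf0 K' hK' a
  · rintro S ⟨C, hC⟩ hS
    have hScont : Continuous S := AddMonoidHomClass.continuous_of_bound S C hC
    have hfun : (S : X hp0 hp1 o → Y) = T := by
      apply UniformSpace.Completion.ext hScont T.continuous
      intro a
      rw [hTcoe]
      -- both sides are linear in `a`
      have h2 : ∀ a' : M →₀ ℝ, (id a' : V hp0 hp1 o) = ∑ z ∈ a'.support,
          a' z • δV hp0 hp1 o z := by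
        intro a'
        have h1 : a' = ∑ z ∈ a'.support, a' z • Finsupp.single z (1 : ℝ) := by
          conv_lhs => rw [← Finsupp.sum_single a']
          unfold Finsupp.sum
          apply Finset.sum_congr rfl
          intro z _
          rw [Finsupp.smul_single, smul_eq_mul, mul_one]
        exact h1
      have h3 : (S.comp (UniformSpace.Completion.toComplL (𝕜 := ℝ)
          (E := V hp0 hp1 o)).toLinearMap) a = T0 hp0 hp1 o f a := by
        have h4 : a = ∑ z ∈ (id a : M →₀ ℝ).support,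
          (id a : M →₀ ℝ) z • δV hp0 hp1 o z := h2 a
        rw [h4, map_sum, map_sum]
        apply Finset.sum_congr rfl
        intro z _
        rw [map_smul, map_smul, T0_δ]
        congr 1
        exact hS z
      exact h3
    ext x
    exact congrFun hfun x

end ext

/-- The p-norm on the completion. -/
noncomputable def NX (x : X hp0 hp1 o) : ℝ := ‖x‖ ^ (1 / p)

theorem NX_nonneg (x : X hp0 hp1 o) : 0 ≤ NX hp0 hp1 o x := Real.rpow_nonneg (norm_nonneg _) _

theorem NX_rpow (x : X hp0 hp1 o) : NX hp0 hp1 o x ^ p = ‖x‖ := by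
  unfold NX
  rw [← Real.rpow_mul (norm_nonneg _), one_div_mul_cancel hp0.ne', Real.rpow_one]

theorem banach_X : IsPBanach p (NX hp0 hp1 o) where
  nonneg := fun x => Real.rpow_nonneg (norm_nonneg _) _
  eq_zero_iff := fun x => by
    unfold NX
    rw [Real.rpow_eq_zero (norm_nonneg _) (by positivity), norm_eq_zero]
  smul := fun c x => by
    unfold NX
    rw [norm_smul_X, Real.mul_rpow (Real.rpow_nonneg (abs_nonneg _) _) (norm_nonneg _),
      ← Real.rpow_mul (abs_nonneg _), mul_one_div_cancel hp0.ne', Real.rpow_one]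
  add_le := fun x y => by
    rw [NX_rpow, NX_rpow, NX_rpow]; exact norm_add_le _ _
  complete := by
    intro v hv
    have hcau : CauchySeq v := by
      rw [Metric.cauchySeq_iff]
      intro ε hε
      obtain ⟨n₀, hn₀⟩ := hv (ε ^ (1 / p)) (Real.rpow_pos_of_pos hε _)
      refine ⟨n₀, fun m hm n hn => ?_⟩
      rw [dist_eq_norm]
      have h1 := hn₀ m n hm hn
      have h2 := Real.rpow_lt_rpow (Real.rpow_nonneg (norm_nonneg _) _) h1 hp0
      change NX hp0 hp1 o (v m - v n) ^ p < _ at h2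
      rwa [NX_rpow, ← Real.rpow_mul hε.le, one_div_mul_cancel hp0.ne', Real.rpow_one] at h2
    obtain ⟨x, hx⟩ := cauchySeq_tendsto_of_complete hcau
    refine ⟨x, fun ε hε => ?_⟩
    obtain ⟨n₀, hn₀⟩ := Metric.tendsto_atTop.mp hx (ε ^ p) (Real.rpow_pos_of_pos hε _)
    refine ⟨n₀, fun n hn => ?_⟩
    have h1 := hn₀ n hn
    rw [dist_eq_norm, ← NX_rpow hp0 hp1 o] at h1
    exact (Real.rpow_lt_rpow_iff (Real.rpow_nonneg (norm_nonneg _) _) hε.le hp0).mp h1

/-- The normed group attached to a p-Banach space. -/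
noncomputable abbrev toNG {Y : Type u} [AddCommGroup Y] [Module ℝ Y] (N' : Y → ℝ)
    (h : IsPBanach p N') : NormedAddCommGroup Y :=
  AddGroupNorm.toNormedAddCommGroup
    { toFun := fun y => N' y ^ p
      map_zero' := by rw [(h.eq_zero_iff 0).mpr rfl, Real.zero_rpow hp0.ne']
      add_le' := h.add_le
      neg' := fun y => by
        have := h.smul (-1) y
        rw [neg_smul, one_smul, abs_neg, abs_one, one_mul] at this
        rw [this]
      eq_zero_of_map_eq_zero' := fun y hy => by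
        rw [Real.rpow_eq_zero (h.nonneg _) hp0.ne'] at hy
        exact (h.eq_zero_iff y).mp hy }

theorem universal_X {Y : Type u} [AddCommGroup Y] [Module ℝ Y] (N' : Y → ℝ)
    (h : IsPBanach p N') (f : M → Y) (hf0 : f o = 0)
    (hf : ∃ K : ℝ, ∀ x y : M, N' (f x - f y) ≤ K * dist x y) :
    ∃ T : X hp0 hp1 o →ₗ[ℝ] Y, (∀ x : M, T (δX hp0 hp1 o x) = f x) ∧
      (∀ K : ℝ, (∀ x y : M, N' (f x - f y) ≤ K * dist x y) →
        ∀ x : X hp0 hp1 o, N' (T x) ≤ K * NX hp0 hp1 o x) ∧
      ∀ S : X hp0 hp1 o →ₗ[ℝ] Y, (∃ C : ℝ, ∀ x, N' (S x) ≤ C * NX hp0 hp1 o x) →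
        (∀ x : M, S (δX hp0 hp1 o x) = f x) → S = T := by
  let nY : NormedAddCommGroup Y := toNG hp0 N' h
  have hn : ∀ y : Y, ‖y‖ = N' y ^ p := fun _ => rfl
  have hY : ∀ (c : ℝ) (y : Y), ‖c • y‖ = |c| ^ p * ‖y‖ := by
    intro c y
    rw [hn, hn, h.smul, Real.mul_rpow (abs_nonneg _) (h.nonneg _)]
  have hcompl : CompleteSpace Y := by
    apply Metric.complete_of_cauchySeq_tendsto
    intro v hv
    rw [Metric.cauchySeq_iff] at hv
    obtain ⟨x, hx⟩ := h.complete v (by
      intro ε hε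
      obtain ⟨n₀, hn₀⟩ := hv (ε ^ p) (Real.rpow_pos_of_pos hε _)
      refine ⟨n₀, fun m n hm hn' => ?_⟩
      have h1 := hn₀ m hm n hn'
      rw [dist_eq_norm, hn] at h1
      exact (Real.rpow_lt_rpow_iff (h.nonneg _) hε.le hp0).mp h1)
    refine ⟨x, ?_⟩
    rw [Metric.tendsto_atTop]
    intro ε hε
    obtain ⟨n₀, hn₀⟩ := hx (ε ^ (1 / p)) (Real.rpow_pos_of_pos hε _)
    refine ⟨n₀, fun n hn' => ?_⟩
    have h1 := Real.rpow_lt_rpow (h.nonneg _) (hn₀ n hn') hp0
    rw [← Real.rpow_mul hε.le, one_div_mul_cancel hp0.ne', Real.rpow_one] at h1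
    rw [dist_eq_norm, hn]
    exact h1
  -- conversions between Lipschitz bounds
  have hconv : ∀ K : ℝ, 0 ≤ K → (∀ x y : M, N' (f x - f y) ≤ K * dist x y) →
      ∀ x y, ‖f x - f y‖ ≤ K ^ p * dist x y ^ p := by
    intro K hK hK' x y
    rw [hn, ← Real.mul_rpow hK dist_nonneg]
    exact Real.rpow_le_rpow (h.nonneg _) (hK' x y) hp0.le
  have habs : ∀ K : ℝ, (∀ x y : M, N' (f x - f y) ≤ K * dist x y) →
      ∀ x y : M, N' (f x - f y) ≤ |K| * dist x y := fun K hK x y =>
    (hK x y).trans (mul_le_mul_of_nonneg_right (le_abs_self K) dist_nonneg)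
  obtain ⟨K0, hK0⟩ := hf
  obtain ⟨T, hT, hTb, hTu⟩ := extend_aux hp0 hp1 o hY f hf0
    ⟨|K0| ^ p, hconv _ (abs_nonneg _) (habs K0 hK0)⟩
  refine ⟨T, hT, ?_, ?_⟩
  · intro K hK x
    by_cases hKnn : 0 ≤ K
    · have h1 := hTb (K ^ p) (hconv K hKnn hK) x
      rw [hn, ← NX_rpow hp0 hp1 o x, ← Real.mul_rpow hKnn (NX_nonneg hp0 hp1 o x)] at h1
      exact (Real.rpow_le_rpow_iff (h.nonneg _)
        (mul_nonneg hKnn (NX_nonneg hp0 hp1 o x)) hp0).mp h1
    · push Not at hKnn
      -- all distances vanish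
      have hd : ∀ x y : M, dist x y = 0 := by
        intro x y
        have h1 := (h.nonneg _).trans (hK x y)
        have h2 : 0 ≤ dist x y := dist_nonneg
        nlinarith
      have hb : ∀ K' : ℝ, ∀ x y, ‖f x - f y‖ ≤ K' * dist x y ^ p := by
        intro K' x y
        have h1 := hconv |K0| (abs_nonneg _) (habs K0 hK0) x y
        rw [hd, Real.zero_rpow hp0.ne', mul_zero] at h1
        rw [hd, Real.zero_rpow hp0.ne', mul_zero]
        exact h1
      have h1 := hTb (-1) (hb (-1)) x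
      have h2 : ‖x‖ = 0 := by
        have h3 := norm_nonneg (T x)
        have h4 := norm_nonneg x
        linarith
      have h3 : x = 0 := norm_eq_zero.mp h2
      rw [h3, map_zero, (h.eq_zero_iff 0).mpr rfl, ((banach_X hp0 hp1 o).eq_zero_iff 0).mpr rfl,
        mul_zero]
  · rintro S ⟨C, hC⟩ hS
    apply hTu S ⟨|C| ^ p, fun x => ?_⟩ hS
    rw [hn, ← NX_rpow hp0 hp1 o x, ← Real.mul_rpow (abs_nonneg _) (NX_nonneg hp0 hp1 o x)]
    apply Real.rpow_le_rpow (h.nonneg _) _ hp0.le
    exact (hC x).trans (mul_le_mul_of_nonneg_right (le_abs_self C) (NX_nonneg hp0 hp1 o x))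

theorem free_X : IsFreePSpace p o (NX hp0 hp1 o) (δX hp0 hp1 o) where
  banach := banach_X hp0 hp1 o
  isometric := fun x y => by
    unfold NX
    rw [norm_δ_sub, ← Real.rpow_mul dist_nonneg, mul_one_div_cancel hp0.ne', Real.rpow_one]
  base := δ_base hp0 hp1 o
  dense := by
    intro x ε hε
    obtain ⟨a, ha⟩ := (UniformSpace.Completion.denseRange_coe
      (α := V hp0 hp1 o)).exists_dist_lt x (Real.rpow_pos_of_pos hε p)
    refine ⟨(a : X hp0 hp1 o), ?_, ?_⟩
    · have h2 : ∀ a' : M →₀ ℝ, ((id a' : V hp0 hp1 o) : X hp0 hp1 o) ∈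
          Submodule.span ℝ (Set.range (δX hp0 hp1 o)) := by
        intro a'
        induction a' using Finsupp.induction_linear with
        | zero =>
          have : ((id (0 : M →₀ ℝ) : V hp0 hp1 o) : X hp0 hp1 o) = 0 :=
            UniformSpace.Completion.coe_zero
          rw [this]
          exact Submodule.zero_mem _
        | add f g hf hg =>
          have : ((id (f + g) : V hp0 hp1 o) : X hp0 hp1 o) =
              ((id f : V hp0 hp1 o) : X hp0 hp1 o) + ((id g : V hp0 hp1 o) : X hp0 hp1 o) :=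
            UniformSpace.Completion.coe_add (id f : V hp0 hp1 o) (id g : V hp0 hp1 o)
          rw [this]
          exact Submodule.add_mem _ hf hg
        | single z c =>
          have h3 : ((id (Finsupp.single z c) : V hp0 hp1 o) : X hp0 hp1 o) =
              c • δX hp0 hp1 o z := by
            rw [δX, ← UniformSpace.Completion.coe_smul]
            congr 1
            have : (Finsupp.single z c : M →₀ ℝ) = c • Finsupp.single z (1 : ℝ) := by
              rw [Finsupp.smul_single, smul_eq_mul, mul_one]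
            exact this
          rw [h3]
          exact Submodule.smul_mem _ _ (Submodule.subset_span ⟨z, rfl⟩)
      exact h2 a
    · rw [dist_eq_norm, ← NX_rpow hp0 hp1 o] at ha
      exact (Real.rpow_lt_rpow_iff (Real.rpow_nonneg (norm_nonneg _) _) hε.le hp0).mp ha
  universal := fun Y _ _ N' hN' f hf0 hf => universal_X hp0 hp1 o N' hN' f hf0 hf

include hp0 hp1 in
theorem exists_free : ∃ (X : Type u) (_ : AddCommGroup X) (_ : Module ℝ X) (N : X → ℝ)
    (δ : M → X), IsFreePSpace p o N δ :=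
  ⟨X hp0 hp1 o, inferInstance, inferInstance, NX hp0 hp1 o, δX hp0 hp1 o, free_X hp0 hp1 o⟩

end Pool.Agent.H50.FpF
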