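import Mathlib

/-!
John–Nirenberg inequality, `L¹ ⇒ L²`, for continuous functions on an interval of `ℝ` with values
in a Banach space, by a finite-depth Calderón–Zygmund stopping argument.

Main results (all for continuous `f : ℝ → E`):
* `Pool.Agent.H50.JN.avg f c d`  : the average of `f` on `[c,d]`.
* `jn_local`  : if `∫_c^d ‖f - avg‖ ≤ M (d-c)` for all `a ≤ c < d ≤ b` then
   `∫_c^d ‖f - avg‖² ≤ 96 M² (d-c)` for all `a ≤ c < d ≤ b`.
* `jn_local_const` : the same, hypothesis `∃ w, ∫_c^d ‖f - w‖ ≤ M (d-c)` (conclusion with `384 M²`).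
* `jn_global` : for all `c < d`.
-/

open MeasureTheory intervalIntegral Set Filter Topology

namespace Pool.Agent.H50.JN

variable {E : Type*} [NormedAddCommGroup E] [NormedSpace ℝ E]

/-- average of `f` on `[c,d]` -/
noncomputable def avg (f : ℝ → E) (c d : ℝ) : E := (d - c)⁻¹ • ∫ x in c..d, f x

lemma norm_avg_le {f : ℝ → E} {c d : ℝ} (hcd : c < d) :
    ‖avg f c d‖ ≤ (d - c)⁻¹ * ∫ x in c..d, ‖f x‖ := by
  unfold avg
  rw [norm_smul, Real.norm_of_nonneg (inv_nonneg.2 (by linarith))]
  exact mul_le_mul_of_nonneg_left (intervalIntegral.norm_integral_le_integral_norm hcd.le)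
    (inv_nonneg.2 (by linarith))

/-- Stopping-time step by induction on the depth. -/
lemma step_aux [CompleteSpace E] {f : ℝ → E} (hf : Continuous f) {K lam eps : ℝ}
    (hlam : 0 < lam) (heps : 0 ≤ eps) (hK : 0 ≤ K) (w : E) (n : ℕ) :
    ∀ c d : ℝ, c < d →
      (∀ c' d', c ≤ c' → c' < d' → d' ≤ d →
        ∫ x in c'..d', ‖f x - avg f c' d'‖ ^ 2 ≤ K * (d' - c')) →
      (∀ x y, c ≤ x → x ≤ d → c ≤ y → y ≤ d → |x - y| ≤ (d - c) / 2 ^ n → ‖f x - f y‖ ≤ eps) →
      (∫ x in c..d, ‖f x - w‖ ≤ lam * (d - c)) →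
      ∫ x in c..d, ‖f x - w‖ ^ 2 ≤ (lam + eps) ^ 2 * (d - c) +
        (2 * K + 8 * lam ^ 2) / lam * ∫ x in c..d, ‖f x - w‖ := by
  induction n with
  | zero =>
    intro c d hcd hKb hosc havg
    -- pointwise bound
    have hcont : Continuous fun x => ‖f x - w‖ := (hf.sub continuous_const).norm
    have hpt : ∀ x ∈ Icc c d, ‖f x - w‖ ≤ lam + eps := by
      intro x hx
      by_contra hlt
      push Not at hlt
      have h1 : ∀ y ∈ Icc c d, ‖f x - w‖ - eps ≤ ‖f y - w‖ := by
        intro y hy
        have h2 : ‖f x - f y‖ ≤ eps := by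
          apply hosc x y hx.1 hx.2 hy.1 hy.2
          rw [pow_zero, div_one, abs_le]
          constructor
          · linarith [hx.1, hx.2, hy.1, hy.2]
          · linarith [hx.1, hx.2, hy.1, hy.2]
        have h3 : ‖f x - w‖ ≤ ‖f x - f y‖ + ‖f y - w‖ := by
          have : f x - w = (f x - f y) + (f y - w) := by abel
          rw [this]; exact norm_add_le _ _
        linarith
      have h4 : (‖f x - w‖ - eps) * (d - c) ≤ ∫ y in c..d, ‖f y - w‖ := by
        have h5 : ∫ y in c..d, (‖f x - w‖ - eps) ≤ ∫ y in c..d, ‖f y - w‖ := by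
          apply intervalIntegral.integral_mono_on hcd.le
          · exact continuous_const.intervalIntegrable _ _
          · exact hcont.intervalIntegrable _ _
          · exact h1
        rw [intervalIntegral.integral_const, smul_eq_mul] at h5
        linarith
      nlinarith
    have h6 : ∫ x in c..d, ‖f x - w‖ ^ 2 ≤ ∫ x in c..d, (lam + eps) ^ 2 := by
      apply intervalIntegral.integral_mono_on hcd.le
      · exact (hcont.pow 2).intervalIntegrable _ _
      · exact continuous_const.intervalIntegrable _ _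
      · intro x hx
        exact pow_le_pow_left₀ (norm_nonneg _) (hpt x hx) 2
    rw [intervalIntegral.integral_const, smul_eq_mul] at h6
    have h7 : 0 ≤ (2 * K + 8 * lam ^ 2) / lam * ∫ x in c..d, ‖f x - w‖ := by
      apply mul_nonneg
      · positivity
      · exact intervalIntegral.integral_nonneg hcd.le (fun _ _ => norm_nonneg _)
    linarith
  | succ n ih =>
    intro c d hcd hKb hosc havg
    have hcont : Continuous fun x => ‖f x - w‖ := (hf.sub continuous_const).norm
    set m := (c + d) / 2 with hm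
    have hcm : c < m := by rw [hm]; linarith
    have hmd : m < d := by rw [hm]; linarith
    have hmc : m - c = (d - c) / 2 := by rw [hm]; ring
    have hdm : d - m = (d - c) / 2 := by rw [hm]; ring
    have hsplit1 : ∫ x in c..d, ‖f x - w‖ = (∫ x in c..m, ‖f x - w‖) + ∫ x in m..d, ‖f x - w‖ :=
      (intervalIntegral.integral_add_adjacent_intervals (hcont.intervalIntegrable _ _)
        (hcont.intervalIntegrable _ _)).symm
    have hsplit2 : ∫ x in c..d, ‖f x - w‖ ^ 2 =
        (∫ x in c..m, ‖f x - w‖ ^ 2) + ∫ x in m..d, ‖f x - w‖ ^ 2 :=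
      (intervalIntegral.integral_add_adjacent_intervals ((hcont.pow 2).intervalIntegrable _ _)
        ((hcont.pow 2).intervalIntegrable _ _)).symm
    have hn1 : 0 ≤ ∫ x in c..m, ‖f x - w‖ :=
      intervalIntegral.integral_nonneg hcm.le (fun _ _ => norm_nonneg _)
    have hn2 : 0 ≤ ∫ x in m..d, ‖f x - w‖ :=
      intervalIntegral.integral_nonneg hmd.le (fun _ _ => norm_nonneg _)
    -- key estimate on a half
    have key : ∀ c' d', c ≤ c' → c' < d' → d' ≤ d → d' - c' = (d - c) / 2 →
        (∫ x in c'..d', ‖f x - w‖ ≤ lam * (d - c)) →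
        ∫ x in c'..d', ‖f x - w‖ ^ 2 ≤ (lam + eps) ^ 2 * (d' - c') +
          (2 * K + 8 * lam ^ 2) / lam * ∫ x in c'..d', ‖f x - w‖ := by
      intro c' d' hc' hcd' hd' hlen hbig
      by_cases hstop : ∫ x in c'..d', ‖f x - w‖ ≤ lam * (d' - c')
      · apply ih c' d' hcd'
        · intro c'' d'' h1 h2 h3
          exact hKb c'' d'' (by linarith) h2 (by linarith)
        · intro x y hx1 hx2 hy1 hy2 hxy
          apply hosc x y (by linarith) (by linarith) (by linarith) (by linarith)
          rw [hlen] at hxy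
          calc |x - y| ≤ (d - c) / 2 / 2 ^ n := hxy
            _ = (d - c) / 2 ^ (n + 1) := by rw [pow_succ]; field_simp
        · exact hstop
      · push Not at hstop
        have hpos : 0 < d' - c' := by linarith
        have hA : ‖avg f c' d' - w‖ ≤ 2 * lam := by
          have h1 : avg f c' d' - w = (d' - c')⁻¹ • ((∫ x in c'..d', f x) - (d' - c') • w) := by
            unfold avg
            rw [smul_sub, smul_smul, inv_mul_cancel₀ hpos.ne', one_smul]
          have h2 : (∫ x in c'..d', f x) - (d' - c') • w = ∫ x in c'..d', (f x - w) := by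
            rw [intervalIntegral.integral_sub (hf.intervalIntegrable _ _)
              (continuous_const.intervalIntegrable _ _), intervalIntegral.integral_const]
          rw [h1, h2, norm_smul, Real.norm_of_nonneg (inv_nonneg.2 hpos.le)]
          have h3 : ‖∫ x in c'..d', (f x - w)‖ ≤ ∫ x in c'..d', ‖f x - w‖ :=
            intervalIntegral.norm_integral_le_integral_norm hcd'.le
          have h4 : ‖∫ x in c'..d', (f x - w)‖ ≤ lam * (d - c) := h3.trans hbig
          have h5 : lam * (d - c) = (d' - c') * (2 * lam) := by rw [hlen]; ring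
          rw [h5] at h4
          rw [inv_mul_le_iff₀ hpos]
          exact h4
        have hB : ∫ x in c'..d', ‖f x - w‖ ^ 2 ≤ (2 * K + 8 * lam ^ 2) * (d' - c') := by
          have h1 : ∫ x in c'..d', ‖f x - w‖ ^ 2 ≤
              ∫ x in c'..d', (2 * ‖f x - avg f c' d'‖ ^ 2 + 8 * lam ^ 2) := by
            apply intervalIntegral.integral_mono_on hcd'.le
            · exact (hcont.pow 2).intervalIntegrable _ _
            · apply Continuous.intervalIntegrable
              have : Continuous fun x => ‖f x - avg f c' d'‖ := (hf.sub continuous_const).norm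
              fun_prop
            · intro x _
              have h2 : ‖f x - w‖ ≤ ‖f x - avg f c' d'‖ + ‖avg f c' d' - w‖ := by
                have : f x - w = (f x - avg f c' d') + (avg f c' d' - w) := by abel
                rw [this]; exact norm_add_le _ _
              have h3 := norm_nonneg (f x - w)
              have h4 := norm_nonneg (f x - avg f c' d')
              have h5 := norm_nonneg (avg f c' d' - w)
              nlinarith [sq_nonneg (‖f x - avg f c' d'‖ - ‖avg f c' d' - w‖)]
          have h2 : ∫ x in c'..d', (2 * ‖f x - avg f c' d'‖ ^ 2 + 8 * lam ^ 2) =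
              2 * (∫ x in c'..d', ‖f x - avg f c' d'‖ ^ 2) + 8 * lam ^ 2 * (d' - c') := by
            rw [intervalIntegral.integral_add, intervalIntegral.integral_const_mul,
              intervalIntegral.integral_const, smul_eq_mul]
            · ring
            · apply Continuous.intervalIntegrable
              have : Continuous fun x => ‖f x - avg f c' d'‖ := (hf.sub continuous_const).norm
              fun_prop
            · exact continuous_const.intervalIntegrable _ _
          have h3 := hKb c' d' hc' hcd' hd'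
          rw [h2] at h1
          nlinarith
        have hC : (2 * K + 8 * lam ^ 2) * (d' - c') ≤
            (2 * K + 8 * lam ^ 2) / lam * ∫ x in c'..d', ‖f x - w‖ := by
          have : (d' - c') ≤ (1 / lam) * ∫ x in c'..d', ‖f x - w‖ := by
            rw [one_div, ← div_eq_inv_mul, le_div_iff₀ hlam]
            linarith
          calc (2 * K + 8 * lam ^ 2) * (d' - c')
              ≤ (2 * K + 8 * lam ^ 2) * ((1 / lam) * ∫ x in c'..d', ‖f x - w‖) :=
                mul_le_mul_of_nonneg_left this (by positivity)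
            _ = (2 * K + 8 * lam ^ 2) / lam * ∫ x in c'..d', ‖f x - w‖ := by ring
        have hD : 0 ≤ (lam + eps) ^ 2 * (d' - c') := by positivity
        linarith
    have k1 := key c m le_rfl hcm hmd.le hmc (by linarith)
    have k2 := key m d hcm.le hmd le_rfl hdm (by linarith)
    rw [hsplit2, hsplit1]
    rw [hmc] at k1
    rw [hdm] at k2
    have : (2 * K + 8 * lam ^ 2) / lam * ((∫ x in c..m, ‖f x - w‖) + ∫ x in m..d, ‖f x - w‖) =
      (2 * K + 8 * lam ^ 2) / lam * (∫ x in c..m, ‖f x - w‖) +
      (2 * K + 8 * lam ^ 2) / lam * ∫ x in m..d, ‖f x - w‖ := by ring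
    rw [this]
    linarith


/-- One self-improvement step: from the bound `K` to the bound `4 (K/16 ...)`. -/
lemma step_bound [CompleteSpace E] {f : ℝ → E} (hf : Continuous f) {a b M K : ℝ}
    (hM : 0 < M) (hK : 0 ≤ K)
    (h1 : ∀ c d, a ≤ c → c < d → d ≤ b → ∫ x in c..d, ‖f x - avg f c d‖ ≤ M * (d - c))
    (hKb : ∀ c d, a ≤ c → c < d → d ≤ b → ∫ x in c..d, ‖f x - avg f c d‖ ^ 2 ≤ K * (d - c)) :
    ∀ c d, a ≤ c → c < d → d ≤ b →
      ∫ x in c..d, ‖f x - avg f c d‖ ^ 2 ≤ (48 * M ^ 2 + K / 2) * (d - c) := by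
  intro c d hac hcd hdb
  have hpos : 0 < d - c := by linarith
  -- for every eps > 0
  have hmain : ∀ eps : ℝ, 0 < eps → ∫ x in c..d, ‖f x - avg f c d‖ ^ 2 ≤
      ((4 * M + eps) ^ 2 + (32 * M ^ 2 + K / 2)) * (d - c) := by
    intro eps heps
    have huc : UniformContinuousOn f (Icc c d) :=
      isCompact_Icc.uniformContinuousOn_of_continuous hf.continuousOn
    rw [Metric.uniformContinuousOn_iff_le] at huc
    obtain ⟨δ, hδ, hδ'⟩ := huc eps heps
    obtain ⟨n, hn⟩ : ∃ n : ℕ, (d - c) / 2 ^ n ≤ δ := by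
      obtain ⟨n, hn⟩ := pow_unbounded_of_one_lt ((d - c) / δ) (one_lt_two : (1:ℝ) < 2)
      refine ⟨n, ?_⟩
      rw [div_le_iff₀ (by positivity)]
      rw [div_lt_iff₀ hδ] at hn
      linarith
    have h := step_aux hf (K := K) (lam := 4 * M) (eps := eps) (by linarith) heps.le hK
      (avg f c d) n c d hcd
      (fun c' d' h1 h2 h3 => hKb c' d' (by linarith) h2 (by linarith))
      (fun x y hx1 hx2 hy1 hy2 hxy => by
        have := hδ' x ⟨hx1, hx2⟩ y ⟨hy1, hy2⟩ (by rw [Real.dist_eq]; linarith)
        rwa [dist_eq_norm] at this)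
      (by have := h1 c d hac hcd hdb; nlinarith)
    have h3 := h1 c d hac hcd hdb
    have h4 : (2 * K + 8 * (4 * M) ^ 2) / (4 * M) * (∫ x in c..d, ‖f x - avg f c d‖) ≤
        (2 * K + 8 * (4 * M) ^ 2) / (4 * M) * (M * (d - c)) :=
      mul_le_mul_of_nonneg_left h3 (by positivity)
    have h5 : (2 * K + 8 * (4 * M) ^ 2) / (4 * M) * (M * (d - c)) =
        (32 * M ^ 2 + K / 2) * (d - c) := by
      field_simp
      ring
    rw [h5] at h4
    linarith
  -- let eps → 0
  have hlim : Tendsto (fun eps : ℝ => ((4 * M + eps) ^ 2 + (32 * M ^ 2 + K / 2)) * (d - c))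
      (𝓝[>] 0) (𝓝 (((4 * M + 0) ^ 2 + (32 * M ^ 2 + K / 2)) * (d - c))) := by
    apply Tendsto.mono_left _ nhdsWithin_le_nhds
    apply Continuous.tendsto
    fun_prop
  have := ge_of_tendsto hlim (eventually_nhdsWithin_of_forall (fun eps heps => hmain eps heps))
  calc _ ≤ _ := this
    _ = (48 * M ^ 2 + K / 2) * (d - c) := by ring

/-- **John–Nirenberg, `L¹ ⇒ L²`, local version**, with averages. -/
theorem jn_local [CompleteSpace E] {f : ℝ → E} (hf : Continuous f) {a b M : ℝ}
    (h1 : ∀ c d, a ≤ c → c < d → d ≤ b → ∫ x in c..d, ‖f x - avg f c d‖ ≤ M * (d - c)) :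
    ∀ c d, a ≤ c → c < d → d ≤ b →
      ∫ x in c..d, ‖f x - avg f c d‖ ^ 2 ≤ 96 * M ^ 2 * (d - c) := by
  -- the case `M > 0`
  have hposM : ∀ M : ℝ, 0 < M →
      (∀ c d, a ≤ c → c < d → d ≤ b → ∫ x in c..d, ‖f x - avg f c d‖ ≤ M * (d - c)) →
      ∀ c d, a ≤ c → c < d → d ≤ b →
      ∫ x in c..d, ‖f x - avg f c d‖ ^ 2 ≤ 96 * M ^ 2 * (d - c) := by
    intro M hM h1
    -- an a priori bound
    obtain ⟨B, hB⟩ := isCompact_Icc.exists_bound_of_continuousOn (hf.continuousOn (s := Icc a b))
    set S : Set ℝ := {K | 0 ≤ K ∧ ∀ c d, a ≤ c → c < d → d ≤ b →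
      ∫ x in c..d, ‖f x - avg f c d‖ ^ 2 ≤ K * (d - c)} with hS
    have hSne : S.Nonempty := by
      refine ⟨(2 * B) ^ 2, by positivity, ?_⟩
      intro c d hac hcd hdb
      have hBpos : 0 ≤ B := (norm_nonneg _).trans (hB c ⟨hac, by linarith⟩)
      have hav : ‖avg f c d‖ ≤ B := by
        refine (norm_avg_le hcd).trans ?_
        rw [inv_mul_le_iff₀ (by linarith)]
        have : ∫ x in c..d, ‖f x‖ ≤ ∫ x in c..d, B := by
          apply intervalIntegral.integral_mono_on hcd.le
          · exact hf.norm.intervalIntegrable _ _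
          · exact continuous_const.intervalIntegrable _ _
          · intro x hx
            exact hB x ⟨by linarith [hx.1], by linarith [hx.2]⟩
        rwa [intervalIntegral.integral_const, smul_eq_mul] at this
      have : ∫ x in c..d, ‖f x - avg f c d‖ ^ 2 ≤ ∫ x in c..d, (2 * B) ^ 2 := by
        apply intervalIntegral.integral_mono_on hcd.le
        · exact (((hf.sub continuous_const).norm).pow 2).intervalIntegrable _ _
        · exact continuous_const.intervalIntegrable _ _
        · intro x hx
          apply pow_le_pow_left₀ (norm_nonneg _)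
          calc ‖f x - avg f c d‖ ≤ ‖f x‖ + ‖avg f c d‖ := norm_sub_le _ _
            _ ≤ 2 * B := by linarith [hB x ⟨by linarith [hx.1], by linarith [hx.2]⟩]
      rw [intervalIntegral.integral_const, smul_eq_mul] at this
      linarith
    have hbdd : BddBelow S := ⟨0, fun K hK => hK.1⟩
    set K0 := sInf S with hK0
    have hK0S : K0 ∈ S := by
      refine ⟨le_csInf hSne fun K hK => hK.1, ?_⟩
      intro c d hac hcd hdb
      have hpos : 0 < d - c := by linarith
      rw [← div_le_iff₀ hpos]
      apply le_csInf hSne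
      intro K hK
      rw [div_le_iff₀ hpos]
      exact hK.2 c d hac hcd hdb
    have hstep : 48 * M ^ 2 + K0 / 2 ∈ S :=
      ⟨by have := hK0S.1; positivity, step_bound hf hM hK0S.1 h1 hK0S.2⟩
    have hle : K0 ≤ 48 * M ^ 2 + K0 / 2 := csInf_le hbdd hstep
    have hle2 : K0 ≤ 96 * M ^ 2 := by linarith
    intro c d hac hcd hdb
    refine (hK0S.2 c d hac hcd hdb).trans ?_
    exact mul_le_mul_of_nonneg_right hle2 (by linarith)
  intro c d hac hcd hdb
  have hM0 : 0 ≤ M := by
    have h := h1 c d hac hcd hdb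
    have h2 : 0 ≤ ∫ x in c..d, ‖f x - avg f c d‖ :=
      intervalIntegral.integral_nonneg hcd.le (fun _ _ => norm_nonneg _)
    by_contra hneg
    push Not at hneg
    nlinarith
  have hlim : Tendsto (fun eps : ℝ => 96 * (M + eps) ^ 2 * (d - c))
      (𝓝[>] 0) (𝓝 (96 * (M + 0) ^ 2 * (d - c))) := by
    apply Tendsto.mono_left _ nhdsWithin_le_nhds
    apply Continuous.tendsto
    fun_prop
  have := ge_of_tendsto hlim (eventually_nhdsWithin_of_forall (fun eps (heps : 0 < eps) =>
    hposM (M + eps) (by linarith) (fun c d h2 h3 h4 => (h1 c d h2 h3 h4).trans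
      (by nlinarith)) c d hac hcd hdb))
  simpa using this

/-- comparison of the mean oscillation around the average with the one around any constant. -/
lemma osc_avg_le [CompleteSpace E] {f : ℝ → E} (hf : Continuous f) {c d : ℝ} (hcd : c < d) (w : E) :
    ∫ x in c..d, ‖f x - avg f c d‖ ≤ 2 * ∫ x in c..d, ‖f x - w‖ := by
  have hpos : 0 < d - c := by linarith
  have h1 : w - avg f c d = (d - c)⁻¹ • (∫ x in c..d, (w - f x)) := by
    unfold avg
    rw [intervalIntegral.integral_sub (continuous_const.intervalIntegrable _ _)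
      (hf.intervalIntegrable _ _), intervalIntegral.integral_const, smul_sub, smul_smul,
      inv_mul_cancel₀ hpos.ne', one_smul]
  have h2 : (d - c) * ‖w - avg f c d‖ ≤ ∫ x in c..d, ‖f x - w‖ := by
    rw [h1, norm_smul, Real.norm_of_nonneg (inv_nonneg.2 hpos.le), ← mul_assoc,
      mul_inv_cancel₀ hpos.ne', one_mul]
    refine (intervalIntegral.norm_integral_le_integral_norm hcd.le).trans ?_
    simp_rw [norm_sub_rev w]
    exact le_rfl
  have h3 : ∫ x in c..d, ‖f x - avg f c d‖ ≤ ∫ x in c..d, (‖f x - w‖ + ‖w - avg f c d‖) := by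
    apply intervalIntegral.integral_mono_on hcd.le
    · exact ((hf.sub continuous_const).norm).intervalIntegrable _ _
    · exact ((((hf.sub continuous_const).norm)).add continuous_const).intervalIntegrable _ _
    · intro x _
      have : f x - avg f c d = (f x - w) + (w - avg f c d) := by abel
      rw [this]; exact norm_add_le _ _
  have hi : IntervalIntegrable (fun x => ‖f x - w‖) volume c d :=
    ((hf.sub continuous_const).norm).intervalIntegrable _ _
  rw [intervalIntegral.integral_add hi
    (continuous_const.intervalIntegrable _ _), intervalIntegral.integral_const, smul_eq_mul] at h3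
  linarith

/-- **John–Nirenberg, `L¹ ⇒ L²`, local version**, hypothesis with arbitrary constants. -/
theorem jn_local_const [CompleteSpace E] {f : ℝ → E} (hf : Continuous f) {a b M : ℝ}
    (h1 : ∀ c d, a ≤ c → c < d → d ≤ b → ∃ w : E, ∫ x in c..d, ‖f x - w‖ ≤ M * (d - c)) :
    ∀ c d, a ≤ c → c < d → d ≤ b →
      ∫ x in c..d, ‖f x - avg f c d‖ ^ 2 ≤ 384 * M ^ 2 * (d - c) := by
  intro c d hac hcd hdb
  have := jn_local hf (a := a) (b := b) (M := 2 * M) (fun c d h2 h3 h4 => by
    obtain ⟨w, hw⟩ := h1 c d h2 h3 h4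
    have := osc_avg_le hf h3 w
    linarith) c d hac hcd hdb
  calc _ ≤ _ := this
    _ = _ := by ring

/-- **John–Nirenberg, `L¹ ⇒ L²`** on the line. -/
theorem jn_global [CompleteSpace E] {f : ℝ → E} (hf : Continuous f) {M : ℝ}
    (h1 : ∀ c d, c < d → ∫ x in c..d, ‖f x - avg f c d‖ ≤ M * (d - c)) :
    ∀ c d, c < d → ∫ x in c..d, ‖f x - avg f c d‖ ^ 2 ≤ 96 * M ^ 2 * (d - c) :=
  fun c d hcd => jn_local hf (a := c) (b := d) (fun c' d' _ h _ => h1 c' d' h) c d le_rfl hcd le_rfl

/-- **John–Nirenberg, `L¹ ⇒ L²`** for all intervals of length at most `L`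
(e.g. `L = 2π` for periodic functions). -/
theorem jn_scale [CompleteSpace E] {f : ℝ → E} (hf : Continuous f) {M L : ℝ}
    (h1 : ∀ c d, c < d → d - c ≤ L → ∫ x in c..d, ‖f x - avg f c d‖ ≤ M * (d - c)) :
    ∀ c d, c < d → d - c ≤ L → ∫ x in c..d, ‖f x - avg f c d‖ ^ 2 ≤ 96 * M ^ 2 * (d - c) :=
  fun c d hcd hL => jn_local hf (a := c) (b := d)
    (fun c' d' h2 h h3 => h1 c' d' h (by linarith)) c d le_rfl hcd le_rfl

end Pool.Agent.H50.JN
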