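import Mathlib

set_option autoImplicit false

open Polynomial Set

namespace Pool.Agent.H50.Snake

/-- The first order perturbation argument. -/
theorem pert (f gs ga : ℝ → ℝ) (σ : ℝ) (hσ : |σ| = 1) (hf : Continuous f)
    (hgs : Continuous gs) (hga : Continuous ga) (pf : ∀ x, f (-x) = σ * f x)
    (pgs : ∀ x, gs (-x) = σ * gs x) (pga : ∀ x, ga (-x) = -(σ * ga x))
    (hpos : ∀ x ∈ Icc (-1 : ℝ) 1, (∀ y ∈ Icc (-1 : ℝ) 1, |f y| ≤ |f x|) → 0 < f x * gs x) :
    ∃ v : ℝ, 0 < v ∧ ∃ x0 ∈ Icc (-1 : ℝ) 1, ∀ x ∈ Icc (-1 : ℝ) 1,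
      |f x - v * (gs x + ga x)| < |f x0 + v * (gs x0 + ga x0)| := by
  have hI : IsCompact (Icc (-1 : ℝ) 1) := isCompact_Icc
  have hne : (Icc (-1 : ℝ) 1).Nonempty := ⟨0, by norm_num⟩
  obtain ⟨xm, hxm, hmax⟩ := hI.exists_isMaxOn hne (hf.abs.continuousOn)
  have hmax' : ∀ y ∈ Icc (-1 : ℝ) 1, |f y| ≤ |f xm| := fun y hy => hmax hy
  have hposm := hpos xm hxm hmax'
  have hfm : f xm ≠ 0 := by
    intro h
    rw [h, zero_mul] at hposm
    exact lt_irrefl _ hposm
  set F := |f xm| with hF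
  have hF0 : 0 < F := abs_pos.2 hfm
  -- the bad set
  have hK0 : ∃ m0 : ℝ, m0 < F ∧ 0 ≤ m0 ∧ ∀ x ∈ Icc (-1 : ℝ) 1, f x * gs x ≤ 0 → |f x| ≤ m0 := by
    set K0 := Icc (-1 : ℝ) 1 ∩ {x | f x * gs x ≤ 0} with hK0
    have hK0c : IsCompact K0 :=
      hI.inter_right (isClosed_le (hf.mul hgs) continuous_const)
    by_cases hemp : K0.Nonempty
    · obtain ⟨x1, hx1, hx1m⟩ := hK0c.exists_isMaxOn hemp (hf.abs.continuousOn)
      refine ⟨|f x1|, ?_, abs_nonneg _, fun x hx hx' => hx1m ⟨hx, hx'⟩⟩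
      rcases lt_or_eq_of_le (hmax' x1 hx1.1) with h | h
      · exact h
      · exfalso
        have := hpos x1 hx1.1 (fun y hy => by rw [h]; exact hmax' y hy)
        have h2 : f x1 * gs x1 ≤ 0 := hx1.2
        linarith
    · refine ⟨0, hF0, le_rfl, fun x hx hx' => ?_⟩
      exact absurd ⟨x, hx, hx'⟩ hemp
  obtain ⟨m0, hm0, hm0', hm0b⟩ := hK0
  obtain ⟨xg, hxg, hgmax⟩ := hI.exists_isMaxOn hne ((hgs.add hga).abs.continuousOn)
  set G := |gs xg + ga xg| + 1 with hG
  have hG0 : 0 < G := by positivity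
  have hGb : ∀ x ∈ Icc (-1 : ℝ) 1, |gs x + ga x| ≤ G := by
    intro x hx
    have : |gs x + ga x| ≤ |gs xg + ga xg| := hgmax hx
    linarith
  set v := min ((F - m0) / (4 * G)) (F / (8 * G)) with hv
  have hv0 : 0 < v := by
    refine lt_min ?_ ?_
    · have : 0 < F - m0 := by linarith
      positivity
    · positivity
  have hv1 : 4 * (v * G) ≤ F - m0 := by
    have : v ≤ (F - m0) / (4 * G) := min_le_left _ _
    rw [le_div_iff₀ (by positivity)] at this
    linarith
  have hv2 : 8 * (v * G) ≤ F := by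
    have : v ≤ F / (8 * G) := min_le_right _ _
    rw [le_div_iff₀ (by positivity)] at this
    linarith
  have hvG : 0 < v * G := by positivity
  have hcont : Continuous (fun x => |f x - v * (gs x + ga x)|) := by fun_prop
  obtain ⟨xv, hxv, hvmax⟩ := hI.exists_isMaxOn hne hcont.continuousOn
  have hvmax' : ∀ y ∈ Icc (-1 : ℝ) 1, |f y - v * (gs y + ga y)| ≤ |f xv - v * (gs xv + ga xv)| :=
    fun y hy => hvmax hy
  have hgv : ∀ x ∈ Icc (-1 : ℝ) 1, |v * (gs x + ga x)| ≤ v * G := by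
    intro x hx
    rw [abs_mul, abs_of_pos hv0]
    exact mul_le_mul_of_nonneg_left (hGb x hx) hv0.le
  have h1 : F - v * G ≤ |f xv - v * (gs xv + ga xv)| := by
    refine le_trans ?_ (hvmax' xm hxm)
    have := abs_sub_abs_le_abs_sub (f xm) (v * (gs xm + ga xm))
    have := hgv xm hxm
    linarith
  have h2 : |f xv - v * (gs xv + ga xv)| ≤ |f xv| + v * G := by
    have := abs_sub (f xv) (v * (gs xv + ga xv))
    have := hgv xv hxv
    linarith
  have h3 : m0 < |f xv| := by linarith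
  have h4 : 0 < f xv * gs xv := by
    by_contra h
    push Not at h
    have := hm0b xv hxv h
    linarith
  have h5 : v * G < |f xv| := by linarith
  have h6 : 0 < (f xv - v * (gs xv + ga xv)) * gs xv := by
    have h7 := hgv xv hxv
    rw [abs_le] at h7
    rcases lt_or_gt_of_ne (show f xv ≠ 0 by intro h; rw [h] at h4; simp at h4) with h | h
    · have hg : gs xv < 0 := by
        by_contra h'
        push Not at h'
        nlinarith
      rw [abs_of_neg h] at h5
      have : f xv - v * (gs xv + ga xv) < 0 := by linarith [h7.1]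
      nlinarith
    · have hg : 0 < gs xv := by
        by_contra h'
        push Not at h'
        nlinarith
      rw [abs_of_pos h] at h5
      have : 0 < f xv - v * (gs xv + ga xv) := by linarith [h7.2]
      positivity
  refine ⟨v, hv0, -xv, ⟨by linarith [hxv.2], by linarith [hxv.1]⟩, fun x hx => ?_⟩
  refine lt_of_le_of_lt (hvmax' x hx) ?_
  rw [pf, pgs, pga]
  have h8 : σ * f xv + v * (σ * gs xv + -(σ * ga xv))
      = σ * ((f xv - v * (gs xv + ga xv)) + 2 * v * gs xv) := by ring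
  rw [h8, abs_mul, hσ, one_mul]
  set A := f xv - v * (gs xv + ga xv) with hA
  rw [← sq_lt_sq]
  nlinarith [mul_pos hv0 h6, mul_pos hv0 hv0, sq_nonneg (gs xv), sq_nonneg (v * gs xv)]

theorem comp_neg_iterate (p : ℝ[X]) (k : ℕ) :
    derivative^[k] (p.comp (-X)) = (-1) ^ k * (derivative^[k] p).comp (-X) := by
  induction k generalizing p with
  | zero => simp
  | succ k ih => simp [ih (derivative p), derivative_comp, pow_succ]

theorem eval_neg_iterate (p : ℝ[X]) (s : ℝ) (hs : p.comp (-X) = C s * p) (k : ℕ) (x : ℝ) :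
    (derivative^[k] p).eval (-x) = (-1) ^ k * s * (derivative^[k] p).eval x := by
  have h := comp_neg_iterate p k
  rw [hs, iterate_derivative_C_mul] at h
  have h2 := congrArg (eval x) h
  simp only [eval_mul, eval_C, eval_comp, eval_neg, eval_X, eval_pow, eval_one] at h2
  have h3 : ((-1 : ℝ) ^ k) * ((-1) ^ k) = 1 := by rw [← mul_pow]; simp
  calc (derivative^[k] p).eval (-x) = ((-1 : ℝ) ^ k * (-1) ^ k) * (derivative^[k] p).eval (-x) := by
        rw [h3, one_mul]
    _ = (-1 : ℝ) ^ k * ((-1) ^ k * (derivative^[k] p).eval (-x)) := by ring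
    _ = _ := by rw [← h2]; ring

/-- `(X^2-1)^M` -/
noncomputable def u (M : ℕ) : ℝ[X] := (X ^ 2 - 1) ^ M

theorem u_comp (M : ℕ) : (u M).comp (-X) = u M := by
  simp [u]

theorem derivative_u (M : ℕ) : derivative (u (M + 1)) = C (2 * ((M : ℝ) + 1)) * (X * u M) := by
  simp only [u, derivative_pow, Nat.add_sub_cancel]
  simp only [derivative_sub, derivative_X_pow, derivative_one, sub_zero]
  simp only [Nat.cast_add, Nat.cast_one, C_mul, C_add, C_ofNat, map_natCast, map_one]
  norm_num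
  ring

/-- The key identity. -/
theorem star (K M : ℕ) : C (2 * ((M : ℝ) + 1)) * derivative^[K] (u M)
    = X * derivative^[K + 1] (u (M + 1)) - C (2 * ((M : ℝ) + 1) - K) * derivative^[K] (u (M + 1)) := by
  have h1 : derivative (u (M + 1)) * X = C (2 * ((M : ℝ) + 1)) * (u (M + 1) + u M) := by
    rw [derivative_u]
    simp only [u, pow_succ]
    ring
  have h2 : derivative^[K] (derivative (u (M + 1)) * X)
      = derivative^[K] (C (2 * ((M : ℝ) + 1)) * (u (M + 1) + u M)) := by rw [h1]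
  rw [iterate_derivative_derivative_mul_X, iterate_derivative_C_mul, iterate_map_add] at h2
  have h3 : (K • derivative^[K] (u (M + 1)) : ℝ[X]) = C (K : ℝ) * derivative^[K] (u (M + 1)) := by
    rw [nsmul_eq_mul]; simp
  rw [h3] at h2
  simp only [C_sub]
  linear_combination (-1 : ℝ[X]) * h2

theorem eval_u_one (K M : ℕ) (h : K < M) : (derivative^[K] (u M)).eval 1 = 0 := by
  have h1 : (X - C 1 : ℝ[X]) ^ M ∣ u M := by
    refine ⟨(X + 1) ^ M, ?_⟩
    rw [u, ← mul_pow]
    congr 1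
    simp
    ring
  have h2 := pow_sub_dvd_iterate_derivative_of_pow_dvd K h1
  obtain ⟨q, hq⟩ := h2
  rw [hq, eval_mul, eval_pow]
  simp [show M - K ≠ 0 by omega]

theorem eval_u_neg_one (K M : ℕ) (h : K < M) : (derivative^[K] (u M)).eval (-1) = 0 := by
  have := eval_neg_iterate (u M) 1 (by rw [u_comp]; simp) K 1
  rw [this, eval_u_one K M h, mul_zero]

theorem u_iterate_ne_zero (K M : ℕ) (h : K < M) : derivative^[K] (u M) ≠ 0 := by
  intro h0
  have h1 := congrArg (fun p => p.coeff (2 * M - K)) h0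
  simp only [coeff_zero] at h1
  rw [coeff_iterate_derivative, show 2 * M - K + K = 2 * M by omega] at h1
  have h2 : (u M).coeff (2 * M) = 1 := by
    have hm : (u M).Monic := by
      rw [u]
      refine Monic.pow ?_ M
      exact monic_X_pow_sub_C (1 : ℝ) (by norm_num : (2 : ℕ) ≠ 0)
    have hd : (u M).natDegree = 2 * M := by
      rw [u, natDegree_pow]
      have : (X ^ 2 - 1 : ℝ[X]).natDegree = 2 := natDegree_X_pow_sub_C (n := 2) (r := (1 : ℝ))
      rw [this]; ring
    rw [← hd]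
    exact hm.coeff_natDegree
  rw [h2, nsmul_eq_mul, mul_one] at h1
  have h3 : (2 * M).descFactorial K ≠ 0 := by
    rw [Ne, Nat.descFactorial_eq_zero_iff_lt]
    omega
  exact h3 (by exact_mod_cast h1)

theorem exists_ne_zero (p : ℝ[X]) (hp : p ≠ 0) : ∃ x ∈ Icc (-1 : ℝ) 1, p.eval x ≠ 0 := by
  by_contra h
  push Not at h
  apply hp
  refine Polynomial.eq_zero_of_infinite_isRoot p ?_
  refine Set.Infinite.mono (s := Icc (-1 : ℝ) 1) (fun x hx => h x hx) ?_
  exact Set.Icc_infinite (by norm_num)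

/-- At a maximum point of `|p|` on `[-1,1]` with `p(±1) = 0`, `p ≠ 0`, the derivative vanishes. -/
theorem crit (p : ℝ[X]) (hp : p ≠ 0) (h1 : p.eval 1 = 0) (h2 : p.eval (-1) = 0) (x : ℝ)
    (hx : x ∈ Icc (-1 : ℝ) 1) (hmax : ∀ y ∈ Icc (-1 : ℝ) 1, |p.eval y| ≤ |p.eval x|) :
    p.eval x ≠ 0 ∧ (derivative p).eval x = 0 := by
  obtain ⟨z, hz, hz0⟩ := exists_ne_zero p hp
  have hx0 : p.eval x ≠ 0 := by
    intro h
    have := hmax z hz
    rw [h, abs_zero] at this
    exact hz0 (abs_eq_zero.1 (le_antisymm this (abs_nonneg _)))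
  refine ⟨hx0, ?_⟩
  have hx1 : x ≠ 1 := by rintro rfl; exact hx0 h1
  have hx2 : x ≠ -1 := by rintro rfl; exact hx0 h2
  have hxI : x ∈ Ioo (-1 : ℝ) 1 :=
    ⟨lt_of_le_of_ne hx.1 (Ne.symm hx2), lt_of_le_of_ne hx.2 hx1⟩
  have hloc : IsLocalMax (fun y => (p.eval y) ^ 2) x := by
    filter_upwards [isOpen_Ioo.mem_nhds hxI] with y hy
    exact sq_le_sq.2 (hmax y ⟨hy.1.le, hy.2.le⟩)
  have hd : HasDerivAt (fun y => (p.eval y) ^ 2) (2 * (p.eval x) * (derivative p).eval x) x := by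
    have := (p.hasDerivAt x).pow 2
    convert! this using 1
    simp
  have := hloc.hasDerivAt_eq_zero hd
  have h3 : 2 * (p.eval x) ≠ 0 := by positivity
  exact (mul_eq_zero.1 this).resolve_left h3

end Pool.Agent.H50.Snake
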