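import Mathlib
import Pool.Agent.H50.SnakeA

set_option autoImplicit false

open Polynomial Set

namespace Pool.Agent.H50.Snake

/-- First degenerate counterexample, even degree `n = 2 * (M + 1)`. -/
theorem degen_even (k M : ℕ) (hM : k ≤ M) :
    ∃ v : ℝ, 0 < v ∧ ∃ x0 ∈ Icc (-1 : ℝ) 1, ∀ x ∈ Icc (-1 : ℝ) 1,
      |(derivative^[k] (((X - 1) ^ (M + 1) * (X + 1) ^ M) * ((X + 1) - C v * (1 - X)))).eval x| <
      |(derivative^[k] (((X - 1) ^ (M + 1) * (X + 1) ^ M) * ((X + 1) + C v * (1 - X)))).eval x0| := by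
  set Φ : ℝ[X] := u (M + 1) with hΦ
  set Ψs : ℝ[X] := -(u (M + 1) + C 2 * u M) with hΨs
  set Ψa : ℝ[X] := C 2 * (X * u M) with hΨa
  have e1 : ((X - 1) ^ (M + 1) * (X + 1) ^ M : ℝ[X]) * (X + 1) = Φ := by
    rw [hΦ, u, show (X ^ 2 - 1 : ℝ[X]) = (X - 1) * (X + 1) by ring, mul_pow, pow_succ (X + 1 : ℝ[X]) M]
    ring
  have hC2 : (C 2 : ℝ[X]) = 2 := map_ofNat C 2
  have e2 : ((X - 1) ^ (M + 1) * (X + 1) ^ M : ℝ[X]) * (1 - X) = Ψs + Ψa := by
    rw [hΨs, hΨa, hC2, u, u, show (X ^ 2 - 1 : ℝ[X]) = (X - 1) * (X + 1) by ring, mul_pow, mul_pow,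
      pow_succ (X + 1 : ℝ[X]) M, pow_succ (X - 1 : ℝ[X]) M]
    ring
  have hp := pert (fun x => (derivative^[k] Φ).eval x) (fun x => (derivative^[k] Ψs).eval x)
    (fun x => (derivative^[k] Ψa).eval x) ((-1) ^ k * 1) (by simp)
    (Polynomial.continuous _) (Polynomial.continuous _) (Polynomial.continuous _)
    (fun x => eval_neg_iterate Φ 1 (by rw [hΦ, u_comp]; simp) k x)
    (fun x => eval_neg_iterate Ψs 1 (by
      rw [hΨs, neg_comp, add_comp, mul_comp, u_comp, u_comp, C_comp]; simp) k x)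
    (fun x => by
      have := eval_neg_iterate Ψa (-1) (by
        rw [hΨa, mul_comp, mul_comp, u_comp, C_comp, X_comp]; simp) k x
      rw [this]; ring)
    (by
      intro x hx hmax
      obtain ⟨h0, h1⟩ := crit (derivative^[k] Φ) (u_iterate_ne_zero k (M + 1) (by omega))
        (eval_u_one k (M + 1) (by omega)) (eval_u_neg_one k (M + 1) (by omega)) x hx hmax
      have hs := congrArg (eval x) (star k M)
      rw [← hΦ] at hs
      simp only [eval_mul, eval_sub, eval_X, eval_C] at hs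
      rw [Function.iterate_succ_apply', h1] at hs
      have hps : (derivative^[k] Ψs).eval x
          = -((derivative^[k] Φ).eval x + 2 * (derivative^[k] (u M)).eval x) := by
        rw [hΨs, iterate_derivative_neg, iterate_map_add, iterate_derivative_C_mul]
        simp only [eval_neg, eval_add, eval_mul, eval_C, hΦ]
      rw [hps]
      have hM1 : (0 : ℝ) < (M : ℝ) + 1 := by positivity
      have hkM : (k : ℝ) ≤ M := by exact_mod_cast hM
      have h2 : (derivative^[k] (u M)).eval x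
          = -((2 * ((M : ℝ) + 1) - k) * (derivative^[k] Φ).eval x) / (2 * ((M : ℝ) + 1)) := by
        rw [eq_div_iff (by positivity)]
        linarith
      rw [h2]
      have h3 : (derivative^[k] Φ).eval x * -((derivative^[k] Φ).eval x + 2 *
          (-((2 * ((M : ℝ) + 1) - k) * (derivative^[k] Φ).eval x) / (2 * ((M : ℝ) + 1))))
          = ((derivative^[k] Φ).eval x) ^ 2 * (((M : ℝ) + 1 - k) / (M + 1)) := by
        field_simp
        ring
      rw [h3]
      have h4 : (0 : ℝ) < (M : ℝ) + 1 - k := by linarith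
      positivity)
  obtain ⟨v, hv, x0, hx0, h⟩ := hp
  refine ⟨v, hv, x0, hx0, fun x hx => ?_⟩
  have hA : ∀ y : ℝ, (derivative^[k] (((X - 1) ^ (M + 1) * (X + 1) ^ M) * ((X + 1) - C v * (1 - X)))).eval y
      = (derivative^[k] Φ).eval y - v * ((derivative^[k] Ψs).eval y + (derivative^[k] Ψa).eval y) := by
    intro y
    have : (((X - 1) ^ (M + 1) * (X + 1) ^ M) * ((X + 1) - C v * (1 - X)) : ℝ[X])
        = Φ - C v * (Ψs + Ψa) := by
      rw [← e1, ← e2]; ring
    rw [this, iterate_derivative_sub, iterate_derivative_C_mul, iterate_map_add]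
    simp
  have hB : ∀ y : ℝ, (derivative^[k] (((X - 1) ^ (M + 1) * (X + 1) ^ M) * ((X + 1) + C v * (1 - X)))).eval y
      = (derivative^[k] Φ).eval y + v * ((derivative^[k] Ψs).eval y + (derivative^[k] Ψa).eval y) := by
    intro y
    have : (((X - 1) ^ (M + 1) * (X + 1) ^ M) * ((X + 1) + C v * (1 - X)) : ℝ[X])
        = Φ + C v * (Ψs + Ψa) := by
      rw [← e1, ← e2]; ring
    rw [this, iterate_map_add, iterate_derivative_C_mul, iterate_map_add]
    simp
  rw [hA, hB]
  exact h x hx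

/-- First degenerate counterexample, odd degree `n = 2 * M + 3`. -/
theorem degen_odd (k M : ℕ) (hM : k ≤ M) :
    ∃ v : ℝ, 0 < v ∧ ∃ x0 ∈ Icc (-1 : ℝ) 1, ∀ x ∈ Icc (-1 : ℝ) 1,
      |(derivative^[k] ((X * (X - 1) ^ (M + 1) * (X + 1) ^ M) * ((X + 1) - C v * (1 - X)))).eval x| <
      |(derivative^[k] ((X * (X - 1) ^ (M + 1) * (X + 1) ^ M) * ((X + 1) + C v * (1 - X)))).eval x0| := by
  set Φ : ℝ[X] := X * u (M + 1) with hΦ
  set Ψs : ℝ[X] := -(X * u (M + 1) + C 2 * (X * u M)) with hΨs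
  set Ψa : ℝ[X] := C 2 * (X * (X * u M)) with hΨa
  have e1 : (X * (X - 1) ^ (M + 1) * (X + 1) ^ M : ℝ[X]) * (X + 1) = Φ := by
    rw [hΦ, u, show (X ^ 2 - 1 : ℝ[X]) = (X - 1) * (X + 1) by ring, mul_pow, pow_succ (X + 1 : ℝ[X]) M]
    ring
  have hC2 : (C 2 : ℝ[X]) = 2 := map_ofNat C 2
  have e2 : (X * (X - 1) ^ (M + 1) * (X + 1) ^ M : ℝ[X]) * (1 - X) = Ψs + Ψa := by
    rw [hΨs, hΨa, hC2, u, u, show (X ^ 2 - 1 : ℝ[X]) = (X - 1) * (X + 1) by ring, mul_pow, mul_pow,
      pow_succ (X + 1 : ℝ[X]) M, pow_succ (X - 1 : ℝ[X]) M]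
    ring
  -- `X * u N` in terms of derivatives
  have hX : ∀ N : ℕ, (X * u N : ℝ[X]) = C ((2 * ((N : ℝ) + 1))⁻¹) * derivative (u (N + 1)) := by
    intro N
    rw [derivative_u, ← mul_assoc, ← C_mul, inv_mul_cancel₀ (by positivity), C_1, one_mul]
  have hDX : ∀ N : ℕ, derivative^[k] (X * u N : ℝ[X])
      = C ((2 * ((N : ℝ) + 1))⁻¹) * derivative^[k + 1] (u (N + 1)) := by
    intro N
    rw [hX, iterate_derivative_C_mul, Function.iterate_succ_apply]
  have hne : derivative^[k] Φ ≠ 0 := by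
    rw [hΦ, hDX]
    refine mul_ne_zero ?_ (u_iterate_ne_zero (k + 1) (M + 1 + 1) (by omega))
    rw [Ne, C_eq_zero]
    positivity
  have hp := pert (fun x => (derivative^[k] Φ).eval x) (fun x => (derivative^[k] Ψs).eval x)
    (fun x => (derivative^[k] Ψa).eval x) ((-1) ^ k * (-1)) (by simp)
    (Polynomial.continuous _) (Polynomial.continuous _) (Polynomial.continuous _)
    (fun x => eval_neg_iterate Φ (-1) (by rw [hΦ, mul_comp, u_comp, X_comp]; simp) k x)
    (fun x => eval_neg_iterate Ψs (-1) (by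
      rw [hΨs, neg_comp, add_comp, mul_comp, mul_comp, mul_comp, u_comp, u_comp, C_comp, X_comp]
      simp
      ring) k x)
    (fun x => by
      have := eval_neg_iterate Ψa 1 (by
        rw [hΨa, mul_comp, mul_comp, mul_comp, u_comp, C_comp, X_comp]; simp) k x
      rw [this]; ring)
    (by
      intro x hx hmax
      have z1 : (derivative^[k] Φ).eval 1 = 0 := by
        rw [hΦ, hDX, eval_mul, eval_u_one (k + 1) (M + 1 + 1) (by omega), mul_zero]
      have z2 : (derivative^[k] Φ).eval (-1) = 0 := by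
        rw [hΦ, hDX, eval_mul, eval_u_neg_one (k + 1) (M + 1 + 1) (by omega), mul_zero]
      obtain ⟨h0, h1⟩ := crit (derivative^[k] Φ) hne z1 z2 x hx hmax
      -- values
      set A := (derivative^[k + 1] (u (M + 1 + 1))).eval x with hA
      set B := (derivative^[k + 1] (u (M + 1))).eval x with hB
      have hf : (derivative^[k] Φ).eval x = (2 * (((M + 1 : ℕ) : ℝ) + 1))⁻¹ * A := by
        rw [hΦ, hDX, eval_mul, eval_C]
      have hg : (derivative^[k] (X * u M : ℝ[X])).eval x = (2 * ((M : ℝ) + 1))⁻¹ * B := by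
        rw [hDX, eval_mul, eval_C]
      have h1' : (derivative^[k + 1 + 1] (u (M + 1 + 1))).eval x = 0 := by
        have h5 : derivative (derivative^[k] Φ)
            = C ((2 * (((M + 1 : ℕ) : ℝ) + 1))⁻¹) * derivative^[k + 1 + 1] (u (M + 1 + 1)) := by
          rw [hΦ, hDX, derivative_C_mul, ← Function.iterate_succ_apply' derivative (k + 1)]
        rw [h5, eval_mul, eval_C] at h1
        refine (mul_eq_zero.1 h1).resolve_left ?_
        positivity
      have hs := congrArg (eval x) (star (k + 1) (M + 1))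
      simp only [eval_mul, eval_sub, eval_X, eval_C] at hs
      rw [h1', ← hA, ← hB] at hs
      have hps : (derivative^[k] Ψs).eval x
          = -((derivative^[k] Φ).eval x + 2 * (derivative^[k] (X * u M : ℝ[X])).eval x) := by
        rw [hΨs, iterate_derivative_neg, iterate_map_add, iterate_derivative_C_mul]
        simp only [eval_neg, eval_add, eval_mul, eval_C, hΦ]
      rw [hps, hg, hf]
      rw [hf] at h0
      push_cast at hs h0 ⊢
      have hA0 : A ≠ 0 := by
        intro h; apply h0; rw [h, mul_zero]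
      have hkM : (k : ℝ) ≤ M := by exact_mod_cast hM
      have h2 : B = -((2 * ((M : ℝ) + 1 + 1) - (k + 1)) * A) / (2 * ((M : ℝ) + 1 + 1)) := by
        rw [eq_div_iff (by positivity)]
        linarith
      rw [h2]
      have h3 : (2 * ((M : ℝ) + 1 + 1))⁻¹ * A * -((2 * ((M : ℝ) + 1 + 1))⁻¹ * A + 2 *
          ((2 * ((M : ℝ) + 1))⁻¹ * (-((2 * ((M : ℝ) + 1 + 1) - (k + 1)) * A) / (2 * ((M : ℝ) + 1 + 1)))))
          = (A ^ 2) * (((M : ℝ) + 2 - k) / ((2 * ((M : ℝ) + 1 + 1)) ^ 2 * (M + 1))) := by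
        field_simp
        ring
      rw [h3]
      have h4 : (0 : ℝ) < (M : ℝ) + 2 - k := by linarith
      positivity)
  obtain ⟨v, hv, x0, hx0, h⟩ := hp
  refine ⟨v, hv, x0, hx0, fun x hx => ?_⟩
  have hA : ∀ y : ℝ, (derivative^[k] ((X * (X - 1) ^ (M + 1) * (X + 1) ^ M) * ((X + 1) - C v * (1 - X)))).eval y
      = (derivative^[k] Φ).eval y - v * ((derivative^[k] Ψs).eval y + (derivative^[k] Ψa).eval y) := by
    intro y
    have : ((X * (X - 1) ^ (M + 1) * (X + 1) ^ M) * ((X + 1) - C v * (1 - X)) : ℝ[X])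
        = Φ - C v * (Ψs + Ψa) := by
      rw [← e1, ← e2]; ring
    rw [this, iterate_derivative_sub, iterate_derivative_C_mul, iterate_map_add]
    simp
  have hB : ∀ y : ℝ, (derivative^[k] ((X * (X - 1) ^ (M + 1) * (X + 1) ^ M) * ((X + 1) + C v * (1 - X)))).eval y
      = (derivative^[k] Φ).eval y + v * ((derivative^[k] Ψs).eval y + (derivative^[k] Ψa).eval y) := by
    intro y
    have : ((X * (X - 1) ^ (M + 1) * (X + 1) ^ M) * ((X + 1) + C v * (1 - X)) : ℝ[X])
        = Φ + C v * (Ψs + Ψa) := by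
      rw [← e1, ← e2]; ring
    rw [this, iterate_map_add, iterate_derivative_C_mul, iterate_map_add]
    simp
  rw [hA, hB]
  exact h x hx

end Pool.Agent.H50.Snake
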