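import Mathlib
import Pool.Agent.H50.SnakeB

set_option autoImplicit false

open Polynomial Set

namespace Pool.Agent.H50.Snake

/-- coefficientwise continuity of a family of polynomials -/
def CC (Q : ℝ → ℝ[X]) : Prop := ∀ j : ℕ, Continuous (fun δ => (Q δ).coeff j)

theorem CC.mul {P Q : ℝ → ℝ[X]} (hP : CC P) (hQ : CC Q) : CC (fun δ => P δ * Q δ) := by
  intro j
  simp only [coeff_mul]
  exact continuous_finsetSum _ (fun a _ => (hP a.1).mul (hQ a.2))

theorem CC.const (P : ℝ[X]) : CC (fun _ => P) := fun _ => continuous_const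

theorem CC.prod (s : Finset ℕ) (P : ℕ → ℝ → ℝ[X]) (h : ∀ i ∈ s, CC (P i)) :
    CC (fun δ => ∏ i ∈ s, P i δ) := by
  classical
  induction s using Finset.induction_on with
  | empty => simpa using CC.const 1
  | insert a s ha ih =>
    have h1 : CC (P a) := h a (Finset.mem_insert_self a s)
    have h2 := ih (fun i hi => h i (Finset.mem_insert_of_mem hi))
    have h3 := h1.mul h2
    simpa [Finset.prod_insert ha] using h3

theorem CC.linear (T : ℝ → ℝ) (hT : Continuous T) : CC (fun δ => X - C (T δ)) := by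
  intro j
  simp only [coeff_sub, coeff_C]
  by_cases h : j = 0
  · simp only [h, if_true]
    exact continuous_const.sub hT
  · simp only [h, if_false]
    exact continuous_const

theorem eval_iterate_eq (q : ℝ[X]) (n k : ℕ) (hq : q.natDegree ≤ n) (x : ℝ) :
    (derivative^[k] q).eval x
      = ∑ j ∈ Finset.range (n + 1), q.coeff j * ((j.descFactorial k : ℝ) * x ^ (j - k)) := by
  conv_lhs => rw [q.as_sum_range_C_mul_X_pow' (Nat.lt_succ_of_le hq)]
  rw [iterate_derivative_sum, eval_finsetSum]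
  refine Finset.sum_congr rfl (fun j _ => ?_)
  rw [iterate_derivative_C_mul, iterate_derivative_X_pow_eq_C_mul]
  simp

theorem abs_eval_iterate_le (q : ℝ[X]) (n k : ℕ) (hq : q.natDegree ≤ n) (x : ℝ)
    (hx : x ∈ Icc (-1 : ℝ) 1) :
    |(derivative^[k] q).eval x| ≤ ∑ j ∈ Finset.range (n + 1), |q.coeff j| * (j.descFactorial k : ℝ) := by
  rw [eval_iterate_eq q n k hq x]
  refine (Finset.abs_sum_le_sum_abs _ _).trans (Finset.sum_le_sum (fun j _ => ?_))
  rw [abs_mul, abs_mul, abs_of_nonneg (by positivity : (0 : ℝ) ≤ (j.descFactorial k : ℝ)), abs_pow]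
  refine mul_le_mul_of_nonneg_left ?_ (abs_nonneg _)
  have : |x| ^ (j - k) ≤ 1 := pow_le_one₀ (abs_nonneg _) (abs_le.2 ⟨hx.1, hx.2⟩)
  nlinarith [(by positivity : (0 : ℝ) ≤ (j.descFactorial k : ℝ))]

theorem unif (Q : ℝ → ℝ[X]) (hQ : CC Q) (n k : ℕ) (hdeg : ∀ δ, (Q δ).natDegree ≤ n) (η : ℝ)
    (hη : 0 < η) : ∃ δ0 : ℝ, 0 < δ0 ∧ ∀ δ : ℝ, |δ| < δ0 → ∀ x ∈ Icc (-1 : ℝ) 1,
      |(derivative^[k] (Q δ)).eval x - (derivative^[k] (Q 0)).eval x| < η := by
  set g : ℝ → ℝ := fun δ => ∑ j ∈ Finset.range (n + 1),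
    |(Q δ - Q 0).coeff j| * (j.descFactorial k : ℝ) with hg
  have hgc : Continuous g := by
    refine continuous_finsetSum _ (fun j _ => ?_)
    simp only [coeff_sub]
    exact (((hQ j).sub continuous_const).abs).mul continuous_const
  have hg0 : g 0 = 0 := by simp [hg]
  have h1 := Metric.continuousAt_iff.1 (hgc.continuousAt (x := 0)) η hη
  rw [hg0] at h1
  obtain ⟨δ0, hδ0, h2⟩ := h1
  refine ⟨δ0, hδ0, fun δ hδ x hx => ?_⟩
  have h3 := h2 (show dist δ 0 < δ0 by simpa [Real.dist_eq] using hδ)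
  rw [Real.dist_eq, sub_zero] at h3
  have h4 : (derivative^[k] (Q δ)).eval x - (derivative^[k] (Q 0)).eval x
      = (derivative^[k] (Q δ - Q 0)).eval x := by
    rw [iterate_derivative_sub, eval_sub]
  rw [h4]
  refine lt_of_le_of_lt (abs_eval_iterate_le _ n k ?_ x hx) ((le_abs_self _).trans_lt h3)
  exact (natDegree_sub_le _ _).trans (max_le (hdeg δ) (hdeg 0))

/-- The smooth positive majorant. -/
theorem majorant (n : ℕ) (ω p : ℝ[X]) (τ : Fin (n + 1) → ℝ)
    (hlt : ∀ i, |p.eval (τ i)| < |ω.eval (τ i)|) :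
    ∃ R : ℝ[X], (∀ x ∈ Icc (-1 : ℝ) 1, 0 < R.eval x) ∧
      (∀ x ∈ Icc (-1 : ℝ) 1, (ω.eval x) ^ 2 ≤ R.eval x) ∧
      (∀ x ∈ Icc (-1 : ℝ) 1, (p.eval x) ^ 2 ≤ R.eval x) ∧
      ∀ i, R.eval (τ i) = (ω.eval (τ i)) ^ 2 := by
  set W : ℝ[X] := ∏ i, (X - C (τ i)) with hW
  have hWeval : ∀ x : ℝ, W.eval x = ∏ i, (x - τ i) := by
    intro x
    rw [hW, eval_prod]
    simp
  have hW0 : ∀ x : ℝ, W.eval x = 0 → ∃ i, x = τ i := by
    intro x hx
    rw [hWeval, Finset.prod_eq_zero_iff] at hx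
    obtain ⟨i, _, hi⟩ := hx
    exact ⟨i, sub_eq_zero.1 hi⟩
  have hWτ : ∀ i, W.eval (τ i) = 0 := by
    intro i
    rw [hWeval]
    exact Finset.prod_eq_zero (Finset.mem_univ i) (sub_self _)
  have hI : IsCompact (Icc (-1 : ℝ) 1) := isCompact_Icc
  have hK : ∃ K : ℝ, 0 < K ∧ ∀ x ∈ Icc (-1 : ℝ) 1,
      (p.eval x) ^ 2 ≤ (ω.eval x) ^ 2 + K * (W.eval x) ^ 2 := by
    set Z := Icc (-1 : ℝ) 1 ∩ {x | (ω.eval x) ^ 2 ≤ (p.eval x) ^ 2} with hZ
    have hZc : IsCompact Z := hI.inter_right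
      (isClosed_le ((Polynomial.continuous ω).pow 2) ((Polynomial.continuous p).pow 2))
    by_cases hemp : Z.Nonempty
    · obtain ⟨z, hz, hzmin⟩ := hZc.exists_isMinOn hemp
        (((Polynomial.continuous W).pow 2).continuousOn)
      obtain ⟨y, hy, hymax⟩ := hZc.exists_isMaxOn hemp
        (((Polynomial.continuous p).pow 2).continuousOn)
      have hzW : 0 < (W.eval z) ^ 2 := by
        have : W.eval z ≠ 0 := by
          intro h
          obtain ⟨i, hi⟩ := hW0 z h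
          have h1 := hlt i
          have h2 : (ω.eval z) ^ 2 ≤ (p.eval z) ^ 2 := hz.2
          rw [hi] at h2
          exact absurd (sq_le_sq.1 h2) (not_le.2 h1)
        positivity
      refine ⟨((p.eval y) ^ 2 + 1) / (W.eval z) ^ 2, by positivity, fun x hx => ?_⟩
      by_cases hxZ : (ω.eval x) ^ 2 ≤ (p.eval x) ^ 2
      · have h1 : (W.eval z) ^ 2 ≤ (W.eval x) ^ 2 := hzmin ⟨hx, hxZ⟩
        have h2 : (p.eval x) ^ 2 ≤ (p.eval y) ^ 2 := hymax ⟨hx, hxZ⟩
        have h3 : (p.eval y) ^ 2 + 1 ≤ ((p.eval y) ^ 2 + 1) / (W.eval z) ^ 2 * (W.eval x) ^ 2 := by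
          rw [div_mul_eq_mul_div, le_div_iff₀ hzW]
          exact mul_le_mul_of_nonneg_left h1 (by positivity)
        nlinarith [sq_nonneg (ω.eval x)]
      · push Not at hxZ
        have : 0 ≤ ((p.eval y) ^ 2 + 1) / (W.eval z) ^ 2 * (W.eval x) ^ 2 := by positivity
        linarith
    · refine ⟨1, one_pos, fun x hx => ?_⟩
      by_contra h
      push Not at h
      apply hemp
      refine ⟨x, hx, ?_⟩
      have := sq_nonneg (W.eval x)
      show (ω.eval x) ^ 2 ≤ (p.eval x) ^ 2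
      linarith
  obtain ⟨K, hK0, hK1⟩ := hK
  have hev : ∀ x : ℝ, (ω ^ 2 + C K * W ^ 2).eval x = (ω.eval x) ^ 2 + K * (W.eval x) ^ 2 := by
    intro x; simp
  refine ⟨ω ^ 2 + C K * W ^ 2, fun x hx => ?_, fun x hx => ?_, fun x hx => ?_, fun i => ?_⟩
  · rw [hev]
    by_cases h : W.eval x = 0
    · obtain ⟨i, hi⟩ := hW0 x h
      have h1 := hlt i
      have h2 : ω.eval x ≠ 0 := by
        rw [hi]
        exact abs_pos.1 (lt_of_le_of_lt (abs_nonneg _) h1)
      positivity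
    · positivity
  · rw [hev]
    have : 0 ≤ K * (W.eval x) ^ 2 := by positivity
    linarith
  · rw [hev]
    exact hK1 x hx
  · rw [hev, hWτ]
    ring

end Pool.Agent.H50.Snake
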