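import Mathlib
import Pool.Agent.H50.SnakeC

set_option autoImplicit false

open Polynomial Set

namespace Pool.Agent.H50.Snake

/-- interpolated zeros -/
noncomputable def Tz (n : ℕ) (t : ℕ → ℝ) (δ : ℝ) (i : ℕ) : ℝ :=
  (1 - δ) * t i + δ * (1 - 2 * ((i : ℝ) + 1) / n)

theorem Tz_strictAnti (n : ℕ) (hn : 0 < n) (t : ℕ → ℝ) (ht : Antitone t) (δ : ℝ) (hδ0 : 0 < δ)
    (hδ1 : δ ≤ 1) : StrictAnti (Tz n t δ) := by
  refine strictAnti_nat_of_succ_lt (fun i => ?_)
  have h1 : t (i + 1) ≤ t i := ht (Nat.le_succ i)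
  have h2 : (1 - δ) * t (i + 1) ≤ (1 - δ) * t i := mul_le_mul_of_nonneg_left h1 (by linarith)
  have hn' : (0 : ℝ) < n := by exact_mod_cast hn
  have h3 : 2 * ((i : ℝ) + 1) / n < 2 * (((i + 1 : ℕ) : ℝ) + 1) / n := by
    push_cast
    gcongr
    linarith
  have h4 := mul_lt_mul_of_pos_left h3 hδ0
  simp only [Tz]
  nlinarith

theorem Tz_lt_one (n : ℕ) (hn : 0 < n) (t : ℕ → ℝ) (ht1 : ∀ i, |t i| ≤ 1) (δ : ℝ) (hδ0 : 0 < δ)
    (hδ1 : δ ≤ 1) (i : ℕ) : Tz n t δ i < 1 := by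
  have hn' : (0 : ℝ) < n := by exact_mod_cast hn
  have h1 : t i ≤ 1 := (abs_le.1 (ht1 i)).2
  have h2 : (1 - δ) * t i ≤ (1 - δ) * 1 := mul_le_mul_of_nonneg_left h1 (by linarith)
  have h3 : 0 < 2 * ((i : ℝ) + 1) / n := by positivity
  have h4 := mul_pos hδ0 h3
  simp only [Tz]
  nlinarith

theorem neg_one_lt_Tz (n : ℕ) (t : ℕ → ℝ) (ht1 : ∀ i, |t i| ≤ 1) (δ : ℝ) (hδ0 : 0 < δ)
    (hδ1 : δ ≤ 1) (i : ℕ) (hi : i + 1 < n) : -1 < Tz n t δ i := by
  have hn' : (0 : ℝ) < n := by exact_mod_cast (by omega : 0 < n)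
  have h1 : -1 ≤ t i := (abs_le.1 (ht1 i)).1
  have h2 : (1 - δ) * (-1) ≤ (1 - δ) * t i := mul_le_mul_of_nonneg_left h1 (by linarith)
  have h3 : 2 * ((i : ℝ) + 1) / n < 2 := by
    rw [div_lt_iff₀ hn']
    have : (i : ℝ) + 1 < n := by exact_mod_cast hi
    linarith
  have h4 := mul_lt_mul_of_pos_left h3 hδ0
  simp only [Tz]
  nlinarith

/-- the product polynomial -/
noncomputable def Np (n : ℕ) (t : ℕ → ℝ) (δ : ℝ) : ℝ[X] :=
  ∏ i ∈ Finset.range (n - 1), (X - C (Tz n t δ i))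

theorem CC_Np (n : ℕ) (t : ℕ → ℝ) : CC (Np n t) := by
  refine CC.prod _ (fun i δ => X - C (Tz n t δ i)) (fun i _ => CC.linear _ ?_)
  unfold Tz
  fun_prop

theorem natDegree_Np (n : ℕ) (t : ℕ → ℝ) (δ : ℝ) : (Np n t δ).natDegree = n - 1 := by
  rw [Np, natDegree_prod_of_monic _ _ (fun i _ => monic_X_sub_C _)]
  simp

theorem eval_Np (n : ℕ) (t : ℕ → ℝ) (δ x : ℝ) :
    (Np n t δ).eval x = ∏ i ∈ Finset.range (n - 1), (x - Tz n t δ i) := by
  rw [Np, eval_prod]
  simp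

theorem natDegree_lin (v : ℝ) : ((X + 1) + C v * (1 - X) : ℝ[X]).natDegree ≤ 1 := by
  compute_degree

theorem natDegree_lin' (v : ℝ) : ((X + 1) - C v * (1 - X) : ℝ[X]).natDegree ≤ 1 := by
  compute_degree

theorem finish (n k : ℕ) (hn : 2 ≤ n) (t : ℕ → ℝ) (ht : Antitone t) (ht1 : ∀ i, |t i| ≤ 1)
    (v : ℝ) (hv : 0 < v) (x0 : ℝ) (hx0 : x0 ∈ Icc (-1 : ℝ) 1)
    (h : ∀ x ∈ Icc (-1 : ℝ) 1,
      |(derivative^[k] ((∏ i ∈ Finset.range (n - 1), (X - C (t i))) * ((X + 1) - C v * (1 - X)))).eval x| <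
      |(derivative^[k] ((∏ i ∈ Finset.range (n - 1), (X - C (t i))) * ((X + 1) + C v * (1 - X)))).eval x0|) :
    ∃ (R ω p : ℝ[X]) (τ : Fin (n + 1) → ℝ),
      (∀ x ∈ Icc (-1 : ℝ) 1, 0 < R.eval x) ∧ ω.natDegree ≤ n ∧ p.natDegree ≤ n ∧
      (∀ x ∈ Icc (-1 : ℝ) 1, (ω.eval x) ^ 2 ≤ R.eval x) ∧
      (∀ x ∈ Icc (-1 : ℝ) 1, (p.eval x) ^ 2 ≤ R.eval x) ∧
      (∀ i, τ i ∈ Icc (-1 : ℝ) 1) ∧ StrictAnti τ ∧
      (∀ i, R.eval (τ i) = (ω.eval (τ i)) ^ 2) ∧
      (∀ i : Fin (n + 1), 0 < (-1 : ℝ) ^ (i : ℕ) * ω.eval (τ i)) ∧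
      (∀ x ∈ Icc (-1 : ℝ) 1, |(derivative^[k] ω).eval x| < |(derivative^[k] p).eval x0|) := by
  -- the families
  set L1 : ℝ[X] := (X + 1) - C v * (1 - X) with hL1
  set L2 : ℝ[X] := (X + 1) + C v * (1 - X) with hL2
  have hN0 : Np n t 0 = ∏ i ∈ Finset.range (n - 1), (X - C (t i)) := by
    simp [Np, Tz]
  rw [← hN0] at h
  have hCC1 : CC (fun δ => Np n t δ * L1) := (CC_Np n t).mul (CC.const L1)
  have hCC2 : CC (fun δ => Np n t δ * L2) := (CC_Np n t).mul (CC.const L2)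
  have hd1 : ∀ δ, (Np n t δ * L1).natDegree ≤ n := by
    intro δ
    refine natDegree_mul_le.trans ?_
    rw [natDegree_Np]
    have := natDegree_lin' v
    rw [← hL1] at this
    omega
  have hd2 : ∀ δ, (Np n t δ * L2).natDegree ≤ n := by
    intro δ
    refine natDegree_mul_le.trans ?_
    rw [natDegree_Np]
    have := natDegree_lin v
    rw [← hL2] at this
    omega
  -- the gap
  have hI : IsCompact (Icc (-1 : ℝ) 1) := isCompact_Icc
  obtain ⟨x1, hx1, hx1max⟩ := hI.exists_isMaxOn ⟨0, by norm_num⟩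
    ((Polynomial.continuous (derivative^[k] (Np n t 0 * L1))).abs.continuousOn)
  have hW0 : ∀ x ∈ Icc (-1 : ℝ) 1, |(derivative^[k] (Np n t 0 * L1)).eval x| ≤
    |(derivative^[k] (Np n t 0 * L1)).eval x1| := fun x hx => hx1max hx
  have hgap := h x1 hx1
  set W0 := |(derivative^[k] (Np n t 0 * L1)).eval x1| with hW0def
  set P0 := |(derivative^[k] (Np n t 0 * L2)).eval x0| with hP0def
  set η := (P0 - W0) / 4 with hη
  have hη0 : 0 < η := by
    have : 0 < P0 - W0 := by linarith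
    positivity
  obtain ⟨δ1, hδ1, hu1⟩ := unif _ hCC1 n k hd1 η hη0
  obtain ⟨δ2, hδ2, hu2⟩ := unif _ hCC2 n k hd2 η hη0
  set δ := min 1 (min (δ1 / 2) (δ2 / 2)) with hδ
  have hδ0 : 0 < δ := by
    refine lt_min one_pos (lt_min (by linarith) (by linarith))
  have hδle1 : δ ≤ 1 := min_le_left _ _
  have hδa : |δ| < δ1 := by
    rw [abs_of_pos hδ0]
    have : δ ≤ δ1 / 2 := (min_le_right _ _).trans (min_le_left _ _)
    linarith
  have hδb : |δ| < δ2 := by
    rw [abs_of_pos hδ0]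
    have : δ ≤ δ2 / 2 := (min_le_right _ _).trans (min_le_right _ _)
    linarith
  have hu1' := hu1 δ hδa
  have hu2' := hu2 δ hδb x0 hx0
  -- the nodes
  set τ : Fin (n + 1) → ℝ := fun i =>
    if (i : ℕ) = 0 then 1 else if (i : ℕ) < n then Tz n t δ ((i : ℕ) - 1) else -1 with hτ
  have hnpos : 0 < n := by omega
  have hTanti := Tz_strictAnti n hnpos t ht δ hδ0 hδle1
  have hT1 := Tz_lt_one n hnpos t ht1 δ hδ0 hδle1
  have hT2 := neg_one_lt_Tz n t ht1 δ hδ0 hδle1
  have hτI : ∀ i, τ i ∈ Icc (-1 : ℝ) 1 := by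
    intro i
    simp only [hτ]
    split_ifs with h1 h2
    · norm_num
    · exact ⟨(hT2 _ (by omega)).le, (hT1 _).le⟩
    · norm_num
  have hτanti : StrictAnti τ := by
    intro i j hij
    have hij' : (i : ℕ) < (j : ℕ) := hij
    have hj : (j : ℕ) ≤ n := Nat.lt_succ_iff.1 j.2
    simp only [hτ]
    have hj0 : (j : ℕ) ≠ 0 := by omega
    rw [if_neg hj0]
    by_cases hi0 : (i : ℕ) = 0
    · rw [if_pos hi0]
      split_ifs with h2
      · exact hT1 _
      · norm_num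
    · rw [if_neg hi0, if_pos (by omega : (i : ℕ) < n)]
      split_ifs with h2
      · exact hTanti (by omega)
      · exact hT2 _ (by omega)
  -- interpolation
  set Rl : ℝ[X] := Lagrange.interpolate Finset.univ τ (fun i => (-1 : ℝ) ^ (i : ℕ)) with hRl
  have hRτ : ∀ i, Rl.eval (τ i) = (-1 : ℝ) ^ (i : ℕ) := fun i =>
    Lagrange.eval_interpolate_at_node _ (hτanti.injective.injOn) (Finset.mem_univ i)
  have hRdeg : Rl.natDegree ≤ n := by
    have h1 := Lagrange.degree_interpolate_le (s := Finset.univ) (v := τ)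
      (fun i => (-1 : ℝ) ^ (i : ℕ)) (hτanti.injective.injOn)
    rw [Finset.card_univ, Fintype.card_fin, Nat.add_sub_cancel] at h1
    exact natDegree_le_of_degree_le h1
  obtain ⟨x2, hx2, hx2max⟩ := hI.exists_isMaxOn ⟨0, by norm_num⟩
    ((Polynomial.continuous (derivative^[k] Rl)).abs.continuousOn)
  set BR := |(derivative^[k] Rl).eval x2| with hBR
  have hBR' : ∀ x ∈ Icc (-1 : ℝ) 1, |(derivative^[k] Rl).eval x| ≤ BR := fun x hx => hx2max hx
  have hBR0 : 0 ≤ BR := abs_nonneg _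
  set ε := η / (BR + 1) with hε
  have hε0 : 0 < ε := by positivity
  have hεB : ε * BR ≤ η := by
    rw [hε, div_mul_eq_mul_div, div_le_iff₀ (by positivity)]
    nlinarith
  set ω : ℝ[X] := Np n t δ * L1 + C ε * Rl with hω
  set p : ℝ[X] := Np n t δ * L2 with hp
  have hωdeg : ω.natDegree ≤ n := by
    refine (natDegree_add_le _ _).trans (max_le (hd1 δ) ?_)
    exact (natDegree_C_mul_le _ _).trans hRdeg
  -- values at nodes
  set Pp := ∏ i ∈ Finset.range (n - 1), (1 + Tz n t δ i) with hPp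
  have hPp0 : 0 < Pp := by
    refine Finset.prod_pos (fun i hi => ?_)
    rw [Finset.mem_range] at hi
    have := hT2 i (by omega)
    linarith
  have hNneg : (Np n t δ).eval (-1) = (-1) ^ (n - 1) * Pp := by
    rw [eval_Np, hPp]
    have : ∀ i ∈ Finset.range (n - 1), (-1 - Tz n t δ i) = (-1) * (1 + Tz n t δ i) := by
      intro i _; ring
    rw [Finset.prod_congr rfl this, Finset.prod_mul_distrib]
    simp
  have hNone : 0 < (Np n t δ).eval 1 := by
    rw [eval_Np]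
    refine Finset.prod_pos (fun i _ => ?_)
    have := hT1 i
    linarith
  have hval : ∀ i : Fin (n + 1), 0 < (-1 : ℝ) ^ (i : ℕ) * ω.eval (τ i) ∧
      |p.eval (τ i)| < (-1 : ℝ) ^ (i : ℕ) * ω.eval (τ i) := by
    intro i
    have hi : (i : ℕ) ≤ n := Nat.lt_succ_iff.1 i.2
    have hsq : (-1 : ℝ) ^ (i : ℕ) * (-1) ^ (i : ℕ) = 1 := by
      rw [← mul_pow]; simp
    have hωe : ω.eval (τ i) = (Np n t δ).eval (τ i) * L1.eval (τ i) + ε * (-1) ^ (i : ℕ) := by
      rw [hω, eval_add, eval_mul, eval_mul, eval_C, hRτ]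
    have hpe : p.eval (τ i) = (Np n t δ).eval (τ i) * L2.eval (τ i) := by
      rw [hp, eval_mul]
    rw [hωe, hpe]
    by_cases hi0 : (i : ℕ) = 0
    · have hτi : τ i = 1 := by simp only [hτ, if_pos hi0]
      rw [hτi, hi0]
      have e1 : L1.eval 1 = 2 := by rw [hL1]; simp; norm_num
      have e2 : L2.eval 1 = 2 := by rw [hL2]; simp; norm_num
      rw [e1, e2, abs_of_pos (by positivity)]
      constructor
      · positivity
      · simp only [pow_zero]; linarith
    · by_cases hin : (i : ℕ) < n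
      · have hτi : τ i = Tz n t δ ((i : ℕ) - 1) := by
          simp only [hτ, if_neg hi0, if_pos hin]
        have hz : (Np n t δ).eval (τ i) = 0 := by
          rw [eval_Np, hτi]
          exact Finset.prod_eq_zero (Finset.mem_range.2 (by omega : (i : ℕ) - 1 < n - 1))
            (sub_self _)
        rw [hz, zero_mul, zero_mul, abs_zero, zero_add]
        have : (-1 : ℝ) ^ (i : ℕ) * (ε * (-1) ^ (i : ℕ)) = ε := by
          calc (-1 : ℝ) ^ (i : ℕ) * (ε * (-1) ^ (i : ℕ))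
              = ε * ((-1 : ℝ) ^ (i : ℕ) * (-1) ^ (i : ℕ)) := by ring
            _ = ε := by rw [hsq, mul_one]
        rw [this]
        exact ⟨hε0, hε0⟩
      · have hin' : (i : ℕ) = n := by omega
        have hτi : τ i = -1 := by
          simp only [hτ, if_neg hi0, if_neg hin]
        rw [hτi, hin', hNneg]
        have e1 : L1.eval (-1) = -(2 * v) := by rw [hL1]; simp; ring
        have e2 : L2.eval (-1) = 2 * v := by rw [hL2]; simp; ring
        rw [e1, e2]
        have hpow : (-1 : ℝ) ^ n = -(-1 : ℝ) ^ (n - 1) := by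
          conv_lhs => rw [show n = (n - 1) + 1 by omega, pow_succ]
          ring
        have hsq' : (-1 : ℝ) ^ (n - 1) * (-1) ^ (n - 1) = 1 := by
          rw [← mul_pow]; simp
        have e3 : (-1 : ℝ) ^ n * ((-1) ^ (n - 1) * Pp * -(2 * v) + ε * (-1) ^ n)
            = 2 * v * Pp + ε := by
          rw [hpow]
          linear_combination (2 * v * Pp + ε) * hsq'
        have e4 : |(-1 : ℝ) ^ (n - 1) * Pp * (2 * v)| = 2 * v * Pp := by
          rw [abs_mul, abs_mul, abs_pow, abs_neg, abs_one, one_pow, one_mul, abs_of_pos hPp0,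
            abs_of_pos (by positivity : 0 < 2 * v)]
          ring
        rw [e3, e4]
        constructor
        · positivity
        · linarith
  have hlt : ∀ i, |p.eval (τ i)| < |ω.eval (τ i)| := by
    intro i
    obtain ⟨h1, h2⟩ := hval i
    refine h2.trans_le ?_
    have : |(-1 : ℝ) ^ (i : ℕ) * ω.eval (τ i)| = |ω.eval (τ i)| := by
      rw [abs_mul, abs_pow, abs_neg, abs_one, one_pow, one_mul]
    rw [← this]
    exact le_abs_self _
  obtain ⟨R, hR1, hR2, hR3, hR4⟩ := majorant n ω p τ hlt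
  refine ⟨R, ω, p, τ, hR1, hωdeg, hd2 δ, hR2, hR3, hτI, hτanti, hR4, fun i => (hval i).1, ?_⟩
  intro x hx
  have s1 : |(derivative^[k] ω).eval x| ≤ |(derivative^[k] (Np n t δ * L1)).eval x| + ε * BR := by
    rw [hω, iterate_map_add, iterate_derivative_C_mul, eval_add, eval_mul, eval_C]
    refine (abs_add_le _ _).trans ?_
    rw [abs_mul, abs_of_pos hε0]
    have := mul_le_mul_of_nonneg_left (hBR' x hx) hε0.le
    linarith
  have s2 : |(derivative^[k] (Np n t δ * L1)).eval x| < W0 + η := by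
    have e1 := hu1' x hx
    have e2 := hW0 x hx
    have e3 := abs_sub_abs_le_abs_sub ((derivative^[k] (Np n t δ * L1)).eval x)
      ((derivative^[k] (Np n t 0 * L1)).eval x)
    linarith
  have s3 : P0 - η < |(derivative^[k] p).eval x0| := by
    have e3 := abs_sub_abs_le_abs_sub ((derivative^[k] (Np n t 0 * L2)).eval x0)
      ((derivative^[k] (Np n t δ * L2)).eval x0)
    rw [abs_sub_comm] at e3
    linarith
  have s4 : P0 - W0 = 4 * η := by rw [hη]; ring
  linarith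

/-- The counterexample for all `n ≥ 2 k + 2`. -/
theorem main (n k : ℕ) (hn : 2 * k + 2 ≤ n) :
    ∃ (R ω p : ℝ[X]) (τ : Fin (n + 1) → ℝ) (x0 : ℝ), x0 ∈ Icc (-1 : ℝ) 1 ∧
      (∀ x ∈ Icc (-1 : ℝ) 1, 0 < R.eval x) ∧ ω.natDegree ≤ n ∧ p.natDegree ≤ n ∧
      (∀ x ∈ Icc (-1 : ℝ) 1, (ω.eval x) ^ 2 ≤ R.eval x) ∧
      (∀ x ∈ Icc (-1 : ℝ) 1, (p.eval x) ^ 2 ≤ R.eval x) ∧
      (∀ i, τ i ∈ Icc (-1 : ℝ) 1) ∧ StrictAnti τ ∧
      (∀ i, R.eval (τ i) = (ω.eval (τ i)) ^ 2) ∧
      (∀ i : Fin (n + 1), 0 < (-1 : ℝ) ^ (i : ℕ) * ω.eval (τ i)) ∧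
      (∀ x ∈ Icc (-1 : ℝ) 1, |(derivative^[k] ω).eval x| < |(derivative^[k] p).eval x0|) := by
  have hcase : ∃ M, k ≤ M ∧ (n = 2 * (M + 1) ∨ n = 2 * M + 3) := by
    rcases Nat.even_or_odd' n with ⟨m, hm | hm⟩
    · exact ⟨m - 1, by omega, Or.inl (by omega)⟩
    · exact ⟨m - 1, by omega, Or.inr (by omega)⟩
  obtain ⟨M, hM, hM' | hM'⟩ := hcase
  · obtain ⟨v, hv, x0, hx0, h⟩ := degen_even k M hM
    set t : ℕ → ℝ := fun i => if i < M + 1 then 1 else -1 with ht
    have hprod : (∏ i ∈ Finset.range (n - 1), (X - C (t i)) : ℝ[X])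
        = (X - 1) ^ (M + 1) * (X + 1) ^ M := by
      rw [show n - 1 = (M + 1) + M by omega, Finset.prod_range_add]
      congr 1
      · rw [Finset.prod_congr rfl (g := fun _ => (X - 1 : ℝ[X]))]
        · simp
        · intro i hi
          rw [Finset.mem_range] at hi
          have h1 : t i = 1 := if_pos hi
          rw [h1]; simp
      · rw [Finset.prod_congr rfl (g := fun _ => (X + 1 : ℝ[X]))]
        · simp
        · intro i _
          have h1 : t (M + 1 + i) = -1 := if_neg (by omega)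
          rw [h1]; simp
    have hfin := finish n k (by omega) t (by
      intro a b hab
      simp only [ht]
      split_ifs <;> first | (exfalso; omega) | norm_num) (by
      intro i
      simp only [ht]
      split_ifs <;> norm_num) v hv x0 hx0 (by rw [hprod]; exact h)
    obtain ⟨R, ω, p, τ, hh⟩ := hfin
    exact ⟨R, ω, p, τ, x0, hx0, hh⟩
  · obtain ⟨v, hv, x0, hx0, h⟩ := degen_odd k M hM
    set t : ℕ → ℝ := fun i => if i < M + 1 then 1 else if i = M + 1 then 0 else -1 with ht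
    have hprod : (∏ i ∈ Finset.range (n - 1), (X - C (t i)) : ℝ[X])
        = X * (X - 1) ^ (M + 1) * (X + 1) ^ M := by
      rw [show n - 1 = (M + 1) + 1 + M by omega, Finset.prod_range_add, Finset.prod_range_succ]
      have e1 : (∏ i ∈ Finset.range (M + 1), (X - C (t i)) : ℝ[X]) = (X - 1) ^ (M + 1) := by
        rw [Finset.prod_congr rfl (g := fun _ => (X - 1 : ℝ[X]))]
        · simp
        · intro i hi
          rw [Finset.mem_range] at hi
          have h1 : t i = 1 := if_pos hi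
          rw [h1]; simp
      have e2 : (∏ i ∈ Finset.range M, (X - C (t (M + 1 + 1 + i))) : ℝ[X]) = (X + 1) ^ M := by
        rw [Finset.prod_congr rfl (g := fun _ => (X + 1 : ℝ[X]))]
        · simp
        · intro i _
          have h1 : t (M + 1 + 1 + i) = -1 :=
            (if_neg (by omega)).trans (if_neg (by omega))
          rw [h1]; simp
      have e3 : t (M + 1) = 0 := by simp [ht]
      rw [e1, e2, e3, C_0, sub_zero]
      ring
    have hfin := finish n k (by omega) t (by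
      intro a b hab
      simp only [ht]
      split_ifs <;> first | (exfalso; omega) | norm_num) (by
      intro i
      simp only [ht]
      split_ifs <;> norm_num) v hv x0 hx0 (by rw [hprod]; exact h)
    obtain ⟨R, ω, p, τ, hh⟩ := hfin
    exact ⟨R, ω, p, τ, x0, hx0, hh⟩

end Pool.Agent.H50.Snake
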