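import Mathlib

set_option autoImplicit false

open MeasureTheory Filter Finset
open scoped ENNReal

namespace Pool.Agent.H50.Walsh

/-- The dyadic group `{0,1}^ℕ` (`true` stands for `1`). -/
abbrev G := ℕ → Bool

/-- The uniform probability measure on `{0,1}`. -/
noncomputable def coin : Measure Bool := (2⁻¹ : ℝ≥0∞) • (Measure.dirac false + Measure.dirac true)

instance : IsProbabilityMeasure coin := by
  constructor
  simp only [coin, Measure.smul_apply, Measure.add_apply, measure_univ, smul_eq_mul]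
  rw [one_add_one_eq_two, ENNReal.inv_mul_cancel two_ne_zero ENNReal.ofNat_ne_top]

/-- The product probability measure on `G`. -/
noncomputable def P : Measure G := Measure.infinitePi (fun _ : ℕ => coin)

instance : IsProbabilityMeasure P := by unfold P; infer_instance

/-- The dyadic interval `I_n(x) = {y : y_j = x_j for j < n}`. -/
def cyl (n : ℕ) (x : G) : Set G := {y | ∀ j < n, y j = x j}

theorem measurableSet_cyl (n : ℕ) (x : G) : MeasurableSet (cyl n x) := by
  have : cyl n x = ⋂ j ∈ Finset.range n, {y : G | y j = x j} := by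
    ext y; simp [cyl]
  rw [this]
  refine Finset.measurableSet_biInter _ (fun j _ => ?_)
  exact measurableSet_eq_fun (measurable_pi_apply j) measurable_const

theorem cyl_eq_iUnion (n m : ℕ) (x : G) (h : n ≤ m) :
    cyl n x = ⋃ v ∈ {v : Fin m → Bool | (fun j => if hj : j < m then v ⟨j, hj⟩ else false) ∈ cyl n x},
      cyl m (fun j => if hj : j < m then v ⟨j, hj⟩ else false) := by
  ext y
  simp only [Set.mem_iUnion, Set.mem_ofPred_eq, exists_prop]
  constructor
  · intro hy
    refine ⟨fun j => y j, fun j hj => ?_, fun j hj => ?_⟩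
    · simp [show j < m by omega, hy j hj]
    · simp [hj]
  · rintro ⟨v, hv, hy⟩ j hj
    have h1 := hy j (by omega)
    have h2 := hv j hj
    rw [h1]
    exact h2

/-- The dyadic filtration: `F_n` is generated by the sets `I_n(x)`. -/
def filt : Filtration ℕ (inferInstance : MeasurableSpace G) where
  seq n := MeasurableSpace.generateFrom {s | ∃ x, s = cyl n x}
  mono' := by
    intro n m hnm
    refine MeasurableSpace.generateFrom_le ?_
    rintro s ⟨x, rfl⟩
    rw [cyl_eq_iUnion n m x hnm]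
    refine MeasurableSet.biUnion (Set.to_countable _) (fun v _ => ?_)
    exact MeasurableSpace.measurableSet_generateFrom ⟨_, rfl⟩
  le' := by
    intro n
    refine MeasurableSpace.generateFrom_le ?_
    rintro s ⟨x, rfl⟩
    exact measurableSet_cyl n x

/-- Rademacher functions `r_k(x) = (-1)^{x_k}`. -/
def rad (k : ℕ) (x : G) : ℝ := if x k then -1 else 1

/-- Walsh functions `w_n = ∏ r_k^{n_k}`, where `n = ∑ n_k 2^k` (all nonzero bits have `k < n`). -/
def walsh (n : ℕ) (x : G) : ℝ := ∏ k ∈ range n, if n.testBit k then rad k x else 1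

/-- Walsh-Fourier coefficients of a martingale: the limit of `∫ f^(k) w_i`. -/
noncomputable def fourierCoeff (f : ℕ → G → ℝ) (i : ℕ) : ℝ :=
  limUnder atTop (fun k => ∫ x, f k x * walsh i x ∂P)

/-- Partial sums `S_k f = ∑_{i<k} f^(i) w_i`. -/
noncomputable def partialSum (f : ℕ → G → ℝ) (k : ℕ) (x : G) : ℝ :=
  ∑ i ∈ range k, fourierCoeff f i * walsh i x

/-- `A_n^α = (α+1)...(α+n)/n!`. -/
noncomputable def cesaroNumber (α : ℝ) (n : ℕ) : ℝ :=
  (∏ j ∈ range n, (α + ((j : ℝ) + 1))) / (n.factorial : ℝ)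

/-- Cesaro means `σ_n^α f = (1/A_n^α) ∑_{k=1}^n A_{n-k}^{α-1} S_k f`. -/
noncomputable def cesaroMean (α : ℝ) (n : ℕ) (f : ℕ → G → ℝ) (x : G) : ℝ :=
  1 / cesaroNumber α n * ∑ k ∈ Icc 1 n, cesaroNumber (α - 1) (n - k) * partialSum f k x

/-- `‖g‖_p = (∫ |g|^p)^{1/p}`, as an extended nonnegative number. -/
noncomputable def lpNorm (p : ℝ) (g : G → ℝ) : ℝ≥0∞ := (∫⁻ x, ‖g x‖ₑ ^ p ∂P) ^ (1 / p)

/-- `‖f‖_{H_p} = ‖ sup_n |f^(n)| ‖_p`, as an extended nonnegative number. -/
noncomputable def hardyNorm (p : ℝ) (f : ℕ → G → ℝ) : ℝ≥0∞ :=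
  (∫⁻ x, (⨆ n, ‖f n x‖ₑ) ^ p ∂P) ^ (1 / p)

end Pool.Agent.H50.Walsh
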