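import Mathlib
import Pool.Agent.H50.WalshDefs

set_option autoImplicit false

open MeasureTheory Filter Finset
open scoped ENNReal

namespace Pool.Agent.H50.Walsh

/-! ### Cesaro numbers -/

theorem cN_zero (α : ℝ) : cesaroNumber α 0 = 1 := by simp [cesaroNumber]

theorem cN_succ (α : ℝ) (n : ℕ) :
    cesaroNumber α (n + 1) = cesaroNumber α n * (1 + α / (n + 1)) := by
  have h1 : ((n.factorial : ℕ) : ℝ) ≠ 0 := by exact_mod_cast Nat.factorial_ne_zero n
  have h2 : ((n : ℝ) + 1) ≠ 0 := by positivity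
  simp only [cesaroNumber, prod_range_succ, Nat.factorial_succ, Nat.cast_mul, Nat.cast_add,
    Nat.cast_one]
  field_simp
  ring

/-- Positivity for `α > -1`. -/
theorem cN_pos (α : ℝ) (hα : -1 < α) (n : ℕ) : 0 < cesaroNumber α n := by
  unfold cesaroNumber
  refine div_pos (prod_pos (fun j _ => ?_)) (by exact_mod_cast Nat.factorial_pos n)
  have : (0 : ℝ) ≤ j := Nat.cast_nonneg j
  linarith

theorem cN_antitone (β : ℝ) (h0 : 0 < β) (h1 : β < 1) : Antitone (cesaroNumber (-β)) := by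
  refine antitone_nat_of_succ_le (fun n => ?_)
  rw [cN_succ]
  have := cN_pos (-β) (by linarith) n
  have h2 : -β / ((n : ℝ) + 1) ≤ 0 := by
    rw [neg_div]
    have : 0 ≤ β / ((n : ℝ) + 1) := by positivity
    linarith
  nlinarith

theorem bern (β x : ℝ) (h0 : 0 ≤ β) (h1 : β ≤ 1) (hx : x ≤ 1) : (1 - x) ^ β ≤ 1 - β * x := by
  have := rpow_one_add_le_one_add_mul_self (s := -x) (by linarith) h0 h1
  have h2 : (1 + -x) = 1 - x := by ring
  rw [h2] at this
  linarith

/-- lower bound for the negative order Cesaro numbers -/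
theorem cN_lower (β : ℝ) (h0 : 0 < β) (h1 : β < 1) (n : ℕ) :
    (1 - β) * ((n : ℝ) + 1) ^ (-β) ≤ cesaroNumber (-β) (n + 1) := by
  induction n with
  | zero =>
    rw [cN_succ, cN_zero]
    norm_num
  | succ n ih =>
    rw [cN_succ]
    push_cast
    have hpos : 0 < cesaroNumber (-β) (n + 1) := cN_pos (-β) (by linarith) _
    have hn : (0 : ℝ) < (n : ℝ) + 1 := by positivity
    have hn2 : (0 : ℝ) < (n : ℝ) + 1 + 1 := by positivity
    have hb := bern β (1 / ((n : ℝ) + 1 + 1)) h0.le h1.le (by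
      rw [div_le_one hn2]; linarith)
    have e1 : 1 - 1 / ((n : ℝ) + 1 + 1) = ((n : ℝ) + 1) / (n + 1 + 1) := by
      field_simp; ring
    rw [e1, Real.div_rpow hn.le hn2.le] at hb
    have e2 : 1 + -β / ((n : ℝ) + 1 + 1) = 1 - β * (1 / ((n : ℝ) + 1 + 1)) := by ring
    rw [e2]
    have hp1 : 0 < ((n : ℝ) + 1) ^ β := Real.rpow_pos_of_pos hn _
    have hp2 : 0 < ((n : ℝ) + 1 + 1) ^ β := Real.rpow_pos_of_pos hn2 _
    rw [Real.rpow_neg hn.le] at ih
    rw [Real.rpow_neg hn2.le]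
    calc (1 - β) * (((n : ℝ) + 1 + 1) ^ β)⁻¹
        = ((1 - β) * (((n : ℝ) + 1) ^ β)⁻¹) * (((n : ℝ) + 1) ^ β / ((n : ℝ) + 1 + 1) ^ β) := by
          field_simp
      _ ≤ cesaroNumber (-β) (n + 1) * (1 - β * (1 / ((n : ℝ) + 1 + 1))) := by
          refine mul_le_mul ih hb (by positivity) hpos.le

/-- upper bound for the positive order Cesaro numbers -/
theorem cN_upper (α : ℝ) (h0 : 0 < α) (h1 : α < 1) (n : ℕ) :
    cesaroNumber α (n + 1) ≤ (1 + α) * ((n : ℝ) + 1) ^ α := by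
  induction n with
  | zero =>
    rw [cN_succ, cN_zero]
    norm_num
  | succ n ih =>
    rw [cN_succ]
    push_cast
    have hn : (0 : ℝ) < (n : ℝ) + 1 := by positivity
    have hn2 : (0 : ℝ) < (n : ℝ) + 1 + 1 := by positivity
    have hb := bern α (1 / ((n : ℝ) + 1 + 1)) h0.le h1.le (by
      rw [div_le_one hn2]; linarith)
    have e1 : 1 - 1 / ((n : ℝ) + 1 + 1) = ((n : ℝ) + 1) / (n + 1 + 1) := by
      field_simp; ring
    rw [e1, Real.div_rpow hn.le hn2.le] at hb
    have hp1 : 0 < ((n : ℝ) + 1) ^ α := Real.rpow_pos_of_pos hn _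
    have hp2 : 0 < ((n : ℝ) + 1 + 1) ^ α := Real.rpow_pos_of_pos hn2 _
    have hx : 0 < α * (1 / ((n : ℝ) + 1 + 1)) := by positivity
    set x := α * (1 / ((n : ℝ) + 1 + 1)) with hxdef
    have e2 : 1 + α / ((n : ℝ) + 1 + 1) = 1 + x := by rw [hxdef]; ring
    rw [e2]
    have h3 : ((n : ℝ) + 1) ^ α * (1 + x) ≤ ((n : ℝ) + 1 + 1) ^ α := by
      rw [div_le_iff₀ hp2] at hb
      have : ((n : ℝ) + 1) ^ α * (1 + x) ≤ ((1 - x) * ((n : ℝ) + 1 + 1) ^ α) * (1 + x) :=
        mul_le_mul_of_nonneg_right hb (by positivity)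
      nlinarith [sq_nonneg x]
    calc cesaroNumber α (n + 1) * (1 + x)
        ≤ ((1 + α) * ((n : ℝ) + 1) ^ α) * (1 + x) := mul_le_mul_of_nonneg_right ih (by positivity)
      _ = (1 + α) * (((n : ℝ) + 1) ^ α * (1 + x)) := by ring
      _ ≤ (1 + α) * ((n : ℝ) + 1 + 1) ^ α := mul_le_mul_of_nonneg_left h3 (by positivity)

/-- decay over a dyadic block: `(1 + β/2) A_{r+h} ≤ A_r` for `r ≤ h`. -/
theorem cN_decay (β : ℝ) (h0 : 0 < β) (h1 : β < 1) (r h : ℕ) (hrh : r < h) :
    (1 + β / 2) * cesaroNumber (-β) (h + r) ≤ cesaroNumber (-β) r := by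
  have key : ∀ m : ℕ, m ≤ h → (1 + (m : ℝ) * (β / (2 * h))) * cesaroNumber (-β) (m + r)
      ≤ cesaroNumber (-β) r := by
    intro m
    induction m with
    | zero => intro _; simp
    | succ m ih =>
      intro hm
      have ih' := ih (by omega)
      have hh : (0 : ℝ) < h := by exact_mod_cast (by omega : 0 < h)
      rw [show m + 1 + r = (m + r) + 1 by ring, cN_succ]
      refine le_trans ?_ ih'
      have hA := cN_pos (-β) (by linarith) (m + r)
      have hmr : ((m + r : ℕ) : ℝ) + 1 ≤ 2 * h := by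
        have : m + r + 1 ≤ 2 * h := by omega
        exact_mod_cast this
      have hmr0 : (0 : ℝ) < ((m + r : ℕ) : ℝ) + 1 := by positivity
      set y := β / (2 * (h : ℝ)) with hy
      have hy0 : 0 < y := by positivity
      have hz : y ≤ β / (((m + r : ℕ) : ℝ) + 1) := by
        rw [hy]
        exact div_le_div_of_nonneg_left h0.le hmr0 hmr
      have e2 : (1 + -β / (((m + r : ℕ) : ℝ) + 1)) ≤ 1 - y := by
        rw [neg_div]; linarith
      have hm0 : (0 : ℝ) ≤ m := Nat.cast_nonneg m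
      calc (1 + ((m + 1 : ℕ) : ℝ) * y) * (cesaroNumber (-β) (m + r) *
            (1 + -β / (((m + r : ℕ) : ℝ) + 1)))
          ≤ (1 + ((m + 1 : ℕ) : ℝ) * y) * (cesaroNumber (-β) (m + r) * (1 - y)) := by
            gcongr
        _ = ((1 + ((m + 1 : ℕ) : ℝ) * y) * (1 - y)) * cesaroNumber (-β) (m + r) := by ring
        _ ≤ (1 + (m : ℝ) * y) * cesaroNumber (-β) (m + r) := by
            refine mul_le_mul_of_nonneg_right ?_ hA.le
            push_cast
            nlinarith [mul_nonneg hm0 (sq_nonneg y), sq_nonneg y]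
  have h2 := key h le_rfl
  have hh : (h : ℝ) ≠ 0 := by
    have : h ≠ 0 := by omega
    exact_mod_cast this
  have e : (h : ℝ) * (β / (2 * h)) = β / 2 := by field_simp
  rw [e] at h2
  exact h2

end Pool.Agent.H50.Walsh
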