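import Mathlib
import Pool.Agent.H50.WalshA

set_option autoImplicit false

open MeasureTheory Filter Finset
open scoped ENNReal

namespace Pool.Agent.H50.Walsh

theorem rad_mul_self (k : ℕ) (x : G) : rad k x * rad k x = 1 := by
  unfold rad; split_ifs <;> norm_num

theorem abs_rad (k : ℕ) (x : G) : |rad k x| = 1 := by
  unfold rad; split_ifs <;> norm_num

/-- factor of a Walsh function -/
def fac (n : ℕ) (x : G) (k : ℕ) : ℝ := if n.testBit k then rad k x else 1

theorem walsh_def (n : ℕ) (x : G) : walsh n x = ∏ k ∈ range n, fac n x k := rfl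

theorem fac_eq_one (n : ℕ) (x : G) (k : ℕ) (h : n < 2 ^ k) : fac n x k = 1 := by
  simp [fac, Nat.testBit_lt_two_pow h]

theorem prod_fac_eq (n : ℕ) (x : G) (m m' : ℕ) (hm : n < 2 ^ m) (hmm : m ≤ m') :
    ∏ k ∈ range m', fac n x k = ∏ k ∈ range m, fac n x k := by
  obtain ⟨d, rfl⟩ := Nat.exists_eq_add_of_le hmm
  rw [prod_range_add]
  have : ∏ k ∈ range d, fac n x (m + k) = 1 := by
    refine prod_eq_one (fun k _ => fac_eq_one n x _ ?_)
    exact hm.trans_le (Nat.pow_le_pow_right (by norm_num) (Nat.le_add_right _ _))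
  rw [this, mul_one]

theorem walsh_eq (n : ℕ) (x : G) (m : ℕ) (hm : n < 2 ^ m) :
    walsh n x = ∏ k ∈ range m, fac n x k := by
  rw [walsh_def]
  rcases le_total n m with h | h
  · exact (prod_fac_eq n x n m (Nat.lt_two_pow_self) h).symm
  · exact prod_fac_eq n x m n hm h

theorem walsh_zero (x : G) : walsh 0 x = 1 := by simp [walsh]

theorem abs_walsh (n : ℕ) (x : G) : |walsh n x| = 1 := by
  rw [walsh_def, abs_prod]
  refine prod_eq_one (fun k _ => ?_)
  unfold fac
  split_ifs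
  · exact abs_rad k x
  · exact abs_one

theorem walsh_block (t q i : ℕ) (x : G) (hi : i < 2 ^ t) :
    walsh (2 ^ t * q + i) x = walsh (2 ^ t * q) x * walsh i x := by
  set m := 2 ^ t * q + i with hm
  have h1 : m < 2 ^ m := Nat.lt_two_pow_self
  have h2 : 2 ^ t * q < 2 ^ m := lt_of_le_of_lt (by omega) h1
  have h3 : i < 2 ^ m := lt_of_le_of_lt (by omega) h1
  rw [walsh_eq m x m h1, walsh_eq (2 ^ t * q) x m h2, walsh_eq i x m h3, ← prod_mul_distrib]
  refine prod_congr rfl (fun k _ => ?_)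
  simp only [fac, hm]
  rw [Nat.testBit_two_pow_mul_add q hi k, Nat.testBit_two_pow_mul]
  by_cases hk : k < t
  · have : ¬ (k ≥ t) := by omega
    simp [hk, this]
  · have h4 : i.testBit k = false := by
      apply Nat.testBit_lt_two_pow
      exact hi.trans_le (Nat.pow_le_pow_right (by norm_num) (by omega))
    have : k ≥ t := by omega
    simp [hk, h4, this]

theorem walsh_low (t i : ℕ) (x : G) (hx : ∀ j < t, x j = false) (hi : i < 2 ^ t) :
    walsh i x = 1 := by
  rw [walsh_eq i x t hi]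
  refine prod_eq_one (fun k hk => ?_)
  rw [mem_range] at hk
  simp [fac, rad, hx k hk]

theorem walsh_two_pow (t : ℕ) (x : G) : walsh (2 ^ t) x = rad t x := by
  rw [walsh_eq (2 ^ t) x (t + 1) (Nat.pow_lt_pow_right (by norm_num) (by omega)),
    prod_range_succ]
  have h1 : ∏ k ∈ range t, fac (2 ^ t) x k = 1 := by
    refine prod_eq_one (fun k hk => ?_)
    rw [mem_range] at hk
    simp [fac, Nat.testBit_two_pow, show t ≠ k by omega]
  rw [h1, one_mul]
  simp [fac, Nat.testBit_two_pow]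

theorem walsh_compl (N i : ℕ) (x : G) (hi : i < 2 ^ N) :
    walsh (2 ^ N - (i + 1)) x = walsh (2 ^ N - 1) x * walsh i x := by
  have h0 : 0 < 2 ^ N := by positivity
  rw [walsh_eq _ x N (by omega), walsh_eq (2 ^ N - 1) x N (by omega), walsh_eq i x N hi,
    ← prod_mul_distrib]
  refine prod_congr rfl (fun k hk => ?_)
  rw [mem_range] at hk
  simp only [fac]
  rw [Nat.testBit_two_pow_sub_succ hi k, show 2 ^ N - 1 = 2 ^ N - (0 + 1) by rfl,
    Nat.testBit_two_pow_sub_succ h0 k]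
  by_cases hb : i.testBit k <;> simp [hb, hk, rad_mul_self]

/-- Dirichlet kernels -/
def D (l : ℕ) (x : G) : ℝ := ∑ i ∈ range l, walsh i x

theorem D_block (t q r : ℕ) (x : G) (hr : r ≤ 2 ^ t) :
    D (2 ^ t * q + r) x = D (2 ^ t * q) x + walsh (2 ^ t * q) x * D r x := by
  unfold D
  rw [sum_range_add, mul_sum]
  congr 1
  refine sum_congr rfl (fun i hi => ?_)
  rw [mem_range] at hi
  exact walsh_block t q i x (by omega)

/-- tent function -/
def T (s r : ℕ) : ℝ := if r ≤ 2 ^ s then (r : ℝ) else 2 ^ (s + 1) - r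

theorem D_low (s r : ℕ) (x : G) (h0 : ∀ j < s, x j = false) (h1 : x s = true)
    (hr : r ≤ 2 ^ (s + 1)) : D r x = T s r := by
  have hlow : ∀ r ≤ 2 ^ s, D r x = r := by
    intro r hr
    unfold D
    rw [sum_congr rfl (g := fun _ => (1 : ℝ))]
    · simp
    · intro i hi
      rw [mem_range] at hi
      exact walsh_low s i x h0 (by omega)
  unfold T
  split_ifs with h
  · exact hlow r h
  · obtain ⟨r', rfl⟩ := Nat.exists_eq_add_of_le (not_le.1 h).le
    rw [pow_succ] at hr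
    have h2 := D_block s 1 r' x (by omega)
    rw [mul_one] at h2
    rw [h2, hlow _ le_rfl, hlow r' (by omega), walsh_two_pow]
    simp only [rad, h1, if_true]
    push_cast
    ring

theorem D_mult (s q : ℕ) (x : G) (h0 : ∀ j < s, x j = false) (h1 : x s = true) :
    D (2 ^ (s + 1) * q) x = 0 := by
  induction q with
  | zero => simp [D]
  | succ q ih =>
    rw [mul_add, mul_one, D_block (s + 1) q (2 ^ (s + 1)) x le_rfl, ih,
      D_low s (2 ^ (s + 1)) x h0 h1 le_rfl]
    have : ¬ (2 ^ (s + 1) ≤ 2 ^ s) := by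
      rw [not_le]; exact Nat.pow_lt_pow_right (by norm_num) (by omega)
    simp [T, this]

theorem T_nonneg (s r : ℕ) (hr : r ≤ 2 ^ (s + 1)) : 0 ≤ T s r := by
  unfold T
  split_ifs
  · positivity
  · have : (r : ℝ) ≤ 2 ^ (s + 1) := by exact_mod_cast hr
    linarith

theorem D_compl (N j : ℕ) (x : G) (hj : j ≤ 2 ^ N) :
    D (2 ^ N - j) x = D (2 ^ N) x - walsh (2 ^ N - 1) x * D j x := by
  have h1 : D (2 ^ N) x = D (2 ^ N - j) x + ∑ i ∈ range j, walsh (2 ^ N - j + i) x := by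
    unfold D
    conv_lhs => rw [show 2 ^ N = (2 ^ N - j) + j by omega, sum_range_add]
  have h2 : ∑ i ∈ range j, walsh (2 ^ N - j + i) x = walsh (2 ^ N - 1) x * D j x := by
    unfold D
    rw [← sum_range_reflect, mul_sum]
    refine sum_congr rfl (fun i hi => ?_)
    rw [mem_range] at hi
    rw [← walsh_compl N i x (by omega)]
    congr 1
    omega
  rw [h1, h2]; ring

/-- the reflected kernel -/
noncomputable def F (β : ℝ) (N : ℕ) (x : G) : ℝ :=
  ∑ j ∈ range (2 ^ N), cesaroNumber (-β) j * D j x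

/-- the kernel -/
noncomputable def K (β : ℝ) (N : ℕ) (x : G) : ℝ :=
  ∑ k ∈ Icc 1 (2 ^ N), cesaroNumber (-β) (2 ^ N - k) * D k x

theorem abs_K_eq (β : ℝ) (N s : ℕ) (hs : s < N) (x : G) (h0 : ∀ j < s, x j = false)
    (h1 : x s = true) : |K β N x| = |F β N x| := by
  have hD : D (2 ^ N) x = 0 := by
    have := D_mult s (2 ^ (N - s - 1)) x h0 h1
    rwa [← pow_add, show s + 1 + (N - s - 1) = N by omega] at this
  have hK : K β N x = -walsh (2 ^ N - 1) x * F β N x := by
    unfold K F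
    rw [mul_sum]
    refine sum_nbij' (fun k => 2 ^ N - k) (fun j => 2 ^ N - j) ?_ ?_ ?_ ?_ ?_
    · intro k hk
      rw [mem_Icc] at hk
      rw [mem_range]; omega
    · intro j hj
      rw [mem_range] at hj
      rw [mem_Icc]; omega
    · intro k hk
      rw [mem_Icc] at hk
      omega
    · intro j hj
      rw [mem_range] at hj
      omega
    · intro k hk
      rw [mem_Icc] at hk
      have h2 := D_compl N (2 ^ N - k) x (by omega)
      rw [show 2 ^ N - (2 ^ N - k) = k by omega, hD] at h2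
      rw [h2]
      ring
  rw [hK, abs_mul, abs_neg, abs_walsh, one_mul]

theorem sum_blocks (h Q : ℕ) (f : ℕ → ℝ) :
    ∑ j ∈ range (h * Q), f j = ∑ q ∈ range Q, ∑ r ∈ range h, f (h * q + r) := by
  induction Q with
  | zero => simp
  | succ Q ih => rw [mul_add, mul_one, sum_range_add, ih, sum_range_succ]

/-- block coefficients -/
noncomputable def bq (β : ℝ) (s q : ℕ) : ℝ :=
  ∑ r ∈ range (2 ^ (s + 1)), T s r * cesaroNumber (-β) (2 ^ (s + 1) * q + r)

theorem F_eq_blocks (β : ℝ) (N s : ℕ) (hs : s < N) (x : G) (h0 : ∀ j < s, x j = false)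
    (h1 : x s = true) :
    F β N x = ∑ q ∈ range (2 ^ (N - s - 1)), walsh (2 ^ (s + 1) * q) x * bq β s q := by
  unfold F
  rw [show 2 ^ N = 2 ^ (s + 1) * 2 ^ (N - s - 1) by
    rw [← pow_add]; congr 1; omega, sum_blocks]
  refine sum_congr rfl (fun q _ => ?_)
  unfold bq
  rw [mul_sum]
  refine sum_congr rfl (fun r hr => ?_)
  rw [mem_range] at hr
  rw [D_block (s + 1) q r x hr.le, D_mult s q x h0 h1, D_low s r x h0 h1 hr.le]
  ring

theorem F_eq (β : ℝ) (N s : ℕ) (hs : s + 1 < N) (x : G) (h0 : ∀ j < s, x j = false)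
    (h1 : x s = true) (h2 : x (s + 1) = true) :
    F β N x = ∑ m ∈ range (2 ^ (N - s - 2)),
      walsh (2 ^ (s + 2) * m) x * (bq β s (2 * m) - bq β s (2 * m + 1)) := by
  rw [F_eq_blocks β N s (by omega) x h0 h1,
    show 2 ^ (N - s - 1) = 2 * 2 ^ (N - s - 2) by
      rw [← pow_succ']; congr 1; omega, sum_blocks]
  refine sum_congr rfl (fun m _ => ?_)
  rw [sum_range_succ, sum_range_one, add_zero]
  have e1 : 2 ^ (s + 1) * (2 * m) = 2 ^ (s + 2) * m := by ring
  have e2 : 2 ^ (s + 1) * (2 * m + 1) = 2 ^ (s + 2) * m + 2 ^ (s + 1) := by ring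
  rw [e1, e2, walsh_block (s + 2) m (2 ^ (s + 1)) x (Nat.pow_lt_pow_right (by norm_num) (by omega)),
    walsh_two_pow]
  simp only [rad, h2, if_true]
  ring

theorem bq_antitone (β : ℝ) (h0 : 0 < β) (h1 : β < 1) (s : ℕ) : Antitone (bq β s) := by
  intro q q' hq
  unfold bq
  refine sum_le_sum (fun r hr => ?_)
  rw [mem_range] at hr
  refine mul_le_mul_of_nonneg_left ?_ (T_nonneg s r hr.le)
  refine cN_antitone β h0 h1 ?_
  gcongr

theorem bq_nonneg (β : ℝ) (h1 : β < 1) (s q : ℕ) : 0 ≤ bq β s q := by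
  unfold bq
  refine sum_nonneg (fun r hr => ?_)
  rw [mem_range] at hr
  exact mul_nonneg (T_nonneg s r hr.le) (cN_pos _ (by linarith) _).le

theorem abs_F_le (β : ℝ) (hβ0 : 0 < β) (hβ1 : β < 1) (N s : ℕ) (hs : s + 1 < N) (x : G)
    (h0 : ∀ j < s, x j = false)
    (h1 : x s = true) (h2 : x (s + 1) = true) : |F β N x| ≤ bq β s 0 := by
  rw [F_eq β N s hs x h0 h1 h2]
  refine (abs_sum_le_sum_abs _ _).trans ?_
  have hanti := bq_antitone β hβ0 hβ1 s
  have e1 : ∀ m, |walsh (2 ^ (s + 2) * m) x * (bq β s (2 * m) - bq β s (2 * m + 1))|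
      = bq β s (2 * m) - bq β s (2 * m + 1) := by
    intro m
    rw [abs_mul, abs_walsh, one_mul, abs_of_nonneg]
    have := hanti (show 2 * m ≤ 2 * m + 1 by omega)
    linarith
  simp only [e1]
  have e2 : ∀ M : ℕ, ∑ m ∈ range M, (bq β s (2 * m) - bq β s (2 * m + 1))
      ≤ bq β s 0 - bq β s (2 * M) := by
    intro M
    induction M with
    | zero => simp
    | succ M ih =>
      rw [sum_range_succ]
      have := hanti (show 2 * M + 1 ≤ 2 * (M + 1) by omega)
      linarith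
  refine (e2 _).trans ?_
  have := bq_nonneg β hβ1 s (2 * 2 ^ (N - s - 2))
  linarith

/-- the gap `b_0 - b_1 ≥ κ b_0` -/
theorem bq_gap (β : ℝ) (h0 : 0 < β) (h1 : β < 1) (s : ℕ) :
    β / (2 + β) * bq β s 0 ≤ bq β s 0 - bq β s 1 := by
  have h2 : (1 + β / 2) * bq β s 1 ≤ bq β s 0 := by
    unfold bq
    rw [mul_sum]
    refine sum_le_sum (fun r hr => ?_)
    rw [mem_range] at hr
    have := cN_decay β h0 h1 r (2 ^ (s + 1)) hr
    have hT := T_nonneg s r hr.le
    have := mul_le_mul_of_nonneg_left this hT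
    rw [mul_one, mul_zero, zero_add]
    linarith
  have h3 : β / (2 + β) * bq β s 0 = bq β s 0 - 2 / (2 + β) * bq β s 0 := by
    field_simp; ring
  rw [h3]
  have h4 : bq β s 1 ≤ 2 / (2 + β) * bq β s 0 := by
    rw [div_mul_eq_mul_div, le_div_iff₀ (by linarith)]
    linarith
  linarith

theorem sum_T_ge (s : ℕ) : (2 : ℝ) ^ (2 * s) / 2 ≤ ∑ r ∈ range (2 ^ (s + 1)), T s r := by
  rw [pow_succ, mul_two, sum_range_add]
  have h1 : 0 ≤ ∑ r ∈ range (2 ^ s), T s r := by
    refine sum_nonneg (fun r hr => T_nonneg s r ?_)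
    rw [mem_range] at hr
    rw [pow_succ]; omega
  have h2 : ∑ r ∈ range (2 ^ s), T s (2 ^ s + r) = ∑ r ∈ range (2 ^ s), ((2 : ℝ) ^ s - r) := by
    refine sum_congr rfl (fun r hr => ?_)
    unfold T
    split_ifs with h
    · have : r = 0 := by omega
      subst this
      simp
    · push_cast; ring
  have h3 : ∑ r ∈ range (2 ^ s), ((2 : ℝ) ^ s - r) = ((2 : ℝ) ^ s * (2 ^ s + 1)) / 2 := by
    have key : ∀ (c : ℝ) (n : ℕ), ∑ r ∈ range n, (c - r) = c * n - (n : ℝ) * (n - 1) / 2 := by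
      intro c n
      induction n with
      | zero => simp
      | succ n ih => rw [sum_range_succ, ih]; push_cast; ring
    rw [key]
    push_cast
    ring
  rw [h2, h3, pow_mul']
  have : (0 : ℝ) < 2 ^ s := by positivity
  nlinarith

theorem bq_lower (β : ℝ) (h0 : 0 < β) (h1 : β < 1) (s : ℕ) :
    (1 - β) * ((2 : ℝ) ^ (s + 1)) ^ (-β) * ((2 : ℝ) ^ (2 * s) / 2) ≤ bq β s 0 := by
  have hA : (1 - β) * ((2 : ℝ) ^ (s + 1)) ^ (-β) ≤ cesaroNumber (-β) (2 ^ (s + 1)) := by
    have h := cN_lower β h0 h1 (2 ^ (s + 1) - 1)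
    have h2 : 2 ^ (s + 1) - 1 + 1 = 2 ^ (s + 1) := by
      have : 0 < 2 ^ (s + 1) := by positivity
      omega
    rw [h2] at h
    have h3 : ((2 ^ (s + 1) - 1 : ℕ) : ℝ) + 1 = (2 : ℝ) ^ (s + 1) := by
      have : ((2 ^ (s + 1) - 1 + 1 : ℕ) : ℝ) = ((2 ^ (s + 1) : ℕ) : ℝ) := by rw [h2]
      push_cast at this ⊢
      exact this
    rw [h3] at h
    exact h
  have hApos := cN_pos (-β) (by linarith) (2 ^ (s + 1))
  calc (1 - β) * ((2 : ℝ) ^ (s + 1)) ^ (-β) * ((2 : ℝ) ^ (2 * s) / 2)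
      ≤ cesaroNumber (-β) (2 ^ (s + 1)) * ((2 : ℝ) ^ (2 * s) / 2) := by gcongr
    _ ≤ cesaroNumber (-β) (2 ^ (s + 1)) * ∑ r ∈ range (2 ^ (s + 1)), T s r := by
        exact mul_le_mul_of_nonneg_left (sum_T_ge s) hApos.le
    _ ≤ bq β s 0 := by
        unfold bq
        rw [mul_sum]
        refine sum_le_sum (fun r hr => ?_)
        rw [mem_range] at hr
        rw [mul_comm, mul_zero, zero_add]
        exact mul_le_mul_of_nonneg_left (cN_antitone β h0 h1 hr.le) (T_nonneg s r hr.le)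

end Pool.Agent.H50.Walsh
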