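import Mathlib
import Pool.Agent.H50.WalshB

set_option autoImplicit false

open MeasureTheory Filter Finset
open scoped ENNReal

namespace Pool.Agent.H50.Walsh

/-- flip the `k`-th coordinate -/
def flip (k : ℕ) (x : G) : G := fun j => if j = k then !(x j) else x j

theorem measurable_bool_fun {α : Type*} [MeasurableSpace α] (f : Bool → α) : Measurable f :=
  measurable_of_finite f

theorem coin_map_not : coin.map not = coin := by
  unfold coin
  have hm : Measurable (not : Bool → Bool) := measurable_bool_fun _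
  have h1 : (Measure.dirac false).map (not : Bool → Bool) = Measure.dirac true :=
    Measure.map_dirac' hm false
  have h2 : (Measure.dirac true).map (not : Bool → Bool) = Measure.dirac false :=
    Measure.map_dirac' hm true
  rw [Measure.map_smul, Measure.map_add _ _ hm, h1, h2, add_comm]

theorem measurable_flip (k : ℕ) : Measurable (flip k) := by
  refine measurable_pi_lambda _ (fun j => ?_)
  unfold flip
  by_cases h : j = k
  · simp only [h, if_true]
    exact (measurable_bool_fun not).comp (measurable_pi_apply k)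
  · simp only [h, if_false]
    exact measurable_pi_apply j

theorem map_flip (k : ℕ) : P.map (flip k) = P := by
  have h := Measure.infinitePi_map_pi (μ := fun _ : ℕ => coin) (Y := fun _ => Bool)
    (f := fun j : ℕ => if j = k then not else id) (fun j => measurable_bool_fun _)
  have h1 : (fun (x : ℕ → Bool) (i : ℕ) => (if i = k then not else id) (x i)) = flip k := by
    funext x i
    unfold flip
    split_ifs <;> rfl
  rw [h1] at h
  have h2 : (fun i : ℕ => coin.map (if i = k then not else id)) = fun _ => coin := by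
    funext i
    split_ifs
    · exact coin_map_not
    · exact Measure.map_id
  unfold P
  rw [h, h2]

theorem flip_flip (k : ℕ) (x : G) : flip k (flip k x) = x := by
  funext j
  unfold flip
  split_ifs <;> simp

theorem rad_flip (k j : ℕ) (x : G) : rad j (flip k x) = if j = k then -rad j x else rad j x := by
  unfold rad flip
  by_cases h : j = k
  · simp only [h, if_true]
    cases x k <;> simp
  · simp [h]

theorem walsh_flip (n k : ℕ) (x : G) :
    walsh n (flip k x) = (if n.testBit k then -1 else 1) * walsh n x := by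
  have h1 : n < 2 ^ (n + k + 1) :=
    lt_of_lt_of_le Nat.lt_two_pow_self (Nat.pow_le_pow_right (by norm_num) (by omega))
  rw [walsh_eq n _ (n + k + 1) h1, walsh_eq n x (n + k + 1) h1]
  have hk : k ∈ range (n + k + 1) := by rw [mem_range]; omega
  rw [← mul_prod_erase _ _ hk, ← mul_prod_erase (range (n + k + 1)) (fac n x) hk, ← mul_assoc]
  congr 1
  · unfold fac
    by_cases hb : n.testBit k
    · simp [hb, rad_flip]
    · simp [hb]
  · refine prod_congr rfl (fun j hj => ?_)
    have hjk : j ≠ k := (mem_erase.1 hj).1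
    unfold fac
    rw [rad_flip, if_neg hjk]

theorem measurable_rad (k : ℕ) : Measurable (rad k) := by
  have : rad k = (fun b : Bool => if b then (-1 : ℝ) else 1) ∘ (fun x : G => x k) := by
    funext x
    simp [rad]
  rw [this]
  exact (measurable_bool_fun _).comp (measurable_pi_apply k)

theorem measurable_walsh (n : ℕ) : Measurable (walsh n) := by
  unfold walsh
  refine Finset.measurable_prod _ (fun k _ => ?_)
  by_cases h : n.testBit k
  · simpa [h] using measurable_rad k
  · simp [h]

theorem P_cyl (n : ℕ) (x : G) : P (cyl n x) = (2⁻¹ : ℝ≥0∞) ^ n := by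
  have h1 : cyl n x = Set.pi (range n : Set ℕ) (fun j => {x j}) := by
    ext y
    simp [cyl, Set.mem_pi]
  have h2 : ∀ b : Bool, coin {b} = 2⁻¹ := by
    intro b
    unfold coin
    cases b <;> simp
  rw [h1]
  unfold P
  rw [Measure.infinitePi_pi (μ := fun _ : ℕ => coin) (s := range n) (t := fun j => {x j})
    (fun i _ => measurableSet_singleton _)]
  simp [h2]

theorem flip_mem_cyl (n k : ℕ) (hk : n ≤ k) (x y : G) : flip k y ∈ cyl n x ↔ y ∈ cyl n x := by
  unfold cyl flip
  simp only [Set.mem_ofPred_eq]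
  constructor
  · intro h j hj
    have := h j hj
    rwa [if_neg (by omega)] at this
  · intro h j hj
    rw [if_neg (by omega)]
    exact h j hj

theorem setIntegral_odd (k : ℕ) (s : Set G) (hs : MeasurableSet s) (hinv : flip k ⁻¹' s = s)
    (h : G → ℝ) (hm : Measurable h) (hodd : ∀ x, h (flip k x) = -h x) :
    ∫ x in s, h x ∂P = 0 := by
  rw [← integral_indicator hs]
  have h1 : ∫ x, s.indicator h x ∂P = ∫ x, s.indicator h (flip k x) ∂P := by
    conv_lhs => rw [← map_flip k]
    rw [integral_map (measurable_flip k).aemeasurable]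
    exact ((hm.indicator hs).aestronglyMeasurable)
  have h2 : ∀ x, s.indicator h (flip k x) = -s.indicator h x := by
    intro x
    by_cases hx : x ∈ s
    · have : flip k x ∈ s := by
        have h3 : x ∈ flip k ⁻¹' s := by rw [hinv]; exact hx
        exact h3
      rw [Set.indicator_of_mem this, Set.indicator_of_mem hx, hodd]
    · have : flip k x ∉ s := by
        intro h3
        have h4 : x ∈ flip k ⁻¹' s := h3
        rw [hinv] at h4
        exact hx h4
      rw [Set.indicator_of_notMem this, Set.indicator_of_notMem hx, neg_zero]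
  simp only [h2] at h1
  rw [integral_neg] at h1
  linarith

theorem preimage_cyl (n k : ℕ) (hk : n ≤ k) (x : G) : flip k ⁻¹' (cyl n x) = cyl n x := by
  ext y
  exact flip_mem_cyl n k hk x y

theorem exists_testBit (m : ℕ) (hm : m ≠ 0) : ∃ k, m.testBit k = true := by
  by_contra h
  push Not at h
  apply hm
  apply Nat.eq_of_testBit_eq
  intro i
  have := h i
  simp at this
  simp [this]

theorem setIntegral_walsh (t m : ℕ) (hm : m ≠ 0) (y : G) :
    ∫ x in cyl t y, walsh (2 ^ t * m) x ∂P = 0 := by
  obtain ⟨k, hk⟩ := exists_testBit m hm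
  have hb : (2 ^ t * m).testBit (t + k) = true := by
    rw [Nat.testBit_two_pow_mul]
    simp [hk]
  refine setIntegral_odd (t + k) _ (measurableSet_cyl t y) (preimage_cyl t (t + k) (by omega) y) _
    (measurable_walsh _) (fun x => ?_)
  rw [walsh_flip, hb]
  simp

theorem integrable_walsh (n : ℕ) : Integrable (walsh n) P := by
  refine Integrable.of_bound (measurable_walsh n).aestronglyMeasurable 1 ?_
  refine Filter.Eventually.of_forall (fun x => ?_)
  rw [Real.norm_eq_abs, abs_walsh]

/-- the point starting with `s` zeros followed by ones -/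
def ys (s : ℕ) : G := fun j => decide (s ≤ j)

/-- the sets `B_s` -/
def Bs (s : ℕ) : Set G := cyl (s + 2) (ys s)

theorem mem_Bs (s : ℕ) (x : G) (hx : x ∈ Bs s) :
    (∀ j < s, x j = false) ∧ x s = true ∧ x (s + 1) = true := by
  have h : ∀ j < s + 2, x j = ys s j := hx
  refine ⟨fun j hj => ?_, ?_, ?_⟩
  · rw [h j (by omega)]; simp [ys, hj]
  · rw [h s (by omega)]; simp [ys]
  · rw [h (s + 1) (by omega)]; simp [ys]

theorem integral_F (β : ℝ) (N s : ℕ) (hs : s + 1 < N) :
    ∫ x in Bs s, F β N x ∂P = (2⁻¹ : ℝ) ^ (s + 2) * (bq β s 0 - bq β s 1) := by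
  have h1 : ∫ x in Bs s, F β N x ∂P = ∫ x in Bs s, ∑ m ∈ range (2 ^ (N - s - 2)),
      walsh (2 ^ (s + 2) * m) x * (bq β s (2 * m) - bq β s (2 * m + 1)) ∂P := by
    refine setIntegral_congr_fun (measurableSet_cyl _ _) (fun x hx => ?_)
    obtain ⟨a, b, c⟩ := mem_Bs s x hx
    exact F_eq β N s hs x a b c
  rw [h1, integral_finsetSum]
  · rw [sum_eq_single 0]
    · rw [integral_mul_const]
      simp only [mul_zero, walsh_zero, zero_add, integral_const, smul_eq_mul, mul_one]
      congr 1
      rw [measureReal_restrict_apply_univ, measureReal_def, Bs, P_cyl, ENNReal.toReal_pow,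
        ENNReal.toReal_inv]
      simp
    · intro m _ hm
      rw [integral_mul_const, Bs, setIntegral_walsh (s + 2) m hm, zero_mul]
    · intro h
      simp at h
  · intro m _
    exact ((integrable_walsh _).integrableOn).mul_const _

theorem measurable_F (β : ℝ) (N : ℕ) : Measurable (F β N) := by
  unfold F D
  refine Finset.measurable_sum _ (fun j _ => ?_)
  exact measurable_const.mul (Finset.measurable_sum _ (fun i _ => measurable_walsh i))

theorem rpow_ge (a b p : ℝ) (ha : 0 ≤ a) (hab : a ≤ b) (hp0 : 0 < p) (hp1 : p ≤ 1) :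
    a * b ^ (p - 1) ≤ a ^ p := by
  rcases ha.eq_or_lt with h | h
  · rw [← h, zero_mul, Real.zero_rpow hp0.ne']
  · have h1 : b ^ (p - 1) ≤ a ^ (p - 1) := Real.rpow_le_rpow_of_nonpos h hab (by linarith)
    calc a * b ^ (p - 1) ≤ a * a ^ (p - 1) := mul_le_mul_of_nonneg_left h1 ha
      _ = a ^ p := by
        rw [← Real.rpow_one_add' h.le (by linarith)]
        congr 1
        ring

theorem lower_Bs (β p : ℝ) (h0 : 0 < β) (h1 : β < 1) (hp0 : 0 < p) (hp1 : p ≤ 1)
    (N s : ℕ) (hs : s + 1 < N) :
    ENNReal.ofReal ((2⁻¹ : ℝ) ^ (s + 2) * (β / (2 + β)) * (bq β s 0) ^ p)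
      ≤ ∫⁻ x in Bs s, ‖F β N x‖ₑ ^ p ∂P := by
  have hb0 : 0 < bq β s 0 := by
    refine lt_of_lt_of_le ?_ (bq_lower β h0 h1 s)
    have : 0 < 1 - β := by linarith
    positivity
  have hstep : ∀ x ∈ Bs s, ‖F β N x‖ₑ * ENNReal.ofReal ((bq β s 0) ^ (p - 1)) ≤ ‖F β N x‖ₑ ^ p := by
    intro x hx
    obtain ⟨a, b, c⟩ := mem_Bs s x hx
    have hF := abs_F_le β h0 h1 N s hs x a b c
    have h2 := rpow_ge |F β N x| (bq β s 0) p (abs_nonneg _) hF hp0 hp1
    rw [Real.enorm_eq_ofReal_abs, ← ENNReal.ofReal_mul (abs_nonneg _),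
      ENNReal.ofReal_rpow_of_nonneg (abs_nonneg _) hp0.le]
    exact ENNReal.ofReal_le_ofReal h2
  calc ENNReal.ofReal ((2⁻¹ : ℝ) ^ (s + 2) * (β / (2 + β)) * (bq β s 0) ^ p)
      = ENNReal.ofReal ((2⁻¹ : ℝ) ^ (s + 2) * (β / (2 + β) * bq β s 0)) *
          ENNReal.ofReal ((bq β s 0) ^ (p - 1)) := by
        rw [← ENNReal.ofReal_mul (by positivity)]
        congr 1
        have : bq β s 0 ^ p = bq β s 0 * bq β s 0 ^ (p - 1) := by
          rw [← Real.rpow_one_add' hb0.le (by linarith)]
          congr 1; ring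
        rw [this]; ring
    _ ≤ ENNReal.ofReal |∫ x in Bs s, F β N x ∂P| * ENNReal.ofReal ((bq β s 0) ^ (p - 1)) := by
        gcongr
        rw [integral_F β N s hs]
        have := bq_gap β h0 h1 s
        refine le_trans ?_ (le_abs_self _)
        gcongr
    _ ≤ (∫⁻ x in Bs s, ‖F β N x‖ₑ ∂P) * ENNReal.ofReal ((bq β s 0) ^ (p - 1)) := by
        gcongr
        rw [← Real.enorm_eq_ofReal_abs]
        exact enorm_integral_le_lintegral_enorm _
    _ = ∫⁻ x in Bs s, ‖F β N x‖ₑ * ENNReal.ofReal ((bq β s 0) ^ (p - 1)) ∂P := by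
        rw [lintegral_mul_const _ ((measurable_F β N).enorm)]
    _ ≤ ∫⁻ x in Bs s, ‖F β N x‖ₑ ^ p ∂P := by
        refine setLIntegral_mono' (measurableSet_cyl _ _) hstep

theorem disjoint_Bs (s t : ℕ) (hst : s ≠ t) : Disjoint (Bs s) (Bs t) := by
  rw [Set.disjoint_left]
  intro x hx hy
  obtain ⟨a, b, _⟩ := mem_Bs s x hx
  obtain ⟨a', b', _⟩ := mem_Bs t x hy
  rcases lt_or_gt_of_ne hst with h | h
  · rw [a' s h] at b
    exact Bool.false_ne_true b
  · rw [a t h] at b'
    exact Bool.false_ne_true b'

end Pool.Agent.H50.Walsh
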