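import Mathlib
import Pool.Agent.H50.WalshC

set_option autoImplicit false

open MeasureTheory Filter Finset
open scoped ENNReal

namespace Pool.Agent.H50.Walsh

/-- zero point -/
def y0 : G := fun _ => false

/-- `g_N = 1_{I_N} r_N` -/
noncomputable def gN (N : ℕ) : G → ℝ := (cyl N y0).indicator (rad N)

/-- the martingale -/
noncomputable def fN (N : ℕ) (k : ℕ) : G → ℝ := if N < k then gN N else 0

theorem measurable_gN (N : ℕ) : Measurable (gN N) :=
  (measurable_rad N).indicator (measurableSet_cyl N y0)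

theorem abs_gN_le (N : ℕ) (x : G) : |gN N x| ≤ 1 := by
  unfold gN
  by_cases h : x ∈ cyl N y0
  · rw [Set.indicator_of_mem h, abs_rad]
  · rw [Set.indicator_of_notMem h, abs_zero]; exact zero_le_one

theorem integrable_gN (N : ℕ) : Integrable (gN N) P :=
  Integrable.of_bound (measurable_gN N).aestronglyMeasurable 1
    (Filter.Eventually.of_forall (fun x => by rw [Real.norm_eq_abs]; exact abs_gN_le N x))

theorem gN_flip (N : ℕ) (x : G) : gN N (flip N x) = -gN N x := by
  unfold gN
  by_cases h : x ∈ cyl N y0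
  · rw [Set.indicator_of_mem h, Set.indicator_of_mem ((flip_mem_cyl N N le_rfl y0 x).2 h),
      rad_flip, if_pos rfl]
  · rw [Set.indicator_of_notMem h,
      Set.indicator_of_notMem (fun h' => h ((flip_mem_cyl N N le_rfl y0 x).1 h')), neg_zero]

theorem gN_eq (N : ℕ) : gN N = (cyl (N + 1) y0).indicator (fun _ => (1 : ℝ))
    - (cyl (N + 1) (fun j => decide (j = N))).indicator (fun _ => (1 : ℝ)) := by
  funext x
  simp only [Pi.sub_apply]
  unfold gN
  by_cases h : x ∈ cyl N y0
  · rw [Set.indicator_of_mem h]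
    have h' : ∀ j < N, x j = false := h
    cases hb : x N with
    | false =>
      have h1 : x ∈ cyl (N + 1) y0 := by
        intro j hj
        rcases Nat.lt_succ_iff_lt_or_eq.1 hj with h2 | h2
        · exact h' j h2
        · rw [h2, hb]; rfl
      have h2 : x ∉ cyl (N + 1) (fun j => decide (j = N)) := by
        intro h3
        have := h3 N (by omega)
        simp [hb] at this
      rw [Set.indicator_of_mem h1, Set.indicator_of_notMem h2]
      simp [rad, hb]
    | true =>
      have h1 : x ∉ cyl (N + 1) y0 := by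
        intro h3
        have := h3 N (by omega)
        simp [hb, y0] at this
      have h2 : x ∈ cyl (N + 1) (fun j => decide (j = N)) := by
        intro j hj
        rcases Nat.lt_succ_iff_lt_or_eq.1 hj with h2 | h2
        · rw [h' j h2]
          simp; omega
        · rw [h2, hb]; simp
      rw [Set.indicator_of_notMem h1, Set.indicator_of_mem h2]
      simp [rad, hb]
  · have h1 : x ∉ cyl (N + 1) y0 := fun h2 => h (fun j hj => h2 j (by omega))
    have h2 : x ∉ cyl (N + 1) (fun j => decide (j = N)) := fun h3 => h (fun j hj => by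
      rw [h3 j (by omega)]
      simp [y0]; omega)
    rw [Set.indicator_of_notMem h, Set.indicator_of_notMem h1, Set.indicator_of_notMem h2, sub_zero]

theorem measurableSet_filt (n : ℕ) (x : G) : MeasurableSet[filt n] (cyl n x) :=
  MeasurableSpace.measurableSet_generateFrom ⟨x, rfl⟩

theorem stronglyMeasurable_gN (N k : ℕ) (h : N < k) : StronglyMeasurable[filt k] (gN N) := by
  rw [gN_eq]
  have h1 : ∀ x, MeasurableSet[filt k] (cyl (N + 1) x) := fun x =>
    filt.mono (show N + 1 ≤ k by omega) _ (measurableSet_filt (N + 1) x)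
  exact (stronglyMeasurable_const.indicator (h1 _)).sub (stronglyMeasurable_const.indicator (h1 _))

theorem flip_inv (i k : ℕ) (hik : i ≤ k) (s : Set G) (hs : MeasurableSet[filt i] s) :
    flip k ⁻¹' s = s := by
  refine MeasurableSpace.generateFrom_induction {s | ∃ x, s = cyl i x}
    (fun s _ => flip k ⁻¹' s = s) ?_ ?_ ?_ ?_ s hs
  · rintro t ⟨x, rfl⟩ _
    exact preimage_cyl i k hik x
  · exact Set.preimage_empty
  · intro t _ ht
    rw [Set.preimage_compl, ht]
  · intro t _ ht
    rw [Set.preimage_iUnion]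
    exact Set.iUnion_congr ht

theorem martingale_fN (N : ℕ) : Martingale (fN N) filt P := by
  constructor
  · intro k
    unfold fN
    split_ifs with h
    · exact stronglyMeasurable_gN N k h
    · exact stronglyMeasurable_zero
  · intro i j hij
    by_cases hj : N < j
    · by_cases hi : N < i
      · have e1 : fN N j = fN N i := by simp [fN, hi, hj]
        rw [e1, condExp_of_stronglyMeasurable (filt.le i)]
        · unfold fN; rw [if_pos hi]; exact stronglyMeasurable_gN N i hi
        · unfold fN; rw [if_pos hi]; exact integrable_gN N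
      · have e1 : fN N j = gN N := by simp [fN, hj]
        have e2 : fN N i = 0 := by simp [fN, hi]
        rw [e1, e2]
        refine (ae_eq_condExp_of_forall_setIntegral_eq (filt.le i) (integrable_gN N) ?_ ?_ ?_).symm
        · intro s _ _
          exact integrableOn_zero
        · intro s hs _
          have := setIntegral_odd N s (filt.le i s hs) (flip_inv i N (by omega) s hs) (gN N)
            (measurable_gN N) (gN_flip N)
          rw [this]
          simp
        · exact aestronglyMeasurable_zero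
    · have hi : ¬ N < i := by omega
      have e1 : fN N j = 0 := by simp [fN, hj]
      have e2 : fN N i = 0 := by simp [fN, hi]
      rw [e1, e2, condExp_zero]

theorem fourierCoeff_eq (N i : ℕ) : fourierCoeff (fN N) i = ∫ x, gN N x * walsh i x ∂P := by
  unfold fourierCoeff
  refine Tendsto.limUnder_eq ?_
  refine tendsto_const_nhds.congr' ?_
  filter_upwards [eventually_gt_atTop N] with k hk
  simp [fN, hk]

theorem fourierCoeff_low (N i : ℕ) (hi : i < 2 ^ N) : fourierCoeff (fN N) i = 0 := by
  rw [fourierCoeff_eq]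
  have h := setIntegral_odd N Set.univ MeasurableSet.univ Set.preimage_univ
    (fun x => gN N x * walsh i x) ((measurable_gN N).mul (measurable_walsh i)) (fun x => by
      rw [gN_flip, walsh_flip, Nat.testBit_lt_two_pow hi]
      simp)
  simpa using h

theorem fourierCoeff_high (N i : ℕ) (hi : i < 2 ^ N) :
    fourierCoeff (fN N) (2 ^ N + i) = (2⁻¹ : ℝ) ^ N := by
  rw [fourierCoeff_eq]
  have h1 : ∀ x, gN N x * walsh (2 ^ N + i) x = (cyl N y0).indicator (fun _ => (1 : ℝ)) x := by
    intro x
    unfold gN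
    by_cases h : x ∈ cyl N y0
    · rw [Set.indicator_of_mem h, Set.indicator_of_mem h]
      have h2 := walsh_block N 1 i x hi
      rw [mul_one] at h2
      rw [h2, walsh_two_pow, walsh_low N i x h hi, mul_one, rad_mul_self]
    · rw [Set.indicator_of_notMem h, Set.indicator_of_notMem h, zero_mul]
  simp only [h1]
  rw [integral_indicator (measurableSet_cyl N y0)]
  simp only [integral_const, smul_eq_mul, mul_one]
  rw [measureReal_restrict_apply_univ, measureReal_def, P_cyl, ENNReal.toReal_pow,
    ENNReal.toReal_inv]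
  simp

theorem partialSum_eq (N k : ℕ) (hk : k ≤ 2 ^ (N + 1)) (x : G) :
    partialSum (fN N) k x = (2⁻¹ : ℝ) ^ N * rad N x * D (k - 2 ^ N) x := by
  unfold partialSum
  rcases le_total k (2 ^ N) with h | h
  · rw [show k - 2 ^ N = 0 by omega]
    simp only [D, range_zero, sum_empty, mul_zero]
    refine sum_eq_zero (fun i hi => ?_)
    rw [mem_range] at hi
    rw [fourierCoeff_low N i (by omega), zero_mul]
  · obtain ⟨l, rfl⟩ := Nat.exists_eq_add_of_le h
    rw [pow_succ] at hk
    rw [sum_range_add, show 2 ^ N + l - 2 ^ N = l by omega]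
    have h1 : ∑ i ∈ range (2 ^ N), fourierCoeff (fN N) i * walsh i x = 0 := by
      refine sum_eq_zero (fun i hi => ?_)
      rw [mem_range] at hi
      rw [fourierCoeff_low N i hi, zero_mul]
    rw [h1, zero_add, D, mul_sum]
    refine sum_congr rfl (fun i hi => ?_)
    rw [mem_range] at hi
    have h2 := walsh_block N 1 i x (by omega)
    rw [mul_one] at h2
    rw [fourierCoeff_high N i (by omega), h2, walsh_two_pow]
    ring

theorem cesaroMean_eq (α : ℝ) (N : ℕ) (x : G) :
    cesaroMean α (2 ^ (N + 1)) (fN N) x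
      = 1 / cesaroNumber α (2 ^ (N + 1)) * ((2⁻¹ : ℝ) ^ N * rad N x * K (1 - α) N x) := by
  unfold cesaroMean
  congr 1
  have h1 : ∀ k ∈ Icc 1 (2 ^ (N + 1)), cesaroNumber (α - 1) (2 ^ (N + 1) - k) * partialSum (fN N) k x
      = ((2⁻¹ : ℝ) ^ N * rad N x) *
        (cesaroNumber (-(1 - α)) (2 ^ (N + 1) - k) * D (k - 2 ^ N) x) := by
    intro k hk
    rw [mem_Icc] at hk
    rw [partialSum_eq N k hk.2 x, show -(1 - α) = α - 1 by ring]
    ring
  rw [sum_congr rfl h1, ← mul_sum]
  congr 1
  unfold K
  have h2 : Icc 1 (2 ^ (N + 1)) = Icc 1 (2 ^ N) ∪ Icc (2 ^ N + 1) (2 ^ (N + 1)) := by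
    ext k
    simp only [mem_union, mem_Icc]
    have : 2 ^ (N + 1) = 2 ^ N * 2 := pow_succ 2 N
    have : 0 < 2 ^ N := by positivity
    omega
  have h3 : Disjoint (Icc 1 (2 ^ N)) (Icc (2 ^ N + 1) (2 ^ (N + 1))) := by
    rw [Finset.disjoint_left]
    intro k hk hk'
    rw [mem_Icc] at hk hk'
    omega
  rw [h2, sum_union h3]
  have h4 : ∑ k ∈ Icc 1 (2 ^ N), cesaroNumber (-(1 - α)) (2 ^ (N + 1) - k) * D (k - 2 ^ N) x = 0 := by
    refine sum_eq_zero (fun k hk => ?_)
    rw [mem_Icc] at hk
    rw [show k - 2 ^ N = 0 by omega]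
    simp [D]
  rw [h4, zero_add]
  refine sum_nbij' (fun k => k - 2 ^ N) (fun k => k + 2 ^ N) ?_ ?_ ?_ ?_ ?_
  · intro k hk
    rw [mem_Icc] at hk ⊢
    have : 2 ^ (N + 1) = 2 ^ N * 2 := pow_succ 2 N
    omega
  · intro k hk
    rw [mem_Icc] at hk ⊢
    have : 2 ^ (N + 1) = 2 ^ N * 2 := pow_succ 2 N
    omega
  · intro k hk
    rw [mem_Icc] at hk
    omega
  · intro k hk
    omega
  · intro k hk
    rw [mem_Icc] at hk
    have : 2 ^ (N + 1) = 2 ^ N * 2 := pow_succ 2 N
    rw [show 2 ^ (N + 1) - k = 2 ^ N - (k - 2 ^ N) by omega]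

theorem hardyNorm_fN (N : ℕ) (p : ℝ) (hp : 0 < p) :
    hardyNorm p (fN N) = ((2⁻¹ : ℝ≥0∞) ^ N) ^ (1 / p) := by
  unfold hardyNorm
  congr 1
  have h1 : ∀ x, (⨆ n, ‖fN N n x‖ₑ) ^ p = (cyl N y0).indicator (fun _ => (1 : ℝ≥0∞)) x := by
    intro x
    have h2 : (⨆ n, ‖fN N n x‖ₑ) = ‖gN N x‖ₑ := by
      apply le_antisymm
      · refine iSup_le (fun n => ?_)
        unfold fN
        split_ifs
        · exact le_rfl
        · simp
      · refine le_iSup_of_le (N + 1) ?_
        simp [fN]
    rw [h2]
    unfold gN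
    by_cases h : x ∈ cyl N y0
    · rw [Set.indicator_of_mem h, Set.indicator_of_mem h, Real.enorm_eq_ofReal_abs, abs_rad]
      simp
    · rw [Set.indicator_of_notMem h, Set.indicator_of_notMem h]
      simp [hp]
  simp only [h1]
  rw [lintegral_indicator (measurableSet_cyl N y0)]
  simp [P_cyl]

end Pool.Agent.H50.Walsh
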