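import Mathlib
import Pool.Agent.H50.WalshD

set_option autoImplicit false

open MeasureTheory Filter Finset
open scoped ENNReal

namespace Pool.Agent.H50.Walsh

/-- lower bound of the constants -/
theorem term_lower (α : ℝ) (h0 : 0 < α) (h1 : α < 1) (s : ℕ) :
    (1 / 4 : ℝ) * ((1 - α) / (2 + (1 - α))) * (α * 2 ^ (-(1 - α)) / 2) ^ (1 / (1 + α))
      ≤ (2⁻¹ : ℝ) ^ (s + 2) * ((1 - α) / (2 + (1 - α))) * (bq (1 - α) s 0) ^ (1 / (1 + α)) := by
  set β := 1 - α with hβ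
  have hβ0 : 0 < β := by linarith
  have hβ1 : β < 1 := by linarith
  have hp : 0 < 1 / (1 + α) := by positivity
  have hb := bq_lower β hβ0 hβ1 s
  have e1 : (1 - β) * ((2 : ℝ) ^ (s + 1)) ^ (-β) * ((2 : ℝ) ^ (2 * s) / 2)
      = (α * 2 ^ (-β) / 2) * ((2 : ℝ) ^ (s : ℝ)) ^ (1 + α) := by
    have h2 : (1 - β) = α := by rw [hβ]; ring
    rw [h2, pow_succ, Real.mul_rpow (by positivity) (by norm_num), ← Real.rpow_natCast 2 s,
      ← Real.rpow_mul (by norm_num), ← Real.rpow_mul (by norm_num),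
      ← Real.rpow_natCast 2 (2 * s)]
    have h3 : (2 : ℝ) ^ ((s : ℝ) * -β) * (2 : ℝ) ^ (((2 * s : ℕ) : ℝ)) = 2 ^ ((s : ℝ) * (1 + α)) := by
      rw [← Real.rpow_add (by norm_num)]
      congr 1
      push_cast
      rw [hβ]; ring
    rw [← h3]; ring
  rw [e1] at hb
  have hc : 0 < α * (2 : ℝ) ^ (-β) / 2 := by positivity
  have h4 : (α * (2 : ℝ) ^ (-β) / 2) ^ (1 / (1 + α)) * (2 : ℝ) ^ s ≤ (bq β s 0) ^ (1 / (1 + α)) := by
    have h5 := Real.rpow_le_rpow (by positivity) hb hp.le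
    rw [Real.mul_rpow hc.le (by positivity), ← Real.rpow_mul (by positivity),
      mul_one_div_cancel (by positivity), Real.rpow_one, Real.rpow_natCast] at h5
    exact h5
  have h6 : (0 : ℝ) < β / (2 + β) := by positivity
  calc (1 / 4 : ℝ) * (β / (2 + β)) * (α * 2 ^ (-β) / 2) ^ (1 / (1 + α))
      = (2⁻¹ : ℝ) ^ (s + 2) * (β / (2 + β)) *
        ((α * (2 : ℝ) ^ (-β) / 2) ^ (1 / (1 + α)) * (2 : ℝ) ^ s) := by
        have : (2⁻¹ : ℝ) ^ (s + 2) * (2 : ℝ) ^ s = 1 / 4 := by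
          rw [pow_add, mul_comm, ← mul_assoc, ← mul_pow]
          norm_num
        rw [← this]; ring
    _ ≤ _ := by gcongr

theorem aN_lower (α : ℝ) (h0 : 0 < α) (h1 : α < 1) (N : ℕ) :
    ((1 + α) * 2 ^ α) ^ (-(1 / (1 + α))) * (2⁻¹ : ℝ) ^ N ≤
      (1 / cesaroNumber α (2 ^ (N + 1)) * (2⁻¹ : ℝ) ^ N) ^ (1 / (1 + α)) := by
  have hA0 := cN_pos α (by linarith) (2 ^ (N + 1))
  have hA : cesaroNumber α (2 ^ (N + 1)) ≤ (1 + α) * ((2 : ℝ) ^ (N + 1)) ^ α := by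
    have h := cN_upper α h0 h1 (2 ^ (N + 1) - 1)
    have h2 : 2 ^ (N + 1) - 1 + 1 = 2 ^ (N + 1) := by
      have : 0 < 2 ^ (N + 1) := by positivity
      omega
    rw [h2] at h
    have h3 : ((2 ^ (N + 1) - 1 : ℕ) : ℝ) + 1 = (2 : ℝ) ^ (N + 1) := by
      have : ((2 ^ (N + 1) - 1 + 1 : ℕ) : ℝ) = ((2 ^ (N + 1) : ℕ) : ℝ) := by rw [h2]
      push_cast at this ⊢
      exact this
    rw [h3] at h
    exact h
  have hp : 0 < 1 / (1 + α) := by positivity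
  have e1 : (1 + α) * ((2 : ℝ) ^ (N + 1)) ^ α = ((1 + α) * 2 ^ α) * (2 : ℝ) ^ ((N : ℝ) * α) := by
    rw [pow_succ, Real.mul_rpow (by positivity) (by norm_num), ← Real.rpow_natCast 2 N,
      ← Real.rpow_mul (by norm_num)]
    ring
  rw [e1] at hA
  have hc : 0 < (1 + α) * (2 : ℝ) ^ α := by positivity
  set c := (1 + α) * (2 : ℝ) ^ α with hcdef
  clear_value c
  have h2 : c⁻¹ * (2 : ℝ) ^ (-((N : ℝ) * (1 + α))) ≤ 1 / cesaroNumber α (2 ^ (N + 1)) * (2⁻¹ : ℝ) ^ N := by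
    have h3 : 1 / (c * (2 : ℝ) ^ ((N : ℝ) * α)) ≤ 1 / cesaroNumber α (2 ^ (N + 1)) :=
      one_div_le_one_div_of_le hA0 hA
    calc c⁻¹ * (2 : ℝ) ^ (-((N : ℝ) * (1 + α)))
        = 1 / (c * (2 : ℝ) ^ ((N : ℝ) * α)) * (2⁻¹ : ℝ) ^ N := by
          have : (2 : ℝ) ^ (-((N : ℝ) * (1 + α))) = ((2 : ℝ) ^ ((N : ℝ) * α))⁻¹ * (2⁻¹ : ℝ) ^ N := by
            rw [inv_pow, ← Real.rpow_natCast 2 N, ← Real.rpow_neg (by norm_num),
              ← Real.rpow_neg (by norm_num), ← Real.rpow_add (by norm_num)]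
            congr 1
            ring
          rw [this, one_div, mul_inv]
          ring
      _ ≤ _ := by gcongr
  have h5 := Real.rpow_le_rpow (by positivity) h2 hp.le
  refine le_trans (le_of_eq ?_) h5
  rw [Real.mul_rpow (by positivity) (by positivity), ← Real.rpow_mul (by norm_num),
    Real.inv_rpow hc.le, Real.rpow_neg hc.le]
  congr 1
  rw [inv_pow, ← Real.rpow_natCast 2 N, ← Real.rpow_neg (by norm_num)]
  congr 1
  field_simp

theorem lintegral_lower (α : ℝ) (h0 : 0 < α) (h1 : α < 1) (N : ℕ) :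
    ENNReal.ofReal (((N - 1 : ℕ) : ℝ) *
      ((1 / 4 : ℝ) * ((1 - α) / (2 + (1 - α))) * (α * 2 ^ (-(1 - α)) / 2) ^ (1 / (1 + α))) *
      (((1 + α) * 2 ^ α) ^ (-(1 / (1 + α))) * (2⁻¹ : ℝ) ^ N))
    ≤ ∫⁻ x, ‖cesaroMean α (2 ^ (N + 1)) (fN N) x‖ₑ ^ (1 / (1 + α)) ∂P := by
  have hβ0 : 0 < 1 - α := by linarith
  have hβ1 : 1 - α < 1 := by linarith
  have hp : 0 < 1 / (1 + α) := by positivity
  have hp1 : 1 / (1 + α) ≤ 1 := by
    rw [div_le_one (by linarith)]; linarith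
  set p := 1 / (1 + α) with hpdef
  set c1 := (1 / 4 : ℝ) * ((1 - α) / (2 + (1 - α))) * (α * 2 ^ (-(1 - α)) / 2) ^ p with hc1
  have hc10 : 0 ≤ c1 := by
    have : 0 < 2 + (1 - α) := by linarith
    positivity
  set a := 1 / cesaroNumber α (2 ^ (N + 1)) * (2⁻¹ : ℝ) ^ N with ha
  have ha0 : 0 < a := by
    have := cN_pos α (by linarith) (2 ^ (N + 1))
    positivity
  have haN := aN_lower α h0 h1 N
  rw [← hpdef, ← ha] at haN
  -- on each B_s
  have hBs : ∀ s ∈ range (N - 1), ENNReal.ofReal (c1 * a ^ p)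
      ≤ ∫⁻ x in Bs s, ‖cesaroMean α (2 ^ (N + 1)) (fN N) x‖ₑ ^ p ∂P := by
    intro s hs
    rw [mem_range] at hs
    have hval : ∀ x ∈ Bs s, ‖cesaroMean α (2 ^ (N + 1)) (fN N) x‖ₑ ^ p
        = ENNReal.ofReal (a ^ p) * ‖F (1 - α) N x‖ₑ ^ p := by
      intro x hx
      obtain ⟨b1, b2, _⟩ := mem_Bs s x hx
      have hK := abs_K_eq (1 - α) N s (by omega) x b1 b2
      have habs : |cesaroMean α (2 ^ (N + 1)) (fN N) x| = a * |F (1 - α) N x| := by
        rw [cesaroMean_eq, abs_mul, abs_mul, abs_mul, abs_rad, hK, ha,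
          abs_of_pos (by have := cN_pos α (by linarith) (2 ^ (N + 1)); positivity :
            0 < 1 / cesaroNumber α (2 ^ (N + 1))),
          abs_of_pos (by positivity : (0 : ℝ) < (2⁻¹ : ℝ) ^ N)]
        ring
      rw [Real.enorm_eq_ofReal_abs, habs, ENNReal.ofReal_mul ha0.le,
        ENNReal.mul_rpow_of_nonneg _ _ hp.le, ENNReal.ofReal_rpow_of_pos ha0,
        ← Real.enorm_eq_ofReal_abs]
    rw [setLIntegral_congr_fun (show MeasurableSet (Bs s) from measurableSet_cyl _ _) hval, lintegral_const_mul' _ _ (by simp),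
      mul_comm c1, ENNReal.ofReal_mul (by positivity)]
    refine mul_le_mul_right ?_ _
    refine le_trans (ENNReal.ofReal_le_ofReal ?_) (lower_Bs (1 - α) p hβ0 hβ1 hp hp1 N s (by omega))
    exact term_lower α h0 h1 s
  calc ENNReal.ofReal (((N - 1 : ℕ) : ℝ) * c1 * (((1 + α) * 2 ^ α) ^ (-p) * (2⁻¹ : ℝ) ^ N))
      ≤ ENNReal.ofReal (((N - 1 : ℕ) : ℝ) * (c1 * a ^ p)) := by
        refine ENNReal.ofReal_le_ofReal ?_
        rw [mul_assoc]
        gcongr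
    _ = ∑ s ∈ range (N - 1), ENNReal.ofReal (c1 * a ^ p) := by
        rw [sum_const, card_range, nsmul_eq_mul, ENNReal.ofReal_mul (by positivity),
          ENNReal.ofReal_natCast]
    _ ≤ ∑ s ∈ range (N - 1), ∫⁻ x in Bs s, ‖cesaroMean α (2 ^ (N + 1)) (fN N) x‖ₑ ^ p ∂P :=
        sum_le_sum hBs
    _ = ∫⁻ x in ⋃ s ∈ range (N - 1), Bs s, ‖cesaroMean α (2 ^ (N + 1)) (fN N) x‖ₑ ^ p ∂P := by
        rw [lintegral_biUnion_finset]
        · intro s _ t _ hst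
          exact disjoint_Bs s t hst
        · intro s _
          exact measurableSet_cyl _ _
    _ ≤ ∫⁻ x, ‖cesaroMean α (2 ^ (N + 1)) (fN N) x‖ₑ ^ p ∂P := setLIntegral_le_lintegral _ _

theorem main (α : ℝ) (h0 : 0 < α) (h1 : α < 1) (C : NNReal) :
    ∃ (f : ℕ → G → ℝ) (n : ℕ), Martingale f filt P ∧ hardyNorm (1 / (1 + α)) f < ∞ ∧
      C * hardyNorm (1 / (1 + α)) f < lpNorm (1 / (1 + α)) (cesaroMean α (2 ^ n) f) := by
  have hp : 0 < 1 / (1 + α) := by positivity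
  set p := 1 / (1 + α) with hpdef
  set c1 := (1 / 4 : ℝ) * ((1 - α) / (2 + (1 - α))) * (α * 2 ^ (-(1 - α)) / 2) ^ p with hc1
  have hc10 : 0 < c1 := by
    have : 0 < 2 + (1 - α) := by linarith
    have : 0 < 1 - α := by linarith
    positivity
  set c2 := ((1 + α) * 2 ^ α) ^ (-p) with hc2
  have hc20 : 0 < c2 := by positivity
  obtain ⟨M, hM⟩ := exists_nat_gt ((C : ℝ) ^ p / (c1 * c2))
  set N := M + 1 with hN
  have hM' : (C : ℝ) ^ p < (M : ℝ) * c1 * c2 := by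
    rw [div_lt_iff₀ (by positivity)] at hM
    linarith
  refine ⟨fN N, N + 1, martingale_fN N, ?_, ?_⟩
  · rw [hardyNorm_fN N p hp]
    exact ENNReal.rpow_lt_top_of_nonneg (by positivity) (by simp)
  · rw [hardyNorm_fN N p hp]
    have hlow := lintegral_lower α h0 h1 N
    rw [← hpdef, ← hc1, ← hc2, show N - 1 = M by omega] at hlow
    have e1 : (C : ℝ≥0∞) * ((2⁻¹ : ℝ≥0∞) ^ N) ^ (1 / p)
        = (ENNReal.ofReal ((C : ℝ) ^ p * (2⁻¹ : ℝ) ^ N)) ^ (1 / p) := by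
      have e2 : ENNReal.ofReal ((C : ℝ) ^ p * (2⁻¹ : ℝ) ^ N) = (C : ℝ≥0∞) ^ p * (2⁻¹ : ℝ≥0∞) ^ N := by
        rw [ENNReal.ofReal_mul (by positivity), ← ENNReal.ofReal_rpow_of_nonneg (NNReal.coe_nonneg C) hp.le,
          ENNReal.ofReal_coe_nnreal, ENNReal.ofReal_pow (by norm_num),
          ENNReal.ofReal_inv_of_pos (by norm_num)]
        norm_num
      rw [e2, ENNReal.mul_rpow_of_nonneg _ _ (by positivity), ← ENNReal.rpow_mul,
        mul_one_div_cancel hp.ne', ENNReal.rpow_one]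
    rw [e1]
    unfold lpNorm
    refine ENNReal.rpow_lt_rpow ?_ (by positivity)
    refine lt_of_lt_of_le ?_ hlow
    have h2N : (0 : ℝ) < (2⁻¹ : ℝ) ^ N := by positivity
    have hM0 : (0 : ℝ) < M := lt_of_le_of_lt (by positivity) hM
    rw [ENNReal.ofReal_lt_ofReal_iff (by positivity)]
    calc (C : ℝ) ^ p * (2⁻¹ : ℝ) ^ N < ((M : ℝ) * c1 * c2) * (2⁻¹ : ℝ) ^ N :=
          mul_lt_mul_of_pos_right hM' h2N
      _ = (M : ℝ) * c1 * (c2 * (2⁻¹ : ℝ) ^ N) := by ring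

end Pool.Agent.H50.Walsh
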